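import Pool.Agent.Lib.MP_06b9d2_nt.ME.Defs
import Pool.Agent.Lib.MP_06b9d2_nt.MD.HeckeQ

/-!
Module ME-HeckeN (MP_06b9d2_nt, Maeda, all Hecke operators). The Hecke operator `T_n` on `q`-expansions.

Adapt `hecke_q` of `MD/HeckeQ.lean` (`n = 2`; the private lemma `hs` there gives the `HasSum` of the values). With `c_m` the coefficients of `f`, `a ∣ n`, `d = n / a`, `q = exp (2 π i τ)`: `f ((a τ + b) / d) = ∑_m c_m ζ ^ (b m) w ^ m`, `w = exp (2 π i a τ / d)`, `ζ = exp (2 π i / d)`; the sum over `b < d` of `ζ ^ (b m)` is `d` if `d ∣ m` and `0` otherwise (`IsPrimitiveRoot.geom_sum_eq_zero`, `Complex.isPrimitiveRoot_exp`), and `w ^ (d m') = q ^ (a m')`. So `∑_b f ((a τ + b) / d) = ∑_{m'} d c_{d m'} q ^ (a m')` and the term of `a` in `T f` is `n ^ (k - 1) d ^ (-k) d ∑_{m'} c_{d m'} q ^ (a m') = a ^ (k - 1) ∑_{m'} c_{d m'} q ^ (a m') = ∑_M (if a ∣ M then a ^ (k - 1) c_{(n / a) (M / a)} else 0) q ^ M`. Then `ModularFormClass.qExpansion_coeff_unique`.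 The divisors `a` of `n` with `a ∣ M` are the divisors of `gcd M n` (`M > 0`), `(n / a) (M / a) = M n / a ^ 2`.
-/

namespace Pool.Agent.Lib.MP_06b9d2_nt.ME

open UpperHalfPlane
open scoped MatrixGroups ModularForm

private theorem hs (k : ℤ) (f : CuspForm 𝒮ℒ k) (z : ℂ) (hz : 0 < z.im) :
    HasSum (fun m ↦ (qExpansion 1 f).coeff m * Complex.exp (2 * Real.pi * Complex.I * z) ^ m)
      (f (ofComplex z)) := by
  have h := ModularForm.hasSum_qExpansion (h := 1) f one_pos one_mem_strictPeriods_SL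
    (ofComplex z)
  rw [ofComplex_apply_of_im_pos hz] at h ⊢
  have e : Function.Periodic.qParam 1 ((⟨z, hz⟩ : ℍ) : ℂ) =
      Complex.exp (2 * Real.pi * Complex.I * z) := by
    unfold Function.Periodic.qParam
    congr 1
    push_cast
    rw [div_one]
  rw [e] at h
  exact h

private theorem im_ab (τ : ℍ) (a d b : ℕ) (ha : 0 < a) (hd : 0 < d) :
    0 < (((a : ℂ) * (τ : ℂ) + (b : ℂ)) / (d : ℂ)).im := by
  have hτ := τ.im_pos
  have h : (((a : ℂ) * (τ : ℂ) + (b : ℂ)) / (d : ℂ)).im = a * τ.im / d := by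
    rw [Complex.div_natCast_im]
    simp
  rw [h]
  have : (0 : ℝ) < a := by exact_mod_cast ha
  have : (0 : ℝ) < d := by exact_mod_cast hd
  positivity

/-- the term of a pair `(a, d)` -/
private theorem term (k : ℤ) (f : CuspForm 𝒮ℒ k) (τ : ℍ) (a d : ℕ) (ha : 0 < a) (hd : 0 < d) :
    HasSum (fun M : ℕ => (if a ∣ M then (d : ℂ) * (qExpansion 1 f).coeff (d * (M / a)) else 0) *
        Function.Periodic.qParam 1 (τ : ℂ) ^ M)
      (∑ b ∈ Finset.range d, f (ofComplex (((a : ℂ) * (τ : ℂ) + (b : ℂ)) / (d : ℂ)))) := by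
  set c : ℕ → ℂ := fun m => (qExpansion 1 f).coeff m with hc
  have hd0 : (d : ℂ) ≠ 0 := by exact_mod_cast hd.ne'
  set w : ℂ := Complex.exp (2 * Real.pi * Complex.I * ((a : ℂ) * (τ : ℂ) / (d : ℂ))) with hw
  set ζ : ℂ := Complex.exp (2 * Real.pi * Complex.I / d) with hζ
  have hprim : IsPrimitiveRoot ζ d := Complex.isPrimitiveRoot_exp d hd.ne'
  have hw1 : w ^ d = Function.Periodic.qParam 1 (τ : ℂ) ^ a := by
    rw [hw, ← Complex.exp_nat_mul]
    unfold Function.Periodic.qParam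
    rw [← Complex.exp_nat_mul]
    congr 1
    push_cast
    field_simp
  have hwb : ∀ b : ℕ, Complex.exp (2 * Real.pi * Complex.I *
      (((a : ℂ) * (τ : ℂ) + (b : ℂ)) / (d : ℂ))) = ζ ^ b * w := by
    intro b
    rw [hw, hζ, ← Complex.exp_nat_mul, ← Complex.exp_add]
    congr 1
    field_simp
    ring
  have h1 : HasSum (fun m : ℕ => ∑ b ∈ Finset.range d, c m * (ζ ^ b * w) ^ m)
      (∑ b ∈ Finset.range d, f (ofComplex (((a : ℂ) * (τ : ℂ) + (b : ℂ)) / (d : ℂ)))) := by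
    refine hasSum_sum fun b _ => ?_
    have := hs k f _ (im_ab τ a d b ha hd)
    rwa [hwb b] at this
  -- only the multiples of `d` remain
  have hinj : Function.Injective (fun j : ℕ => d * j) := fun x y hxy =>
    Nat.eq_of_mul_eq_mul_left hd hxy
  have h2 : HasSum (fun j : ℕ => (d : ℂ) * c (d * j) * (Function.Periodic.qParam 1 (τ : ℂ) ^ a) ^ j)
      (∑ b ∈ Finset.range d, f (ofComplex (((a : ℂ) * (τ : ℂ) + (b : ℂ)) / (d : ℂ)))) := by
    have key := (hinj.hasSum_iff (f := fun m : ℕ => ∑ b ∈ Finset.range d, c m * (ζ ^ b * w) ^ m)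
      (a := ∑ b ∈ Finset.range d, f (ofComplex (((a : ℂ) * (τ : ℂ) + (b : ℂ)) / (d : ℂ)))) ?_).2 h1
    · refine key.congr_fun ?_ |> id
      intro j
      simp only [Function.comp_apply]
      have : ∀ b ∈ Finset.range d, c (d * j) * (ζ ^ b * w) ^ (d * j) =
          c (d * j) * (Function.Periodic.qParam 1 (τ : ℂ) ^ a) ^ j := by
        intro b _
        rw [mul_pow, ← pow_mul, show b * (d * j) = d * (b * j) by ring, pow_mul ζ d,
          hprim.pow_eq_one, one_pow, one_mul, pow_mul w d j, hw1]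
      rw [Finset.sum_congr rfl this, Finset.sum_const, Finset.card_range, nsmul_eq_mul]
      ring
    · intro m hm
      have hnd : ¬ d ∣ m := by
        rintro ⟨y, hy⟩
        exact hm ⟨y, hy.symm⟩
      have e : ∀ b ∈ Finset.range d, c m * (ζ ^ b * w) ^ m = (c m * w ^ m) * (ζ ^ m) ^ b := by
        intro b _
        rw [mul_pow, ← pow_mul, ← pow_mul, mul_comm b m]
        ring
      rw [Finset.sum_congr rfl e, ← Finset.mul_sum]
      have hz : ζ ^ m ≠ 1 := fun h => hnd ((hprim.pow_eq_one_iff_dvd m).1 h)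
      have h3 : (∑ b ∈ Finset.range d, (ζ ^ m) ^ b) * (ζ ^ m - 1) = 0 := by
        rw [geom_sum_mul, ← pow_mul, mul_comm m d, pow_mul, hprim.pow_eq_one, one_pow, sub_self]
      rcases mul_eq_zero.1 h3 with h | h
      · rw [h, mul_zero]
      · exact absurd (sub_eq_zero.1 h) hz
  -- index `M = a j`
  have hinj2 : Function.Injective (fun j : ℕ => a * j) := fun x y hxy =>
    Nat.eq_of_mul_eq_mul_left ha hxy
  refine (hinj2.hasSum_iff ?_).1 ?_
  · intro M hM
    have : ¬ a ∣ M := by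
      rintro ⟨y, hy⟩
      exact hM ⟨y, hy.symm⟩
    rw [if_neg this, zero_mul]
  · refine h2.congr_fun ?_ |> id
    intro j
    simp only [Function.comp_apply]
    rw [if_pos (Dvd.intro _ rfl), Nat.mul_div_cancel_left _ ha, pow_mul]

theorem hecke_qn {k : ℤ} {n : ℕ} [NeZero n] {T : CuspForm 𝒮ℒ k →ₗ[ℂ] CuspForm 𝒮ℒ k}
    (hT : IsHecke k n T) (f : CuspForm 𝒮ℒ k) (M : ℕ) (hM : 0 < M) :
    (qExpansion 1 (T f)).coeff M =
      ∑ d ∈ (Nat.gcd M n).divisors, (d : ℂ) ^ (k - 1) * (qExpansion 1 f).coeff (M * n / d ^ 2) := by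
  have hn : n ≠ 0 := NeZero.ne n
  have hnC : (n : ℂ) ≠ 0 := by exact_mod_cast hn
  set cf : ℕ → ℂ := fun M => ∑ a ∈ n.divisors,
    ((n : ℂ) ^ (k - 1) * ((n / a : ℕ) : ℂ) ^ (-k)) *
      (if a ∣ M then ((n / a : ℕ) : ℂ) * (qExpansion 1 f).coeff ((n / a) * (M / a)) else 0) with hcf
  have h1 : cf M = (qExpansion 1 (T f)).coeff M := by
    refine ModularFormClass.qExpansion_coeff_unique (h := 1) (f := T f) (c := cf)
      one_pos one_mem_strictPeriods_SL ?_ M
    intro τ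
    rw [hT f τ]
    have : HasSum (fun M : ℕ => ∑ a ∈ n.divisors, ((n : ℂ) ^ (k - 1) * ((n / a : ℕ) : ℂ) ^ (-k)) *
        ((if a ∣ M then ((n / a : ℕ) : ℂ) * (qExpansion 1 f).coeff ((n / a) * (M / a)) else 0) *
          Function.Periodic.qParam 1 (τ : ℂ) ^ M))
      (∑ a ∈ n.divisors, ((n : ℂ) ^ (k - 1) * ((n / a : ℕ) : ℂ) ^ (-k)) *
        ∑ b ∈ Finset.range (n / a),
          f (ofComplex (((a : ℂ) * (τ : ℂ) + (b : ℂ)) / ((n / a : ℕ) : ℂ)))) := by
      refine hasSum_sum fun a ha => ?_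
      have ha' := Nat.mem_divisors.1 ha
      have ha0 : 0 < a := Nat.pos_of_dvd_of_pos ha'.1 (Nat.pos_of_ne_zero hn)
      have hd0 : 0 < n / a := Nat.div_pos (Nat.le_of_dvd (Nat.pos_of_ne_zero hn) ha'.1) ha0
      exact (term k f τ a (n / a) ha0 hd0).mul_left _
    have e2 : (∑ a ∈ n.divisors, ∑ b ∈ Finset.range (n / a),
        ((n : ℂ) ^ (k - 1) * ((n / a : ℕ) : ℂ) ^ (-k)) *
        f (ofComplex (((a : ℂ) * (τ : ℂ) + (b : ℂ)) / ((n / a : ℕ) : ℂ)))) =
        (∑ a ∈ n.divisors, ((n : ℂ) ^ (k - 1) * ((n / a : ℕ) : ℂ) ^ (-k)) *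
        ∑ b ∈ Finset.range (n / a),
          f (ofComplex (((a : ℂ) * (τ : ℂ) + (b : ℂ)) / ((n / a : ℕ) : ℂ)))) :=
      Finset.sum_congr rfl fun a _ => (Finset.mul_sum _ _ _).symm
    rw [e2]
    refine this.congr_fun ?_ |> id
    intro M
    rw [hcf]
    simp only [smul_eq_mul]
    rw [Finset.sum_mul]
    exact Finset.sum_congr rfl fun a _ => by ring
  rw [← h1, hcf]
  simp only
  have hsub : (Nat.gcd M n).divisors ⊆ n.divisors := fun d hd => by
    rw [Nat.mem_divisors] at hd ⊢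
    exact ⟨hd.1.trans (Nat.gcd_dvd_right _ _), hn⟩
  rw [← Finset.sum_subset hsub]
  · refine Finset.sum_congr rfl fun a ha => ?_
    rw [Nat.mem_divisors] at ha
    have h1 : a ∣ M := ha.1.trans (Nat.gcd_dvd_left _ _)
    have h2 : a ∣ n := ha.1.trans (Nat.gcd_dvd_right _ _)
    obtain ⟨x, hx⟩ := h1
    obtain ⟨y, hy⟩ := h2
    have ha0 : 0 < a := Nat.pos_of_ne_zero fun h => hn (by rw [hy, h, zero_mul])
    have hy0 : y ≠ 0 := fun h => hn (by rw [hy, h, mul_zero])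
    have hyC : (y : ℂ) ≠ 0 := by exact_mod_cast hy0
    have haC : (a : ℂ) ≠ 0 := by exact_mod_cast ha0.ne'
    rw [if_pos ⟨x, hx⟩]
    have e1 : n / a = y := by rw [hy, Nat.mul_div_cancel_left _ ha0]
    have e2 : M / a = x := by rw [hx, Nat.mul_div_cancel_left _ ha0]
    have e3 : M * n / a ^ 2 = y * x := by
      rw [hx, hy, show a * x * (a * y) = a ^ 2 * (y * x) by ring,
        Nat.mul_div_cancel_left _ (pow_pos ha0 2)]
    rw [e1, e2, e3, hy]
    push_cast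
    rw [← mul_assoc]
    congr 1
    rw [mul_zpow, mul_assoc, mul_assoc, ← zpow_add_one₀ hyC, ← zpow_add₀ hyC,
      show k - 1 + (-k + 1) = 0 by ring, zpow_zero, mul_one]
  · intro a ha ha2
    rw [Nat.mem_divisors] at ha
    have : ¬ a ∣ M := fun h => ha2 (by
      rw [Nat.mem_divisors]
      exact ⟨Nat.dvd_gcd h ha.1, Nat.gcd_ne_zero_left hM.ne'⟩)
    rw [if_neg this, mul_zero]

end Pool.Agent.Lib.MP_06b9d2_nt.ME
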