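import Pool.Agent.Lib.MP_06b9d2_nt.ME.MatN
import Pool.Agent.Lib.MP_06b9d2_nt.MD.Vol

/-!
Module ME-UnfN (MP_06b9d2_nt, Maeda, all Hecke operators). Unfolding.

Adapt `MD/Unf.lean` (`n = 2`, with `Fin 3` in the place of `Rp n` and `3` in the place of `Fintype.card (Rp n)`).
-/

namespace Pool.Agent.Lib.MP_06b9d2_nt.ME

open UpperHalfPlane MeasureTheory
open scoped MatrixGroups ModularForm ENNReal

/-- the bijection of `dl_bij`, the index `j` first -/
noncomputable def UnfN_e (n : ℕ) [NeZero n] : Rp n × SL(2, ℤ) ≃ Mn n :=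
  (Equiv.prodComm _ _).trans (Equiv.ofBijective _ (dl_bij n))

theorem UnfN_e_apply (n : ℕ) [NeZero n] (j : Rp n) (γ : SL(2, ℤ)) : UnfN_e n (j, γ) = γ • dl n j := rfl

theorem UnfN_gl (n : ℕ) [NeZero n] (j : Rp n) (γ : SL(2, ℤ)) (z : ℍ) :
    gl n (γ • dl n j) • z = γ • (gl n (dl n j) • z) := by
  rw [gl_smul, mul_smul]
  rfl

theorem wt_gl {n : ℕ} [NeZero n] (z : ℍ) : ∑' A : Mn n, wt (gl n A • z) = (Fintype.card (Rp n) : ℝ≥0∞) := by
  rw [← (UnfN_e n).tsum_eq (fun A : Mn n => wt (gl n A • z))]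
  have h1 : ∀ p : Rp n × SL(2, ℤ), wt (gl n (UnfN_e n p) • z) = wt (p.2 • (gl n (dl n p.1) • z)) := by
    rintro ⟨j, γ⟩
    rw [UnfN_e_apply, UnfN_gl]
  rw [tsum_congr h1,
    ENNReal.tsum_prod (f := fun (j : Rp n) (γ : SL(2, ℤ)) => wt (γ • (gl n (dl n j) • z)))]
  simp only [wt_sum, tsum_fintype, Finset.sum_const, Finset.card_univ,
    nsmul_eq_mul, mul_one]

theorem UnfN_meas (n : ℕ) [NeZero n] (A : Mn n) : Measurable (fun z : ℍ => wt (gl n A • z)) :=
  wt_meas.comp (continuous_const_smul (gl n A)).measurable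

theorem Unf_wt_ne_top (z : ℍ) : wt z ≠ ∞ := ne_top_of_le_ne_top ENNReal.one_ne_top (wt_le z)

theorem Unf_toReal_le (z : ℍ) : (wt z).toReal ≤ 1 := by
  have h1 := ENNReal.toReal_mono ENNReal.one_ne_top (wt_le z)
  rwa [ENNReal.toReal_one] at h1

instance UnfN_countable (n : ℕ) : Countable (Mn n) := by
  have : Countable (Matrix (Fin 2) (Fin 2) ℤ) := inferInstanceAs (Countable (Fin 2 → Fin 2 → ℤ))
  exact inferInstanceAs (Countable {A : Matrix (Fin 2) (Fin 2) ℤ // A.det = n})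

theorem UnfN_meas2 (n : ℕ) [NeZero n] (A : Mn n) : Measurable (fun z : ℍ => wt z * wt (gl n A • z)) :=
  wt_meas.mul (UnfN_meas n A)

theorem Unf_hasSum_one (w : ℍ) : HasSum (fun γ : SL(2, ℤ) => (wt (γ • w)).toReal) 1 := by
  have h1 : ∑' γ : SL(2, ℤ), wt (γ • w) ≠ ∞ := by
    rw [wt_sum]
    exact ENNReal.one_ne_top
  have h2 := ENNReal.hasSum_toReal h1
  rwa [← ENNReal.tsum_toReal_eq (fun γ => Unf_wt_ne_top _), wt_sum, ENNReal.toReal_one] at h2

theorem UnfN_summable_wt (n : ℕ) [NeZero n] (z : ℍ) : Summable (fun A : Mn n => (wt (gl n A • z)).toReal) := by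
  refine ENNReal.summable_toReal ?_
  rw [wt_gl]
  norm_num

theorem UnfN_tsum_lint (n : ℕ) [NeZero n] : ∑' A : Mn n, ∫⁻ z : ℍ, wt z * wt (gl n A • z) ≠ ∞ := by
  rw [← lintegral_tsum fun A => (UnfN_meas2 n A).aemeasurable]
  have h1 : ∀ z : ℍ, ∑' A : Mn n, wt z * wt (gl n A • z) = wt z * (Fintype.card (Rp n) : ℝ≥0∞) := by
    intro z
    rw [ENNReal.tsum_mul_left, wt_gl]
  rw [lintegral_congr h1, lintegral_mul_const _ wt_meas]
  exact ENNReal.mul_ne_top wt_int.ne (by norm_num)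

theorem UnfN_int_eq (n : ℕ) [NeZero n] (A : Mn n) : ∫ z : ℍ, (wt z).toReal * (wt (gl n A • z)).toReal =
    (∫⁻ z : ℍ, wt z * wt (gl n A • z)).toReal := by
  rw [← integral_toReal (UnfN_meas2 n A).aemeasurable]
  · refine integral_congr_ae (Filter.Eventually.of_forall fun z => ?_)
    exact ENNReal.toReal_mul.symm
  · refine Filter.Eventually.of_forall fun z => ?_
    exact (ENNReal.mul_ne_top (Unf_wt_ne_top _) (Unf_wt_ne_top _)).lt_top

theorem UnfN_integrable (n : ℕ) [NeZero n] (A : Mn n) :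
    Integrable (fun z : ℍ => (wt z).toReal * (wt (gl n A • z)).toReal) := by
  have h1 : Integrable (fun z : ℍ => (wt z).toReal) :=
    integrable_toReal_of_lintegral_ne_top wt_meas.aemeasurable wt_int.ne
  refine h1.mono' ((wt_meas.ennreal_toReal.mul (UnfN_meas n A).ennreal_toReal).aestronglyMeasurable)
    (Filter.Eventually.of_forall fun z => ?_)
  rw [Real.norm_of_nonneg (mul_nonneg ENNReal.toReal_nonneg ENNReal.toReal_nonneg)]
  exact mul_le_of_le_one_right ENNReal.toReal_nonneg (Unf_toReal_le _)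

theorem unfold_sum {n : ℕ} [NeZero n] (Φ : Mn n → ℍ → ℂ) (hm : ∀ A, Measurable (Φ A)) (C : ℝ)
    (hC : ∀ A z, ‖Φ A z‖ ≤ C) (hΦ : ∀ (γ : SL(2, ℤ)) (A : Mn n), Φ (γ • A) = Φ A) :
    HasSum (fun A : Mn n => ∫ z : ℍ, ((wt z).toReal * (wt (gl n A • z)).toReal) • Φ A z)
      (∫ z : ℍ, (wt z).toReal • ∑ j : Rp n, Φ (dl n j) z) := by
  have hC0 : ∀ A z, ‖((wt z).toReal * (wt (gl n A • z)).toReal) • Φ A z‖ ≤
      ((wt z).toReal * (wt (gl n A • z)).toReal) * C := by
    intro A z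
    rw [norm_smul, Real.norm_of_nonneg (mul_nonneg ENNReal.toReal_nonneg ENNReal.toReal_nonneg)]
    exact mul_le_mul_of_nonneg_left (hC A z) (mul_nonneg ENNReal.toReal_nonneg ENNReal.toReal_nonneg)
  have hFint : ∀ A : Mn n,
      Integrable (fun z : ℍ => ((wt z).toReal * (wt (gl n A • z)).toReal) • Φ A z) := by
    intro A
    refine ((UnfN_integrable n A).mul_const C).mono' ?_ (Filter.Eventually.of_forall (hC0 A))
    exact ((wt_meas.ennreal_toReal.mul (UnfN_meas n A).ennreal_toReal).smul (hm A)).aestronglyMeasurable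
  have hFsum : Summable (fun A : Mn n =>
      ∫ z : ℍ, ‖((wt z).toReal * (wt (gl n A • z)).toReal) • Φ A z‖) := by
    have h1 : Summable (fun A : Mn n => (∫⁻ z : ℍ, wt z * wt (gl n A • z)).toReal * C) :=
      (ENNReal.summable_toReal (UnfN_tsum_lint n)).mul_right C
    refine Summable.of_nonneg_of_le (fun A => integral_nonneg fun z => norm_nonneg _) (fun A => ?_) h1
    rw [← UnfN_int_eq n, ← integral_mul_const]
    exact integral_mono (hFint A).norm ((UnfN_integrable n A).mul_const C) (hC0 A)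
  have h2 := hasSum_integral_of_summable_integral_norm hFint hFsum
  have h3 : ∀ z : ℍ, ∑' A : Mn n, ((wt z).toReal * (wt (gl n A • z)).toReal) • Φ A z =
      (wt z).toReal • ∑ j : Rp n, Φ (dl n j) z := by
    intro z
    have hs : Summable (fun A : Mn n => ((wt z).toReal * (wt (gl n A • z)).toReal) • Φ A z) := by
      refine Summable.of_norm_bounded (((UnfN_summable_wt n z).mul_left (wt z).toReal).mul_right C) ?_
      intro A
      exact hC0 A z
    have h4 : ∀ j : Rp n, HasSum (fun γ : SL(2, ℤ) =>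
        ((wt z).toReal * (wt (gl n (UnfN_e n (j, γ)) • z)).toReal) • Φ (UnfN_e n (j, γ)) z)
        ((wt z).toReal • Φ (dl n j) z) := by
      intro j
      have h5 := ((Unf_hasSum_one (gl n (dl n j) • z)).mul_left (wt z).toReal).smul_const (Φ (dl n j) z)
      rw [mul_one] at h5
      refine h5.congr_fun ?_
      intro γ
      rw [UnfN_e_apply, UnfN_gl, hΦ]
    rw [← (UnfN_e n).tsum_eq (fun A : Mn n => ((wt z).toReal * (wt (gl n A • z)).toReal) • Φ A z)]
    have hs' : Summable (fun p : Rp n × SL(2, ℤ) =>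
        ((wt z).toReal * (wt (gl n (UnfN_e n p) • z)).toReal) • Φ (UnfN_e n p) z) :=
      ((UnfN_e n).summable_iff (f := fun A : Mn n =>
        ((wt z).toReal * (wt (gl n A • z)).toReal) • Φ A z)).2 hs
    rw [Summable.tsum_prod' hs' (fun j => (h4 j).summable), tsum_fintype, Finset.smul_sum]
    exact Finset.sum_congr rfl fun j _ => (h4 j).tsum_eq
  rwa [integral_congr_ae (Filter.Eventually.of_forall h3)] at h2

end Pool.Agent.Lib.MP_06b9d2_nt.ME
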