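import Pool.Agent.Lib.MP_06b9d2_nt.ME.BndN
import Pool.Agent.Lib.MP_06b9d2_nt.ME.UnfN
import Pool.Agent.Lib.MP_06b9d2_nt.MD.Eig

/-!
Module ME-EigN (MP_06b9d2_nt, Maeda, all Hecke operators). `T_n` is self-adjoint; the degree of the minimal polynomial of `T_n` is the number of its eigenvalues.

Adapt `MD/Self.lean` and `MD/Eig.lean` (`n = 2`); `MD/Pos.lean` gives the inner product.
-/

namespace Pool.Agent.Lib.MP_06b9d2_nt.ME

open UpperHalfPlane MeasureTheory
open scoped MatrixGroups ModularForm ENNReal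

theorem self_adj {k : ℤ} {n : ℕ} [NeZero n] {T : CuspForm 𝒮ℒ k →ₗ[ℂ] CuspForm 𝒮ℒ k}
    (hT : IsHecke k n T) (f g : CuspForm 𝒮ℒ k) : ip k (T f) g = ip k f (T g) := by
  obtain ⟨C, hC⟩ := pet_bnd (n := n) f g
  have hf : Continuous (f : ℍ → ℂ) := (CuspFormClass.holo f).continuous
  have hg : Continuous (g : ℍ → ℂ) := (CuspFormClass.holo g).continuous
  have h1 := unfold_sum (n := n) (fun A => petersson k ((f : ℍ → ℂ) ∣[k] gl n A) g)
    (fun A => (petersson_continuous k (cont_slash f A) hg).measurable) C (fun A z => (hC A z).1)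
    (fun γ A => by simp only [slash_smul])
  have h2 := unfold_sum (n := n) (fun A => petersson k f ((g : ℍ → ℂ) ∣[k] gl n A))
    (fun A => (petersson_continuous k hf (cont_slash g A)).measurable) C (fun A z => (hC A z).2)
    (fun γ A => by simp only [slash_smul])
  have e1 : ip k (T f) g = ∫ z : ℍ, (wt z).toReal •
      ∑ j : Rp n, petersson k ((f : ℍ → ℂ) ∣[k] gl n (dl n j)) g z := by
    unfold ip
    refine integral_congr_ae (Filter.Eventually.of_forall fun z => ?_)
    simp only [petersson, hecke_slash hT f, Finset.sum_apply, map_sum, Finset.sum_mul]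
  have e2 : ip k f (T g) = ∫ z : ℍ, (wt z).toReal •
      ∑ j : Rp n, petersson k f ((g : ℍ → ℂ) ∣[k] gl n (dl n j)) z := by
    unfold ip
    refine integral_congr_ae (Filter.Eventually.of_forall fun z => ?_)
    simp only [petersson, hecke_slash hT g, Finset.sum_apply, Finset.mul_sum, Finset.sum_mul]
  have key : ∀ A : Mn n, (∫ z : ℍ, ((wt z).toReal * (wt (gl n A • z)).toReal) •
      petersson k ((f : ℍ → ℂ) ∣[k] gl n A) g z) =
      ∫ z : ℍ, ((wt z).toReal * (wt (gl n (adj n A) • z)).toReal) •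
        petersson k f ((g : ℍ → ℂ) ∣[k] gl n (adj n A)) z := by
    intro A
    rw [← integral_smul_eq_self (μ := (volume : Measure ℍ)) (fun z : ℍ =>
      ((wt z).toReal * (wt (gl n A • z)).toReal) •
      petersson k ((f : ℍ → ℂ) ∣[k] gl n A) g z) (g := gl n (adj n A))]
    refine integral_congr_ae (Filter.Eventually.of_forall fun w => ?_)
    simp only [gl_adj, pet_adj]
    rw [mul_comm ((wt (gl n (adj n A) • w)).toReal)]
  let e : Mn n ≃ Mn n := ⟨adj n, adj n, adj_adj n, adj_adj n⟩
  have h3 := (Equiv.hasSum_iff e).2 h2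
  rw [e1, e2]
  refine h1.unique ?_
  refine h3.congr_fun ?_
  intro A
  exact key A

private theorem semi_hecke {k : ℤ} {n : ℕ} [NeZero n] [Module.Finite ℂ (CuspForm 𝒮ℒ k)]
    {T : CuspForm 𝒮ℒ k →ₗ[ℂ] CuspForm 𝒮ℒ k} (hT : IsHecke k n T) :
    Module.End.IsSemisimple T := by
  let c : InnerProductSpace.Core ℂ (CuspForm 𝒮ℒ k) :=
    { inner := fun f g => ip k f g
      conj_inner_symm := fun f g => ip_conj g f
      re_inner_nonneg := fun f => ip_nonneg f
      add_left := fun f g h => by
        show ip k (f + g : CuspForm 𝒮ℒ k) h = ip k f h + ip k g h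
        rw [← ip_conj h (f + g), ip_add, map_add, ip_conj, ip_conj]
      smul_left := fun f g r => by
        show ip k (r • f : CuspForm 𝒮ℒ k) g = (starRingEnd ℂ) r * ip k f g
        rw [← ip_conj g (r • f), ip_smul, map_mul, ip_conj]
      definite := fun f hf => ip_def f hf }
  let : NormedAddCommGroup (CuspForm 𝒮ℒ k) := @InnerProductSpace.Core.toNormedAddCommGroup ℂ
    (CuspForm 𝒮ℒ k) _ _ _ c
  let : InnerProductSpace ℂ (CuspForm 𝒮ℒ k) := InnerProductSpace.ofCore c.toCore
  have hsym : LinearMap.IsSymmetric T := fun f g => self_adj hT f g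
  exact Module.End.isFinitelySemisimple_iff_isSemisimple.1 hsym.isFinitelySemisimple

theorem eig {k : ℤ} {n : ℕ} [NeZero n] [Module.Finite ℂ (CuspForm 𝒮ℒ k)]
    {T : CuspForm 𝒮ℒ k →ₗ[ℂ] CuspForm 𝒮ℒ k} (hT : IsHecke k n T) :
    (minpoly ℂ T).natDegree ≤ (LinearMap.charpoly T).roots.toFinset.card := by
  classical
  have hss : Module.End.IsSemisimple T := semi_hecke hT
  have hsq : Squarefree (minpoly ℂ T) := hss.minpoly_squarefree
  have hsep : (minpoly ℂ T).Separable :=
    (PerfectField.separable_iff_squarefree).2 hsq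
  have hne : LinearMap.charpoly T ≠ 0 := (LinearMap.charpoly_monic T).ne_zero
  have hsub : (minpoly ℂ T).roots.toFinset ⊆ (LinearMap.charpoly T).roots.toFinset := by
    intro x hx
    rw [Multiset.mem_toFinset] at hx ⊢
    exact Multiset.mem_of_le (Polynomial.roots.le_of_dvd hne (LinearMap.minpoly_dvd_charpoly T)) hx
  refine le_trans (le_of_eq ?_) (Finset.card_le_card hsub)
  rw [Multiset.toFinset_card_of_nodup (Polynomial.nodup_roots hsep)]
  exact (IsAlgClosed.card_roots_eq_natDegree (p := minpoly ℂ T)).symm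

end Pool.Agent.Lib.MP_06b9d2_nt.ME
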