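import Pool.Agent.Lib.MP_06b9d2_nt.ME.LowA
import Pool.Agent.Lib.MP_06b9d2_nt.ME.EigN

/-!
Module ME-Main (MP_06b9d2_nt, Maeda, all Hecke operators). The theorem.

There is a prime `p` with `8 n ∣ p + 1`: Dirichlet's theorem (`Nat.forall_exists_prime_gt_and_eq_mod`, `-1` is a unit of `ZMod (8 n)`). `lowA` gives `C` (we may assume `C ≥ 1`). Let `k` be even with `S_k ≠ 0`, so `k ≥ 12` (see `MD/Low.lean`), `D = (minpoly ℂ T).natDegree ≥ 1`. Let `K₀ = 12 N_1 + (p + 1) (p - 3) / 2`. If `k < K₀`: `√k ≤ √K₀ D`. Otherwise let `s ≥ 1` be maximal with `12 N_s + (p + 1) (p - 3) / 2 ≤ k` (see `MD/Low.lean`); `k < 12 N_{s+1} + (p + 1) (p - 3) / 2 ≤ 3 (1 + p ^ (2 s + 3)) + p ^ 2 ≤ 5 p ^ 3 p ^ (2 s)`, so `√k ≤ √(5 p ^ 3) p ^ s ≤ √(5 p ^ 3) C (D + 1) ≤ 2 C √(5 p ^ 3) D`. So `c = min (1 / √K₀) (1 / (2 C √(5 p ^ 3)))` works with `c √k ≤ D`, and `D ≤` the number of roots by `eig`.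
-/

namespace Pool.Agent.Lib.MP_06b9d2_nt.ME

open UpperHalfPlane MeasureTheory
open scoped MatrixGroups ModularForm ENNReal

private theorem main_prime (n : ℕ) (hn : 2 ≤ n) : ∃ p : ℕ, p.Prime ∧ 8 * n ∣ p + 1 := by
  have h0 : NeZero (8 * n) := ⟨by omega⟩
  obtain ⟨p, -, hp, h⟩ := Nat.forall_exists_prime_gt_and_eq_mod (q := 8 * n) (a := -1)
    (isUnit_one.neg) 0
  refine ⟨p, hp, ?_⟩
  rw [← ZMod.natCast_eq_zero_iff]
  push_cast
  rw [h]
  ring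

private theorem main_eight {p : ℕ} (h : 8 ∣ p + 1) (s : ℕ) :
    8 * Np p s = 1 + p ^ (2 * s + 1) := by
  unfold Np
  apply Nat.mul_div_cancel'
  have h1 : (p : ZMod 8) = -1 := by
    have h2 : ((p + 1 : ℕ) : ZMod 8) = 0 := (ZMod.natCast_eq_zero_iff _ _).2 h
    push_cast at h2
    exact eq_neg_of_add_eq_zero_left h2
  rw [← ZMod.natCast_eq_zero_iff]
  push_cast
  rw [h1, pow_succ, pow_mul]
  norm_num

theorem main (n : ℕ) (hn : 2 ≤ n) : ∃ c : ℝ, 0 < c ∧ ∀ k : ℤ, Even k →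
    ∀ [Module.Finite ℂ (CuspForm 𝒮ℒ k)] [Nontrivial (CuspForm 𝒮ℒ k)]
      (T : CuspForm 𝒮ℒ k →ₗ[ℂ] CuspForm 𝒮ℒ k), IsHecke k n T →
      c * Real.sqrt k ≤ ((LinearMap.charpoly T).roots.toFinset.card : ℝ) := by
  obtain ⟨p, hp, h8n⟩ := main_prime n hn
  have hpF : Fact p.Prime := ⟨hp⟩
  have hn0 : NeZero n := ⟨by omega⟩
  obtain ⟨C0, hC0⟩ := lowA (p := p) (n := n) hn h8n
  obtain ⟨C, hC1, hC⟩ : ∃ C : ℕ, 1 ≤ C ∧ C0 ≤ C := ⟨C0 + 1, by omega, by omega⟩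
  have h8 : 8 ∣ p + 1 := (dvd_mul_right 8 n).trans h8n
  have hp15 : 15 ≤ p := by
    have := Nat.le_of_dvd (by omega) h8n
    omega
  set X : ℤ := ((p : ℤ) + 1) * ((p : ℤ) - 3) / 2 with hX
  have hp15z : (15 : ℤ) ≤ p := by exact_mod_cast hp15
  have hX0 : 0 ≤ X := Int.ediv_nonneg (mul_nonneg (by linarith) (by linarith)) (by norm_num)
  have hX1 : X ≤ (p : ℤ) ^ 2 := by
    have h1 : X ≤ ((p : ℤ) + 1) * ((p : ℤ) - 3) :=
      Int.ediv_le_self _ (mul_nonneg (by linarith) (by linarith))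
    nlinarith
  set K0 : ℤ := 12 * (Np p 1 : ℤ) + X with hK0
  have hNp : ∀ s, (8 : ℤ) * (Np p s : ℤ) = 1 + (p : ℤ) ^ (2 * s + 1) := by
    intro s
    exact_mod_cast main_eight h8 s
  have hK0pos : 0 < K0 := by
    have h1 := hNp 1
    have h2 : (0 : ℤ) ≤ (p : ℤ) ^ (2 * 1 + 1) := by positivity
    linarith
  have hK0r : (0 : ℝ) < K0 := by exact_mod_cast hK0pos
  have hpr : (15 : ℝ) ≤ p := by exact_mod_cast hp15
  have hCr : (1 : ℝ) ≤ C := by exact_mod_cast hC1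
  have hB : 0 < 2 * (C : ℝ) * Real.sqrt (5 * (p : ℝ) ^ 3) := by
    have : 0 < Real.sqrt (5 * (p : ℝ) ^ 3) := Real.sqrt_pos.2 (by positivity)
    positivity
  have hA : 0 < Real.sqrt K0 := Real.sqrt_pos.2 hK0r
  refine ⟨min (1 / Real.sqrt K0) (1 / (2 * (C : ℝ) * Real.sqrt (5 * (p : ℝ) ^ 3))),
    lt_min (by positivity) (by positivity), ?_⟩
  intro k hk hfin hnt T hT
  have hroots := eig hT
  have hrootsr : ((minpoly ℂ T).natDegree : ℝ) ≤
      ((LinearMap.charpoly T).roots.toFinset.card : ℝ) := by exact_mod_cast hroots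
  refine le_trans ?_ hrootsr
  have hdeg : 1 ≤ (minpoly ℂ T).natDegree := by
    have hint : IsIntegral ℂ T := Algebra.IsIntegral.isIntegral T
    exact minpoly.natDegree_pos hint
  have hdegr : (1 : ℝ) ≤ ((minpoly ℂ T).natDegree : ℝ) := by exact_mod_cast hdeg
  rcases lt_or_ge k K0 with hk0 | hk0
  · have h1 : Real.sqrt k ≤ Real.sqrt K0 := Real.sqrt_le_sqrt (by exact_mod_cast hk0.le)
    calc min (1 / Real.sqrt K0) (1 / (2 * (C : ℝ) * Real.sqrt (5 * (p : ℝ) ^ 3))) * Real.sqrt k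
        ≤ 1 / Real.sqrt K0 * Real.sqrt K0 :=
          mul_le_mul (min_le_left _ _) h1 (Real.sqrt_nonneg _) (by positivity)
      _ = 1 := by
          rw [one_div, inv_mul_cancel₀ hA.ne']
      _ ≤ _ := hdegr
  · have hex : ∃ s : ℕ, 1 ≤ s ∧ 12 * (Np p s : ℤ) + X ≤ k ∧
        k < 12 * (Np p (s + 1) : ℤ) + X := by
      by_contra hc
      push Not at hc
      have hall : ∀ s : ℕ, 12 * (Np p (s + 1) : ℤ) + X ≤ k := by
        intro s
        induction s with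
        | zero => exact hk0
        | succ s ih => exact hc (s + 1) (by omega) ih
      have hgrow : ∀ s : ℕ, (s : ℤ) ≤ Np p (s + 1) := by
        intro s
        have h1 := hNp (s + 1)
        have h2 : 2 * (s + 1) + 1 < p ^ (2 * (s + 1) + 1) :=
          (2 * (s + 1) + 1).lt_pow_self (by omega)
        have h2z : (2 * ((s : ℤ) + 1) + 1) < (p : ℤ) ^ (2 * (s + 1) + 1) := by exact_mod_cast h2
        have h3 : (p : ℤ) ^ (2 * (s + 1) + 1) = (p : ℤ) * (p : ℤ) ^ (2 * (s + 1)) := by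
          rw [pow_succ, mul_comm]
        have h4 : 2 * (s + 1) < p ^ (2 * (s + 1)) := (2 * (s + 1)).lt_pow_self (by omega)
        have h4z : (2 * ((s : ℤ) + 1)) < (p : ℤ) ^ (2 * (s + 1)) := by exact_mod_cast h4
        have h5 : 15 * (p : ℤ) ^ (2 * (s + 1)) ≤ (p : ℤ) * (p : ℤ) ^ (2 * (s + 1)) :=
          mul_le_mul_of_nonneg_right hp15z (by positivity)
        rw [h3] at h1
        linarith
      have h1 := hall k.toNat
      have h2 := hgrow k.toNat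
      have h3 : (k.toNat : ℤ) = k := Int.toNat_of_nonneg (by linarith)
      rw [h3] at h2
      linarith
    obtain ⟨s, hs, hs1, hs2⟩ := hex
    have h7 := hC0 s k hs hk hs1 T hT
    have h9 : k ≤ 5 * (p : ℤ) ^ 3 * ((p : ℤ) ^ s) ^ 2 := by
      have h1 := hNp (s + 1)
      have h2 : (p : ℤ) ^ (2 * (s + 1) + 1) = (p : ℤ) ^ 3 * ((p : ℤ) ^ s) ^ 2 := by
        rw [← pow_mul, ← pow_add]
        congr 1
        ring
      rw [h2] at h1
      have h3 : 1 ≤ ((p : ℤ) ^ s) ^ 2 := one_le_pow₀ (one_le_pow₀ (by linarith))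
      have h4 : (p : ℤ) ^ 2 ≤ (p : ℤ) ^ 3 := pow_le_pow_right₀ (by linarith) (by norm_num)
      have h5 : (p : ℤ) ^ 3 ≤ (p : ℤ) ^ 3 * ((p : ℤ) ^ s) ^ 2 :=
        le_mul_of_one_le_right (by positivity) h3
      have h6 : (1 : ℤ) ≤ (p : ℤ) ^ 3 := one_le_pow₀ (by linarith)
      linarith
    have h10 : (k : ℝ) ≤ 5 * (p : ℝ) ^ 3 * ((p : ℝ) ^ s) ^ 2 := by exact_mod_cast h9
    have h11 : Real.sqrt k ≤ Real.sqrt (5 * (p : ℝ) ^ 3) * (p : ℝ) ^ s := by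
      have := Real.sqrt_le_sqrt h10
      rwa [Real.sqrt_mul (by positivity), Real.sqrt_sq (by positivity)] at this
    have h12 : (p : ℝ) ^ s ≤ C * (((minpoly ℂ T).natDegree : ℝ) + 1) := by
      have h13 : p ^ s ≤ C * ((minpoly ℂ T).natDegree + 1) :=
        h7.trans (Nat.mul_le_mul_right _ hC)
      exact_mod_cast h13
    have h14 : (C : ℝ) * (((minpoly ℂ T).natDegree : ℝ) + 1) ≤
        2 * C * ((minpoly ℂ T).natDegree : ℝ) := by
      have h15 : ((minpoly ℂ T).natDegree : ℝ) + 1 ≤ 2 * ((minpoly ℂ T).natDegree : ℝ) := by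
        linarith
      have h16 := mul_le_mul_of_nonneg_left h15 (by linarith : (0 : ℝ) ≤ C)
      linarith
    have h17 : Real.sqrt k ≤ 2 * (C : ℝ) * Real.sqrt (5 * (p : ℝ) ^ 3) *
        ((minpoly ℂ T).natDegree : ℝ) := by
      refine h11.trans ?_
      have := mul_le_mul_of_nonneg_left (h12.trans h14) (Real.sqrt_nonneg (5 * (p : ℝ) ^ 3))
      linarith
    calc min (1 / Real.sqrt K0) (1 / (2 * (C : ℝ) * Real.sqrt (5 * (p : ℝ) ^ 3))) * Real.sqrt k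
        ≤ 1 / (2 * (C : ℝ) * Real.sqrt (5 * (p : ℝ) ^ 3)) *
          (2 * (C : ℝ) * Real.sqrt (5 * (p : ℝ) ^ 3) * ((minpoly ℂ T).natDegree : ℝ)) :=
          mul_le_mul (min_le_right _ _) h17 (Real.sqrt_nonneg _) (by positivity)
      _ = _ := by
          rw [one_div, ← mul_assoc, inv_mul_cancel₀ hB.ne', one_mul]

end Pool.Agent.Lib.MP_06b9d2_nt.ME
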