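import Pool.Agent.Lib.MP_06b9d2_nt.ME.Defs

/-!
Module ME-Mult (MP_06b9d2_nt, Maeda, all Hecke operators). Multiplicities at `1`.

`X ^ p ^ k - 1 = (X - 1) ^ p ^ k` (`sub_pow_char_pow`, `one_pow`). Put `c = T.eval 1`, `τ = T - C c`, `Q = (X - C c) ^ j * Q₁` with `Q₁.eval c ≠ 0` (`Polynomial.exists_eq_pow_rootMultiplicity_mul_and_not_dvd`), `j ≤ Q.natDegree`. `Q.comp T = τ ^ j * Q₁.comp T`, and `(Q₁.comp T).eval 1 = Q₁.eval c ≠ 0`, so `X - 1` is prime to `Q₁.comp T` and `(X - 1) ^ p ^ k ∣ τ ^ j`. `τ ≠ 0` and `(X - 1) ^ p ^ r ∤ τ`: `rootMultiplicity 1 τ < p ^ r`, and `p ^ k ≤ rootMultiplicity 1 (τ ^ j) = j * rootMultiplicity 1 τ ≤ j p ^ r` (`Polynomial.le_rootMultiplicity_iff`, `Polynomial.rootMultiplicity_pow`; or with `emultiplicity`, `X - C 1` is prime). (`j = 0` gives a contradiction: `(X - 1) ∣ 1`.)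
-/

namespace Pool.Agent.Lib.MP_06b9d2_nt.ME

open Polynomial

private theorem memult_pow {p : ℕ} [Fact p.Prime] (k : ℕ) :
    (X : (ZMod p)[X]) ^ p ^ k - 1 = (X - C 1) ^ p ^ k := by
  have h := sub_pow_char_pow (R := (ZMod p)[X]) (p := p) (n := k) X 1
  rw [one_pow] at h
  rw [map_one]
  exact h.symm

theorem mult {p : ℕ} [Fact p.Prime] (k r : ℕ) (T Q : (ZMod p)[X]) (hQ : Q ≠ 0)
    (h : (X : (ZMod p)[X]) ^ p ^ k - 1 ∣ Q.comp T)
    (hT : ¬ ((X : (ZMod p)[X]) ^ p ^ r - 1 ∣ T - C (T.eval 1))) :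
    p ^ k ≤ Q.natDegree * p ^ r := by
  rw [memult_pow] at h hT
  set c := T.eval 1 with hc
  set τ := T - C c with hτ
  have hτ0 : τ ≠ 0 := by
    intro h0
    rw [h0] at hT
    exact hT (dvd_zero _)
  obtain ⟨Q₁, hQ₁, hnd⟩ := Polynomial.exists_eq_pow_rootMultiplicity_mul_and_not_dvd Q hQ c
  set j := rootMultiplicity c Q with hj
  have hQ₁c : Q₁.eval c ≠ 0 := by
    intro h0
    exact hnd (Polynomial.dvd_iff_isRoot.2 h0)
  have hjd : j ≤ Q.natDegree := by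
    have h1 : ((X - C c) ^ j * Q₁).natDegree = j + Q₁.natDegree := by
      have hQ₁0 : Q₁ ≠ 0 := by
        rintro rfl
        simp at hQ₁c
      rw [natDegree_mul (pow_ne_zero _ (X_sub_C_ne_zero c)) hQ₁0, natDegree_pow, natDegree_X_sub_C,
        mul_one]
    rw [hQ₁, h1]
    exact Nat.le_add_right _ _
  have hcomp : Q.comp T = τ ^ j * Q₁.comp T := by
    conv_lhs => rw [hQ₁]
    rw [mul_comp, pow_comp, sub_comp, X_comp, C_comp]
  have hp : Prime (X - C (1 : ZMod p)) := prime_X_sub_C 1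
  have hcop : ¬ (X - C (1 : ZMod p)) ∣ Q₁.comp T := by
    intro h0
    have h1 := Polynomial.dvd_iff_isRoot.1 h0
    rw [IsRoot, eval_comp] at h1
    exact hQ₁c h1
  rw [hcomp] at h
  have h2 : (X - C (1 : ZMod p)) ^ p ^ k ∣ τ ^ j := by
    exact hp.pow_dvd_of_dvd_mul_right _ hcop h
  have hτj : τ ^ j ≠ 0 := pow_ne_zero _ hτ0
  have h3 : p ^ k ≤ rootMultiplicity 1 (τ ^ j) := (le_rootMultiplicity_iff hτj).2 h2
  rw [← count_roots, roots_pow, Multiset.count_nsmul, count_roots] at h3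
  have h4 : rootMultiplicity 1 τ < p ^ r := by
    by_contra h5
    exact hT ((le_rootMultiplicity_iff hτ0).1 (not_lt.1 h5))
  calc p ^ k ≤ j * rootMultiplicity 1 τ := h3
    _ ≤ Q.natDegree * p ^ r := Nat.mul_le_mul hjd h4.le

end Pool.Agent.Lib.MP_06b9d2_nt.ME
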