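import Pool.Agent.Lib.MP_06b9d2_nt.ME.Lev

/-!
Module ME-NonT (MP_06b9d2_nt, Maeda, all Hecke operators). Not all exponents are divisible by a large power of `p`.

Suppose `p ^ r ∣ x v` for all `v` in the box. Then `(x v) • w₀ ∈ S (ε + r)` (`p ^ r • w₀ ∈ S (ε + r)` by `S_mulp`, zsmul), and `S (s + 1) ≤ S (ε + r)` (`S_anti`), so `(h₂ p ^ (ε - 1)) • (H • v) ∈ S (ε + r)` for all `v` in the box. Take `v = a` (the vector `fun l => (a l : ℤ)`) and `v' = v - Pi.single i 2`; both are in the box (`bx`: `a l = a l - 2 * 0`, `a i - 2 = a i - 2 * 1`). The difference is `(2 h₂) • (p ^ (ε - 1) • Pi.single i H) ∈ S (ε + r)`, `p ∤ 2 h₂`, and `p ^ (ε - 1) • Pi.single i H ∈ S 1` (it is `H • (..)`), so by `S_cop` it is in `S (ε + r) ≤ S r`, a contradiction.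
-/

namespace Pool.Agent.Lib.MP_06b9d2_nt.ME



variable {ι : Type} [Fintype ι] [DecidableEq ι] {p : ℕ}

theorem nonT [Fact p.Prime] (hp2 : p ≠ 2) (o : ι) (F : Flt ι p) (a : ι → ℕ) (i : ι)
    (hi : 1 ≤ a i) (H ε s r : ℕ) (hH : ∀ v : ι → ℤ, (H : ℤ) • v ∈ F.S 1) (h1 : 1 ≤ ε)
    (hε : (Pi.single o (H : ℤ) : ι → ℤ) ∈ F.S ε)
    (h2 : ℤ) (h2' : ¬ (p : ℤ) ∣ h2) (x : (ι → ℤ) → ℕ)
    (h4 : ∀ v : ι → ℤ, (h2 * (p : ℤ) ^ (ε - 1)) • ((H : ℤ) • v) -
      (x v : ℤ) • (Pi.single o (H : ℤ) : ι → ℤ) ∈ F.S (s + 1))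
    (hr : ((p : ℤ) ^ (ε - 1)) • (Pi.single i (H : ℤ) : ι → ℤ) ∉ F.S r) (hs : ε + r ≤ s) :
    ∃ v ∈ Fintype.piFinset (fun l => bx (a l)), ¬ p ^ r ∣ x v := by
  by_contra hcon
  push Not at hcon
  have hp0 : (p : ℤ) ≠ 0 := by exact_mod_cast (Fact.out : p.Prime).ne_zero
  set w₀ : ι → ℤ := Pi.single o (H : ℤ) with hw₀
  have key : ∀ v ∈ Fintype.piFinset (fun l => bx (a l)),
      (h2 * (p : ℤ) ^ (ε - 1)) • ((H : ℤ) • v) ∈ F.S (ε + r) := by
    intro v hv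
    obtain ⟨y, hy⟩ := hcon v hv
    have h5 := (S_mulp F r ε w₀ h1 hε).1
    have h6 : (x v : ℤ) • w₀ ∈ F.S (ε + r) := by
      have e : (x v : ℤ) • w₀ = (y : ℤ) • (((p : ℤ) ^ r) • w₀) := by
        rw [smul_smul, hy]
        push_cast
        rw [mul_comm]
      rw [e]
      exact (F.S _).zsmul_mem h5 _
    have h7 : (h2 * (p : ℤ) ^ (ε - 1)) • ((H : ℤ) • v) - (x v : ℤ) • w₀ ∈ F.S (ε + r) :=
      S_anti F (by omega) (h4 v)
    have h8 := (F.S _).add_mem h7 h6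
    rwa [sub_add_cancel] at h8
  set v : ι → ℤ := fun l => (a l : ℤ) with hv
  set v' : ι → ℤ := v - Pi.single i 2 with hv'
  have m1 : v ∈ Fintype.piFinset (fun l => bx (a l)) := by
    rw [Fintype.mem_piFinset]
    intro l
    unfold bx
    rw [Finset.mem_image]
    exact ⟨0, Finset.mem_range.2 (Nat.succ_pos _), by simp [hv]⟩
  have m2 : v' ∈ Fintype.piFinset (fun l => bx (a l)) := by
    rw [Fintype.mem_piFinset]
    intro l
    unfold bx
    rw [Finset.mem_image]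
    rcases eq_or_ne l i with rfl | hl
    · exact ⟨1, Finset.mem_range.2 (by omega), by simp [hv', hv]⟩
    · exact ⟨0, Finset.mem_range.2 (Nat.succ_pos _), by
        simp [hv', hv, Pi.single_eq_of_ne hl]⟩
  have k1 := key v m1
  have k2 := key v' m2
  have k3 := (F.S _).sub_mem k1 k2
  have e : (h2 * (p : ℤ) ^ (ε - 1)) • ((H : ℤ) • v) - (h2 * (p : ℤ) ^ (ε - 1)) • ((H : ℤ) • v') =
      (2 * h2) • (((p : ℤ) ^ (ε - 1)) • (Pi.single i (H : ℤ) : ι → ℤ)) := by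
    funext l
    rcases eq_or_ne l i with rfl | hl
    · simp [hv']
      ring
    · simp [hv', Pi.single_eq_of_ne hl]
  rw [e] at k3
  have hc : ¬ (p : ℤ) ∣ 2 * h2 := by
    intro h
    have hpp : Prime (p : ℤ) := Nat.prime_iff_prime_int.1 Fact.out
    rcases hpp.dvd_or_dvd h with h | h
    · have h3 : p ∣ 2 := by exact_mod_cast h
      exact hp2 ((Nat.prime_dvd_prime_iff_eq Fact.out Nat.prime_two).1 h3)
    · exact h2' h
  have hS1 : ((p : ℤ) ^ (ε - 1)) • (Pi.single i (H : ℤ) : ι → ℤ) ∈ F.S 1 := by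
    have e2 : (Pi.single i (H : ℤ) : ι → ℤ) = (H : ℤ) • (Pi.single i (1 : ℤ) : ι → ℤ) := by
      funext l
      rcases eq_or_ne l i with rfl | hl
      · simp
      · simp [Pi.single_eq_of_ne hl]
    rw [e2]
    exact (F.S _).zsmul_mem (hH _) _
  have k4 := S_cop F (ε + r) _ (2 * h2) hc hS1 k3
  exact hr (S_anti F (by omega) k4)

end Pool.Agent.Lib.MP_06b9d2_nt.ME
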