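import Pool.Agent.Lib.MP_06b9d2_nt.ME.Defs

/-!
Module ME-One (MP_06b9d2_nt, Maeda, all Hecke operators). Polynomials in one variable.

For `M ≥ 1` and `c : ℕ` let `L_c (G) = ∑_{j ∈ G.support, j ≡ c mod M} G_j`. Fact (a): if `L_c (G) = 0` for all `c` then `X ^ M - 1 ∣ G`: `X ^ M - 1 ∣ X ^ j - X ^ (j % M)` (`sub_one_dvd_pow_sub_one`-like: `X ^ M - 1 ∣ (X ^ M) ^ t - 1`), so `G = ∑ G_j X ^ j ≡ ∑_{c < M} L_c (G) X ^ c = 0`. Fact (b): if `X ^ M - 1 ∣ G` then `L_c (G) = 0` for all `c`: `L_c (X ^ M G') = L_c (G')` (linear functional, check on monomials `X ^ j ↦ [j ≡ c]`: e.g. define `L_c` as a linear map through `Polynomial.sum` or `Polynomial.lsum`).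
`one_var`: subtract the hypothesis for `y` from the one for `y + M`: `∑_j G_j [M ∣ j + y] u = 0`, `u ≠ 0`; `y = -c` gives `L_c (G) = 0`. Use (a).
`box_ne`: if `X ^ (p ^ r) - 1` divides the difference, apply (b) with `c = x i₀`: not `≡ 0` modulo `p ^ r`, so the constant does not contribute, and `L_c (∑ X ^ x i)` is the number of `i ∈ I` with `x i ≡ c`, between `1` and `card I < p`, so not `0` in `ZMod p`.
-/

namespace Pool.Agent.Lib.MP_06b9d2_nt.ME

open Polynomial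

private theorem one_red (M : ℕ) {R : Type*} [CommRing R] (j : ℕ) :
    (X : R[X]) ^ M - 1 ∣ X ^ j - X ^ (j % M) := by
  have h1 : (X : R[X]) ^ j = X ^ (j % M) * (X ^ M) ^ (j / M) := by
    rw [← pow_mul, ← pow_add, Nat.mod_add_div]
  have h2 : (X : R[X]) ^ j - X ^ (j % M) = X ^ (j % M) * ((X ^ M) ^ (j / M) - 1 ^ (j / M)) := by
    rw [h1, one_pow]; ring
  rw [h2]
  exact Dvd.dvd.mul_left (sub_dvd_pow_sub_pow _ _ _) _

private theorem one_dvd {R : Type*} [CommRing R] (M : ℕ) (hM : 0 < M) (G : R[X])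
    (h : ∀ c : ℕ, c < M → ∑ j ∈ G.support, (if j % M = c then G.coeff j else 0) = 0) :
    (X : R[X]) ^ M - 1 ∣ G := by
  have h1 : (X : R[X]) ^ M - 1 ∣ ∑ j ∈ G.support, C (G.coeff j) * (X ^ j - X ^ (j % M)) :=
    Finset.dvd_sum fun j _ => Dvd.dvd.mul_left (one_red M j) _
  have h2 : ∑ j ∈ G.support, C (G.coeff j) * (X : R[X]) ^ (j % M) = 0 := by
    have e1 : ∀ j ∈ G.support, C (G.coeff j) * (X : R[X]) ^ (j % M) =
        ∑ c ∈ Finset.range M, C (if j % M = c then G.coeff j else 0) * X ^ c := by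
      intro j _
      rw [Finset.sum_eq_single (j % M)]
      · rw [if_pos rfl]
      · intro c _ hc
        rw [if_neg (Ne.symm hc), C_0, zero_mul]
      · intro hc
        exact absurd (Finset.mem_range.mpr (Nat.mod_lt _ hM)) hc
    rw [Finset.sum_congr rfl e1, Finset.sum_comm]
    refine Finset.sum_eq_zero fun c hc => ?_
    rw [← Finset.sum_mul, ← map_sum, h c (Finset.mem_range.mp hc), C_0, zero_mul]
  have h3 : G = ∑ j ∈ G.support, C (G.coeff j) * (X ^ j - X ^ (j % M)) := by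
    have e2 : ∑ j ∈ G.support, C (G.coeff j) * ((X : R[X]) ^ j - X ^ (j % M)) =
        ∑ j ∈ G.support, C (G.coeff j) * (X : R[X]) ^ j := by
      simp_rw [mul_sub]
      rw [Finset.sum_sub_distrib, h2, sub_zero]
    rw [e2]
    exact G.as_sum_support_C_mul_X_pow
  rw [h3]
  exact h1

theorem one_var {p : ℕ} [Fact p.Prime] (M : ℕ) (hM : 0 < M) (u : ZMod p) (hu : u ≠ 0)
    (G : (ZMod p)[X])
    (h : ∀ y : ℤ, ∑ j ∈ G.support, G.coeff j *
      (if (M : ℤ) ∣ (j : ℤ) + y then ((((j : ℤ) + y) / M : ℤ) : ZMod p) * u else 0) = 0) :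
    (X : (ZMod p)[X]) ^ M - 1 ∣ G := by
  apply one_dvd M hM
  intro c hc
  have hM0 : (M : ℤ) ≠ 0 := by exact_mod_cast hM.ne'
  have h1 := h (-(c : ℤ) + M)
  have h2 := h (-(c : ℤ))
  have h3 : ∑ j ∈ G.support, (if j % M = c then G.coeff j else 0) * u = 0 := by
    have h12 := congrArg₂ (fun a b : ZMod p => a - b) h1 h2
    simp only [sub_zero] at h12
    refine Eq.trans ?_ h12
    rw [← Finset.sum_sub_distrib]
    refine Finset.sum_congr rfl fun j _ => ?_
    have e1 : ((M : ℤ) ∣ (j : ℤ) + (-(c : ℤ) + M)) ↔ j % M = c := by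
      constructor
      · intro hd
        have hd' : (M : ℤ) ∣ (j : ℤ) - c := by
          have := dvd_sub_self_right.mpr hd
          have e : (j : ℤ) - c = ((j : ℤ) + (-(c : ℤ) + M)) - M := by ring
          rw [e]
          exact dvd_sub hd (dvd_refl _)
        have h5 : (c : ℤ) ≡ (j : ℤ) [ZMOD M] := (Int.modEq_iff_dvd).mpr hd'
        have h6 : c ≡ j [MOD M] := (Int.natCast_modEq_iff).mp h5
        have h7 : c % M = j % M := h6
        rw [Nat.mod_eq_of_lt hc] at h7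
        exact h7.symm
      · intro hj
        have h6 : c ≡ j [MOD M] := by
          show c % M = j % M
          rw [Nat.mod_eq_of_lt hc, hj]
        have h5 : (c : ℤ) ≡ (j : ℤ) [ZMOD M] := (Int.natCast_modEq_iff).mpr h6
        have hd' : (M : ℤ) ∣ (j : ℤ) - c := (Int.modEq_iff_dvd).mp h5
        have e : (j : ℤ) + (-(c : ℤ) + M) = ((j : ℤ) - c) + M := by ring
        rw [e]
        exact dvd_add hd' (dvd_refl _)
    have e2 : ((M : ℤ) ∣ (j : ℤ) + -(c : ℤ)) ↔ j % M = c := by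
      rw [← e1, ← add_assoc]
      exact (dvd_add_self_right).symm
    have e3 : ((j : ℤ) + (-(c : ℤ) + M)) / M = ((j : ℤ) + -(c : ℤ)) / M + 1 := by
      rw [← add_assoc, Int.add_ediv_of_dvd_right (dvd_refl _), Int.ediv_self hM0]
    by_cases hj : j % M = c
    · rw [if_pos hj, if_pos (e1.mpr hj), if_pos (e2.mpr hj), e3]
      push_cast
      ring
    · rw [if_neg hj, if_neg fun h' => hj (e1.mp h'), if_neg fun h' => hj (e2.mp h')]
      ring
  rw [← Finset.sum_mul] at h3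
  exact (mul_eq_zero.mp h3).resolve_right hu

theorem box_ne {p : ℕ} [Fact p.Prime] {α : Type} (I : Finset α) (hI : I.card < p) (x : α → ℕ)
    (r : ℕ) (i₀ : α) (h0 : i₀ ∈ I) (h : ¬ p ^ r ∣ x i₀) :
    ¬ ((X : (ZMod p)[X]) ^ p ^ r - 1 ∣ (∑ i ∈ I, X ^ x i) - C ((I.card : ZMod p))) := by
  classical
  rintro ⟨Q, hQ⟩
  set M : ℕ := p ^ r with hM
  set e : AddMonoidAlgebra (ZMod p) (ZMod M) := AddMonoidAlgebra.single (1 : ZMod M) (1 : ZMod p)
    with he
  have hpow : ∀ j : ℕ, e ^ j = AddMonoidAlgebra.single ((j : ℕ) : ZMod M) (1 : ZMod p) := by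
    intro j
    rw [he, AddMonoidAlgebra.single_pow, one_pow, nsmul_one]
  have h1 := congrArg (aeval e) hQ
  have hM1 : e ^ M = 1 := by
    rw [hpow, ZMod.natCast_self]
    rfl
  simp only [map_sub, map_sum, map_mul, map_pow, aeval_X, aeval_C, map_one, hM1, sub_self,
    zero_mul] at h1
  have h2 := congrArg (fun f : AddMonoidAlgebra (ZMod p) (ZMod M) =>
    f.coeff ((x i₀ : ℕ) : ZMod M)) h1
  have hne : ((x i₀ : ℕ) : ZMod M) ≠ 0 := by
    rw [Ne, ZMod.natCast_eq_zero_iff]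
    exact h
  simp only [hpow, AddMonoidAlgebra.coeff_sub, AddMonoidAlgebra.coeff_sum,
    AddMonoidAlgebra.coe_algebraMap, Function.comp, AddMonoidAlgebra.coeff_single,
    AddMonoidAlgebra.coeff_zero, Finsupp.coe_sub, Pi.sub_apply, Finsupp.finsetSum_apply,
    Finsupp.single_apply, Finsupp.coe_zero, Pi.zero_apply] at h2
  rw [if_neg (Ne.symm hne), sub_zero, ← Finset.sum_filter, Finset.sum_const, nsmul_eq_mul,
    mul_one, ZMod.natCast_eq_zero_iff] at h2
  have h3 : 0 < (I.filter fun i => ((x i : ℕ) : ZMod M) = ((x i₀ : ℕ) : ZMod M)).card :=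
    Finset.card_pos.mpr ⟨i₀, Finset.mem_filter.mpr ⟨h0, rfl⟩⟩
  have h4 := Nat.le_of_dvd h3 h2
  have h5 := Finset.card_filter_le I fun i => ((x i : ℕ) : ZMod M) = ((x i₀ : ℕ) : ZMod M)
  omega

end Pool.Agent.Lib.MP_06b9d2_nt.ME
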