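import Pool.Agent.Lib.MP_06b9d2_nt.ME.GrA

/-!
Module ME-FrA (MP_06b9d2_nt, Maeda, all Hecke operators). The Frobenius of the group ring.

The group ring is a commutative ring of characteristic `p` (`CharP (Rg ι p) p`: `charP_of_injective_algebraMap` from `ZMod p`; or avoid `CharP` by `add_pow_char_pow` with `ExpChar`). For `j = 1`: `(aeval U Q) ^ p = aeval (U ^ p) Q` since the coefficients `c` of `Q` satisfy `c ^ p = c` (`ZMod.pow_card`): `Polynomial.expand_char`-style, or induction on `Q` (`Polynomial.induction_on`), with `add_pow_char`. `U ^ p = (∑ single v 1) ^ p = ∑ single (p • v) 1` (`sum_pow_char`, `AddMonoidAlgebra.single_pow`). Induct on `j`, for general finite sums `U = ∑ single (p ^ j • v) 1`.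
-/

namespace Pool.Agent.Lib.MP_06b9d2_nt.ME



variable {ι : Type} [Fintype ι] [DecidableEq ι] {p : ℕ}

private theorem charP_Rg [Fact p.Prime] : CharP (Rg ι p) p :=
  charP_of_injective_algebraMap (R := ZMod p) (A := Rg ι p)
    (FaithfulSMul.algebraMap_injective (ZMod p) (Rg ι p)) p

private theorem aeval_pow_p [Fact p.Prime] (Q : Polynomial (ZMod p)) (U : Rg ι p) :
    (Polynomial.aeval U Q) ^ p = Polynomial.aeval (U ^ p) Q := by
  haveI := charP_Rg (ι := ι) (p := p)
  induction Q using Polynomial.induction_on' with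
  | add f g hf hg => rw [map_add, map_add, add_pow_char, hf, hg]
  | monomial n c =>
    rw [Polynomial.aeval_monomial, Polynomial.aeval_monomial, mul_pow, ← map_pow,
      ZMod.pow_card, ← pow_mul, ← pow_mul, mul_comm n p]

private theorem sum_pow_p [Fact p.Prime] (s : Finset (ι → ℤ)) (j : ℕ) :
    (∑ v ∈ s, (AddMonoidAlgebra.single (((p : ℤ) ^ j) • v) (1 : ZMod p) : Rg ι p)) ^ p =
      ∑ v ∈ s, (AddMonoidAlgebra.single (((p : ℤ) ^ (j + 1)) • v) (1 : ZMod p) : Rg ι p) := by
  haveI := charP_Rg (ι := ι) (p := p)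
  rw [sum_pow_char]
  refine Finset.sum_congr rfl fun v _ => ?_
  rw [AddMonoidAlgebra.single_pow, one_pow]
  congr 1
  rw [pow_succ', mul_smul]
  simp

theorem frob_aeval [Fact p.Prime] (Q : Polynomial (ZMod p)) (a : ι → ℕ) (j : ℕ) :
    (Polynomial.aeval (UU p a) Q) ^ p ^ j =
      Polynomial.aeval (∑ v ∈ Fintype.piFinset (fun i => bx (a i)),
        (AddMonoidAlgebra.single (((p : ℤ) ^ j) • v) (1 : ZMod p) : Rg ι p)) Q := by
  induction j with
  | zero =>
    rw [UU_eq, pow_zero, pow_one]
    simp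
  | succ j ih =>
    rw [pow_succ, pow_mul, ih, aeval_pow_p, sum_pow_p]

end Pool.Agent.Lib.MP_06b9d2_nt.ME
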