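import Pool.Agent.Lib.MP_06b9d2_nt.ME.MoA

/-!
Module ME-MoB (MP_06b9d2_nt, Maeda, all Hecke operators). All elements invariant under the sign changes.

Let `W` be the list (finset) of the coordinates `i ≠ o` and for an element `X` put `Sy X = ∏_{i ∈ W} (1 + σ_i) X` where `σ_i = mp p (fp i)` as a linear endomorphism; for `X = single g 1` this is `Y (g o) |g|` (notation of `MO-A`: `∏_i (if i = o then E p o (g o) else (E p i |g i| + E p i (-|g i|)))`, as `E (g i) + E (-g i)` is symmetric in the sign of `g i`). Proof by induction over a finset `W' ⊆ univ.erase o`: applying the operators `1 + σ_i`, `i ∈ W'`, to `∏_i E p i (g i)` gives `∏_{i ∈ W'} (E p i (g i) + E p i (-(g i))) * ∏_{i ∉ W'} E p i (g i)` (`σ_i` is a ring homomorphism fixing the factors of the other coordinates, `E_fp`, `E_fp_self`). For `Y` invariant under all `σ_i`, `i ≠ o`: `Sy Y = 2 ^ (card ι - 1) Y`. On the other hand `Y = ∑_g Y(g) single g 1` and `lin F (A * Sy (single g 1)) = 0` (`moA`), so `2 ^ (card ι - 1) lin F (A * Y) = 0` and `p ≠ 2`.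
(Equivalent: induct on the finset `W'`: for `Y` invariant under `σ_i`, `i ∈ W'`, ... . Choose the most convenient form.)
-/

namespace Pool.Agent.Lib.MP_06b9d2_nt.ME



variable {ι : Type} [Fintype ι] [DecidableEq ι] {p : ℕ}

private theorem prodE (v : ι → ℤ) (s : Finset ι) :
    ∏ i ∈ s, E p i (v i) = AddMonoidAlgebra.single (∑ i ∈ s, Pi.single i (v i)) 1 := by
  induction s using Finset.induction_on with
  | empty =>
    rw [Finset.prod_empty, Finset.sum_empty]
    rfl
  | insert i s hi ih =>
    rw [Finset.prod_insert hi, Finset.sum_insert hi, ih, E,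
      AddMonoidAlgebra.single_mul_single, one_mul]

private theorem prodE_univ (v : ι → ℤ) :
    ∏ i, E p i (v i) = AddMonoidAlgebra.single v 1 := by
  rw [prodE, Finset.univ_sum_single]

/-- the product symmetrised in the coordinates of `W` -/
private noncomputable def PW (p : ℕ) (W : Finset ι) (g : ι → ℤ) : Rg ι p :=
  ∏ i, if i ∈ W then (E p i (g i) + E p i (-(g i))) else E p i (g i)

private theorem PW_insert (W : Finset ι) (a : ι) (ha : a ∉ W) (g : ι → ℤ) :
    PW p (insert a W) g = PW p W g + mp p (fp a) (PW p W g) := by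
  have h1 : mp p (fp a) (PW p W g) =
      ∏ i, if i = a then E p a (-(g a)) else
        if i ∈ W then (E p i (g i) + E p i (-(g i))) else E p i (g i) := by
    unfold PW
    rw [map_prod]
    refine Finset.prod_congr rfl fun i _ => ?_
    by_cases hi : i = a
    · subst hi
      rw [if_neg ha, if_pos rfl, E_fp_self]
    · rw [if_neg hi]
      by_cases hW : i ∈ W
      · simp only [hW, if_true]
        rw [map_add, E_fp a i (Ne.symm hi), E_fp a i (Ne.symm hi)]
      · simp only [hW, if_false]
        rw [E_fp a i (Ne.symm hi)]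
  rw [h1]
  unfold PW
  rw [← Finset.mul_prod_erase Finset.univ _ (Finset.mem_univ a),
    ← Finset.mul_prod_erase Finset.univ (fun i => if i ∈ W then _ else _) (Finset.mem_univ a),
    ← Finset.mul_prod_erase Finset.univ (fun i => if i = a then _ else _) (Finset.mem_univ a)]
  have h2 : ∀ i ∈ Finset.univ.erase a,
      (if i ∈ insert a W then (E p i (g i) + E p i (-(g i))) else E p i (g i)) =
      (if i ∈ W then (E p i (g i) + E p i (-(g i))) else E p i (g i)) := by
    intro i hi
    have hia : i ≠ a := (Finset.mem_erase.1 hi).1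
    by_cases hW : i ∈ W
    · rw [if_pos hW, if_pos (Finset.mem_insert_of_mem hW)]
    · rw [if_neg hW, if_neg]
      intro hc
      rcases Finset.mem_insert.1 hc with hc | hc
      · exact hia hc
      · exact hW hc
  have h3 : ∀ i ∈ Finset.univ.erase a,
      (if i = a then E p a (-(g a)) else
        if i ∈ W then (E p i (g i) + E p i (-(g i))) else E p i (g i)) =
      (if i ∈ W then (E p i (g i) + E p i (-(g i))) else E p i (g i)) := by
    intro i hi
    rw [if_neg (Finset.mem_erase.1 hi).1]
  rw [Finset.prod_congr rfl h2, Finset.prod_congr rfl h3, if_pos (Finset.mem_insert_self a W),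
    if_neg ha, if_pos rfl, add_mul]

/-- the symmetrisation -/
private noncomputable def TW (p : ℕ) (W : Finset ι) (X : Rg ι p) : Rg ι p :=
  ∑ g ∈ X.coeff.support, X.coeff g • PW p W g

private theorem TW_empty (X : Rg ι p) : TW p ∅ X = X := by
  unfold TW
  have h : ∀ g : ι → ℤ, PW p ∅ g = AddMonoidAlgebra.single g 1 := by
    intro g
    unfold PW
    rw [← prodE_univ]
    exact Finset.prod_congr rfl fun i _ => if_neg (Finset.notMem_empty i)
  apply AddMonoidAlgebra.coeff_injective
  rw [AddMonoidAlgebra.coeff_sum]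
  conv_rhs => rw [← Finsupp.sum_single X.coeff]
  refine Finset.sum_congr rfl fun g _ => ?_
  rw [h g, AddMonoidAlgebra.coeff_smul, AddMonoidAlgebra.coeff_single, Finsupp.smul_single,
    smul_eq_mul, mul_one]

private theorem TW_insert (W : Finset ι) (a : ι) (ha : a ∉ W) (X : Rg ι p) :
    TW p (insert a W) X = TW p W X + mp p (fp a) (TW p W X) := by
  unfold TW
  rw [map_sum, ← Finset.sum_add_distrib]
  refine Finset.sum_congr rfl fun g _ => ?_
  rw [PW_insert W a ha, smul_add, map_smul]

private theorem TW_inv (W : Finset ι) (X : Rg ι p) (hX : ∀ i ∈ W, mp p (fp i) X = X) :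
    TW p W X = (2 : ZMod p) ^ W.card • X := by
  induction W using Finset.induction_on with
  | empty => rw [TW_empty, Finset.card_empty, pow_zero, one_smul]
  | insert a W ha ih =>
    have h1 := ih fun i hi => hX i (Finset.mem_insert_of_mem hi)
    rw [TW_insert W a ha, h1, map_smul, hX a (Finset.mem_insert_self a W),
      Finset.card_insert_of_notMem ha, ← smul_add, ← two_smul (ZMod p) X, smul_smul, pow_succ]

theorem moB [Fact p.Prime] (hp2 : p ≠ 2) (o : ι) (F : (ι → ℤ) → ZMod p)
    (hF : ∀ v, F (-v) = -F v) (A : Rg ι p) (hA : mp p (ng ι) A = A)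
    (h : ∀ m : ι → ℕ, lin F (A * XX p o m) = 0) (Y : Rg ι p)
    (hY : ∀ i, i ≠ o → mp p (fp i) Y = Y) : lin F (A * Y) = 0 := by
  have h1 := TW_inv (Finset.univ.erase o) Y fun i hi => hY i (Finset.mem_erase.1 hi).1
  have h2 : lin F (A * TW p (Finset.univ.erase o) Y) = 0 := by
    unfold TW
    rw [Finset.mul_sum, map_sum]
    refine Finset.sum_eq_zero fun g _ => ?_
    rw [mul_smul_comm, map_smul]
    have h3 : PW p (Finset.univ.erase o) g = ∏ i, if i = o then E p o (g o) else
        (E p i (((g i).natAbs : ℕ) : ℤ) + E p i (-(((g i).natAbs : ℕ) : ℤ))) := by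
      unfold PW
      refine Finset.prod_congr rfl fun i _ => ?_
      by_cases hi : i = o
      · subst hi
        rw [if_pos rfl, if_neg (Finset.notMem_erase i _)]
      · rw [if_neg hi, if_pos (Finset.mem_erase.2 ⟨hi, Finset.mem_univ i⟩)]
        rcases Int.natAbs_eq (g i) with hg | hg
        · rw [← hg]
        · have hg' : ((g i).natAbs : ℤ) = -(g i) := by omega
          rw [hg', neg_neg, add_comm]
    have h4 := moA hp2 o F hF A hA h (g o) fun i => (g i).natAbs
    rw [h3, h4, smul_zero]
  rw [h1, mul_smul_comm, map_smul, smul_eq_mul] at h2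
  rcases mul_eq_zero.1 h2 with h3 | h3
  · exfalso
    have h5 : (2 : ZMod p) = 0 := by
      by_contra hne
      exact pow_ne_zero _ hne h3
    have h6 : ((2 : ℕ) : ZMod p) = 0 := by exact_mod_cast h5
    rw [ZMod.natCast_eq_zero_iff] at h6
    exact hp2 ((Nat.prime_dvd_prime_iff_eq Fact.out Nat.prime_two).1 h6)
  · exact h3

end Pool.Agent.Lib.MP_06b9d2_nt.ME
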