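import Pool.Agent.Lib.MP_06b9d2_nt.ME.AvK
import Pool.Agent.Lib.MP_06b9d2_nt.ME.MoB
import Pool.Agent.Lib.MP_06b9d2_nt.ME.FrA

/-!
Module ME-RedB (MP_06b9d2_nt, Maeda, all Hecke operators). The reduction to one variable.

Notation: `w₀ = Pi.single o H`, `N = α + s`, `B = av ι p (p ^ N) h'`, `A = aeval (UU p a) Q`, `j₀ = α + (ε - 1)`. `(p ^ N h') • v = p ^ s • (H • v) ∈ S (1 + s)` (`S_mulp`), so `av_inv`, `av_kap` apply with `q = p ^ N`, `h = h'`.
(1) `A` is invariant under `mp p (ng ι)` and `mp p (fp i)` (`UU_ng`, `UU_fp`; an algebra homomorphism commutes with `aeval`: `Polynomial.map_aeval_eq_aeval_map` or `Polynomial.aeval_algHom_apply`). For `y : ℤ` the element `Y = A ^ (p ^ j₀ - 1) * B * single (y • w₀) 1` is invariant under `mp p (fp i)`, `i ≠ o` (`av_fp`; `single (y • w₀) 1 = E p o (y H)`, `E_fp`). `moB` with `F.f s` (odd: `f_neg`): `lin (F.f s) (A ^ p ^ j₀ * B * single (y • w₀) 1) = 0`.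
(2) `A ^ p ^ j₀ = aeval U₁ Q`, `U₁ = ∑_v single (p ^ j₀ • v) 1` (`frob_aeval`). Let `U₂ = ∑_v single ((x v) • w₀) 1` (`v` in the same finset). For each `v`: `p ^ j₀ • v = (x v) • w₀ + z + p ^ N • g` with `z = (h₂ p ^ (ε - 1)) • (H • v) - (x v) • w₀ ∈ S (s + 1)` and `p ^ N g = p ^ j₀ (1 - h' h₂) v` (`H = p ^ α h'`). So by `single_inv` and `av_inv`: `lin (U₁ * (B * Z)) = lin (U₂ * (B * Z))` for all `Z`, and by `null_aeval`: `lin (F.f s) (aeval U₂ Q * (B * single (y • w₀) 1)) = 0`.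
(3) With `W = single w₀ 1`: `U₂ = aeval W (∑_v X ^ x v)`, so `aeval U₂ Q = aeval W G`, `G = Q.comp (∑_v X ^ x v)` (`Polynomial.aeval_comp`), `= ∑_{j ∈ G.support} G_j single (j • w₀) 1`. So `∑_j G_j lin (F.f s) (single ((j + y) • w₀) 1 * B) = 0` and by `av_kap` (`(j + y) • w₀ ∈ S 1`): `κ ∑_j G_j f s ((j + y) • w₀) = 0`, `κ ≠ 0`.
-/

namespace Pool.Agent.Lib.MP_06b9d2_nt.ME



variable {ι : Type} [Fintype ι] [DecidableEq ι] {p : ℕ}

private theorem RedB_aeval (Q : Polynomial (ZMod p)) (a : ι → ℕ) (φ : (ι → ℤ) →+ (ι → ℤ))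
    (h : mp p φ (UU p a) = UU p a) :
    mp p φ (Polynomial.aeval (UU p a) Q) = Polynomial.aeval (UU p a) Q := by
  rw [← Polynomial.aeval_algHom_apply, h]

private theorem RedB_comm (A B C : Rg ι p) : A * (B * C) = B * (A * C) := by
  rw [← mul_assoc, mul_comm A B, mul_assoc]

private theorem RedB_pow (g : ι → ℤ) (n : ℕ) :
    (AddMonoidAlgebra.single g 1 : Rg ι p) ^ n = AddMonoidAlgebra.single ((n : ℤ) • g) 1 := by
  rw [AddMonoidAlgebra.single_pow, one_pow, natCast_zsmul]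

theorem redB [Fact p.Prime] (hp2 : p ≠ 2) (o : ι) (F : Flt ι p) (a : ι → ℕ) (H α h' ε s : ℕ)
    (hH : ∀ v : ι → ℤ, (H : ℤ) • v ∈ F.S 1) (hH' : H = p ^ α * h') (hh : ¬ p ∣ h') (h1 : 1 ≤ ε)
    (hs : ε ≤ s) (h2 : ℤ) (x : (ι → ℤ) → ℕ) (h3 : (p : ℤ) ^ (α + s) ∣ 1 - h' * h2)
    (h4 : ∀ v : ι → ℤ, (h2 * (p : ℤ) ^ (ε - 1)) • ((H : ℤ) • v) -
      (x v : ℤ) • (Pi.single o (H : ℤ) : ι → ℤ) ∈ F.S (s + 1))
    (Q : Polynomial (ZMod p))
    (hQ : ∀ m : ι → ℕ, lin (F.f s) (Polynomial.aeval (UU p a) Q * XX p o m) = 0) (y : ℤ) :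
    ∑ j ∈ (Q.comp (∑ v ∈ Fintype.piFinset (fun i => bx (a i)), Polynomial.X ^ x v)).support,
      (Q.comp (∑ v ∈ Fintype.piFinset (fun i => bx (a i)), Polynomial.X ^ x v)).coeff j *
        F.f s (((j : ℤ) + y) • (Pi.single o (H : ℤ) : ι → ℤ)) = 0 := by
  have hpp : p.Prime := Fact.out
  set w₀ : ι → ℤ := Pi.single o (H : ℤ) with hw₀
  have hw1 : w₀ = (H : ℤ) • (Pi.single o (1 : ℤ) : ι → ℤ) := by
    funext i
    rw [hw₀, Pi.smul_apply]
    by_cases hi : i = o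
    · subst hi
      simp
    · simp [Pi.single_eq_of_ne hi]
  have hwS : ∀ t : ℤ, t • w₀ ∈ F.S 1 := by
    intro t
    refine (F.S 1).zsmul_mem ?_ t
    rw [hw1]
    exact hH _
  have hyp : ∀ v : ι → ℤ, ((p ^ (α + s) * h' : ℕ) : ℤ) • v ∈ F.S (s + 1) := by
    intro v
    have e1 := (S_mulp F s 1 ((H : ℤ) • v) le_rfl (hH v)).1
    rw [add_comm 1 s, ← mul_smul] at e1
    have e2 : ((p ^ (α + s) * h' : ℕ) : ℤ) = (p : ℤ) ^ s * (H : ℤ) := by
      rw [hH', pow_add]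
      push_cast
      ring
    rw [e2]
    exact e1
  obtain ⟨κ, hκ0, hκ⟩ := av_kap hp2 F s (p ^ (α + s)) h' (h1.trans hs) hh hyp
  set B : Rg ι p := av ι p (p ^ (α + s)) h' with hB
  set A : Rg ι p := Polynomial.aeval (UU p a) Q with hA
  -- (1)
  have hAng : mp p (ng ι) A = A := RedB_aeval Q a _ (UU_ng a)
  have hAfp : ∀ i, mp p (fp i) A = A := fun i => RedB_aeval Q a _ (UU_fp a i)
  have hq0 : p ^ (α + (ε - 1)) ≠ 0 := pow_ne_zero _ hpp.ne_zero
  have hsing : (AddMonoidAlgebra.single (y • w₀) 1 : Rg ι p) = E p o (y * H) := by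
    unfold E
    congr 1
    funext i
    rw [hw₀, Pi.smul_apply]
    by_cases hi : i = o
    · subst hi
      simp
    · simp [Pi.single_eq_of_ne hi]
  have step1 : lin (F.f s) (A ^ p ^ (α + (ε - 1)) *
      (B * AddMonoidAlgebra.single (y • w₀) 1)) = 0 := by
    have e1 := moB hp2 o (F.f s) (fun v => f_neg F s v) A hAng hQ
      (A ^ (p ^ (α + (ε - 1)) - 1) * (B * AddMonoidAlgebra.single (y • w₀) 1)) (by
        intro i hi
        rw [map_mul, map_mul, map_pow, hAfp i, hB, av_fp, hsing, E_fp i o hi])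
    rw [← mul_assoc, mul_pow_sub_one hq0] at e1
    exact e1
  -- (2)
  obtain ⟨t, ht⟩ := h3
  have hnull : ∀ Z : Rg ι p, lin (F.f s)
      ((∑ v ∈ Fintype.piFinset (fun i => bx (a i)),
        (AddMonoidAlgebra.single (((p : ℤ) ^ (α + (ε - 1))) • v) (1 : ZMod p) : Rg ι p)) * (B * Z)) =
      lin (F.f s) ((∑ v ∈ Fintype.piFinset (fun i => bx (a i)),
        (AddMonoidAlgebra.single ((x v : ℤ) • w₀) (1 : ZMod p) : Rg ι p)) * (B * Z)) := by
    intro Z
    rw [Finset.sum_mul, Finset.sum_mul, map_sum, map_sum]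
    refine Finset.sum_congr rfl fun v _ => ?_
    have e1 : ((p : ℤ) ^ (α + (ε - 1))) • v =
        ((h2 * (p : ℤ) ^ (ε - 1)) • ((H : ℤ) • v) - (x v : ℤ) • w₀) +
          (((p ^ (α + s) : ℕ) : ℤ) • (((p : ℤ) ^ (α + (ε - 1)) * t) • v) + (x v : ℤ) • w₀) := by
      funext i
      simp only [Pi.smul_apply, Pi.add_apply, Pi.sub_apply, smul_eq_mul]
      rw [hH']
      push_cast
      rw [pow_add (p : ℤ) α (ε - 1)]
      linear_combination ((p : ℤ) ^ α * (p : ℤ) ^ (ε - 1) * v i) * ht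
    have e2 : (AddMonoidAlgebra.single (((p : ℤ) ^ (α + (ε - 1))) • v) (1 : ZMod p) : Rg ι p) =
        AddMonoidAlgebra.single
          ((h2 * (p : ℤ) ^ (ε - 1)) • ((H : ℤ) • v) - (x v : ℤ) • w₀) 1 *
        (AddMonoidAlgebra.single
          (((p ^ (α + s) : ℕ) : ℤ) • (((p : ℤ) ^ (α + (ε - 1)) * t) • v)) 1 *
          AddMonoidAlgebra.single ((x v : ℤ) • w₀) 1) := by
      rw [AddMonoidAlgebra.single_mul_single, AddMonoidAlgebra.single_mul_single, one_mul,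
        one_mul, ← e1]
    rw [e2, mul_assoc, single_inv F s _ (h4 v), mul_assoc,
      RedB_comm (AddMonoidAlgebra.single ((x v : ℤ) • w₀) 1) B Z, hB,
      av_inv F s _ h' hyp, ← hB, RedB_comm B]
  have step2 : lin (F.f s) (Polynomial.aeval (∑ v ∈ Fintype.piFinset (fun i => bx (a i)),
      (AddMonoidAlgebra.single ((x v : ℤ) • w₀) (1 : ZMod p) : Rg ι p)) Q *
        (B * AddMonoidAlgebra.single (y • w₀) 1)) = 0 := by
    rw [← null_aeval (lin (F.f s)) B _ _ hnull Q]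
    rw [hA, frob_aeval] at step1
    exact step1
  -- (3)
  set T : Polynomial (ZMod p) :=
    ∑ v ∈ Fintype.piFinset (fun i => bx (a i)), Polynomial.X ^ x v with hT
  set W : Rg ι p := AddMonoidAlgebra.single w₀ 1 with hW
  have hU2 : (∑ v ∈ Fintype.piFinset (fun i => bx (a i)),
      (AddMonoidAlgebra.single ((x v : ℤ) • w₀) (1 : ZMod p) : Rg ι p)) =
      Polynomial.aeval W T := by
    rw [hT, map_sum]
    refine Finset.sum_congr rfl fun v _ => ?_
    rw [map_pow, Polynomial.aeval_X, hW, RedB_pow]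
  rw [hU2, ← Polynomial.aeval_comp, Polynomial.aeval_def, Polynomial.eval₂_eq_sum,
    Polynomial.sum_def, Finset.sum_mul, map_sum] at step2
  have hterm : ∀ j ∈ (Q.comp T).support,
      lin (F.f s) (algebraMap (ZMod p) (Rg ι p) ((Q.comp T).coeff j) * W ^ j *
        (B * AddMonoidAlgebra.single (y • w₀) 1)) =
      κ * ((Q.comp T).coeff j * F.f s (((j : ℤ) + y) • w₀)) := by
    intro j _
    rw [mul_assoc, ← Algebra.smul_def, map_smul, smul_eq_mul, hW, RedB_pow, mul_comm B,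
      ← mul_assoc, AddMonoidAlgebra.single_mul_single, one_mul, ← add_smul, hκ _ (hwS _)]
    ring
  rw [Finset.sum_congr rfl hterm, ← Finset.mul_sum] at step2
  rcases mul_eq_zero.1 step2 with h5 | h5
  · exact absurd h5 hκ0
  · exact h5

end Pool.Agent.Lib.MP_06b9d2_nt.ME
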