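import Pool.Agent.Lib.MP_06b9d2_nt.ME.RedA
import Pool.Agent.Lib.MP_06b9d2_nt.ME.RedB
import Pool.Agent.Lib.MP_06b9d2_nt.ME.NonT
import Pool.Agent.Lib.MP_06b9d2_nt.ME.One
import Pool.Agent.Lib.MP_06b9d2_nt.ME.Mult

/-!
Module ME-Alg (MP_06b9d2_nt, Maeda, all Hecke operators). The algebraic theorem.

`H` from `F.idx`, `H = p ^ α h'` with `p ∤ h'` (`Nat.exists_eq_pow_mul_and_not_dvd`). `w₀ = Pi.single o H ∈ S 1`, `≠ 0`; `ε` from `exists_level`. Let `i` be a coordinate with `a i ≥ 1` (`ha`) and `r` with `p ^ (ε - 1) • Pi.single i H ∉ S r` (`F.inj`, the vector is not `0`). `C = p ^ (ε + r)`.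
If `s < ε + r` then `p ^ s ≤ C`. Otherwise: `redA`, `redB`, `nonT`. By `rho` (`u = F.f ε w₀ ≠ 0` by `ker`) the conclusion of `redB` is the hypothesis of `one_var` for `M = p ^ (s - ε)`, `G = Q.comp T`, `T = ∑_v X ^ x v`. `T.eval 1 = card` of the box `= ∏ (a i + 1) < p` (`Fintype.card_piFinset`; `card (bx j) = j + 1`, `Finset.card_image_of_injective`). `box_ne` (with the `v` from `nonT`) and `mult` give `p ^ (s - ε) ≤ Q.natDegree p ^ r`, so `p ^ s ≤ p ^ (ε + r) Q.natDegree`.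
-/

namespace Pool.Agent.Lib.MP_06b9d2_nt.ME



private theorem card_bx (j : ℕ) : (bx j).card = j + 1 := by
  unfold bx
  rw [Finset.card_image_of_injective, Finset.card_range]
  intro r s h
  have h' : (j : ℤ) - 2 * (r : ℤ) = (j : ℤ) - 2 * (s : ℤ) := h
  omega

theorem alg {ι : Type} [Fintype ι] [DecidableEq ι] {p : ℕ} [Fact p.Prime] (hp2 : p ≠ 2) (o : ι)
    (F : Flt ι p) (a : ι → ℕ) (ha : a ≠ 0) (hc : ∏ i, (a i + 1) < p) :
    ∃ C : ℕ, ∀ s, 1 ≤ s → ∀ Q : Polynomial (ZMod p), Q ≠ 0 →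
      (∀ m : ι → ℕ, lin (F.f s) (Polynomial.aeval (UU p a) Q * XX p o m) = 0) →
      p ^ s ≤ C * (Q.natDegree + 1) := by
  have hp : p.Prime := Fact.out
  obtain ⟨H, hH0, hH⟩ := F.idx
  obtain ⟨α, h', hh, hH'⟩ := Nat.exists_eq_pow_mul_and_not_dvd hH0.ne' p hp.one_lt.ne'
  have hHz : (H : ℤ) ≠ 0 := by exact_mod_cast hH0.ne'
  have hsing : ∀ i : ι, (H : ℤ) • (Pi.single i (1 : ℤ) : ι → ℤ) = Pi.single i (H : ℤ) := by
    intro i
    funext l
    by_cases h : l = i
    · subst h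
      simp
    · simp [Pi.single_eq_of_ne h]
  have hw1 : (Pi.single o (H : ℤ) : ι → ℤ) ∈ F.S 1 := by
    rw [← hsing o]
    exact hH _
  have hw0 : (Pi.single o (H : ℤ) : ι → ℤ) ≠ 0 := by
    intro h
    have := congrFun h o
    simp at this
    exact hH0.ne' this
  obtain ⟨ε, h1, hε, hε'⟩ := exists_level F _ hw1 hw0
  have hi : ∃ i, 1 ≤ a i := by
    by_contra hcon
    push Not at hcon
    apply ha
    funext i
    have := hcon i
    simp only [Pi.zero_apply]
    omega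
  obtain ⟨i, hi⟩ := hi
  have hr : ∃ r, ((p : ℤ) ^ (ε - 1)) • (Pi.single i (H : ℤ) : ι → ℤ) ∉ F.S r := by
    by_contra hcon
    push Not at hcon
    have h0 := F.inj _ hcon
    have := congrFun h0 i
    simp at this
    rcases this with h | h
    · exact absurd h.1 hp.ne_zero
    · exact hH0.ne' h
  obtain ⟨r, hr⟩ := hr
  refine ⟨p ^ (ε + r), ?_⟩
  intro s _ Q hQ0 hQ
  by_cases hsr : s < ε + r
  · calc p ^ s ≤ p ^ (ε + r) := Nat.pow_le_pow_right hp.pos hsr.le
      _ = p ^ (ε + r) * 1 := (mul_one _).symm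
      _ ≤ p ^ (ε + r) * (Q.natDegree + 1) := Nat.mul_le_mul_left _ (by omega)
  · push Not at hsr
    have hεs : ε ≤ s := by omega
    obtain ⟨h2, x, h2', h3, h4⟩ := redA o F H α h' ε s hH hh h1 hεs hε hε'
    have hB := redB hp2 o F a H α h' ε s hH hH' hh h1 hεs h2 x h3 h4 Q hQ
    obtain ⟨v, hv, hv'⟩ := nonT hp2 o F a i hi H ε s r hH h1 hε h2 h2' x h4 hr hsr
    set T : Polynomial (ZMod p) :=
      ∑ v ∈ Fintype.piFinset (fun i => bx (a i)), Polynomial.X ^ x v with hT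
    have hu : F.f ε (Pi.single o (H : ℤ) : ι → ℤ) ≠ 0 := fun h => hε' ((F.ker ε _ hε).1 h)
    have hdvd : (Polynomial.X : Polynomial (ZMod p)) ^ p ^ (s - ε) - 1 ∣ Q.comp T := by
      refine one_var (p ^ (s - ε)) (pow_pos hp.pos _) _ hu (Q.comp T) ?_
      intro y
      refine (Finset.sum_congr rfl fun j _ => ?_).trans (hB y)
      rw [rho F ε s _ h1 hε hε' hεs]
      push_cast
      rfl
    have hcard : (Fintype.piFinset (fun i => bx (a i))).card < p := by
      rw [Fintype.card_piFinset]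
      simp only [card_bx]
      exact hc
    have hev : T.eval 1 = (((Fintype.piFinset (fun i => bx (a i))).card : ℕ) : ZMod p) := by
      rw [hT, Polynomial.eval_finsetSum]
      simp
    have hbox := box_ne (Fintype.piFinset (fun i => bx (a i))) hcard x r v hv hv'
    have hm := mult (s - ε) r T Q hQ0 hdvd (by rw [hev]; exact hbox)
    calc p ^ s = p ^ (s - ε) * p ^ ε := by rw [← pow_add]; congr 1; omega
      _ ≤ Q.natDegree * p ^ r * p ^ ε := Nat.mul_le_mul_right _ hm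
      _ = p ^ (ε + r) * Q.natDegree := by rw [pow_add]; ring
      _ ≤ p ^ (ε + r) * (Q.natDegree + 1) := Nat.mul_le_mul_left _ (by omega)

end Pool.Agent.Lib.MP_06b9d2_nt.ME
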