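import Pool.Agent.Lib.MP_06b9d2_nt.ME.Defs

/-!
Module ME-GrA (MP_06b9d2_nt, Maeda, all Hecke operators). Products in the group ring.

`lin_single`: `Finsupp.sum_single_index`. `E_mul`: `AddMonoidAlgebra.single_mul_single`, `Pi.single_add`. `bx_sum`: `Finset.sum_image` (`r ↦ j - 2 r` is injective). `UU_eq`, `XX_eq`: `Finset.prod_univ_sum` and `∏ i, single (Pi.single i (v i)) 1 = single v 1` (`∑ i, Pi.single i (v i) = v`, `Finset.univ_sum_single`); for `XX` write the factor at `o` as the sum over `{m o + 1}`. `Ux_mul` (Clebsch-Gordan): by induction on `j` from `Ux 1 * Ux (k + 1) = Ux (k + 2) + Ux k`. `UU_mul`: `Finset.prod_mul_distrib`, `Ux_mul`, `Finset.prod_univ_sum`.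
-/

namespace Pool.Agent.Lib.MP_06b9d2_nt.ME



variable {ι : Type} [Fintype ι] [DecidableEq ι] {p : ℕ}

theorem lin_single (F : (ι → ℤ) → ZMod p) (g : ι → ℤ) (c : ZMod p) :
    lin F (AddMonoidAlgebra.single g c) = c * F g := by
  show (AddMonoidAlgebra.single g c).coeff.sum (fun g c => c * F g) = _
  rw [AddMonoidAlgebra.coeff_single, Finsupp.sum_single_index]
  exact zero_mul _

theorem E_mul (i : ι) (x y : ℤ) : E p i x * E p i y = E p i (x + y) := by
  unfold E
  rw [AddMonoidAlgebra.single_mul_single, one_mul, Pi.single_add]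

theorem E_zero (i : ι) : E p i 0 = 1 := by
  unfold E
  rw [Pi.single_zero]
  rfl

theorem EU (i : ι) (j : ℕ) :
    (E p i 1 - E p i (-1)) * Ux p i j = E p i ((j : ℤ) + 1) - E p i (-((j : ℤ) + 1)) := by
  unfold Ux
  rw [Finset.mul_sum]
  have h := Finset.sum_range_sub' (fun r : ℕ => E p i ((j : ℤ) + 1 - 2 * r)) (j + 1)
  have e0 : (fun r : ℕ => E p i ((j : ℤ) + 1 - 2 * r)) 0 = E p i ((j : ℤ) + 1) := by
    simp
  have e1 : (fun r : ℕ => E p i ((j : ℤ) + 1 - 2 * r)) (j + 1) = E p i (-((j : ℤ) + 1)) := by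
    show E p i ((j : ℤ) + 1 - 2 * ((j + 1 : ℕ) : ℤ)) = _
    congr 1
    push_cast
    ring
  rw [← e0, ← e1, ← h]
  refine Finset.sum_congr rfl fun r _ => ?_
  rw [sub_mul, E_mul, E_mul]
  congr 2
  · ring
  · push_cast
    ring

private theorem Ux_zero (i : ι) : Ux p i 0 = 1 := by
  unfold Ux
  rw [zero_add, Finset.sum_range_one]
  simp [E_zero]

private theorem Ux_one (i : ι) : Ux p i 1 = E p i 1 + E p i (-1) := by
  unfold Ux
  rw [Finset.sum_range_succ, Finset.sum_range_one]
  norm_num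

private theorem Ux_succ (i : ι) (j : ℕ) :
    Ux p i (j + 1) = E p i 1 * Ux p i j + E p i (-((j : ℤ) + 1)) := by
  unfold Ux
  rw [Finset.sum_range_succ, Finset.mul_sum]
  congr 1
  · refine Finset.sum_congr rfl fun r _ => ?_
    rw [E_mul]
    congr 1
    push_cast
    ring
  · congr 1
    push_cast
    ring

private theorem Ux_three (i : ι) (j : ℕ) :
    Ux p i 1 * Ux p i (j + 1) = Ux p i (j + 2) + Ux p i j := by
  have h1 := Ux_succ (p := p) i (j + 1)
  have h2 := Ux_succ (p := p) i j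
  have e1 : E p i (-1) * E p i 1 = 1 := by
    rw [E_mul, neg_add_cancel, E_zero]
  have e2 : E p i (-1) * E p i (-((j : ℤ) + 1)) = E p i (-(((j + 1 : ℕ) : ℤ) + 1)) := by
    rw [E_mul]
    congr 1
    push_cast
    ring
  rw [Ux_one, add_mul]
  have h3 : E p i (-1) * Ux p i (j + 1) = Ux p i j + E p i (-(((j + 1 : ℕ) : ℤ) + 1)) := by
    rw [h2, mul_add, ← mul_assoc, e1, one_mul, e2]
  rw [h3]
  have h4 : Ux p i (j + 2) = E p i 1 * Ux p i (j + 1) + E p i (-(((j + 1 : ℕ) : ℤ) + 1)) := h1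
  rw [h4]
  ring

private theorem Ux_mul_le (i : ι) (j k : ℕ) : (j ≤ k →
    Ux p i j * Ux p i k = ∑ d ∈ Finset.range (j + 1), Ux p i (j + k - 2 * d)) := by
  induction j using Nat.strong_induction_on with
  | _ j ih =>
    intro hjk
    match j, ih, hjk with
    | 0, _, _ =>
      rw [Ux_zero, one_mul]
      simp
    | 1, _, hjk =>
      obtain ⟨k, rfl⟩ : ∃ k', k = k' + 1 := ⟨k - 1, by omega⟩
      rw [Ux_three, Finset.sum_range_succ, Finset.sum_range_one]
      congr 2
      · omega
      · omega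
    | j + 2, ih, hjk =>
      have h0 := ih j (by omega) (by omega)
      have h1 := ih (j + 1) (by omega) (by omega)
      have h2 := Ux_three (p := p) i j
      have h3 : Ux p i (j + 2) * Ux p i k =
          Ux p i 1 * (Ux p i (j + 1) * Ux p i k) - Ux p i j * Ux p i k := by
        rw [← mul_assoc, h2]
        ring
      rw [h3, h0, h1, Finset.mul_sum]
      have h4 : ∀ d ∈ Finset.range (j + 1 + 1), Ux p i 1 * Ux p i (j + 1 + k - 2 * d) =
          Ux p i (j + 2 + k - 2 * d) + Ux p i (j + k - 2 * d) := by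
        intro d hd
        rw [Finset.mem_range] at hd
        obtain ⟨m, hm⟩ : ∃ m, j + 1 + k - 2 * d = m + 1 := ⟨j + k - 2 * d, by omega⟩
        rw [hm, Ux_three]
        congr 2
        · omega
        · omega
      rw [Finset.sum_congr rfl h4, Finset.sum_add_distrib,
        Finset.sum_range_succ (fun d => Ux p i (j + k - 2 * d)) (j + 1),
        Finset.sum_range_succ (fun d => Ux p i (j + 2 + k - 2 * d)) (j + 2)]
      have h5 : j + k - 2 * (j + 1) = j + 2 + k - 2 * (j + 2) := by omega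
      rw [h5]
      ring

theorem Ux_mul (i : ι) (j k : ℕ) :
    Ux p i j * Ux p i k = ∑ d ∈ Finset.range (min j k + 1), Ux p i (j + k - 2 * d) := by
  rcases le_total j k with h | h
  · rw [min_eq_left h]
    exact Ux_mul_le i j k h
  · rw [min_eq_right h, mul_comm, add_comm j k]
    exact Ux_mul_le i k j h

theorem UU_mul (m a : ι → ℕ) :
    UU p m * UU p a = ∑ d ∈ Fintype.piFinset (fun i => Finset.range (min (m i) (a i) + 1)),
      UU p (fun i => m i + a i - 2 * d i) := by
  unfold UU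
  rw [← Finset.prod_mul_distrib]
  simp_rw [Ux_mul]
  rw [Finset.prod_univ_sum]

theorem Ux_eq (i : ι) (j : ℕ) : Ux p i j = ∑ x ∈ bx j, E p i x := by
  unfold Ux bx
  rw [Finset.sum_image]
  intro r _ s _ h
  have : (j : ℤ) - 2 * (r : ℤ) = (j : ℤ) - 2 * (s : ℤ) := h
  omega

private theorem prod_E (v : ι → ℤ) (s : Finset ι) :
    ∏ i ∈ s, E p i (v i) = AddMonoidAlgebra.single (∑ i ∈ s, Pi.single i (v i)) 1 := by
  induction s using Finset.induction_on with
  | empty =>
    rw [Finset.prod_empty, Finset.sum_empty]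
    rfl
  | insert i s hi ih =>
    rw [Finset.prod_insert hi, Finset.sum_insert hi, ih, E,
      AddMonoidAlgebra.single_mul_single, one_mul]

private theorem prod_E_univ (v : ι → ℤ) :
    ∏ i, E p i (v i) = AddMonoidAlgebra.single v 1 := by
  rw [prod_E, Finset.univ_sum_single]

theorem UU_eq (m : ι → ℕ) :
    UU p m = ∑ v ∈ Fintype.piFinset (fun i => bx (m i)), AddMonoidAlgebra.single v 1 := by
  unfold UU
  simp_rw [Ux_eq]
  rw [Finset.prod_univ_sum]
  exact Finset.sum_congr rfl fun v _ => prod_E_univ v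

theorem lin_XX (F : (ι → ℤ) → ZMod p) (o : ι) (m : ι → ℕ) :
    lin F (XX p o m) = ∑ v ∈ Fintype.piFinset
      (fun i => if i = o then {(m o : ℤ) + 1} else bx (m i)), F v := by
  have h1 : XX p o m = ∏ i, ∑ x ∈ (if i = o then {(m o : ℤ) + 1} else bx (m i) : Finset ℤ),
      E p i x := by
    unfold XX
    refine Finset.prod_congr rfl fun i _ => ?_
    by_cases h : i = o
    · subst h
      rw [if_pos rfl, if_pos rfl, Finset.sum_singleton]
    · rw [if_neg h, if_neg h, Ux_eq]
  rw [h1, Finset.prod_univ_sum, map_sum]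
  refine Finset.sum_congr rfl fun v _ => ?_
  rw [prod_E_univ, lin_single, one_mul]

end Pool.Agent.Lib.MP_06b9d2_nt.ME
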