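import Pool.Agent.Lib.MP_06b9d2_nt.ME.Defs

/-!
Module ME-PPa (MP_06b9d2_nt, Maeda, all Hecke operators). From positive pairs to the pairs of `AP`.

Bijection of `PP (p ^ (2 s + 1)) M` with the elements of `AP p M` with `p ^ s ∣ A.2`: `(x, y) ↦ (x, ε p ^ s y)` with `ε = ± 1` such that `4 ∣ x - ε p ^ s y` (both are odd, so exactly one sign is right); inverse `A ↦ (A.1, |A.2| / p ^ s)`. `nm p (x, ε p ^ s y) = x ^ 2 + p ^ (2 s + 1) y ^ 2`. The terms: `A.1 * (A.2 / p ^ s) = ε x y`, and modulo `4`: `p = -1`, so `x = ε (-1) ^ s y`; for odd positive `x`, `y`: `(-1) ^ (x / 2) (-1) ^ (y / 2)` is `1` if `x = y` modulo `4` and `-1` otherwise, i.e. it is `ε (-1) ^ s`. The ranges: `|A.2| ≤ 8 M` since `A.2 ^ 2 ≤ p A.2 ^ 2 ≤ 8 M`. `Finset.sum_bij'` or `Finset.sum_nbij'`.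
-/

namespace Pool.Agent.Lib.MP_06b9d2_nt.ME

/-- the sign -/
private def sg (a b : ℤ) : ℤ := if (4 : ℤ) ∣ a - b then 1 else -1

private theorem sg_cases (a b : ℤ) : sg a b = 1 ∨ sg a b = -1 := by
  unfold sg
  split_ifs
  · exact Or.inl rfl
  · exact Or.inr rfl

private theorem sg_dvd {a b : ℤ} (ha : Odd a) (hb : Odd b) : (4 : ℤ) ∣ a - sg a b * b := by
  unfold sg
  split_ifs with h
  · rwa [one_mul]
  · obtain ⟨k, rfl⟩ := ha
    obtain ⟨l, rfl⟩ := hb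
    omega

private theorem half_sgn {x : ℕ} (hx : Odd x) : (4 : ℤ) ∣ (x : ℤ) - (-1) ^ (x / 2) := by
  obtain ⟨k, rfl⟩ := hx
  have h1 : (2 * k + 1) / 2 = k := by omega
  rw [h1]
  rcases Nat.even_or_odd k with h | h
  · rw [h.neg_one_pow]
    obtain ⟨l, rfl⟩ := h
    push_cast
    omega
  · rw [h.neg_one_pow]
    obtain ⟨l, rfl⟩ := h
    push_cast
    omega

private theorem pow_sgn {p : ℕ} (h4 : p % 4 = 3) (s : ℕ) : (4 : ℤ) ∣ (p : ℤ) ^ s - (-1) ^ s := by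
  have h : (4 : ℤ) ∣ (p : ℤ) - (-1) := by omega
  exact h.trans (sub_dvd_pow_sub_pow _ _ s)

private theorem sgn_mul (a b : ℕ) : (-1 : ℤ) ^ a * (-1) ^ b = 1 ∨ (-1 : ℤ) ^ a * (-1) ^ b = -1 := by
  rw [← pow_add]
  exact neg_one_pow_eq_or ℤ _

private theorem sgn_eq {p : ℕ} (h4 : p % 4 = 3) (s : ℕ) {x y : ℕ} (hx : Odd x) (hy : Odd y)
    (hd : (4 : ℤ) ∣ (x : ℤ) - sg x ((p : ℤ) ^ s * y) * ((p : ℤ) ^ s * y)) :
    (-1 : ℤ) ^ (x / 2) * (-1 : ℤ) ^ (y / 2) = (-1) ^ s * sg x ((p : ℤ) ^ s * y) := by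
  set e : ℤ := sg x ((p : ℤ) ^ s * y) with he
  have h1 := half_sgn hx
  have h2 := half_sgn hy
  have h3 := pow_sgn h4 s
  have he1 : e = 1 ∨ e = -1 := sg_cases _ _
  have hs : (-1 : ℤ) ^ s = 1 ∨ (-1 : ℤ) ^ s = -1 := neg_one_pow_eq_or ℤ _
  have ha : (-1 : ℤ) ^ (x / 2) = 1 ∨ (-1 : ℤ) ^ (x / 2) = -1 := neg_one_pow_eq_or ℤ _
  have hb : (-1 : ℤ) ^ (y / 2) = 1 ∨ (-1 : ℤ) ^ (y / 2) = -1 := neg_one_pow_eq_or ℤ _
  -- `(-1)^(x/2) ≡ e (-1)^s (-1)^(y/2)` modulo 4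
  have h5 : (4 : ℤ) ∣ (-1 : ℤ) ^ (x / 2) - e * ((-1) ^ s * (-1) ^ (y / 2)) := by
    have h6 : (-1 : ℤ) ^ (x / 2) - e * ((-1) ^ s * (-1) ^ (y / 2)) =
        ((x : ℤ) - e * ((p : ℤ) ^ s * y)) - ((x : ℤ) - (-1) ^ (x / 2)) +
        e * (y * ((p : ℤ) ^ s - (-1) ^ s)) + e * ((-1) ^ s * ((y : ℤ) - (-1) ^ (y / 2))) := by ring
    rw [h6]
    exact dvd_add (dvd_add (dvd_sub hd h1) ((h3.mul_left _).mul_left _)) ((h2.mul_left _).mul_left _)
  generalize (-1 : ℤ) ^ (x / 2) = a at *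
  generalize (-1 : ℤ) ^ (y / 2) = b at *
  generalize (-1 : ℤ) ^ s = c at *
  rcases ha with rfl | rfl <;> rcases hb with rfl | rfl <;> rcases hs with rfl | rfl <;>
    rcases he1 with h | h <;> rw [h] at h5 ⊢ <;> omega

private theorem nm_eq (p s : ℕ) (x c e : ℤ) (he : e = 1 ∨ e = -1) :
    nm p (x, e * ((p : ℤ) ^ s * c)) = x ^ 2 + ((p ^ (2 * s + 1) : ℕ) : ℤ) * c ^ 2 := by
  unfold nm
  have h : e ^ 2 = 1 := by rcases he with rfl | rfl <;> norm_num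
  push_cast
  calc x ^ 2 + (p : ℤ) * (e * ((p : ℤ) ^ s * c)) ^ 2
      = x ^ 2 + e ^ 2 * ((p : ℤ) * ((p : ℤ) ^ s) ^ 2 * c ^ 2) := by ring
    _ = x ^ 2 + (p : ℤ) ^ (2 * s + 1) * c ^ 2 := by rw [h]; ring

theorem pp_ap {p : ℕ} (hp : 0 < p) (h4 : p % 4 = 3) (s M : ℕ) :
    ∑ q ∈ PP (p ^ (2 * s + 1)) M, (-1 : ℤ) ^ (q.1 / 2) * (-1 : ℤ) ^ (q.2 / 2) *
        ((q.1 : ℤ) * (q.2 : ℤ)) =
      (-1) ^ s * ∑ A ∈ (AP p M).filter (fun A => (p : ℤ) ^ s ∣ A.2),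
        A.1 * (A.2 / (p : ℤ) ^ s) := by
  have hpo : Odd (p : ℤ) := ⟨(p / 2 : ℕ), by omega⟩
  have hps : Odd ((p : ℤ) ^ s) := hpo.pow
  have hp0 : (0 : ℤ) < (p : ℤ) ^ s := by positivity
  have hp1 : (1 : ℤ) ≤ (p : ℤ) := by exact_mod_cast hp
  rw [Finset.mul_sum]
  refine Finset.sum_nbij' (i := fun q : ℕ × ℕ =>
      ((q.1 : ℤ), sg q.1 ((p : ℤ) ^ s * q.2) * ((p : ℤ) ^ s * q.2)))
    (j := fun A : ℤ × ℤ => (A.1.natAbs, (A.2 / (p : ℤ) ^ s).natAbs)) ?_ ?_ ?_ ?_ ?_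
  · -- into `AP`
    rintro ⟨x, y⟩ hq
    simp only [PP, Finset.mem_filter, Finset.mem_product, Finset.mem_range] at hq
    obtain ⟨⟨hx, hy⟩, hox, hoy, he⟩ := hq
    have hoxi : Odd (x : ℤ) := by exact_mod_cast hox
    have hoyi : Odd (y : ℤ) := by exact_mod_cast hoy
    have hob : Odd ((p : ℤ) ^ s * y) := hps.mul hoyi
    have hsg := sg_cases (x : ℤ) ((p : ℤ) ^ s * y)
    have hnm := nm_eq p s (x : ℤ) (y : ℤ) _ hsg
    have hei : (x : ℤ) ^ 2 + ((p ^ (2 * s + 1) : ℕ) : ℤ) * (y : ℤ) ^ 2 = 8 * M := by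
      exact_mod_cast he
    rw [hei] at hnm
    have hx0 : (0 : ℤ) < x := by
      have := hox.pos
      exact_mod_cast this
    have hb0 : (0 : ℤ) < (p : ℤ) ^ s * y := by
      have h1 : (0 : ℤ) < y := by
        have := hoy.pos
        exact_mod_cast this
      positivity
    have hbnd : (p : ℤ) ^ s * y ≤ 8 * M := by
      have h1 : (p : ℤ) * ((p : ℤ) ^ s * y) ^ 2 ≤ 8 * M := by
        have h2 : ((p ^ (2 * s + 1) : ℕ) : ℤ) * (y : ℤ) ^ 2 = (p : ℤ) * ((p : ℤ) ^ s * y) ^ 2 := by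
          push_cast
          ring
        rw [h2] at hei
        nlinarith [sq_nonneg (x : ℤ)]
      have h3 : ((p : ℤ) ^ s * y) ≤ ((p : ℤ) ^ s * y) ^ 2 := by nlinarith
      nlinarith [sq_nonneg ((p : ℤ) ^ s * y)]
    simp only [Finset.mem_filter, AP, Finset.mem_product, Finset.mem_Icc]
    refine ⟨⟨⟨⟨(by omega), (by omega)⟩, ?_⟩, hx0, hoxi, ?_, sg_dvd hoxi hob, hnm⟩, ?_⟩
    · rcases hsg with h | h <;> rw [h] <;> constructor <;> linarith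
    · rcases hsg with h | h <;> rw [h]
      · rwa [one_mul]
      · rw [neg_one_mul]
        exact hob.neg
    · exact Dvd.dvd.mul_left (dvd_mul_right _ _) _
  · -- into `PP`
    rintro ⟨a, b⟩ hA
    simp only [Finset.mem_filter, AP, Finset.mem_product, Finset.mem_Icc] at hA
    obtain ⟨⟨⟨⟨ha1, ha2⟩, hb1, hb2⟩, ha0, hoa, hob, hd, hn⟩, c, hc⟩ := hA
    subst hc
    have hdiv : (p : ℤ) ^ s * c / (p : ℤ) ^ s = c := Int.mul_ediv_cancel_left _ hp0.ne'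
    have hoc : Odd c := (Int.odd_mul.1 hob).2
    simp only [PP, Finset.mem_filter, Finset.mem_product, Finset.mem_range, hdiv]
    have hnm := nm_eq p s a c 1 (Or.inl rfl)
    rw [one_mul, hn] at hnm
    have hcb : |c| ≤ 8 * M := by
      have h1 : |c| ≤ |(p : ℤ) ^ s * c| := by
        rw [abs_mul, abs_of_pos hp0]
        have := abs_nonneg c
        nlinarith
      exact h1.trans (abs_le.2 ⟨hb1, hb2⟩)
    have hcb' : ((c.natAbs : ℕ) : ℤ) ≤ 8 * M := by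
      rw [Int.natCast_natAbs]
      exact hcb
    refine ⟨⟨by omega, by omega⟩, Int.natAbs_odd.2 hoa, Int.natAbs_odd.2 hoc, ?_⟩
    zify
    rw [sq_abs, sq_abs]
    push_cast at hnm
    linarith
  · -- left inverse
    rintro ⟨x, y⟩ hq
    have hsg := sg_cases (x : ℤ) ((p : ℤ) ^ s * y)
    simp only [Int.natAbs_natCast, Prod.mk.injEq, true_and]
    rcases hsg with h | h <;> rw [h]
    · rw [one_mul, Int.mul_ediv_cancel_left _ hp0.ne', Int.natAbs_natCast]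
    · rw [show (-1 : ℤ) * ((p : ℤ) ^ s * y) = (p : ℤ) ^ s * (-y) by ring,
        Int.mul_ediv_cancel_left _ hp0.ne', Int.natAbs_neg, Int.natAbs_natCast]
  · -- right inverse
    rintro ⟨a, b⟩ hA
    simp only [Finset.mem_filter, AP, Finset.mem_product, Finset.mem_Icc] at hA
    obtain ⟨⟨⟨⟨ha1, ha2⟩, hb1, hb2⟩, ha0, hoa, hob, hd, hn⟩, c, hc⟩ := hA
    subst hc
    have hdiv : (p : ℤ) ^ s * c / (p : ℤ) ^ s = c := Int.mul_ediv_cancel_left _ hp0.ne'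
    have hoc : Odd c := (Int.odd_mul.1 hob).2
    have haa : ((a.natAbs : ℕ) : ℤ) = a := by omega
    simp only [hdiv, haa, Prod.mk.injEq, true_and]
    rcases le_or_gt 0 c with h0 | h0
    · have hcc : ((c.natAbs : ℕ) : ℤ) = c := by omega
      rw [hcc, sg, if_pos hd, one_mul]
    · have hcc : ((c.natAbs : ℕ) : ℤ) = -c := by omega
      have hnd : ¬ (4 : ℤ) ∣ a - (p : ℤ) ^ s * -c := by
        intro h
        have h1 : (4 : ℤ) ∣ (a - (p : ℤ) ^ s * c) + (a - (p : ℤ) ^ s * -c) := dvd_add hd h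
        have h2 : (a - (p : ℤ) ^ s * c) + (a - (p : ℤ) ^ s * -c) = 2 * a := by ring
        rw [h2] at h1
        obtain ⟨k, rfl⟩ := hoa
        omega
      rw [hcc, sg, if_neg hnd]
      ring
  · -- the terms
    rintro ⟨x, y⟩ hq
    simp only [PP, Finset.mem_filter, Finset.mem_product, Finset.mem_range] at hq
    obtain ⟨⟨hx, hy⟩, hox, hoy, he⟩ := hq
    have hoxi : Odd (x : ℤ) := by exact_mod_cast hox
    have hoyi : Odd (y : ℤ) := by exact_mod_cast hoy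
    have hob : Odd ((p : ℤ) ^ s * y) := hps.mul hoyi
    have hd := sg_dvd hoxi hob
    have hdiv : (sg (x : ℤ) ((p : ℤ) ^ s * y) * ((p : ℤ) ^ s * y)) / (p : ℤ) ^ s =
        sg (x : ℤ) ((p : ℤ) ^ s * y) * y := by
      rw [show sg (x : ℤ) ((p : ℤ) ^ s * y) * ((p : ℤ) ^ s * y) =
        (p : ℤ) ^ s * (sg (x : ℤ) ((p : ℤ) ^ s * y) * y) by ring,
        Int.mul_ediv_cancel_left _ hp0.ne']
    simp only
    rw [hdiv, sgn_eq h4 s hox hoy hd]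
    ring

end Pool.Agent.Lib.MP_06b9d2_nt.ME
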