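import Pool.Agent.Lib.MP_06b9d2_nt.ME.FrobP
import Pool.Agent.Lib.MP_06b9d2_nt.MD.Coef

/-!
Module ME-PPc (MP_06b9d2_nt, Maeda, all Hecke operators). The coefficients of `Δ ^ N` as a sum over `x ^ 2 + P y ^ 2 = 8 M`.

`frobP`, and `Fz_tri`, `Fz_ne` (`MD/Coef.lean`, they do not depend on the prime `7`): `coeff i Fz` is `(-1) ^ u (2 u + 1)` for `i = u (u + 1) / 2` and `0` if `i` is not of this form. For odd `x = 2 u + 1`: `x / 2 = u`, `x ^ 2 = 8 i + 1`. If `M < N`: the set `PP P M` is empty (`x ^ 2 + P y ^ 2 ≥ 1 + P = 8 N > 8 M`). If `N ≤ M`: the map `(x, y) ↦ ((x ^ 2 - 1) / 8, P * ((y ^ 2 - 1) / 8))` is injective from `PP P M` to the antidiagonal of `M - N` (`8 M = x ^ 2 + P y ^ 2 = (8 i + 1) + P (8 l + 1)`), the terms agree, and the terms outside of the image are `0` (`Finset.sum_bij_ne_zero`, or `Finset.sum_subset` and `Finset.sum_image`/`Finset.sum_nbij`). For an `x ≥ 0` with `x ^ 2 ≤ 8 M` we have `x ≤ 8 M` (for the ranges in `PP`).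
-/

namespace Pool.Agent.Lib.MP_06b9d2_nt.ME

open Pool.Agent.L1

private theorem odd_tri (x : ℕ) (hx : Odd x) :
    ∃ u i : ℕ, x = 2 * u + 1 ∧ x / 2 = u ∧ u * (u + 1) = 2 * i ∧ x ^ 2 = 8 * i + 1 := by
  obtain ⟨u, hu⟩ := hx
  obtain ⟨i, hi⟩ : ∃ m, u * (u + 1) = 2 * m := (Nat.even_mul_succ_self u).two_dvd
  refine ⟨u, i, hu, by omega, hi, ?_⟩
  rw [hu]
  nlinarith

private theorem sq_tri (u i : ℕ) (h : u * (u + 1) = 2 * i) : (2 * u + 1) ^ 2 = 8 * i + 1 := by
  nlinarith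

theorem coef_pp {p : ℕ} [Fact p.Prime] (h : p % 8 = 7) (s M : ℕ) :
    ((PowerSeries.coeff M (Delz ^ Np p s) : ℤ) : ZMod p) =
      ((∑ q ∈ PP (p ^ (2 * s + 1)) M, (-1 : ℤ) ^ (q.1 / 2) * (-1 : ℤ) ^ (q.2 / 2) *
        ((q.1 : ℤ) * (q.2 : ℤ)) : ℤ) : ZMod p) := by
  have h8 := eight_Np h s
  have hp : 0 < p := (Fact.out : p.Prime).pos
  rw [frobP h s M]
  have hP : 0 < p ^ (2 * s + 1) := by positivity
  generalize p ^ (2 * s + 1) = P at *
  generalize Np p s = N at *
  split_ifs with hNM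
  · rw [Int.cast_sum]
    symm
    apply Finset.sum_of_injOn (fun q : ℕ × ℕ => ((q.1 ^ 2 - 1) / 8, P * ((q.2 ^ 2 - 1) / 8)))
    · rintro ⟨x, y⟩ hx ⟨x', y'⟩ hx' he
      rw [Finset.mem_coe, PP, Finset.mem_filter] at hx hx'
      obtain ⟨_, hxo, hyo, _⟩ := hx
      obtain ⟨_, hxo', hyo', _⟩ := hx'
      obtain ⟨u, i, hu, _, hi, hxi⟩ := odd_tri x hxo
      obtain ⟨v, l, hv, _, hl, hyl⟩ := odd_tri y hyo
      obtain ⟨u', i', hu', _, hi', hxi'⟩ := odd_tri x' hxo'
      obtain ⟨v', l', hv', _, hl', hyl'⟩ := odd_tri y' hyo'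
      simp only [Prod.mk.injEq] at he
      rw [hxi, hyl, hxi', hyl'] at he
      have e1 : i = i' := by
        have := he.1
        omega
      have e2 : l = l' := by
        have h2 := Nat.eq_of_mul_eq_mul_left hP he.2
        omega
      have e3 : x ^ 2 = x' ^ 2 := by rw [hxi, hxi', e1]
      have e4 : y ^ 2 = y' ^ 2 := by rw [hyl, hyl', e2]
      rw [Prod.mk.injEq]
      exact ⟨Nat.pow_left_injective two_ne_zero e3, Nat.pow_left_injective two_ne_zero e4⟩
    · rintro ⟨x, y⟩ hx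
      rw [Finset.mem_coe, PP, Finset.mem_filter] at hx
      obtain ⟨_, hxo, hyo, hxy⟩ := hx
      obtain ⟨u, i, hu, _, hi, hxi⟩ := odd_tri x hxo
      obtain ⟨v, l, hv, _, hl, hyl⟩ := odd_tri y hyo
      simp only at hxy
      rw [Finset.mem_coe, Finset.HasAntidiagonal.mem_antidiagonal]
      simp only
      rw [hxi, hyl]
      rw [hxi, hyl] at hxy
      have e1 : (8 * i + 1 - 1) / 8 = i := by omega
      have e2 : (8 * l + 1 - 1) / 8 = l := by omega
      rw [e1, e2]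
      have e3 : P * (8 * l + 1) = 8 * (P * l) + P := by ring
      rw [e3] at hxy
      omega
    · rintro ⟨i, j⟩ hij hn
      by_contra hc
      apply hn
      simp only at hc
      have h1 := left_ne_zero_of_mul hc
      have h2 := right_ne_zero_of_mul hc
      have h3 : P ∣ j := by
        by_contra hc
        exact h2 (if_neg hc)
      rw [if_pos h3] at h2
      obtain ⟨u, hu⟩ := Fz_ne i (fun hc => h1 (by rw [hc, Int.cast_zero]))
      obtain ⟨v, hv⟩ := Fz_ne (j / P) (fun hc => h2 (by rw [hc, Int.cast_zero]))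
      obtain ⟨l, hl⟩ := h3
      have hjl : j / P = l := by rw [hl, Nat.mul_div_cancel_left _ hP]
      rw [hjl] at hv
      have hx := sq_tri u i hu
      have hy := sq_tri v l hv
      rw [Finset.HasAntidiagonal.mem_antidiagonal] at hij
      simp only at hij
      have key : (2 * u + 1) ^ 2 + P * (2 * v + 1) ^ 2 = 8 * M := by
        rw [hx, hy]
        have e3 : P * (8 * l + 1) = 8 * (P * l) + P := by ring
        rw [e3, ← hl]
        omega
      refine ⟨(2 * u + 1, 2 * v + 1), ?_, ?_⟩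
      · rw [Finset.mem_coe, PP, Finset.mem_filter, Finset.mem_product, Finset.mem_range,
          Finset.mem_range]
        simp only
        refine ⟨⟨?_, ?_⟩, ⟨u, rfl⟩, ⟨v, rfl⟩, key⟩
        · have : 2 * u + 1 ≤ (2 * u + 1) ^ 2 := Nat.le_self_pow two_ne_zero _
          omega
        · have h4 : 2 * v + 1 ≤ (2 * v + 1) ^ 2 := Nat.le_self_pow two_ne_zero _
          have h5 : (2 * v + 1) ^ 2 ≤ P * (2 * v + 1) ^ 2 := Nat.le_mul_of_pos_left _ hP
          omega
      · simp only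
        rw [hx, hy]
        have e1 : (8 * i + 1 - 1) / 8 = i := by omega
        have e2 : (8 * l + 1 - 1) / 8 = l := by omega
        rw [e1, e2, hl]
    · rintro ⟨x, y⟩ hx
      rw [PP, Finset.mem_filter] at hx
      obtain ⟨_, hxo, hyo, hxy⟩ := hx
      obtain ⟨u, i, hu, hu2, hi, hxi⟩ := odd_tri x hxo
      obtain ⟨v, l, hv, hv2, hl, hyl⟩ := odd_tri y hyo
      simp only
      rw [hxi, hyl]
      have e1 : (8 * i + 1 - 1) / 8 = i := by omega
      have e2 : (8 * l + 1 - 1) / 8 = l := by omega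
      rw [e1, e2, if_pos (Dvd.intro _ rfl), Nat.mul_div_cancel_left _ hP, hu2, hv2]
      have hi' : i = u * (u + 1) / 2 := by omega
      have hl' : l = v * (v + 1) / 2 := by omega
      rw [hi', hl', Fz_tri, Fz_tri, hu, hv]
      push_cast
      ring
  · have hempty : PP P M = ∅ := by
      rw [PP, Finset.filter_eq_empty_iff]
      rintro ⟨x, y⟩ _ ⟨hxo, hyo, hxy⟩
      simp only at hxo hyo hxy
      have h1 : 1 ≤ x ^ 2 := Nat.one_le_pow _ _ hxo.pos
      have h2 : 1 ≤ y ^ 2 := Nat.one_le_pow _ _ hyo.pos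
      have h3 : P * 1 ≤ P * y ^ 2 := Nat.mul_le_mul_left _ h2
      omega
    rw [hempty, Finset.sum_empty, Int.cast_zero]

end Pool.Agent.Lib.MP_06b9d2_nt.ME
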