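import Pool.Agent.Lib.MP_06b9d2_nt.ME.Phi

/-!
Module ME-PhM (MP_06b9d2_nt, Maeda, all Hecke operators). Multiplication by `p`.

For `A` with `p ^ s ∣ A.2` define the powers `A ^ j` (`pw p A 0 = (1, 0)`, `pw p A (j + 1) = mu p (pw p A j) A`). By induction: `Su p n (pw p A j)`, `ev p n (pw p A j) = j • ev p n A` (`ev_mu`; `ev p n (1, 0) = 0`), and modulo `p ^ (2 s + 1)`: `(A ^ j).1 = A.1 ^ j`, and modulo `p ^ (3 s + 1)`: `(A ^ j).2 = j A.1 ^ (j - 1) A.2` (the error terms are `p A.2 (A ^ j).2`, divisible by `p ^ (2 s + 1)`, and `A.2` times it, divisible by `p ^ (3 s + 1)`). For convenience prove: `p ^ (2 s + 1) ∣ (A ^ j).1 - A.1 ^ j`, `p ^ s ∣ (A ^ j).2` and `p ^ (3 s + 1) ∣ A.1 * (A ^ j).2 - j * A.1 ^ j * A.2`.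
For `j = p`, `s ≥ 1` (`3 s + 1 ≥ s + 2`): `A.1 (A ^ p).2 ≡ p A.1 ^ p A.2` modulo `p ^ (s + 2)`, so `p ^ (s + 1) ∣ (A ^ p).2` (`p ∤ A.1`) and `A.1 * ((A ^ p).2 / p ^ (s + 1)) ≡ A.1 ^ p (A.2 / p ^ s)` modulo `p`; and `(A ^ p).1 ≡ A.1 ^ p` modulo `p`. So by `ph_eq` both sides of `ph_mulp` agree. `Fl_mulp_zero` (`s = 0`): `p ∣ A.1 (A ^ p).2 - p A.1 ^ p A.2`, so `p ∣ (A ^ p).2`.
`Fl_inj`: `v = ev p n A` (take `s = 0`), `p ^ s ∣ A.2` for all `s` (`Fl_iff`), so `A.2 = 0` (a nonzero integer is not divisible by all powers), and then `ev p n A = 0` by the definition.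
-/

namespace Pool.Agent.Lib.MP_06b9d2_nt.ME

/-- the powers of `A` -/
private def pw (p : ℕ) (A : ℤ × ℤ) : ℕ → ℤ × ℤ
  | 0 => (1, 0)
  | j + 1 => mu p (pw p A j) A

private theorem pw_zero (p : ℕ) (A : ℤ × ℤ) : pw p A 0 = (1, 0) := rfl

private theorem pw_succ (p : ℕ) (A : ℤ × ℤ) (j : ℕ) : pw p A (j + 1) = mu p (pw p A j) A := rfl

private theorem pw_Su {p n : ℕ} {A : ℤ × ℤ} (hA : Su p n A) (j : ℕ) : Su p n (pw p A j) := by
  induction j with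
  | zero =>
    rw [pw_zero]
    refine ⟨by simp [nm], fun q hq hd => ?_⟩
    have h1 : nm p (1, 0) = 1 := by simp [nm]
    rw [h1] at hd
    have h2 : q ∣ 1 := by exact_mod_cast hd
    exact absurd (Nat.dvd_one.1 h2) hq.one_lt.ne'
  | succ j ih =>
    rw [pw_succ]
    exact Su_mu ih hA

private theorem ev_rat (p n : ℕ) (a : ℤ) : ev p n (a, 0) = 0 := by
  funext l
  simp [ev]

private theorem ev_pw {p n : ℕ} (h8 : 8 * n ∣ p + 1) {A : ℤ × ℤ} (hA : Su p n A) (j : ℕ) :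
    ev p n (pw p A j) = (j : ℤ) • ev p n A := by
  induction j with
  | zero =>
    rw [pw_zero, ev_rat]
    simp
  | succ j ih =>
    rw [pw_succ, ev_mu h8 _ _ (pw_Su hA j).1 hA.1, ih]
    push_cast
    rw [add_smul, one_smul]

private theorem pw_snd {p s : ℕ} {A : ℤ × ℤ} (hs : (p : ℤ) ^ s ∣ A.2) (j : ℕ) :
    (p : ℤ) ^ s ∣ (pw p A j).2 := by
  induction j with
  | zero =>
    rw [pw_zero]
    exact dvd_zero _
  | succ j ih =>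
    rw [pw_succ]
    exact dvd_add (dvd_mul_of_dvd_right hs _) (dvd_mul_of_dvd_left ih _)

private theorem pw_fst {p s : ℕ} {A : ℤ × ℤ} (hs : (p : ℤ) ^ s ∣ A.2) (j : ℕ) :
    (p : ℤ) ^ (2 * s + 1) ∣ (pw p A j).1 - A.1 ^ j := by
  induction j with
  | zero =>
    rw [pw_zero]
    simp
  | succ j ih =>
    rw [pw_succ]
    have h1 : (mu p (pw p A j) A).1 - A.1 ^ (j + 1) =
        ((pw p A j).1 - A.1 ^ j) * A.1 - p * ((pw p A j).2 * A.2) := by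
      simp only [mu]
      ring
    rw [h1]
    refine dvd_sub (dvd_mul_of_dvd_left ih _) ?_
    have h2 : (p : ℤ) ^ (2 * s + 1) = p * ((p : ℤ) ^ s * (p : ℤ) ^ s) := by ring
    rw [h2]
    exact mul_dvd_mul_left _ (mul_dvd_mul (pw_snd hs j) hs)

private theorem pw_cross {p s : ℕ} {A : ℤ × ℤ} (hs : (p : ℤ) ^ s ∣ A.2) (j : ℕ) :
    (p : ℤ) ^ (3 * s + 1) ∣ A.1 * (pw p A j).2 - j * A.1 ^ j * A.2 := by
  induction j with
  | zero =>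
    rw [pw_zero]
    simp
  | succ j ih =>
    rw [pw_succ]
    have h1 : A.1 * (mu p (pw p A j) A).2 - ((j + 1 : ℕ) : ℤ) * A.1 ^ (j + 1) * A.2 =
        A.1 * (A.1 * (pw p A j).2 - j * A.1 ^ j * A.2) +
          A.1 * (((pw p A j).1 - A.1 ^ j) * A.2) := by
      simp only [mu]
      push_cast
      ring
    rw [h1]
    refine dvd_add (dvd_mul_of_dvd_right ih _) (dvd_mul_of_dvd_right ?_ _)
    have h2 : (p : ℤ) ^ (3 * s + 1) = (p : ℤ) ^ (2 * s + 1) * (p : ℤ) ^ s := by ring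
    rw [h2]
    exact mul_dvd_mul (pw_fst hs j) hs

private theorem pw_key {p n s : ℕ} [NeZero n] [Fact p.Prime] (h8 : 8 * n ∣ p + 1) {A : ℤ × ℤ}
    (hA : Su p n A) (hs : (p : ℤ) ^ s ∣ A.2) : (p : ℤ) ^ (s + 1) ∣ (pw p A p).2 := by
  have hp : p.Prime := Fact.out
  have h1 := pw_cross hs p
  have h2 : (p : ℤ) ^ (s + 1) ∣ A.1 * (pw p A p).2 - p * A.1 ^ p * A.2 :=
    (pow_dvd_pow _ (by omega)).trans h1
  have h3 : (p : ℤ) ^ (s + 1) ∣ p * A.1 ^ p * A.2 := by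
    have h4 : (p : ℤ) ^ (s + 1) = p * (p : ℤ) ^ s := by ring
    have h5 : (p : ℤ) * A.1 ^ p * A.2 = p * (A.1 ^ p * A.2) := by ring
    rw [h4, h5]
    exact mul_dvd_mul_left _ (dvd_mul_of_dvd_right hs _)
  have h6 : (p : ℤ) ^ (s + 1) ∣ A.1 * (pw p A p).2 := (dvd_sub_left h3).1 h2
  have h7 : ¬ (p : ℤ) ∣ A.1 := Su_not_dvd hp h8 hA
  exact (Nat.prime_iff_prime_int.1 hp).pow_dvd_of_dvd_mul_left _ h7 h6

private theorem mem_mulp {p n s : ℕ} [NeZero n] [Fact p.Prime] (h8 : 8 * n ∣ p + 1)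
    {v : Pr n → ℤ} (hv : v ∈ Fl p n s) : (p : ℤ) • v ∈ Fl p n (s + 1) := by
  obtain ⟨A, hA, hs, rfl⟩ := hv
  exact ⟨pw p A p, pw_Su hA p, pw_key h8 hA hs, ev_pw h8 hA p⟩

theorem ph_mulp {p n s : ℕ} [NeZero n] [Fact p.Prime] (h8 : 8 * n ∣ p + 1) (hs : 1 ≤ s)
    {v : Pr n → ℤ} (hv : v ∈ Fl p n s) :
    (p : ℤ) • v ∈ Fl p n (s + 1) ∧ ph p n (s + 1) ((p : ℤ) • v) = ph p n s v := by
  refine ⟨mem_mulp h8 hv, ?_⟩
  have hp : p.Prime := Fact.out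
  obtain ⟨A, hA, hc, rfl⟩ := hv
  have hY := pw_key h8 hA hc
  rw [← ev_pw h8 hA p, ph_eq h8 (s + 1) (pw_Su hA p) hY, ph_eq h8 s hA hc]
  have hp0 : (p : ℤ) ≠ 0 := by exact_mod_cast hp.ne_zero
  obtain ⟨Y', hY'⟩ := hY
  obtain ⟨c', hc'⟩ := hc
  have e1 : (pw p A p).2 / (p : ℤ) ^ (s + 1) = Y' := by
    rw [hY']
    exact Int.mul_ediv_cancel_left _ (pow_ne_zero _ hp0)
  have e2 : A.2 / (p : ℤ) ^ s = c' := by
    rw [hc']
    exact Int.mul_ediv_cancel_left _ (pow_ne_zero _ hp0)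
  rw [e1, e2]
  have hc2 : (p : ℤ) ^ s ∣ A.2 := ⟨c', hc'⟩
  have h1 : (p : ℤ) ^ (s + 2) ∣ A.1 * (pw p A p).2 - p * A.1 ^ p * A.2 :=
    (pow_dvd_pow _ (by omega)).trans (pw_cross hc2 p)
  have h2 : A.1 * (pw p A p).2 - p * A.1 ^ p * A.2 =
      (p : ℤ) ^ (s + 1) * (A.1 * Y' - A.1 ^ p * c') := by
    rw [hY', hc']
    ring
  have h3 : (p : ℤ) ∣ A.1 * Y' - A.1 ^ p * c' := by
    rw [h2, pow_succ (p : ℤ) (s + 1)] at h1
    exact (mul_dvd_mul_iff_left (pow_ne_zero _ hp0)).1 h1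
  have h4 : ((A.1 : ℤ) : ZMod p) * ((Y' : ℤ) : ZMod p) = ((A.1 : ℤ) : ZMod p) * ((c' : ℤ) : ZMod p) := by
    have h5 := (ZMod.intCast_zmod_eq_zero_iff_dvd _ p).2 h3
    push_cast at h5
    rw [ZMod.pow_card] at h5
    exact sub_eq_zero.1 h5
  have h7 : ¬ (p : ℤ) ∣ A.1 := Su_not_dvd hp h8 hA
  have h8' : ((A.1 : ℤ) : ZMod p) ≠ 0 := fun h => h7 ((ZMod.intCast_zmod_eq_zero_iff_dvd _ p).1 h)
  have h9 : ((Y' : ℤ) : ZMod p) = ((c' : ℤ) : ZMod p) := mul_left_cancel₀ h8' h4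
  have h10 : (((pw p A p).1 : ℤ) : ZMod p) = ((A.1 : ℤ) : ZMod p) := by
    have h11 : (p : ℤ) ∣ (pw p A p).1 - A.1 ^ p :=
      (dvd_pow_self _ (by omega)).trans (pw_fst hc2 p)
    have h12 := (ZMod.intCast_zmod_eq_zero_iff_dvd _ p).2 h11
    push_cast at h12
    rw [ZMod.pow_card] at h12
    exact sub_eq_zero.1 h12
  rw [h9, h10]

theorem Fl_mulp_zero {p n : ℕ} [NeZero n] [Fact p.Prime] (h8 : 8 * n ∣ p + 1)
    {v : Pr n → ℤ} (hv : v ∈ Fl p n 0) : (p : ℤ) • v ∈ Fl p n 1 := by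
  exact mem_mulp h8 hv

theorem Fl_inj {p n : ℕ} [NeZero n] [Fact p.Prime] (h8 : 8 * n ∣ p + 1) (v : Pr n → ℤ)
    (hv : ∀ s, v ∈ Fl p n s) : v = 0 := by
  have hp : p.Prime := Fact.out
  obtain ⟨A, hA, -, hAv⟩ := hv 0
  have h1 : ∀ s, (p : ℤ) ^ s ∣ A.2 := fun s => (Fl_iff hp h8 s hA).1 (by rw [hAv]; exact hv s)
  have h2 : A.2 = 0 := by
    by_contra hne
    have h3 : (p : ℤ) ^ A.2.natAbs ∣ A.2 := h1 _
    have h4 : p ^ A.2.natAbs ∣ A.2.natAbs := by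
      have := Int.natAbs_dvd_natAbs.2 h3
      rwa [Int.natAbs_pow, Int.natAbs_natCast] at this
    have h5 : p ^ A.2.natAbs ≤ A.2.natAbs := Nat.le_of_dvd (Int.natAbs_pos.2 hne) h4
    exact absurd (Nat.lt_pow_self hp.one_lt (n := A.2.natAbs)) (not_lt.2 h5)
  rw [← hAv]
  have h6 : A = (A.1, 0) := by
    rw [← h2]
  rw [h6]
  exact ev_rat p n _

end Pool.Agent.Lib.MP_06b9d2_nt.ME
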