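import Pool.Agent.Lib.MP_06b9d2_nt.ME.EvD
import Pool.Agent.Lib.MP_06b9d2_nt.ME.PhM
import Pool.Agent.Lib.MP_06b9d2_nt.ME.PPc
import Pool.Agent.Lib.MP_06b9d2_nt.ME.PPa
import Pool.Agent.Lib.MP_06b9d2_nt.ME.GrA

/-!
Module ME-Ari (MP_06b9d2_nt, Maeda, all Hecke operators). The coefficients of `Δ ^ N` at the numbers `Mm n m`.

`8 n ∣ p + 1` gives `p = 7` modulo `8`. `coef_pp`, `pp_ap`: the coefficient is `(-1) ^ s ∑ A.1 * (A.2 / p ^ s)` over the `A ∈ AP p M` with `p ^ s ∣ A.2`, `M = Mm n m`. By `ev_mem` (`Su`), `ph_eq`: modulo `p`, `A.1 * (A.2 / p ^ s) = A.1 ^ 2 * ph p n s (ev p n A) = 8 M * ph p n s (ev p n A)` (`A.1 ^ 2 = 8 M - p A.2 ^ 2`; `A.1` is not `0` modulo `p`, `Su_not_dvd`); for the `A` with `p ^ s ∤ A.2` the value `ph` is `0` (`Fl_iff`, `ph_out`). So the sum is `8 M ∑_{A ∈ AP p M} ph p n s (ev p n A)`. `ev` is injective on `AP p M` (`ev_inj'`), its image lies in the index set of `lin_XX` (`ev_mem`), and for `v` in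 this index set outside of the image `v ∉ Fl p n 0` (`ev_surj`), so `v ∉ Fl p n s` and `ph p n s v = 0` (`Finset.sum_image`, `Finset.sum_subset`).
-/

namespace Pool.Agent.Lib.MP_06b9d2_nt.ME

open Pool.Agent.L1

private theorem ari_sq {p n : ℕ} [NeZero n] (m : Pr n → ℕ) {A : ℤ × ℤ}
    (hA : A ∈ AP p (Mm n m)) :
    ((A.1 : ℤ) : ZMod p) ^ 2 = 8 * (Mm n m : ZMod p) := by
  have h1 : nm p A = 8 * (Mm n m : ℕ) := by
    unfold AP at hA
    exact (Finset.mem_filter.1 hA).2.2.2.2.2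
  have h2 : ((nm p A : ℤ) : ZMod p) = ((8 * (Mm n m : ℕ) : ℤ) : ZMod p) := by rw [h1]
  unfold nm at h2
  push_cast at h2
  rw [ZMod.natCast_self, zero_mul, add_zero] at h2
  exact h2

theorem ari {p n : ℕ} [NeZero n] [Fact p.Prime] (h8 : 8 * n ∣ p + 1) (s : ℕ) (m : Pr n → ℕ) :
    ((PowerSeries.coeff (Mm n m) (Delz ^ Np p s) : ℤ) : ZMod p) =
      (-1) ^ s * 8 * (Mm n m : ZMod p) * lin (ph p n s) (XX p (two n) m) := by
  classical
  have hp : p.Prime := Fact.out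
  have h88 : 8 ∣ p + 1 := (dvd_mul_right 8 n).trans h8
  have h7 : p % 8 = 7 := by
    have := hp.two_le
    omega
  rw [coef_pp h7 s (Mm n m), pp_ap hp.pos (by omega) s (Mm n m)]
  push_cast
  have hterm : ∀ A ∈ (AP p (Mm n m)).filter (fun A => (p : ℤ) ^ s ∣ A.2),
      ((A.1 : ℤ) : ZMod p) * ((A.2 / (p : ℤ) ^ s : ℤ) : ZMod p) =
        8 * (Mm n m : ZMod p) * ph p n s (ev p n A) := by
    intro A hA
    obtain ⟨hA1, hA2⟩ := Finset.mem_filter.1 hA
    have hsu := (ev_mem h8 m A hA1).1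
    have hne : ((A.1 : ℤ) : ZMod p) ≠ 0 := by
      rw [Ne, ZMod.intCast_zmod_eq_zero_iff_dvd]
      exact Su_not_dvd hp h8 hsu
    rw [ph_eq h8 s hsu hA2, ← ari_sq m hA1]
    field_simp
  rw [Finset.sum_congr rfl hterm, ← Finset.mul_sum]
  have hfil : ∑ A ∈ (AP p (Mm n m)).filter (fun A => (p : ℤ) ^ s ∣ A.2), ph p n s (ev p n A) =
      ∑ A ∈ AP p (Mm n m), ph p n s (ev p n A) := by
    refine Finset.sum_subset (Finset.filter_subset _ _) ?_
    intro A hA hA'
    apply ph_out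
    intro hmem
    apply hA'
    rw [Finset.mem_filter]
    exact ⟨hA, (Fl_iff hp h8 s (ev_mem h8 m A hA).1).1 hmem⟩
  have hinj : Set.InjOn (ev p n) (AP p (Mm n m) : Set (ℤ × ℤ)) := by
    intro A hA B hB hAB
    have hA' := hA
    have hB' := hB
    rw [Finset.mem_coe] at hA' hB'
    have hsA := (ev_mem h8 m A hA').1
    have hsB := (ev_mem h8 m B hB').1
    unfold AP at hA' hB'
    have hA3 := (Finset.mem_filter.1 hA').2
    have hB3 := (Finset.mem_filter.1 hB').2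
    exact ev_inj' h8 hsA hsB hAB (by rw [hA3.2.2.2.2, hB3.2.2.2.2]) hA3.1 hB3.1
  have hpi : ∑ A ∈ AP p (Mm n m), ph p n s (ev p n A) = lin (ph p n s) (XX p (two n) m) := by
    rw [lin_XX, ← Finset.sum_image hinj]
    refine Finset.sum_subset ?_ ?_
    · intro v hv
      obtain ⟨A, hA, rfl⟩ := Finset.mem_image.1 hv
      obtain ⟨-, h1, h2⟩ := ev_mem h8 m A hA
      rw [Fintype.mem_piFinset]
      intro i
      by_cases hi : i = two n
      · rw [if_pos hi, Finset.mem_singleton, hi]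
        exact h1
      · rw [if_neg hi]
        exact h2 i hi
    · intro v hv hv'
      rw [Fintype.mem_piFinset] at hv
      apply ph_out
      intro hmem
      apply hv'
      have h0 : v (two n) = (m (two n) : ℤ) + 1 := by
        have := hv (two n)
        rwa [if_pos rfl, Finset.mem_singleton] at this
      have h1 : ∀ l, l ≠ two n → v l ∈ bx (m l) := by
        intro l hl
        have := hv l
        rwa [if_neg hl] at this
      have h2 : v ∈ Fl p n 0 := by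
        obtain ⟨A, hA, -, hAv⟩ := hmem
        exact ⟨A, hA, by rw [pow_zero]; exact one_dvd _, hAv⟩
      obtain ⟨A, hA, hAv⟩ := ev_surj h8 m v h0 h1 h2
      exact Finset.mem_image.2 ⟨A, hA, hAv⟩
  rw [hfil, hpi]
  ring

end Pool.Agent.Lib.MP_06b9d2_nt.ME
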