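import Pool.Agent.Lib.MP_06b9d2_nt.ME.GrA

/-!
Module ME-Lev (MP_06b9d2_nt, Maeda, all Hecke operators). Levels of a filtration.

`f_zero`: `f s 0 = f s (0 + 0)`. `f_neg`: for `v ∈ S s` from `add`, otherwise `-v ∉ S s` and `out`. `f_inv`: if `v ∈ S s`: `add` and `f s u = 0` (`ker`, `le`); otherwise `v + u ∉ S s`. `S_mulp`: induction on `j`. `S_cop`: induction: if `v ∈ S t`, `1 ≤ t < s`: `h • v ∈ S s ≤ S (t + 1)` gives `h * f t v = 0` (`f_zsmul`), so `f t v = 0` and `v ∈ S (t + 1)`. `exists_level`: otherwise `v ∈ S t` for all `t` and `v = 0` (`inj`).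
`rho`: if `x = p ^ (s - ε) y`: `x • w = p ^ (s - ε) • (y • w)`, `S_mulp`, `f_zsmul`. Otherwise `x = p ^ j y`, `p ∤ y`, `j < s - ε` (`x ≠ 0`): `f (ε + j) (p ^ j • (y • w)) = y f ε w ≠ 0`, so `x • w ∉ S (ε + j + 1) ⊇ S s`.
`lam`: induction on `t`: with `c = f t (u - x • w)` and `g = f t (p ^ (t - ε) • w) = f ε w ≠ 0` take `y = (c / g).val` and `x + y p ^ (t - ε)`.
-/

namespace Pool.Agent.Lib.MP_06b9d2_nt.ME



variable {ι : Type} {p : ℕ} [Fact p.Prime] (F : Flt ι p)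

theorem S_anti {i j : ℕ} (h : i ≤ j) : F.S j ≤ F.S i := by
  induction j, h using Nat.le_induction with
  | base => exact le_rfl
  | succ k _ ih => exact (F.le k).trans ih

private theorem f_zero (s : ℕ) : F.f s 0 = 0 := by
  have h := F.add s 0 0 (F.S s).zero_mem (F.S s).zero_mem
  rw [add_zero] at h
  exact left_eq_add.mp h

theorem f_neg (s : ℕ) (v : ι → ℤ) : F.f s (-v) = -F.f s v := by
  by_cases hv : v ∈ F.S s
  · have h := F.add s v (-v) hv ((F.S s).neg_mem hv)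
    rw [add_neg_cancel, f_zero] at h
    exact (neg_eq_of_add_eq_zero_right h.symm).symm
  · have hv' : -v ∉ F.S s := fun h => hv (by simpa using (F.S s).neg_mem h)
    rw [F.out s v hv, F.out s _ hv', neg_zero]

theorem f_inv (s : ℕ) (v u : ι → ℤ) (hu : u ∈ F.S (s + 1)) : F.f s (v + u) = F.f s v := by
  have hus : u ∈ F.S s := F.le s hu
  by_cases hv : v ∈ F.S s
  · rw [F.add s v u hv hus, (F.ker s u hus).mpr hu, add_zero]
  · have hv' : v + u ∉ F.S s := fun h => hv (by simpa using (F.S s).sub_mem h hus)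
    rw [F.out s v hv, F.out s _ hv']

private theorem f_nsmul (s : ℕ) (v : ι → ℤ) (hv : v ∈ F.S s) (n : ℕ) :
    F.f s ((n : ℤ) • v) = (n : ZMod p) * F.f s v := by
  induction n with
  | zero => simp [f_zero]
  | succ n ih =>
    have h1 : ((n + 1 : ℕ) : ℤ) • v = (n : ℤ) • v + v := by
      push_cast
      rw [add_smul, one_smul]
    rw [h1, F.add s _ v ((F.S s).zsmul_mem hv n) hv, ih]
    push_cast
    ring

theorem f_zsmul (s : ℕ) (v : ι → ℤ) (hv : v ∈ F.S s) (x : ℤ) :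
    F.f s (x • v) = (x : ZMod p) * F.f s v := by
  obtain ⟨n, rfl | rfl⟩ := x.eq_nat_or_neg
  · rw [f_nsmul F s v hv n]
    push_cast
    rfl
  · rw [neg_smul, f_neg, f_nsmul F s v hv n]
    push_cast
    ring

theorem S_mulp (j s : ℕ) (v : ι → ℤ) (hs : 1 ≤ s) (hv : v ∈ F.S s) :
    ((p : ℤ) ^ j) • v ∈ F.S (s + j) ∧ F.f (s + j) (((p : ℤ) ^ j) • v) = F.f s v := by
  induction j with
  | zero => simpa using hv
  | succ j ih =>
    have h1 := F.mulp (s + j) (((p : ℤ) ^ j) • v) (by omega) ih.1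
    have h2 : ((p : ℤ) ^ (j + 1)) • v = (p : ℤ) • (((p : ℤ) ^ j) • v) := by
      rw [smul_smul, pow_succ, mul_comm]
    rw [h2, ← add_assoc]
    exact ⟨h1.1, h1.2.trans ih.2⟩

theorem S_cop (s : ℕ) (v : ι → ℤ) (h : ℤ) (hc : ¬ (p : ℤ) ∣ h) (hv : v ∈ F.S 1)
    (hh : h • v ∈ F.S s) : v ∈ F.S s := by
  rcases Nat.eq_zero_or_pos s with rfl | hs
  · exact F.le 0 hv
  have key : ∀ t, 1 ≤ t → t ≤ s → v ∈ F.S t := by
    intro t ht
    induction t, ht using Nat.le_induction with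
    | base => intro _; exact hv
    | succ t ht ih =>
      intro hts
      have h1 : v ∈ F.S t := ih (by omega)
      have h2 : h • v ∈ F.S (t + 1) := S_anti F hts hh
      have h3 := (F.ker t (h • v) ((F.S t).zsmul_mem h1 h)).mpr h2
      rw [f_zsmul F t v h1 h] at h3
      rcases mul_eq_zero.mp h3 with h4 | h4
      · exact absurd ((ZMod.intCast_zmod_eq_zero_iff_dvd h p).mp h4) hc
      · exact (F.ker t v h1).mp h4
  exact key s hs le_rfl

theorem exists_level (v : ι → ℤ) (hv : v ∈ F.S 1) (h0 : v ≠ 0) :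
    ∃ ε, 1 ≤ ε ∧ v ∈ F.S ε ∧ v ∉ F.S (ε + 1) := by
  by_contra hcon
  push Not at hcon
  apply h0
  apply F.inj
  have key : ∀ t, 1 ≤ t → v ∈ F.S t := by
    intro t ht
    induction t, ht using Nat.le_induction with
    | base => exact hv
    | succ t ht ih => exact hcon t ht ih
  intro s
  rcases Nat.eq_zero_or_pos s with rfl | hs
  · exact F.le 0 hv
  · exact key s hs

theorem rho (ε s : ℕ) (w : ι → ℤ) (h1 : 1 ≤ ε) (hw : w ∈ F.S ε) (hw' : w ∉ F.S (ε + 1))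
    (hs : ε ≤ s) (x : ℤ) :
    F.f s (x • w) = if (p : ℤ) ^ (s - ε) ∣ x then
      ((x / (p : ℤ) ^ (s - ε) : ℤ) : ZMod p) * F.f ε w else 0 := by
  have hp : (p : ℤ) ≠ 0 := by exact_mod_cast (Fact.out : p.Prime).ne_zero
  split_ifs with hd
  · obtain ⟨y, rfl⟩ := hd
    rw [Int.mul_ediv_cancel_left _ (pow_ne_zero _ hp)]
    have h2 := S_mulp F (s - ε) ε (y • w) h1 ((F.S ε).zsmul_mem hw y)
    rw [Nat.add_sub_cancel' hs] at h2
    rw [mul_smul, h2.2, f_zsmul F ε w hw y]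
  · -- `x = p ^ j y`, `p ∤ y`, `j < s - ε`
    have hx0 : x ≠ 0 := fun h => hd (h ▸ dvd_zero _)
    obtain ⟨j, y, hy, hxy⟩ : ∃ (j : ℕ) (y : ℤ), ¬ (p : ℤ) ∣ y ∧ x = (p : ℤ) ^ j * y := by
      have hf : FiniteMultiplicity (p : ℤ) x := by
        rw [Int.finiteMultiplicity_iff]
        refine ⟨?_, hx0⟩
        simpa using (Fact.out : p.Prime).ne_one
      obtain ⟨y, hxy, hy⟩ := hf.exists_eq_pow_mul_and_not_dvd
      exact ⟨_, y, hy, hxy⟩
    have hj : j < s - ε := by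
      by_contra hcon
      exact hd (hxy ▸ (pow_dvd_pow _ (not_lt.mp hcon)).mul_right y)
    have h2 := S_mulp F j ε (y • w) h1 ((F.S ε).zsmul_mem hw y)
    have h3 : x • w = ((p : ℤ) ^ j) • (y • w) := by rw [hxy, mul_smul]
    rw [← h3, f_zsmul F ε w hw y] at h2
    apply F.out
    intro hmem
    have h4 : x • w ∈ F.S (ε + j + 1) := S_anti F (by omega) hmem
    have h5 := (F.ker (ε + j) (x • w) h2.1).mpr h4
    rw [h2.2] at h5
    rcases mul_eq_zero.mp h5 with h6 | h6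
    · exact hy ((ZMod.intCast_zmod_eq_zero_iff_dvd y p).mp h6)
    · exact hw' ((F.ker ε w hw).mp h6)

theorem lam (ε : ℕ) (w : ι → ℤ) (h1 : 1 ≤ ε) (hw : w ∈ F.S ε) (hw' : w ∉ F.S (ε + 1))
    (u : ι → ℤ) (hu : u ∈ F.S ε) (t : ℕ) (ht : ε ≤ t) : ∃ x : ℕ, u - (x : ℤ) • w ∈ F.S t := by
  induction t, ht using Nat.le_induction with
  | base => exact ⟨0, by simpa using hu⟩
  | succ t ht ih =>
    obtain ⟨x, hx⟩ := ih
    have h2 := S_mulp F (t - ε) ε w h1 hw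
    rw [Nat.add_sub_cancel' ht] at h2
    have hg : F.f ε w ≠ 0 := fun h => hw' ((F.ker ε w hw).mp h)
    obtain ⟨y, hy⟩ : ∃ y : ℕ, (y : ZMod p) = F.f t (u - (x : ℤ) • w) / F.f ε w :=
      ⟨(F.f t (u - (x : ℤ) • w) / F.f ε w).val, by rw [ZMod.natCast_zmod_val]⟩
    refine ⟨x + y * p ^ (t - ε), ?_⟩
    have h3 : u - ((x + y * p ^ (t - ε) : ℕ) : ℤ) • w =
        (u - (x : ℤ) • w) + (-(y : ℤ)) • (((p : ℤ) ^ (t - ε)) • w) := by
      rw [smul_smul, neg_mul, neg_smul]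
      push_cast
      rw [add_smul]
      abel
    have h4 : (-(y : ℤ)) • (((p : ℤ) ^ (t - ε)) • w) ∈ F.S t := (F.S t).zsmul_mem h2.1 _
    rw [h3]
    refine (F.ker t _ ((F.S t).add_mem hx h4)).mp ?_
    rw [F.add t _ _ hx h4, f_zsmul F t _ h2.1, h2.2]
    push_cast
    rw [hy, neg_mul, div_mul_cancel₀ _ hg, add_neg_cancel]

end Pool.Agent.Lib.MP_06b9d2_nt.ME
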