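import Pool.Agent.Lib.MP_06b9d2_nt.ME.Sym
import Pool.Agent.Lib.MP_06b9d2_nt.ME.Lev

/-!
Module ME-AvI (MP_06b9d2_nt, Maeda, all Hecke operators). Averaging: invariance.

Call `X ∈ Rg ι p` null if `lin (F.f s) (X * Z) = 0` for all `Z`; the null elements form an ideal. `single u 1 - 1` is null for `u ∈ S (s + 1)` (`lin_sub`: check `Z = single v c`: `c * f s (v + u) - c * f s v = 0` by `f_inv`; then `AddMonoidAlgebra.induction_linear`). In particular `E p i (q h) - 1` is null (`Pi.single i (q h) = (q h) • Pi.single i 1`, `hyp`). Let `P_i = ∑_{w < h} (E p i (q w) + E p i (- q w))`. `E p i q * P_i - P_i = E p i (q h) - E p i 0 + E p i (q) - E p i (- q (h - 1)) = (E p i (q h) - 1) + E p i (- q (h - 1)) (E p i (q h) - 1)` is null (telescoping, for `h ≥ 1`; for `h = 0` it is `0`). So `E p i (q t) * P_i - P_i` is null for all `t : ℤ` and `single (q • g) 1 * av - av = (∏_i E p i (q g_i)) ∏ P_i - ∏ P_i` is null (work in the quotient ring by the ideal of the null elements,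 or with `Finset.prod_induction`/ `Ideal.Quotient.mk`).
`null_aeval`: in the quotient by the ideal `{X | X * B null}` two elements with null difference times `B` have equal polynomials: `X - Y ∣ aeval X Q - aeval Y Q` (`Polynomial.aeval` of commutative ring: `Polynomial.sub_dvd_eval_sub` after mapping the coefficients).
-/

namespace Pool.Agent.Lib.MP_06b9d2_nt.ME



variable {ι : Type} [Fintype ι] [DecidableEq ι] {p : ℕ}

theorem single_inv [Fact p.Prime] (F : Flt ι p) (s : ℕ) (u : ι → ℤ) (hu : u ∈ F.S (s + 1))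
    (X : Rg ι p) :
    lin (F.f s) (AddMonoidAlgebra.single u 1 * X) = lin (F.f s) X := by
  induction X using AddMonoidAlgebra.induction_linear with
  | zero => rw [mul_zero]
  | add X Y hX hY => rw [mul_add, map_add, map_add, hX, hY]
  | single v c =>
    rw [AddMonoidAlgebra.single_mul_single, one_mul, lin_single, lin_single, add_comm u v,
      f_inv F s v u hu]

/-- the ideal of the null elements -/
private noncomputable def nul [Fact p.Prime] (F : Flt ι p) (s : ℕ) : Ideal (Rg ι p) where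
  carrier := {X | ∀ Z, lin (F.f s) (X * Z) = 0}
  add_mem' := fun {X Y} hX hY Z => by rw [add_mul, map_add, hX Z, hY Z, add_zero]
  zero_mem' := fun Z => by rw [zero_mul, map_zero]
  smul_mem' := fun c X hX Z => by
    have h := hX (c * Z)
    rw [smul_eq_mul, mul_comm c X, mul_assoc]
    exact h

private theorem mk_single [Fact p.Prime] (F : Flt ι p) (s : ℕ) (u : ι → ℤ)
    (hu : u ∈ F.S (s + 1)) :
    Ideal.Quotient.mk (nul F s) (AddMonoidAlgebra.single u 1) = 1 := by
  rw [← map_one (Ideal.Quotient.mk (nul F s)), Ideal.Quotient.eq]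
  intro Z
  rw [sub_mul, map_sub, single_inv F s u hu, one_mul, sub_self]

private theorem mk_E_one [Fact p.Prime] (F : Flt ι p) (s q h : ℕ)
    (hyp : ∀ v : ι → ℤ, ((q * h : ℕ) : ℤ) • v ∈ F.S (s + 1)) (i : ι) (x : ℤ)
    (hx : ((q * h : ℕ) : ℤ) ∣ x) :
    Ideal.Quotient.mk (nul F s) (E p i x) = 1 := by
  obtain ⟨y, rfl⟩ := hx
  refine mk_single F s _ ?_
  have h1 : (Pi.single i (((q * h : ℕ) : ℤ) * y) : ι → ℤ) =
      ((q * h : ℕ) : ℤ) • Pi.single i y := by
    rw [← Pi.single_smul, smul_eq_mul]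
  rw [h1]
  exact hyp _

/-- one coordinate -/
private theorem mk_P [Fact p.Prime] (F : Flt ι p) (s q h : ℕ)
    (hyp : ∀ v : ι → ℤ, ((q * h : ℕ) : ℤ) • v ∈ F.S (s + 1)) (i : ι) (t : ℤ) :
    Ideal.Quotient.mk (nul F s) (E p i ((q : ℤ) * t)) *
      Ideal.Quotient.mk (nul F s)
        (∑ w ∈ Finset.range h, (E p i ((q : ℤ) * w) + E p i (-((q : ℤ) * w)))) =
      Ideal.Quotient.mk (nul F s)
        (∑ w ∈ Finset.range h, (E p i ((q : ℤ) * w) + E p i (-((q : ℤ) * w)))) := by
  obtain ⟨e, he⟩ : ∃ e : ℤ → Rg ι p ⧸ nul F s, ∀ x, Ideal.Quotient.mk (nul F s) (E p i x) = e x :=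
    ⟨_, fun _ => rfl⟩
  have hadd : ∀ x y, e x * e y = e (x + y) := fun x y => by
    rw [← he, ← he, ← map_mul, E_mul, he]
  have h0 : e 0 = 1 := by rw [← he, E_zero, map_one]
  have hone : ∀ x, ((q * h : ℕ) : ℤ) ∣ x → e x = 1 := fun x hx => by
    rw [← he, mk_E_one F s q h hyp i x hx]
  rw [map_sum]
  simp_rw [map_add, he]
  -- `t = 1`
  have key1 : e (q : ℤ) * ∑ w ∈ Finset.range h, (e ((q : ℤ) * w) + e (-((q : ℤ) * w))) =
      ∑ w ∈ Finset.range h, (e ((q : ℤ) * w) + e (-((q : ℤ) * w))) := by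
    rw [Finset.mul_sum]
    simp_rw [mul_add, hadd]
    rw [Finset.sum_add_distrib, Finset.sum_add_distrib]
    have e1 : ∑ w ∈ Finset.range h, e ((q : ℤ) + (q : ℤ) * (w : ℤ)) =
        ∑ w ∈ Finset.range h, e ((q : ℤ) * (w : ℤ)) := by
      have h1 := Finset.sum_range_succ (fun w : ℕ => e ((q : ℤ) * (w : ℤ))) h
      have h2 := Finset.sum_range_succ' (fun w : ℕ => e ((q : ℤ) * (w : ℤ))) h
      have h3 : e ((q : ℤ) * (h : ℤ)) = 1 := hone _ (by push_cast; exact dvd_rfl)
      have h4 : e ((q : ℤ) * ((0 : ℕ) : ℤ)) = 1 := by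
        rw [Nat.cast_zero, mul_zero]; exact h0
      rw [h1] at h2
      rw [h3, h4] at h2
      have h5 := add_right_cancel h2
      rw [h5]
      refine Finset.sum_congr rfl fun w _ => ?_
      congr 1
      push_cast
      ring
    have e2 : ∑ w ∈ Finset.range h, e ((q : ℤ) + -((q : ℤ) * (w : ℤ))) =
        ∑ w ∈ Finset.range h, e (-((q : ℤ) * (w : ℤ))) := by
      have h1 := Finset.sum_range_succ (fun w : ℕ => e ((q : ℤ) + -((q : ℤ) * (w : ℤ)))) h
      have h2 := Finset.sum_range_succ' (fun w : ℕ => e ((q : ℤ) + -((q : ℤ) * (w : ℤ)))) h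
      have h3 : e ((q : ℤ) + -((q : ℤ) * (h : ℤ))) = e (q : ℤ) := by
        rw [← hadd, hone (-((q : ℤ) * (h : ℤ))) (by push_cast; exact (dvd_neg.mpr dvd_rfl)),
          mul_one]
      have h4 : e ((q : ℤ) + -((q : ℤ) * ((0 : ℕ) : ℤ))) = e (q : ℤ) := by
        rw [Nat.cast_zero, mul_zero, neg_zero, add_zero]
      rw [h1] at h2
      rw [h3, h4] at h2
      have h5 := add_right_cancel h2
      rw [h5]
      refine Finset.sum_congr rfl fun w _ => ?_
      congr 1
      push_cast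
      ring
    rw [e1, e2]
  have key2 : e (-(q : ℤ)) * ∑ w ∈ Finset.range h, (e ((q : ℤ) * w) + e (-((q : ℤ) * w))) =
      ∑ w ∈ Finset.range h, (e ((q : ℤ) * w) + e (-((q : ℤ) * w))) := by
    conv_lhs => rw [← key1]
    rw [← mul_assoc, hadd, neg_add_cancel, h0, one_mul]
  induction t using Int.induction_on with
  | zero => rw [mul_zero, h0, one_mul]
  | succ t ih =>
    have h1 : (q : ℤ) * ((t : ℤ) + 1) = (q : ℤ) * t + q := by ring
    rw [h1, ← hadd, mul_assoc, key1, ih]
  | pred t ih =>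
    have h1 : (q : ℤ) * (-(t : ℤ) - 1) = (q : ℤ) * (-(t : ℤ)) + -(q : ℤ) := by ring
    rw [h1, ← hadd, mul_assoc, key2, ih]

theorem av_inv [Fact p.Prime] (F : Flt ι p) (s q h : ℕ)
    (hyp : ∀ v : ι → ℤ, ((q * h : ℕ) : ℤ) • v ∈ F.S (s + 1)) (g : ι → ℤ) (X : Rg ι p) :
    lin (F.f s) (AddMonoidAlgebra.single ((q : ℤ) • g) 1 * (av ι p q h * X)) =
      lin (F.f s) (av ι p q h * X) := by
  have h1 : (AddMonoidAlgebra.single ((q : ℤ) • g) 1 : Rg ι p) =
      ∏ i, E p i ((q : ℤ) * g i) := by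
    have h2 : ∀ T : Finset ι, ∏ i ∈ T, E p i ((q : ℤ) * g i) =
        (AddMonoidAlgebra.single (∑ i ∈ T, Pi.single i ((q : ℤ) * g i)) 1 : Rg ι p) := by
      intro T
      induction T using Finset.induction_on with
      | empty => rw [Finset.prod_empty, Finset.sum_empty]; rfl
      | insert j T hj ih =>
        rw [Finset.prod_insert hj, Finset.sum_insert hj, ih, E,
          AddMonoidAlgebra.single_mul_single, one_mul]
    rw [h2 Finset.univ]
    congr 1
    funext i
    rw [Finset.sum_apply]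
    simp [Pi.single_apply, Finset.sum_ite_eq]
  have h3 : Ideal.Quotient.mk (nul F s) (AddMonoidAlgebra.single ((q : ℤ) • g) 1 * av ι p q h) =
      Ideal.Quotient.mk (nul F s) (av ι p q h) := by
    rw [h1, av, map_mul, map_prod, map_prod, ← Finset.prod_mul_distrib]
    exact Finset.prod_congr rfl fun i _ => mk_P F s q h hyp i (g i)
  rw [Ideal.Quotient.eq] at h3
  have h4 := h3 X
  rw [sub_mul, map_sub, sub_eq_zero, mul_assoc] at h4
  exact h4

theorem null_aeval (G : Rg ι p →ₗ[ZMod p] ZMod p) (B X Y : Rg ι p)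
    (h : ∀ Z, G (X * (B * Z)) = G (Y * (B * Z))) (Q : Polynomial (ZMod p)) (Z : Rg ι p) :
    G (Polynomial.aeval X Q * (B * Z)) = G (Polynomial.aeval Y Q * (B * Z)) := by
  have h1 := Polynomial.sub_dvd_eval_sub X Y (Q.map (algebraMap (ZMod p) (Rg ι p)))
  rw [Polynomial.eval_map_algebraMap, Polynomial.eval_map_algebraMap] at h1
  obtain ⟨W, hW⟩ := h1
  have h2 : Polynomial.aeval X Q = Polynomial.aeval Y Q + (X - Y) * W := by
    rw [← hW]; ring
  have h3 : (X - Y) * W * (B * Z) = X * (B * (W * Z)) - Y * (B * (W * Z)) := by ring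
  rw [h2, add_mul, map_add, h3, map_sub, h (W * Z), sub_self, add_zero]

end Pool.Agent.Lib.MP_06b9d2_nt.ME
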