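import Pool.Agent.Lib.MP_06b9d2_nt.ME.AvI

/-!
Module ME-AvK (MP_06b9d2_nt, Maeda, all Hecke operators). Averaging: the value.

Expand (`Finset.prod_univ_sum`, write `E (q w) + E (- q w)` as a sum over two signs): `av ι p q h = ∑_{σ : ι → {1, -1}} ∑_{w : ι → [0, h)} single (q • (σ w)) 1`. For `v ∈ S 1` and a vector `y`: if `q • y ∈ S 1` then `h • (q • y) = (q h) • y ∈ S (s + 1)`, so `q • y ∈ S (s + 1)` (`S_cop`) and `f s (v + q • y) = f s v` (`f_inv`); if `q • y ∉ S 1` then `v + q • y ∉ S 1 ⊇ S s` (`s ≥ 1`) and `f s (v + q • y) = 0`. So `lin (F.f s) (single v 1 * av) = κ * f s v`, `κ` the number of `(σ, w)` with `q • (σ w) ∈ S 1`. The condition `q • y ∈ S 1` depends only on `y` modulo `h` (`hyp`, `S_anti`) and is additive: let `U ⊆ (ι → ZMod h)` be the additive subgroup of the classes `y` with it (`h ≥ 1` since `p ∤ h`; e.g. `U` = the image of the subgroup `{y | q • y ∈ S 1}` under the reduction, or its `comap`). For each sign vector `σ` the map `w ↦ class of σ w` is a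 bijection from `[0, h) ^ ι` to `ι → ZMod h`, so `κ = 2 ^ (card ι) * card U`, and `card U ∣ h ^ (card ι)` (`AddSubgroup.card_addSubgroup_dvd_card`, `ZMod.card`, `Fintype.card_fun`) is prime to `p`, and `p ≠ 2`.
(Alternative: modulo null elements, see AvI, `P_i` is `2 ∑_{w < h} E p i (q w)`, so that only `w : ι → [0, h)` is needed.)
-/

namespace Pool.Agent.Lib.MP_06b9d2_nt.ME



variable {ι : Type} [Fintype ι] [DecidableEq ι] {p : ℕ}

private theorem AvK_single_prod (s : Finset ι) (g : ι → (ι → ℤ)) :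
    (∏ i ∈ s, (AddMonoidAlgebra.single (g i) 1 : Rg ι p)) =
      AddMonoidAlgebra.single (∑ i ∈ s, g i) 1 := by
  induction s using Finset.induction_on with
  | empty => simp [AddMonoidAlgebra.one_def]
  | insert a s ha ih =>
    rw [Finset.prod_insert ha, Finset.sum_insert ha, ih, AddMonoidAlgebra.single_mul_single,
      one_mul]

private theorem AvK_E_prod (v : ι → ℤ) :
    (∏ i, E p i (v i)) = (AddMonoidAlgebra.single v 1 : Rg ι p) := by
  unfold E
  rw [AvK_single_prod]
  congr 1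
  exact Finset.univ_sum_single v

/-- the pairs (number, sign) -/
private def AvKT (h : ℕ) : Finset (ℕ × ℤ) := Finset.range h ×ˢ {1, -1}

private theorem AvK_av (q h : ℕ) :
    av ι p q h = ∑ σ ∈ Fintype.piFinset (fun _ : ι => AvKT h),
      AddMonoidAlgebra.single ((q : ℤ) • (fun i => (σ i).2 * ((σ i).1 : ℤ))) 1 := by
  unfold av
  have h1 : ∀ i : ι, ∑ w ∈ Finset.range h, (E p i ((q : ℤ) * w) + E p i (-((q : ℤ) * w))) =
      ∑ z ∈ AvKT h, E p i ((q : ℤ) * (z.2 * (z.1 : ℤ))) := by
    intro i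
    unfold AvKT
    rw [Finset.sum_product]
    refine Finset.sum_congr rfl fun w _ => ?_
    rw [Finset.sum_pair (by norm_num)]
    congr 2
    · ring
    · ring
  rw [Finset.prod_congr rfl fun i _ => h1 i, Finset.prod_univ_sum]
  refine Finset.sum_congr rfl fun σ _ => ?_
  rw [AvK_E_prod (p := p) (fun i => (q : ℤ) * ((σ i).2 * ((σ i).1 : ℤ)))]
  rfl

private theorem AvK_fiber (h : ℕ) [NeZero h] (u : ZMod h) :
    ((AvKT h).filter fun z => ((z.2 * (z.1 : ℤ) : ℤ) : ZMod h) = u).card = 2 := by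
  have h1 : (AvKT h).filter (fun z => ((z.2 * (z.1 : ℤ) : ℤ) : ZMod h) = u) =
      {(u.val, 1), ((-u).val, -1)} := by
    ext ⟨w, e⟩
    unfold AvKT
    rw [Finset.mem_filter, Finset.mem_product, Finset.mem_range, Finset.mem_insert,
      Finset.mem_singleton, Finset.mem_insert, Finset.mem_singleton, Prod.mk.injEq,
      Prod.mk.injEq]
    constructor
    · rintro ⟨⟨h2, h3⟩, h4⟩
      rcases h3 with rfl | rfl
      · left
        refine ⟨?_, rfl⟩
        rw [← h4]
        push_cast
        rw [one_mul, ZMod.val_natCast_of_lt h2]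
      · right
        refine ⟨?_, rfl⟩
        rw [← h4]
        push_cast
        rw [neg_one_mul, neg_neg, ZMod.val_natCast_of_lt h2]
    · rintro (⟨rfl, rfl⟩ | ⟨rfl, rfl⟩)
      · refine ⟨⟨ZMod.val_lt u, Or.inl rfl⟩, ?_⟩
        push_cast
        rw [one_mul, ZMod.natCast_val, ZMod.cast_id', id]
      · refine ⟨⟨ZMod.val_lt _, Or.inr rfl⟩, ?_⟩
        push_cast
        rw [neg_one_mul, ZMod.natCast_val, ZMod.cast_id', id, neg_neg]
  rw [h1, Finset.card_pair]
  intro h2
  have := congrArg Prod.snd h2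
  norm_num at this

private theorem AvK_fiber_pi (h : ℕ) [NeZero h] (u : ι → ZMod h) :
    ((Fintype.piFinset (fun _ : ι => AvKT h)).filter
      fun σ => (fun i => (((σ i).2 * ((σ i).1 : ℤ) : ℤ) : ZMod h)) = u).card =
      2 ^ Fintype.card ι := by
  have h1 : (Fintype.piFinset (fun _ : ι => AvKT h)).filter
      (fun σ => (fun i => (((σ i).2 * ((σ i).1 : ℤ) : ℤ) : ZMod h)) = u) =
      Fintype.piFinset (fun i =>
        (AvKT h).filter fun z => ((z.2 * (z.1 : ℤ) : ℤ) : ZMod h) = u i) := by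
    ext σ
    simp only [Finset.mem_filter, Fintype.mem_piFinset, funext_iff]
    constructor
    · rintro ⟨h2, h3⟩ i
      exact ⟨h2 i, h3 i⟩
    · intro h2
      exact ⟨fun i => (h2 i).1, fun i => (h2 i).2⟩
  rw [h1, Fintype.card_piFinset, Finset.prod_congr rfl fun i _ => AvK_fiber h (u i)]
  simp

theorem av_kap [Fact p.Prime] (hp2 : p ≠ 2) (F : Flt ι p) (s q h : ℕ) (hs : 1 ≤ s)
    (hh : ¬ p ∣ h) (hyp : ∀ v : ι → ℤ, ((q * h : ℕ) : ℤ) • v ∈ F.S (s + 1)) :
    ∃ κ : ZMod p, κ ≠ 0 ∧ ∀ v ∈ F.S 1,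
      lin (F.f s) (AddMonoidAlgebra.single v 1 * av ι p q h) = κ * F.f s v := by
  classical
  have hpp : p.Prime := Fact.out
  have hh0 : h ≠ 0 := by
    rintro rfl
    exact hh (dvd_zero p)
  have hN : NeZero h := ⟨hh0⟩
  have hS1 : F.S (s + 1) ≤ F.S 1 := S_anti F (by omega)
  have hSs : F.S s ≤ F.S 1 := S_anti F hs
  -- the vectors
  let Y : (ι → ℕ × ℤ) → (ι → ℤ) := fun σ i => (σ i).2 * ((σ i).1 : ℤ)
  -- the subgroup
  let Q0 : AddSubgroup (ι → ℤ) := (F.S 1).comap (zsmulAddGroupHom (q : ℤ))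
  have hQ0 : ∀ y, y ∈ Q0 ↔ (q : ℤ) • y ∈ F.S 1 := fun y => Iff.rfl
  let red : (ι → ℤ) →+ (ι → ZMod h) :=
    { toFun := fun y i => (y i : ZMod h)
      map_zero' := by
        funext i
        simp
      map_add' := fun a b => by
        funext i
        simp }
  let U : AddSubgroup (ι → ZMod h) := Q0.map red
  have hU : ∀ y, y ∈ Q0 ↔ red y ∈ U := by
    intro y
    constructor
    · intro hy
      exact ⟨y, hy, rfl⟩
    · rintro ⟨y', hy', he⟩
      have h1 : ∀ i, ∃ z : ℤ, y i - y' i = h * z := by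
        intro i
        have h2 : ((y' i : ℤ) : ZMod h) = ((y i : ℤ) : ZMod h) := congrFun he i
        have h3 := (ZMod.intCast_eq_intCast_iff_dvd_sub _ _ _).1 h2
        exact h3
      choose z hz using h1
      have h2 : (q : ℤ) • y = (q : ℤ) • y' + ((q * h : ℕ) : ℤ) • z := by
        funext i
        simp only [Pi.smul_apply, Pi.add_apply, smul_eq_mul]
        push_cast
        linear_combination (q : ℤ) * hz i
      rw [hQ0, h2]
      exact (F.S 1).add_mem ((hQ0 y').1 hy') (hS1 (hyp z))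
  -- the count
  set Sg : Finset (ι → ℕ × ℤ) := (Fintype.piFinset (fun _ : ι => AvKT h)).filter
    (fun σ => Y σ ∈ Q0) with hSg
  have hcard : Sg.card = Nat.card U * 2 ^ Fintype.card ι := by
    have h1 : ∀ σ ∈ Sg, red (Y σ) ∈ (Finset.univ.filter fun u : ι → ZMod h => u ∈ U) := by
      intro σ hσ
      rw [hSg, Finset.mem_filter] at hσ
      rw [Finset.mem_filter]
      exact ⟨Finset.mem_univ _, (hU _).1 hσ.2⟩
    rw [Finset.card_eq_sum_card_fiberwise h1]
    have h2 : ∀ u ∈ (Finset.univ.filter fun u : ι → ZMod h => u ∈ U),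
        (Sg.filter fun σ => red (Y σ) = u).card = 2 ^ Fintype.card ι := by
      intro u hu
      rw [Finset.mem_filter] at hu
      rw [← AvK_fiber_pi h u]
      congr 1
      ext σ
      rw [hSg, Finset.mem_filter, Finset.mem_filter, Finset.mem_filter]
      constructor
      · rintro ⟨⟨h3, h4⟩, h5⟩
        exact ⟨h3, h5⟩
      · rintro ⟨h3, h5⟩
        refine ⟨⟨h3, ?_⟩, h5⟩
        rw [hU]
        have h6 : red (Y σ) = u := h5
        rw [h6]
        exact hu.2
    rw [Finset.sum_congr rfl h2, Finset.sum_const, smul_eq_mul]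
    congr 1
    rw [Nat.card_eq_fintype_card, Fintype.card_subtype]
  refine ⟨(Sg.card : ZMod p), ?_, ?_⟩
  · rw [hcard]
    intro h0
    rw [ZMod.natCast_eq_zero_iff] at h0
    rcases (Nat.Prime.dvd_mul hpp).1 h0 with h1 | h1
    · have h2 : Nat.card U ∣ Nat.card (ι → ZMod h) := AddSubgroup.card_addSubgroup_dvd_card U
      have h3 : Nat.card (ι → ZMod h) = h ^ Fintype.card ι := by
        rw [Nat.card_eq_fintype_card, Fintype.card_fun, ZMod.card]
      rw [h3] at h2
      exact hh (hpp.dvd_of_dvd_pow (h1.trans h2))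
    · have h2 := hpp.dvd_of_dvd_pow h1
      exact hp2 ((Nat.prime_dvd_prime_iff_eq hpp Nat.prime_two).1 h2)
  · intro v hv
    rw [AvK_av, Finset.mul_sum, map_sum]
    have h1 : ∀ σ ∈ Fintype.piFinset (fun _ : ι => AvKT h),
        lin (F.f s) (AddMonoidAlgebra.single v 1 *
          (AddMonoidAlgebra.single ((q : ℤ) • (fun i => (σ i).2 * ((σ i).1 : ℤ))) 1 : Rg ι p)) =
        if Y σ ∈ Q0 then F.f s v else 0 := by
      intro σ _
      rw [AddMonoidAlgebra.single_mul_single, one_mul, lin_single, one_mul]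
      change F.f s (v + (q : ℤ) • Y σ) = _
      split_ifs with h2
      · refine f_inv F s v _ ?_
        rw [hQ0] at h2
        refine S_cop F (s + 1) _ (h : ℤ) ?_ h2 ?_
        · intro h3
          exact hh (by exact_mod_cast h3)
        · have h3 : (h : ℤ) • ((q : ℤ) • Y σ) = ((q * h : ℕ) : ℤ) • Y σ := by
            rw [← mul_smul]
            congr 1
            push_cast
            ring
          rw [h3]
          exact hyp _
      · refine F.out s _ ?_
        intro h3
        apply h2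
        rw [hQ0]
        have h4 := (F.S 1).sub_mem (hSs h3) hv
        rwa [add_sub_cancel_left] at h4
    rw [Finset.sum_congr rfl h1, ← Finset.sum_filter, Finset.sum_const, nsmul_eq_mul]

end Pool.Agent.Lib.MP_06b9d2_nt.ME
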