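import Pool.Agent.Lib.MP_06b9d2_nt.ME.SlashN

/-!
Module ME-BndN (MP_06b9d2_nt, Maeda, all Hecke operators). The Petersson functions are bounded and continuous.

Adapt `MD/Bnd.lean` (`n = 2`): the bound is `√(n ^ (k - 2) C₁ C₂)`.
-/

namespace Pool.Agent.Lib.MP_06b9d2_nt.ME

open UpperHalfPlane MeasureTheory
open scoped MatrixGroups ModularForm ENNReal

theorem cont_slash {k : ℤ} {n : ℕ} [NeZero n] (f : CuspForm 𝒮ℒ k) (A : Mn n) :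
    Continuous ((f : ℍ → ℂ) ∣[k] gl n A) := by
  exact ((CuspFormClass.holo f).slash k (gl n A)).continuous

private theorem bndnPetSq (k : ℤ) (F G : ℍ → ℂ) (z : ℍ) :
    ‖petersson k F G z‖ ^ 2 = ‖petersson k F F z‖ * ‖petersson k G G z‖ := by
  unfold petersson
  simp only [norm_mul, Complex.norm_conj]
  ring

private theorem bndnSlashBnd (k : ℤ) {n : ℕ} [NeZero n] (F : ℍ → ℂ) (A : Mn n) {C : ℝ}
    (hC : ∀ z, ‖petersson k F F z‖ ≤ C) (z : ℍ) :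
    ‖petersson k (F ∣[k] gl n A) (F ∣[k] gl n A) z‖ ≤ (n : ℝ) ^ (k - 2) * C := by
  rw [petersson_slash, det_gl]
  rw [norm_mul, norm_σ, norm_zpow, Complex.norm_real, Nat.abs_cast, Real.norm_eq_abs, Nat.abs_cast]
  exact mul_le_mul_of_nonneg_left (hC _) (by positivity)

theorem pet_bnd {k : ℤ} {n : ℕ} [NeZero n] (f g : CuspForm 𝒮ℒ k) : ∃ C : ℝ,
    ∀ (A : Mn n) (z : ℍ),
      ‖petersson k ((f : ℍ → ℂ) ∣[k] gl n A) g z‖ ≤ C ∧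
      ‖petersson k f ((g : ℍ → ℂ) ∣[k] gl n A) z‖ ≤ C := by
  obtain ⟨C₁, h₁⟩ := CuspFormClass.petersson_bounded_left k 𝒮ℒ f f
  obtain ⟨C₂, h₂⟩ := CuspFormClass.petersson_bounded_left k 𝒮ℒ g g
  have hC₁ : 0 ≤ C₁ := (norm_nonneg _).trans (h₁ UpperHalfPlane.I)
  have hC₂ : 0 ≤ C₂ := (norm_nonneg _).trans (h₂ UpperHalfPlane.I)
  have h2 : (0 : ℝ) ≤ (n : ℝ) ^ (k - 2) := by positivity
  refine ⟨Real.sqrt ((n : ℝ) ^ (k - 2) * C₁ * C₂), fun A z => ⟨?_, ?_⟩⟩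
  · apply Real.le_sqrt_of_sq_le
    rw [bndnPetSq]
    exact mul_le_mul (bndnSlashBnd k f A h₁ z) (h₂ z) (norm_nonneg _) (mul_nonneg h2 hC₁)
  · apply Real.le_sqrt_of_sq_le
    rw [bndnPetSq]
    calc ‖petersson k f f z‖ *
          ‖petersson k ((g : ℍ → ℂ) ∣[k] gl n A) ((g : ℍ → ℂ) ∣[k] gl n A) z‖
        ≤ C₁ * ((n : ℝ) ^ (k - 2) * C₂) :=
          mul_le_mul (h₁ z) (bndnSlashBnd k g A h₂ z) (norm_nonneg _) hC₁
      _ = (n : ℝ) ^ (k - 2) * C₁ * C₂ := by ring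

end Pool.Agent.Lib.MP_06b9d2_nt.ME
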