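import Mathlib
import Pool.Agent.Lib.MP_06b9d2_nt.MD.Defs

/-!
ME (MP_06b9d2_nt, Maeda, all Hecke operators): definitions.
-/

namespace Pool.Agent.Lib.MP_06b9d2_nt.ME

open UpperHalfPlane
open scoped MatrixGroups ModularForm ENNReal

/-! ### The primes dividing `2 n`, exponents -/

/-- the primes dividing `2 n` -/
abbrev Pr (n : ℕ) : Type := ↥((2 * n).primeFactors)

instance factPr (n : ℕ) (l : Pr n) : Fact (l : ℕ).Prime := ⟨Nat.prime_of_mem_primeFactors l.2⟩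

/-- the prime `2` -/
def two (n : ℕ) [NeZero n] : Pr n :=
  ⟨2, Nat.mem_primeFactors.2 ⟨Nat.prime_two, dvd_mul_right 2 n, mul_ne_zero two_ne_zero (NeZero.ne n)⟩⟩

/-- the exponents of `n` -/
def ex (n : ℕ) (l : Pr n) : ℕ := n.factorization l

/-- the number with the exponents `m` -/
def Mm (n : ℕ) (m : Pr n → ℕ) : ℕ := ∏ l : Pr n, (l : ℕ) ^ m l

/-! ### Arithmetic of `a + c √-p` -/

/-- the norm `a ^ 2 + p c ^ 2` -/
def nm (p : ℕ) (A : ℤ × ℤ) : ℤ := A.1 ^ 2 + p * A.2 ^ 2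

/-- the product -/
def mu (p : ℕ) (A B : ℤ × ℤ) : ℤ × ℤ := (A.1 * B.1 - p * (A.2 * B.2), A.1 * B.2 + A.2 * B.1)

/-- the conjugate -/
def cj (A : ℤ × ℤ) : ℤ × ℤ := (A.1, -A.2)

/-- the norm is not zero and its prime factors divide `2 n` -/
def Su (p n : ℕ) (A : ℤ × ℤ) : Prop :=
  nm p A ≠ 0 ∧ ∀ q : ℕ, q.Prime → (q : ℤ) ∣ nm p A → q ∣ 2 * n

open Classical in
/-- a square root of `-p` in `ℤ_[l]`, congruent to `1` modulo `4` if `l = 2` -/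
noncomputable def tt (p n : ℕ) (l : Pr n) : ℤ_[(l : ℕ)] :=
  if h : ∃ t : ℤ_[(l : ℕ)], t ^ 2 = -(p : ℤ_[(l : ℕ)]) ∧ ((l : ℕ) = 2 → (4 : ℤ_[(l : ℕ)]) ∣ t - 1)
  then h.choose else 0

/-- `v (a - c t) - v (a + c t)` -/
noncomputable def ev (p n : ℕ) (A : ℤ × ℤ) : Pr n → ℤ := fun l =>
  (((A.1 : ℤ_[(l : ℕ)]) - (A.2 : ℤ_[(l : ℕ)]) * tt p n l).valuation : ℤ) -
    (((A.1 : ℤ_[(l : ℕ)]) + (A.2 : ℤ_[(l : ℕ)]) * tt p n l).valuation : ℤ)

/-- the vectors of the `a + c √-p` with `p ^ s ∣ c` -/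
def Fl (p n s : ℕ) : Set (Pr n → ℤ) := {v | ∃ A, Su p n A ∧ (p : ℤ) ^ s ∣ A.2 ∧ ev p n A = v}

open Classical in
/-- `(c / p ^ s) / a` modulo `p` -/
noncomputable def ph (p n s : ℕ) (v : Pr n → ℤ) : ZMod p :=
  if h : v ∈ Fl p n s then
    ((h.choose.2 / (p : ℤ) ^ s : ℤ) : ZMod p) * ((h.choose.1 : ℤ) : ZMod p)⁻¹
  else 0

/-- the pairs `(a, c)` of odd integers with `a > 0`, `a ≡ c` modulo `4`, `a ^ 2 + p c ^ 2 = 8 M` -/
noncomputable def AP (p M : ℕ) : Finset (ℤ × ℤ) :=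
  (Finset.Icc (-(8 * M : ℤ)) (8 * M) ×ˢ Finset.Icc (-(8 * M : ℤ)) (8 * M)).filter
    (fun A => 0 < A.1 ∧ Odd A.1 ∧ Odd A.2 ∧ (4 : ℤ) ∣ A.1 - A.2 ∧ nm p A = 8 * M)

/-- the pairs `(x, y)` of positive odd numbers with `x ^ 2 + P y ^ 2 = 8 M` -/
def PP (P M : ℕ) : Finset (ℕ × ℕ) :=
  (Finset.range (8 * M + 1) ×ˢ Finset.range (8 * M + 1)).filter
    (fun A => Odd A.1 ∧ Odd A.2 ∧ A.1 ^ 2 + P * A.2 ^ 2 = 8 * M)

/-- `N_s = (1 + p ^ (2 s + 1)) / 8` -/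
def Np (p s : ℕ) : ℕ := (1 + p ^ (2 * s + 1)) / 8

/-! ### The filtration -/

/-- an abstract filtration of `ι → ℤ` with functions to `ZMod p` -/
structure Flt (ι : Type) (p : ℕ) where
  /-- the subgroups -/
  S : ℕ → AddSubgroup (ι → ℤ)
  /-- the functions -/
  f : ℕ → (ι → ℤ) → ZMod p
  out : ∀ s v, v ∉ S s → f s v = 0
  add : ∀ s v w, v ∈ S s → w ∈ S s → f s (v + w) = f s v + f s w
  ker : ∀ s v, v ∈ S s → (f s v = 0 ↔ v ∈ S (s + 1))
  le : ∀ s, S (s + 1) ≤ S s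
  mulp : ∀ s v, 1 ≤ s → v ∈ S s → (p : ℤ) • v ∈ S (s + 1) ∧ f (s + 1) ((p : ℤ) • v) = f s v
  inj : ∀ v, (∀ s, v ∈ S s) → v = 0
  idx : ∃ H : ℕ, 0 < H ∧ ∀ v : ι → ℤ, (H : ℤ) • v ∈ S 1

/-! ### The group ring -/

/-- the group ring of `ι → ℤ` over `ZMod p` -/
abbrev Rg (ι : Type) (p : ℕ) : Type := AddMonoidAlgebra (ZMod p) (ι → ℤ)

/-- the linear functional on the group ring given by a function -/
noncomputable def lin {ι : Type} {p : ℕ} (F : (ι → ℤ) → ZMod p) : Rg ι p →ₗ[ZMod p] ZMod p where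
  toFun X := X.coeff.sum fun g c => c * F g
  map_add' X Y := by
    rw [AddMonoidAlgebra.coeff_add]
    exact Finsupp.sum_add_index' (fun g => zero_mul _) (fun g a b => add_mul _ _ _)
  map_smul' a X := by
    rw [AddMonoidAlgebra.coeff_smul, RingHom.id_apply, Finsupp.sum_smul_index' (fun g => zero_mul _),
      smul_eq_mul, Finsupp.mul_sum]
    simp only [smul_eq_mul, mul_assoc]

section
variable {ι : Type} [Fintype ι] [DecidableEq ι] {p : ℕ}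

/-- `E_i ^ x` -/
noncomputable def E (p : ℕ) (i : ι) (x : ℤ) : Rg ι p := AddMonoidAlgebra.single (Pi.single i x) 1

/-- `E_i ^ j + E_i ^ (j - 2) + ⋯ + E_i ^ (-j)` -/
noncomputable def Ux (p : ℕ) (i : ι) (j : ℕ) : Rg ι p :=
  ∑ r ∈ Finset.range (j + 1), E p i ((j : ℤ) - 2 * r)

/-- the product over the coordinates -/
noncomputable def UU (p : ℕ) (m : ι → ℕ) : Rg ι p := ∏ i, Ux p i (m i)

/-- the sum over `v` with `v o = m o + 1` and `v i ∈ {m i, m i - 2, …, - m i}` for `i ≠ o` -/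
noncomputable def XX (p : ℕ) (o : ι) (m : ι → ℕ) : Rg ι p :=
  ∏ i, if i = o then E p o ((m o : ℤ) + 1) else Ux p i (m i)

/-- the endomorphism of the group ring given by an endomorphism of `ι → ℤ` -/
noncomputable def mp (p : ℕ) (φ : (ι → ℤ) →+ (ι → ℤ)) : Rg ι p →ₐ[ZMod p] Rg ι p :=
  AddMonoidAlgebra.mapDomainAlgHom (ZMod p) (ZMod p) φ

/-- `v ↦ -v` -/
def ng (ι : Type) : (ι → ℤ) →+ (ι → ℤ) := -AddMonoidHom.id (ι → ℤ)

/-- the sign change of the coordinate `i` -/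
def fp (i : ι) : (ι → ℤ) →+ (ι → ℤ) where
  toFun v := fun l => if l = i then -v l else v l
  map_zero' := by
    funext l
    simp
  map_add' v w := by
    funext l
    by_cases h : l = i
    · simp [h, add_comm]
    · simp [h]

/-- `∏_i ∑_{w < h} (E_i ^ (q w) + E_i ^ (- q w))` -/
noncomputable def av (ι : Type) [Fintype ι] [DecidableEq ι] (p q h : ℕ) : Rg ι p :=
  ∏ i, ∑ w ∈ Finset.range h, (E p i ((q : ℤ) * w) + E p i (-((q : ℤ) * w)))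

/-- `{j, j - 2, …, -j}` -/
def bx (j : ℕ) : Finset ℤ := (Finset.range (j + 1)).image fun r : ℕ => (j : ℤ) - 2 * (r : ℤ)

end

/-! ### Integral matrices of determinant `n` -/

/-- integral matrices of determinant `n` -/
abbrev Mn (n : ℕ) : Type := FixedDetMatrix (Fin 2) ℤ (n : ℤ)

/-- the pairs `(a, b)` with `a ∣ n` and `0 ≤ b < n / a` -/
abbrev Rp (n : ℕ) : Type := (a : ↥n.divisors) × Fin (n / a)

/-- the matrix `(a b; 0 n/a)` -/
def dl (n : ℕ) (j : Rp n) : Mn n :=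
  ⟨!![((j.1 : ℕ) : ℤ), ((j.2 : ℕ) : ℤ); 0, ((n / (j.1 : ℕ) : ℕ) : ℤ)], by
    rw [Matrix.det_fin_two_of, mul_zero, sub_zero]
    exact_mod_cast Nat.mul_div_cancel' (Nat.dvd_of_mem_divisors j.1.2)⟩

/-- the adjugate -/
def adj (n : ℕ) (A : Mn n) : Mn n := ⟨A.1.adjugate, by
  rw [Matrix.det_adjugate, A.2]
  simp⟩

/-- a matrix of determinant `n` as an element of `GL(2, ℝ)` -/
noncomputable def gl (n : ℕ) [NeZero n] (A : Mn n) : GL (Fin 2) ℝ :=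
  Matrix.GeneralLinearGroup.mkOfDetNeZero (A.1.map (Int.castRingHom ℝ)) (by
    have h : (A.1.map (Int.castRingHom ℝ)).det = n := by
      have := (RingHom.map_det (Int.castRingHom ℝ) A.1).symm
      rw [A.2] at this
      simpa using this
    rw [h]
    exact_mod_cast NeZero.ne n)

end Pool.Agent.Lib.MP_06b9d2_nt.ME
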