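import Pool.Agent.Lib.L1.Cong
import Pool.Agent.Lib.MP_06b9d2_nt.MD.Defs

/-!
Module ME-Den (MP_06b9d2_nt, Maeda, all Hecke operators). Clearing the denominators.

`MZ.coords`: `g = ∑_{j < dd w} c_j • bas ℚ w j` with `p`-integral `c_j`. Let `D = ∏_j (c_j).den`; `p ∤ (c_j).den` (from `val p (c_j) 0`: `c_j = 0` or `0 ≤ padicValRat p c_j`; `p ∣ den` implies `p ∤ num` and a negative valuation), so `p ∤ D`. `D c_j = k_j` are integers; `a = ∑_j k_j • bas ℤ w j` (`map_bas`: `bas ℚ` and `bas ℂ` are the images of `bas ℤ`), `a ∈ ML ℤ w`, its image in `ℂ⟦X⟧` is in `ML ℂ w` (`map_mem_ML`), so `exists_form_of_mem` gives a modular form of weight `k` with this `q`-expansion; the constant coefficient is `D * coeff 0 g = 0`, so it is a cusp form (`toCuspForm`, see the last step of `MD/Real.lean`).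
-/

namespace Pool.Agent.Lib.MP_06b9d2_nt.ME

open PowerSeries UpperHalfPlane
open MP_a3a416_nt.SJ (val)
open Pool.Agent.L1
open scoped MatrixGroups ModularForm

private theorem not_dvd_den {p : ℕ} [hp : Fact p.Prime] {c : ℚ} (h : val p c 0) : ¬ p ∣ c.den := by
  rintro hd
  rcases h with h | h
  · rw [h, Rat.den_zero] at hd
    exact hp.out.one_lt.ne' (Nat.dvd_one.1 hd)
  · have hc : c ≠ 0 := by
      rintro rfl
      rw [Rat.den_zero] at hd
      exact hp.out.one_lt.ne' (Nat.dvd_one.1 hd)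
    have hn : ¬ (p : ℤ) ∣ c.num := by
      intro hn
      have h1 : p ∣ c.num.natAbs := Int.natCast_dvd.1 hn
      have h2 := Nat.dvd_gcd h1 hd
      rw [c.reduced] at h2
      exact hp.out.one_lt.ne' (Nat.dvd_one.1 h2)
    have h3 : padicValRat p c = padicValInt p c.num - padicValNat p c.den := rfl
    have h4 : padicValInt p c.num = 0 := padicValInt.eq_zero_of_not_dvd hn
    have h5 : 1 ≤ padicValNat p c.den := one_le_padicValNat_of_dvd c.den_pos.ne' hd
    rw [h3, h4] at h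
    omega

theorem den {p : ℕ} [Fact p.Prime] {w : ℕ} {g : ℚ⟦X⟧} (hg : MZ p w g) (h0 : coeff 0 g = 0)
    (k : ℤ) (hk : k = w) :
    ∃ (f : CuspForm 𝒮ℒ k) (a : PowerSeries ℤ) (D : ℕ), ¬ p ∣ D ∧
      PowerSeries.map (Int.castRingHom ℂ) a = qExpansion 1 f ∧
      ∀ m, ((coeff m a : ℤ) : ℚ) = D * coeff m g := by
  have hp : p.Prime := Fact.out
  obtain ⟨c, hc, hgc⟩ := hg.coords
  obtain ⟨D, hD⟩ : ∃ D : ℕ, D = ∏ j ∈ Finset.range (dd w), (c j).den := ⟨_, rfl⟩
  have hpD : ¬ p ∣ D := by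
    rw [hD]
    intro h
    obtain ⟨j, _, hj⟩ := (Prime.dvd_finset_prod_iff hp.prime _).1 h
    exact not_dvd_den (hc j) hj
  have hex : ∀ j, ∃ z : ℤ, j ∈ Finset.range (dd w) → (z : ℚ) = D * c j := by
    intro j
    by_cases hj : j ∈ Finset.range (dd w)
    · have h1 : (c j).den ∣ D := by
        rw [hD]
        exact Finset.dvd_prod_of_mem _ hj
      obtain ⟨e, he⟩ := h1
      refine ⟨e * (c j).num, fun _ => ?_⟩
      have h2 : (c j) * (c j).den = (c j).num := Rat.mul_den_eq_num _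
      rw [he]
      push_cast
      rw [← h2]
      ring
    · exact ⟨0, fun h => absurd h hj⟩
  choose z hz using hex
  obtain ⟨a, ha⟩ : ∃ a : PowerSeries ℤ, a = ∑ j ∈ Finset.range (dd w), C (z j) * bas ℤ w j := ⟨_, rfl⟩
  have haM : a ∈ ML ℤ w := by
    rw [ha]
    refine Submodule.sum_mem _ fun j hj => ?_
    rw [← smul_eq_C_mul]
    refine Submodule.smul_mem _ _ ?_
    exact Submodule.subset_span ⟨⟨j, Finset.mem_range.1 hj⟩, rfl⟩
  have hmap : PowerSeries.map (Int.castRingHom ℚ) a = C (D : ℚ) * g := by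
    rw [ha, hgc, map_sum, Finset.mul_sum]
    refine Finset.sum_congr rfl fun j hj => ?_
    rw [map_mul, map_C, map_bas, smul_eq_C_mul, ← mul_assoc, ← map_mul, ← hz j hj]
    rfl
  have hco : ∀ m, ((coeff m a : ℤ) : ℚ) = D * coeff m g := by
    intro m
    have h := congrArg (coeff m) hmap
    rw [coeff_map, coeff_C_mul, eq_intCast] at h
    exact h
  have haC : PowerSeries.map (Int.castRingHom ℂ) a ∈ ML ℂ w := map_mem_ML _ haM
  obtain ⟨f, hf⟩ := exists_form_of_mem haC k hk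
  have hc0 : coeff 0 a = 0 := by
    have h := hco 0
    rw [h0, mul_zero] at h
    exact_mod_cast h
  refine ⟨ModularForm.toCuspForm f ?_, a, D, hpD, ?_, hco⟩
  · rw [hf, PowerSeries.coeff_map, hc0, map_zero]
  · exact hf.symm

end Pool.Agent.Lib.MP_06b9d2_nt.ME
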