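import Pool.Agent.Lib.MP_06b9d2_nt.ME.EvD

/-!
Module ME-Dvs (MP_06b9d2_nt, Maeda, all Hecke operators). Divisors and exponents.

The map `d ↦ Mm n d` is a bijection from the exponent vectors `d` with `d l ≤ min (m l) (ex n l)` to the divisors of `gcd (Mm n m) n`: `Mm n (ex n) = n` (`Nat.factorization_prod_pow_eq_self`; the primes of `Pr n` not dividing `n` have exponent `0`), `gcd` has the exponents `min` (`Mm_val`, `Nat.factorization_gcd` or `Nat.gcd` via `Nat.dvd_gcd_iff`), a divisor is determined by its exponents; `Mm n m * n / (Mm n d) ^ 2 = Mm n (m + ex n - 2 d)` since `Mm` is multiplicative (`Mm n (a + b) = Mm n a * Mm n b`) and `2 d l ≤ m l + ex n l`. `Finset.sum_bij'`/`Finset.sum_nbij`.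
-/

namespace Pool.Agent.Lib.MP_06b9d2_nt.ME

/-- a number whose primes divide `2 n` is determined by its exponents -/
private theorem Mm_fac (n : ℕ) [NeZero n] (d : ℕ) (hd : d ≠ 0) (h : ∀ q : ℕ, q.Prime → q ∣ d → q ∣ 2 * n) :
    Mm n (fun l => d.factorization (l : ℕ)) = d := by
  have h2n : 2 * n ≠ 0 := mul_ne_zero two_ne_zero (NeZero.ne n)
  unfold Mm
  rw [Finset.prod_coe_sort (2 * n).primeFactors (fun l => l ^ d.factorization l)]
  have h1 : d.factorization.prod (fun p e => p ^ e) = d := Nat.prod_factorization_pow_eq_self hd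
  conv_rhs => rw [← h1]
  refine (Finsupp.prod_of_support_subset _ ?_ _ fun i _ => pow_zero i).symm
  intro q hq
  rw [Nat.support_factorization] at hq
  exact Nat.mem_primeFactors.2 ⟨Nat.prime_of_mem_primeFactors hq,
    h q (Nat.prime_of_mem_primeFactors hq) (Nat.dvd_of_mem_primeFactors hq), h2n⟩

theorem Mm_ex (n : ℕ) [NeZero n] : Mm n (ex n) = n :=
  Mm_fac n n (NeZero.ne n) fun _ _ h => h.mul_left 2

theorem Mm_add (n : ℕ) (a b : Pr n → ℕ) : Mm n (fun l => a l + b l) = Mm n a * Mm n b := by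
  unfold Mm
  rw [← Finset.prod_mul_distrib]
  exact Finset.prod_congr rfl fun l _ => pow_add _ _ _

private theorem Mm_facv (n : ℕ) (m : Pr n → ℕ) (l : Pr n) : (Mm n m).factorization (l : ℕ) = m l := by
  rw [Nat.factorization_def _ (factPr n l).out, Mm_val]

private theorem Mm_mono (n : ℕ) (a b : Pr n → ℕ) (h : ∀ l, a l ≤ b l) : Mm n a ∣ Mm n b := by
  refine ⟨Mm n (fun l => b l - a l), ?_⟩
  rw [← Mm_add]
  congr 1
  funext l
  have := h l
  omega

theorem dvs {n : ℕ} [NeZero n] (m : Pr n → ℕ) {β : Type} [AddCommMonoid β] (g : ℕ → ℕ → β) :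
    ∑ d ∈ (Nat.gcd (Mm n m) n).divisors, g d (Mm n m * n / d ^ 2) =
      ∑ d ∈ Fintype.piFinset (fun l => Finset.range (min (m l) (ex n l) + 1)),
        g (Mm n d) (Mm n (fun l => m l + ex n l - 2 * d l)) := by
  have hn : n ≠ 0 := NeZero.ne n
  symm
  refine Finset.sum_bij' (fun d _ => Mm n d) (fun d _ => fun l => d.factorization (l : ℕ)) ?_ ?_ ?_ ?_ ?_
  · intro d hd
    rw [Fintype.mem_piFinset] at hd
    have hd' : ∀ l, d l ≤ m l ∧ d l ≤ ex n l := fun l => by
      have := hd l
      rw [Finset.mem_range] at this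
      omega
    rw [Nat.mem_divisors]
    refine ⟨Nat.dvd_gcd (Mm_mono n d m fun l => (hd' l).1) ?_, ?_⟩
    · have := Mm_mono n d (ex n) fun l => (hd' l).2
      rwa [Mm_ex] at this
    · exact Nat.gcd_ne_zero_right hn
  · intro d hd
    rw [Nat.mem_divisors] at hd
    have h1 : d ∣ Mm n m := hd.1.trans (Nat.gcd_dvd_left _ _)
    have h2 : d ∣ n := hd.1.trans (Nat.gcd_dvd_right _ _)
    have hd0 : d ≠ 0 := fun h => hn (by rw [h] at h2; exact Nat.eq_zero_of_zero_dvd h2)
    rw [Fintype.mem_piFinset]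
    intro l
    rw [Finset.mem_range]
    have e1 : d.factorization (l : ℕ) ≤ m l := by
      have := (Nat.factorization_le_iff_dvd hd0 (Mm_pos n m).ne').2 h1 (l : ℕ)
      rwa [Mm_facv] at this
    have e2 : d.factorization (l : ℕ) ≤ ex n l := (Nat.factorization_le_iff_dvd hd0 hn).2 h2 (l : ℕ)
    have := le_min e1 e2
    omega
  · intro d hd
    funext l
    exact Mm_facv n d l
  · intro d hd
    rw [Nat.mem_divisors] at hd
    have h2 : d ∣ n := hd.1.trans (Nat.gcd_dvd_right _ _)
    have hd0 : d ≠ 0 := fun h => hn (by rw [h] at h2; exact Nat.eq_zero_of_zero_dvd h2)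
    exact Mm_fac n d hd0 fun q _ hq => (hq.trans h2).mul_left 2
  · intro d hd
    rw [Fintype.mem_piFinset] at hd
    have hd' : ∀ l, 2 * d l ≤ m l + ex n l := fun l => by
      have := hd l
      rw [Finset.mem_range] at this
      omega
    congr 1
    have e : Mm n m * n = Mm n d ^ 2 * Mm n (fun l => m l + ex n l - 2 * d l) := by
      calc Mm n m * n = Mm n m * Mm n (ex n) := by rw [Mm_ex]
        _ = Mm n (fun l => m l + ex n l) := (Mm_add n m (ex n)).symm
        _ = Mm n (fun l => (d l + d l) + (m l + ex n l - 2 * d l)) := by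
          congr 1
          funext l
          have := hd' l
          omega
        _ = Mm n d ^ 2 * Mm n (fun l => m l + ex n l - 2 * d l) := by
          rw [Mm_add n (fun l => d l + d l), Mm_add n d d, sq]
    rw [e, Nat.mul_div_cancel_left _ (pow_pos (Mm_pos n d) 2)]

end Pool.Agent.Lib.MP_06b9d2_nt.ME
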