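import Pool.Agent.Lib.MP_06b9d2_nt.ME.Hens

/-!
Module ME-EvA (MP_06b9d2_nt, Maeda, all Hecke operators). The vector `ev` is additive.

`prod_eq`: `(a - c t) (a + c t) = a ^ 2 - c ^ 2 t ^ 2 = a ^ 2 + p c ^ 2`. So if `nm p A ≠ 0` both factors are not `0` and `PadicInt.valuation_mul` gives `val_sum`; the valuation of an integer `N ≠ 0` in `ℤ_[l]` is `padicValInt l N` (`PadicInt.valuation_intCast` or through `Padic.valuation_intCast`; search the name). `nm_mu`: `ring`. `ev_mu`: `(a b - p c d) - (a d + b c) t = (a - c t) (b - d t)` and the same with `+` (use `t ^ 2 = -p`), then `PadicInt.valuation_mul`. `ev_cj`: the two terms are exchanged. `ev_smul`: the valuation of `g` cancels. `Su_mu`: a prime dividing the product of the norms divides one of them. `Su_smul`: `nm p (g A) = g ^ 2 nm p A`, so `nm p A` divides it.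
`p_not_dvd`: `p ∣ 2 n` would give `p ≤ 2 n < 8 n - 1 ≤ p`. `Su_not_dvd`: `p ∣ A.1` gives `p ∣ nm p A`, so `p ∣ 2 n`.
-/

namespace Pool.Agent.Lib.MP_06b9d2_nt.ME



private theorem val_int (q : ℕ) [Fact q.Prime] (N : ℤ) :
    ((N : ℤ) : ℤ_[q]).valuation = padicValInt q N := by
  have h : ((((N : ℤ) : ℤ_[q]).valuation : ℕ) : ℤ) = ((padicValInt q N : ℕ) : ℤ) := by
    rw [← PadicInt.valuation_coe, PadicInt.coe_intCast]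
    exact Padic.valuation_intCast N
  exact_mod_cast h

theorem prod_eq {p n : ℕ} (h8 : 8 * n ∣ p + 1) (A : ℤ × ℤ) (l : Pr n) :
    ((A.1 : ℤ_[(l : ℕ)]) - (A.2 : ℤ_[(l : ℕ)]) * tt p n l) *
      ((A.1 : ℤ_[(l : ℕ)]) + (A.2 : ℤ_[(l : ℕ)]) * tt p n l) = ((nm p A : ℤ) : ℤ_[(l : ℕ)]) := by
  have h := tt_sq h8 l
  unfold nm
  push_cast
  linear_combination (-(A.2 : ℤ_[(l : ℕ)]) ^ 2) * h

private theorem ne_both {p n : ℕ} (h8 : 8 * n ∣ p + 1) (A : ℤ × ℤ) (hA : nm p A ≠ 0) (l : Pr n) :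
    (A.1 : ℤ_[(l : ℕ)]) - (A.2 : ℤ_[(l : ℕ)]) * tt p n l ≠ 0 ∧
      (A.1 : ℤ_[(l : ℕ)]) + (A.2 : ℤ_[(l : ℕ)]) * tt p n l ≠ 0 := by
  have h := prod_eq h8 A l
  have h1 : ((nm p A : ℤ) : ℤ_[(l : ℕ)]) ≠ 0 := Int.cast_ne_zero.2 hA
  rw [← h] at h1
  exact ⟨left_ne_zero_of_mul h1, right_ne_zero_of_mul h1⟩

theorem val_sum {p n : ℕ} (h8 : 8 * n ∣ p + 1) (A : ℤ × ℤ) (hA : nm p A ≠ 0) (l : Pr n) :
    ((A.1 : ℤ_[(l : ℕ)]) - (A.2 : ℤ_[(l : ℕ)]) * tt p n l).valuation +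
      ((A.1 : ℤ_[(l : ℕ)]) + (A.2 : ℤ_[(l : ℕ)]) * tt p n l).valuation =
      padicValInt (l : ℕ) (nm p A) := by
  obtain ⟨h1, h2⟩ := ne_both h8 A hA l
  rw [← PadicInt.valuation_mul h1 h2, prod_eq h8 A l, val_int]

theorem nm_mu (p : ℕ) (A B : ℤ × ℤ) : nm p (mu p A B) = nm p A * nm p B := by
  unfold nm mu
  ring

theorem nm_cj (p : ℕ) (A : ℤ × ℤ) : nm p (cj A) = nm p A := by
  unfold nm cj
  ring

theorem ev_mu {p n : ℕ} (h8 : 8 * n ∣ p + 1) (A B : ℤ × ℤ) (hA : nm p A ≠ 0) (hB : nm p B ≠ 0) :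
    ev p n (mu p A B) = ev p n A + ev p n B := by
  funext l
  obtain ⟨a1, a2⟩ := ne_both h8 A hA l
  obtain ⟨b1, b2⟩ := ne_both h8 B hB l
  have h := tt_sq h8 l
  have e1 : (((mu p A B).1 : ℤ) : ℤ_[(l : ℕ)]) - (((mu p A B).2 : ℤ) : ℤ_[(l : ℕ)]) * tt p n l =
      ((A.1 : ℤ_[(l : ℕ)]) - (A.2 : ℤ_[(l : ℕ)]) * tt p n l) *
        ((B.1 : ℤ_[(l : ℕ)]) - (B.2 : ℤ_[(l : ℕ)]) * tt p n l) := by
    unfold mu
    push_cast
    linear_combination (-(A.2 : ℤ_[(l : ℕ)]) * (B.2 : ℤ_[(l : ℕ)])) * h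
  have e2 : (((mu p A B).1 : ℤ) : ℤ_[(l : ℕ)]) + (((mu p A B).2 : ℤ) : ℤ_[(l : ℕ)]) * tt p n l =
      ((A.1 : ℤ_[(l : ℕ)]) + (A.2 : ℤ_[(l : ℕ)]) * tt p n l) *
        ((B.1 : ℤ_[(l : ℕ)]) + (B.2 : ℤ_[(l : ℕ)]) * tt p n l) := by
    unfold mu
    push_cast
    linear_combination (-(A.2 : ℤ_[(l : ℕ)]) * (B.2 : ℤ_[(l : ℕ)])) * h
  rw [Pi.add_apply]
  unfold ev
  rw [e1, e2, PadicInt.valuation_mul a1 b1, PadicInt.valuation_mul a2 b2]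
  push_cast
  ring

theorem ev_cj (p n : ℕ) (A : ℤ × ℤ) : ev p n (cj A) = -ev p n A := by
  funext l
  rw [Pi.neg_apply]
  unfold ev cj
  have e1 : (A.1 : ℤ_[(l : ℕ)]) - ((-A.2 : ℤ) : ℤ_[(l : ℕ)]) * tt p n l =
      (A.1 : ℤ_[(l : ℕ)]) + (A.2 : ℤ_[(l : ℕ)]) * tt p n l := by
    push_cast
    ring
  have e2 : (A.1 : ℤ_[(l : ℕ)]) + ((-A.2 : ℤ) : ℤ_[(l : ℕ)]) * tt p n l =
      (A.1 : ℤ_[(l : ℕ)]) - (A.2 : ℤ_[(l : ℕ)]) * tt p n l := by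
    push_cast
    ring
  simp only []
  rw [e1, e2]
  ring

theorem ev_smul {p n : ℕ} (h8 : 8 * n ∣ p + 1) (g : ℤ) (hg : g ≠ 0) (A : ℤ × ℤ)
    (hA : nm p A ≠ 0) : ev p n (g * A.1, g * A.2) = ev p n A := by
  funext l
  obtain ⟨a1, a2⟩ := ne_both h8 A hA l
  have hg' : ((g : ℤ) : ℤ_[(l : ℕ)]) ≠ 0 := Int.cast_ne_zero.2 hg
  unfold ev
  have e1 : ((g * A.1 : ℤ) : ℤ_[(l : ℕ)]) - ((g * A.2 : ℤ) : ℤ_[(l : ℕ)]) * tt p n l =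
      ((g : ℤ) : ℤ_[(l : ℕ)]) * ((A.1 : ℤ_[(l : ℕ)]) - (A.2 : ℤ_[(l : ℕ)]) * tt p n l) := by
    push_cast
    ring
  have e2 : ((g * A.1 : ℤ) : ℤ_[(l : ℕ)]) + ((g * A.2 : ℤ) : ℤ_[(l : ℕ)]) * tt p n l =
      ((g : ℤ) : ℤ_[(l : ℕ)]) * ((A.1 : ℤ_[(l : ℕ)]) + (A.2 : ℤ_[(l : ℕ)]) * tt p n l) := by
    push_cast
    ring
  simp only []
  rw [e1, e2, PadicInt.valuation_mul hg' a1, PadicInt.valuation_mul hg' a2]
  push_cast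
  ring

theorem Su_mu {p n : ℕ} {A B : ℤ × ℤ} (hA : Su p n A) (hB : Su p n B) : Su p n (mu p A B) := by
  refine ⟨?_, fun q hq h => ?_⟩
  · rw [nm_mu]
    exact mul_ne_zero hA.1 hB.1
  · rw [nm_mu] at h
    have hq' : Prime (q : ℤ) := Nat.prime_iff_prime_int.1 hq
    rcases hq'.dvd_or_dvd h with h | h
    · exact hA.2 q hq h
    · exact hB.2 q hq h

theorem Su_cj {p n : ℕ} {A : ℤ × ℤ} (hA : Su p n A) : Su p n (cj A) := by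
  refine ⟨?_, fun q hq h => ?_⟩
  · rw [nm_cj]
    exact hA.1
  · rw [nm_cj] at h
    exact hA.2 q hq h

theorem Su_of_smul {p n : ℕ} {A : ℤ × ℤ} (g : ℤ) (hA : Su p n (g * A.1, g * A.2)) : Su p n A := by
  have e : nm p (g * A.1, g * A.2) = g ^ 2 * nm p A := by
    unfold nm
    ring
  obtain ⟨h1, h2⟩ := hA
  rw [e] at h1
  refine ⟨right_ne_zero_of_mul h1, fun q hq h => h2 q hq ?_⟩
  rw [e]
  exact h.mul_left _

theorem p_not_dvd {p n : ℕ} [NeZero n] (hp : p.Prime) (h8 : 8 * n ∣ p + 1) : ¬ p ∣ 2 * n := by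
  intro h
  have hn : 0 < n := Nat.pos_of_ne_zero (NeZero.ne n)
  have h1 := Nat.le_of_dvd (by omega) h
  have h2 := Nat.le_of_dvd (by omega) h8
  have := hp.two_le
  omega

theorem Su_not_dvd {p n : ℕ} [NeZero n] (hp : p.Prime) (h8 : 8 * n ∣ p + 1) {A : ℤ × ℤ}
    (hA : Su p n A) : ¬ (p : ℤ) ∣ A.1 := by
  intro h
  refine p_not_dvd hp h8 (hA.2 p hp ?_)
  unfold nm
  exact dvd_add (dvd_pow h two_ne_zero) (dvd_mul_right _ _)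

end Pool.Agent.Lib.MP_06b9d2_nt.ME
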