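import Pool.Agent.Lib.MP_06b9d2_nt.ME.EvA

/-!
Module ME-EvB (MP_06b9d2_nt, Maeda, all Hecke operators). The valuations of a primitive pair.

`val_odd`: if both valuations were `≥ 1`, `l` divides `a - c t` and `a + c t` in `ℤ_[l]` (a nonzero element of valuation `≥ 1` is divisible by `l`; note `valuation 0 = 0`), so `l ∣ 2 a` and `l ∣ 2 c t`, `2` and `t` are units (`tt_unit`), so `l ∣ a`, `l ∣ c` in `ℤ_[l]`, hence in `ℤ` (`PadicInt.norm_int_lt_one_iff_dvd` or `PadicInt.isUnit`), against `gcd = 1`.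
`val_two`: `a + c t = (a + c) + c (t - 1)`, `4 ∣ c (t - 1)` and `a + c = 2 a - (a - c)` is `2` modulo `4`; so `a + c t = 2 (1 + 2 y)`, valuation `1`.
`both_odd`: (`l = 2`) if `valuation (a - c t) ≠ valuation (a + c t)` for a primitive pair of nonzero norm then `a`, `c` are odd and: `4 ∣ a - c` if the first valuation is the larger one. Proof: one of the valuations is `≥ 1`, so (`a - c t - (a - c) = - c (t - 1)` is divisible by `4`, and the same for the sign `+`) `2 ∣ a - c` or `2 ∣ a + c`, i.e. `a ≡ c` modulo `2`, and by `gcd = 1` both are odd. If not `4 ∣ a - c` then `4 ∣ a + c`, so `a - c t` has valuation `1` (`val_two` for `(a, -c)`) and `a + c t` valuation `≥ 2` (it is divisible by `4` and not `0`), against the order.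
-/

namespace Pool.Agent.Lib.MP_06b9d2_nt.ME



private theorem evb_pow {l : ℕ} [Fact l.Prime] {x : ℤ_[l]} (hx : x ≠ 0) (k : ℕ) :
    (l : ℤ_[l]) ^ k ∣ x ↔ k ≤ x.valuation := by
  rw [← PadicInt.mem_span_pow_iff_le_valuation x hx, Ideal.mem_span_singleton]

private theorem evb_dvd {l : ℕ} [Fact l.Prime] {x : ℤ_[l]} (hx : x.valuation ≠ 0) :
    (l : ℤ_[l]) ∣ x := by
  have h0 : x ≠ 0 := by
    rintro rfl
    exact hx PadicInt.valuation_zero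
  have h1 := (evb_pow h0 1).2 (Nat.one_le_iff_ne_zero.2 hx)
  rwa [pow_one] at h1

private theorem evb_int {l : ℕ} [Fact l.Prime] {a : ℤ} : (l : ℤ_[l]) ∣ (a : ℤ_[l]) ↔ (l : ℤ) ∣ a := by
  have h := PadicInt.pow_p_dvd_int_iff (p := l) 1 a
  rwa [pow_one, pow_one] at h

private theorem evb_two {l : ℕ} [Fact l.Prime] (hl : l = 2) : (l : ℤ_[l]) = 2 := by
  have h := congrArg (fun k : ℕ => (k : ℤ_[l])) hl
  simpa using h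

private theorem evb_int2 {l : ℕ} [Fact l.Prime] (hl : l = 2) {a : ℤ} :
    (2 : ℤ_[l]) ∣ (a : ℤ_[l]) ↔ (2 : ℤ) ∣ a := by
  rw [← evb_two hl, evb_int, hl]
  rfl

private theorem evb_int4 {l : ℕ} [Fact l.Prime] (hl : l = 2) {a : ℤ} :
    (4 : ℤ_[l]) ∣ (a : ℤ_[l]) ↔ (4 : ℤ) ∣ a := by
  have h := PadicInt.pow_p_dvd_int_iff (p := l) 2 a
  have h2 : (l : ℤ) = 2 := by exact_mod_cast hl
  rw [evb_two hl, h2] at h
  norm_num at h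
  exact h

private theorem evb_four {l : ℕ} [Fact l.Prime] (hl : l = 2) {x : ℤ_[l]} (hx : x ≠ 0) :
    (4 : ℤ_[l]) ∣ x ↔ 2 ≤ x.valuation := by
  have h := evb_pow hx 2
  rw [evb_two hl] at h
  norm_num at h
  exact h

private theorem evb_one {l : ℕ} [Fact l.Prime] (hl : l = 2) {x : ℤ_[l]} (hx : x ≠ 0) :
    (2 : ℤ_[l]) ∣ x ↔ 1 ≤ x.valuation := by
  have h := evb_pow hx 1
  rwa [evb_two hl, pow_one] at h

private theorem evb_dvd2 {l : ℕ} [Fact l.Prime] (hl : l = 2) {x : ℤ_[l]} (hx : x.valuation ≠ 0) :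
    (2 : ℤ_[l]) ∣ x := by
  rw [← evb_two hl]
  exact evb_dvd hx

theorem val_odd {p n : ℕ} (h8 : 8 * n ∣ p + 1) (A : ℤ × ℤ) (hA : Int.gcd A.1 A.2 = 1) (l : Pr n)
    (hl : (l : ℕ) ≠ 2) :
    ((A.1 : ℤ_[(l : ℕ)]) - (A.2 : ℤ_[(l : ℕ)]) * tt p n l).valuation = 0 ∨
      ((A.1 : ℤ_[(l : ℕ)]) + (A.2 : ℤ_[(l : ℕ)]) * tt p n l).valuation = 0 := by
  by_contra hc
  rw [not_or] at hc
  have h1 := evb_dvd hc.1
  have h2 := evb_dvd hc.2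
  have hlp : (l : ℕ).Prime := (factPr n l).out
  have hlz : Prime ((l : ℕ) : ℤ) := Nat.prime_iff_prime_int.1 hlp
  have hl2 : ¬ ((l : ℕ) : ℤ) ∣ 2 := by
    intro h
    have h3 : (l : ℕ) ∣ 2 := by exact_mod_cast h
    exact hl ((Nat.prime_dvd_prime_iff_eq hlp Nat.prime_two).1 h3)
  have h3 : ((l : ℕ) : ℤ) ∣ 2 * A.1 := by
    rw [← evb_int (l := (l : ℕ))]
    have := dvd_add h1 h2
    push_cast
    convert this using 1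
    ring
  have h4 : ((l : ℕ) : ℤ) ∣ 2 * A.2 := by
    rw [← evb_int (l := (l : ℕ))]
    have h5 := dvd_sub h2 h1
    have h6 : ((A.1 : ℤ_[(l : ℕ)]) + (A.2 : ℤ_[(l : ℕ)]) * tt p n l) -
        ((A.1 : ℤ_[(l : ℕ)]) - (A.2 : ℤ_[(l : ℕ)]) * tt p n l) =
        ((2 * A.2 : ℤ) : ℤ_[(l : ℕ)]) * tt p n l := by
      push_cast
      ring
    rw [h6] at h5
    exact (tt_unit h8 l).dvd_mul_right.1 h5
  have h5 := (hlz.dvd_or_dvd h3).resolve_left hl2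
  have h6 := (hlz.dvd_or_dvd h4).resolve_left hl2
  have h7 : ((l : ℕ) : ℤ) ∣ (Int.gcd A.1 A.2 : ℤ) := Int.dvd_coe_gcd h5 h6
  rw [hA] at h7
  exact hlz.not_isUnit (isUnit_of_dvd_one (by simpa using h7))

/-- `a + c t` and `a + c` are congruent modulo `4` -/
private theorem evb_plus {p n : ℕ} (h8 : 8 * n ∣ p + 1) (a c : ℤ) (l : Pr n)
    (hl : (l : ℕ) = 2) : ∃ s : ℤ_[(l : ℕ)],
      (a : ℤ_[(l : ℕ)]) + (c : ℤ_[(l : ℕ)]) * tt p n l = ((a + c : ℤ) : ℤ_[(l : ℕ)]) + 4 * s := by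
  obtain ⟨s, hs⟩ := tt_four h8 l hl
  refine ⟨c * s, ?_⟩
  have : tt p n l = 1 + 4 * s := by rw [← hs]; ring
  rw [this]
  push_cast
  ring

private theorem evb_minus {p n : ℕ} (h8 : 8 * n ∣ p + 1) (a c : ℤ) (l : Pr n)
    (hl : (l : ℕ) = 2) : ∃ s : ℤ_[(l : ℕ)],
      (a : ℤ_[(l : ℕ)]) - (c : ℤ_[(l : ℕ)]) * tt p n l = ((a - c : ℤ) : ℤ_[(l : ℕ)]) + 4 * s := by
  obtain ⟨s, hs⟩ := evb_plus h8 a (-c) l hl
  refine ⟨s, ?_⟩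
  rw [← sub_eq_add_neg] at hs
  rw [← hs]
  push_cast
  ring

theorem val_two {p n : ℕ} (h8 : 8 * n ∣ p + 1) (A : ℤ × ℤ) (h1 : Odd A.1) (h2 : Odd A.2)
    (h4 : (4 : ℤ) ∣ A.1 - A.2) (l : Pr n) (hl : (l : ℕ) = 2) :
    ((A.1 : ℤ_[(l : ℕ)]) + (A.2 : ℤ_[(l : ℕ)]) * tt p n l).valuation = 1 := by
  obtain ⟨s, hs⟩ := evb_plus h8 A.1 A.2 l hl
  have h24 : (2 : ℤ_[(l : ℕ)]) ∣ 4 := ⟨2, by norm_num⟩
  have h5 : ¬ (4 : ℤ_[(l : ℕ)]) ∣ (A.1 : ℤ_[(l : ℕ)]) + (A.2 : ℤ_[(l : ℕ)]) * tt p n l := by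
    intro h
    rw [hs] at h
    have h6 : (4 : ℤ_[(l : ℕ)]) ∣ ((A.1 + A.2 : ℤ) : ℤ_[(l : ℕ)]) := by
      have := dvd_sub h (dvd_mul_right (4 : ℤ_[(l : ℕ)]) s)
      rwa [add_sub_cancel_right] at this
    rw [evb_int4 hl] at h6
    obtain ⟨a, ha⟩ := h1
    obtain ⟨c, hc⟩ := h2
    omega
  have h6 : (2 : ℤ_[(l : ℕ)]) ∣ (A.1 : ℤ_[(l : ℕ)]) + (A.2 : ℤ_[(l : ℕ)]) * tt p n l := by
    rw [hs]
    refine dvd_add ?_ (h24.mul_right s)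
    rw [evb_int2 hl]
    obtain ⟨a, ha⟩ := h1
    obtain ⟨c, hc⟩ := h2
    omega
  have h0 : (A.1 : ℤ_[(l : ℕ)]) + (A.2 : ℤ_[(l : ℕ)]) * tt p n l ≠ 0 := by
    intro h
    rw [h] at h5
    exact h5 (dvd_zero _)
  have h7 := (evb_one hl h0).1 h6
  have h8' : ¬ 2 ≤ ((A.1 : ℤ_[(l : ℕ)]) + (A.2 : ℤ_[(l : ℕ)]) * tt p n l).valuation := fun h =>
    h5 ((evb_four hl h0).2 h)
  omega

/-- the same for `a - c t` -/
private theorem evb_val_two {p n : ℕ} (h8 : 8 * n ∣ p + 1) (A : ℤ × ℤ) (h1 : Odd A.1)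
    (h2 : Odd A.2) (h4 : (4 : ℤ) ∣ A.1 + A.2) (l : Pr n) (hl : (l : ℕ) = 2) :
    ((A.1 : ℤ_[(l : ℕ)]) - (A.2 : ℤ_[(l : ℕ)]) * tt p n l).valuation = 1 := by
  have h := val_two h8 (A.1, -A.2) h1 h2.neg (by simpa using h4) l hl
  have h5 : (A.1 : ℤ_[(l : ℕ)]) + ((-A.2 : ℤ) : ℤ_[(l : ℕ)]) * tt p n l =
      (A.1 : ℤ_[(l : ℕ)]) - (A.2 : ℤ_[(l : ℕ)]) * tt p n l := by
    push_cast
    ring
  simp only [h5] at h
  exact h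

private theorem evb_ne {p n : ℕ} (h8 : 8 * n ∣ p + 1) (A : ℤ × ℤ) (hN : nm p A ≠ 0) (l : Pr n) :
    (A.1 : ℤ_[(l : ℕ)]) - (A.2 : ℤ_[(l : ℕ)]) * tt p n l ≠ 0 ∧
      (A.1 : ℤ_[(l : ℕ)]) + (A.2 : ℤ_[(l : ℕ)]) * tt p n l ≠ 0 := by
  have h := prod_eq h8 A l
  have h1 : ((nm p A : ℤ) : ℤ_[(l : ℕ)]) ≠ 0 := by
    exact_mod_cast hN
  rw [← h] at h1
  exact ⟨left_ne_zero_of_mul h1, right_ne_zero_of_mul h1⟩

/-- both entries are odd if `a + c` is even -/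
private theorem evb_odd {a c : ℤ} (hA : Int.gcd a c = 1) (h : (2 : ℤ) ∣ a + c) :
    Odd a ∧ Odd c := by
  have h0 : ¬ ((2 : ℤ) ∣ a ∧ (2 : ℤ) ∣ c) := by
    rintro ⟨h1, h2⟩
    have h3 : (2 : ℤ) ∣ (Int.gcd a c : ℤ) := Int.dvd_coe_gcd h1 h2
    rw [hA] at h3
    norm_num at h3
  rw [Int.odd_iff, Int.odd_iff]
  omega

/-- `a - c t` has valuation at least `2` -/
private theorem evb_minus_four {p n : ℕ} (h8 : 8 * n ∣ p + 1) (A : ℤ × ℤ) (hN : nm p A ≠ 0)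
    (h4 : (4 : ℤ) ∣ A.1 - A.2) (l : Pr n) (hl : (l : ℕ) = 2) :
    2 ≤ ((A.1 : ℤ_[(l : ℕ)]) - (A.2 : ℤ_[(l : ℕ)]) * tt p n l).valuation := by
  rw [← evb_four hl (evb_ne h8 A hN l).1]
  obtain ⟨s, hs⟩ := evb_minus h8 A.1 A.2 l hl
  rw [hs]
  exact dvd_add ((evb_int4 hl).2 h4) (dvd_mul_right _ _)

private theorem evb_plus_four {p n : ℕ} (h8 : 8 * n ∣ p + 1) (A : ℤ × ℤ) (hN : nm p A ≠ 0)
    (h4 : (4 : ℤ) ∣ A.1 + A.2) (l : Pr n) (hl : (l : ℕ) = 2) :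
    2 ≤ ((A.1 : ℤ_[(l : ℕ)]) + (A.2 : ℤ_[(l : ℕ)]) * tt p n l).valuation := by
  rw [← evb_four hl (evb_ne h8 A hN l).2]
  obtain ⟨s, hs⟩ := evb_plus h8 A.1 A.2 l hl
  rw [hs]
  exact dvd_add ((evb_int4 hl).2 h4) (dvd_mul_right _ _)

private theorem evb_four_or {a c : ℤ} (h1 : Odd a) (h2 : Odd c) :
    (4 : ℤ) ∣ a - c ∨ (4 : ℤ) ∣ a + c := by
  obtain ⟨x, hx⟩ := h1
  obtain ⟨y, hy⟩ := h2
  omega

theorem both_odd {p n : ℕ} (h8 : 8 * n ∣ p + 1) (A : ℤ × ℤ) (hA : Int.gcd A.1 A.2 = 1)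
    (hN : nm p A ≠ 0) (l : Pr n) (hl : (l : ℕ) = 2)
    (h : ((A.1 : ℤ_[(l : ℕ)]) + (A.2 : ℤ_[(l : ℕ)]) * tt p n l).valuation <
      ((A.1 : ℤ_[(l : ℕ)]) - (A.2 : ℤ_[(l : ℕ)]) * tt p n l).valuation) :
    Odd A.1 ∧ Odd A.2 ∧ (4 : ℤ) ∣ A.1 - A.2 := by
  have h24 : (2 : ℤ_[(l : ℕ)]) ∣ 4 := ⟨2, by norm_num⟩
  have h1 := evb_dvd2 hl (x := (A.1 : ℤ_[(l : ℕ)]) - (A.2 : ℤ_[(l : ℕ)]) * tt p n l) (by omega)
  obtain ⟨s, hs⟩ := evb_minus h8 A.1 A.2 l hl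
  have h2 : (2 : ℤ) ∣ A.1 - A.2 := by
    rw [← evb_int2 hl]
    rw [hs] at h1
    have := dvd_sub h1 (h24.mul_right s)
    rwa [add_sub_cancel_right] at this
  obtain ⟨o1, o2⟩ := evb_odd hA (by omega)
  refine ⟨o1, o2, ?_⟩
  rcases evb_four_or o1 o2 with h4 | h4
  · exact h4
  · exfalso
    have h5 := evb_val_two h8 A o1 o2 h4 l hl
    have h6 := evb_plus_four h8 A hN h4 l hl
    omega

theorem val_two_zero {p n : ℕ} (h8 : 8 * n ∣ p + 1) (A : ℤ × ℤ) (hA : Int.gcd A.1 A.2 = 1)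
    (hN : nm p A ≠ 0) (l : Pr n) (hl : (l : ℕ) = 2)
    (h : ((A.1 : ℤ_[(l : ℕ)]) + (A.2 : ℤ_[(l : ℕ)]) * tt p n l).valuation =
      ((A.1 : ℤ_[(l : ℕ)]) - (A.2 : ℤ_[(l : ℕ)]) * tt p n l).valuation) :
    ((A.1 : ℤ_[(l : ℕ)]) + (A.2 : ℤ_[(l : ℕ)]) * tt p n l).valuation = 0 := by
  by_contra hv
  have h24 : (2 : ℤ_[(l : ℕ)]) ∣ 4 := ⟨2, by norm_num⟩
  have h1 := evb_dvd2 hl hv
  obtain ⟨s, hs⟩ := evb_plus h8 A.1 A.2 l hl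
  have h2 : (2 : ℤ) ∣ A.1 + A.2 := by
    rw [← evb_int2 hl]
    rw [hs] at h1
    have := dvd_sub h1 (h24.mul_right s)
    rwa [add_sub_cancel_right] at this
  obtain ⟨o1, o2⟩ := evb_odd hA h2
  rcases evb_four_or o1 o2 with h4 | h4
  · have h5 := val_two h8 A o1 o2 h4 l hl
    have h6 := evb_minus_four h8 A hN h4 l hl
    omega
  · have h5 := evb_val_two h8 A o1 o2 h4 l hl
    have h6 := evb_plus_four h8 A hN h4 l hl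
    omega

end Pool.Agent.Lib.MP_06b9d2_nt.ME
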