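import Pool.Agent.Lib.MP_06b9d2_nt.ME.EvB

/-!
Module ME-EvC (MP_06b9d2_nt, Maeda, all Hecke operators). Pairs with vector `0` are rational.

`prim`: `g = gcd (A.1, A.2)` (not `0`), `A = (g a, g c)` with `Int.gcd a c = 1`. `Su p n (a, c)` by `Su_of_smul`, the same vector by `ev_smul`.
`ev_zero`: reduce to a primitive pair `B` (`prim`; `A.2 = g B.2`). If `nm p B ≠ 1` there is a prime `q ∣ nm p B` (`nm p B > 0`), so `q ∣ 2 n`, i.e. `q = l : Pr n` (`n ≠ 0`). By `ev = 0` the two valuations at `l` are equal, and their sum `padicValInt l (nm p B)` is `≥ 1` (`val_sum`), so both are `≥ 1`; this contradicts `val_odd` (`l ≠ 2`) and `val_two_zero` (`l = 2`). So `B.1 ^ 2 + p B.2 ^ 2 = 1` with `p ≥ 2` (`8 n ∣ p + 1`), so `B.2 = 0`.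
`ev_inj`: `ev_zero` for `mu p A (cj B) = (_, - A.1 B.2 + A.2 B.1)`. `ev_inj'`: from `A.1 B.2 = A.2 B.1` and equal norms `B.1 ^ 2 nm p A = A.1 ^ 2 nm p B`, so `A.1 ^ 2 = B.1 ^ 2` (norm `≠ 0`) etc.; both first entries are positive so equal, then (`A.1 ≠ 0`) the second ones.
-/

namespace Pool.Agent.Lib.MP_06b9d2_nt.ME



theorem prim {p n : ℕ} (h8 : 8 * n ∣ p + 1) {A : ℤ × ℤ} (hA : Su p n A) :
    ∃ (B : ℤ × ℤ) (g : ℤ), g ≠ 0 ∧ A = (g * B.1, g * B.2) ∧ Int.gcd B.1 B.2 = 1 ∧ Su p n B ∧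
      ev p n B = ev p n A := by
  have hg : 0 < Int.gcd A.1 A.2 := by
    rw [Nat.pos_iff_ne_zero]
    intro h
    rw [Int.gcd_eq_zero_iff] at h
    apply hA.1
    unfold nm
    rw [h.1, h.2]
    ring
  obtain ⟨a, c, h1, h2, h3⟩ := Int.exists_gcd_one hg
  have hg0 : ((Int.gcd A.1 A.2 : ℕ) : ℤ) ≠ 0 := by exact_mod_cast hg.ne'
  have hAe : A = ((Int.gcd A.1 A.2 : ℤ) * (a, c).1, (Int.gcd A.1 A.2 : ℤ) * (a, c).2) :=
    Prod.ext (h2.trans (mul_comm _ _)) (h3.trans (mul_comm _ _))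
  have hS : Su p n (a, c) := Su_of_smul (Int.gcd A.1 A.2 : ℤ) (by rw [← hAe]; exact hA)
  refine ⟨(a, c), (Int.gcd A.1 A.2 : ℤ), hg0, hAe, h1, hS, ?_⟩
  have h4 := ev_smul h8 (Int.gcd A.1 A.2 : ℤ) hg0 (a, c) hS.1
  rw [← hAe] at h4
  exact h4.symm

theorem ev_zero {p n : ℕ} [NeZero n] (h8 : 8 * n ∣ p + 1) {A : ℤ × ℤ} (hA : Su p n A)
    (h : ev p n A = 0) : A.2 = 0 := by
  obtain ⟨B, g, hg, hAe, hB1, hB, hev⟩ := prim h8 hA
  rw [h] at hev
  have hn : n ≠ 0 := NeZero.ne n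
  have hnn : 0 ≤ nm p B := by unfold nm; positivity
  have hone : nm p B = 1 := by
    by_contra hne
    have h1 : (nm p B).natAbs ≠ 1 := by omega
    obtain ⟨q, hq, hqd⟩ := Nat.exists_prime_and_dvd h1
    have hqd' : (q : ℤ) ∣ nm p B := Int.natCast_dvd.2 hqd
    have hq2 := hB.2 q hq hqd'
    have hmem : q ∈ (2 * n).primeFactors :=
      Nat.mem_primeFactors.2 ⟨hq, hq2, mul_ne_zero two_ne_zero hn⟩
    obtain ⟨l, hl⟩ : ∃ l : Pr n, (l : ℕ) = q := ⟨⟨q, hmem⟩, rfl⟩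
    have hsum := val_sum h8 B hB.1 l
    have hpos : 1 ≤ padicValInt (l : ℕ) (nm p B) := by
      rw [hl, padicValInt]
      have : Fact q.Prime := ⟨hq⟩
      exact one_le_padicValNat_of_dvd (Int.natAbs_ne_zero.2 hB.1) hqd
    have hz : ev p n B l = 0 := by rw [hev]; rfl
    unfold ev at hz
    have heq : ((B.1 : ℤ_[(l : ℕ)]) + (B.2 : ℤ_[(l : ℕ)]) * tt p n l).valuation =
        ((B.1 : ℤ_[(l : ℕ)]) - (B.2 : ℤ_[(l : ℕ)]) * tt p n l).valuation := by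
      omega
    by_cases h2 : (l : ℕ) = 2
    · have := val_two_zero h8 B hB1 hB.1 l h2 heq
      omega
    · rcases val_odd h8 B hB1 l h2 with h3 | h3 <;> omega
  have hp : 7 ≤ p := by
    have h1 : 0 < n := Nat.pos_of_ne_zero hn
    have h2 := Nat.le_of_dvd (by omega) h8
    omega
  have hB2 : B.2 = 0 := by
    by_contra hne
    have h1 : 1 ≤ B.2 ^ 2 := by
      have : 0 < B.2 ^ 2 := by positivity
      omega
    have h2 : (7 : ℤ) ≤ p := by exact_mod_cast hp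
    unfold nm at hone
    nlinarith [sq_nonneg B.1]
  rw [hAe]
  show g * B.2 = 0
  rw [hB2, mul_zero]

theorem ev_inj {p n : ℕ} [NeZero n] (h8 : 8 * n ∣ p + 1) {A B : ℤ × ℤ} (hA : Su p n A)
    (hB : Su p n B) (h : ev p n A = ev p n B) : A.1 * B.2 = A.2 * B.1 := by
  have hcj := Su_cj hB
  have h1 := ev_zero h8 (Su_mu hA hcj) (by
    rw [ev_mu h8 A (cj B) hA.1 hcj.1, ev_cj, h, add_neg_cancel])
  have h2 : A.1 * -B.2 + A.2 * B.1 = 0 := h1
  linear_combination -h2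

theorem ev_inj' {p n : ℕ} [NeZero n] (h8 : 8 * n ∣ p + 1) {A B : ℤ × ℤ} (hA : Su p n A)
    (hB : Su p n B) (h : ev p n A = ev p n B) (hN : nm p A = nm p B) (h1 : 0 < A.1)
    (h2 : 0 < B.1) : A = B := by
  have hc := ev_inj h8 hA hB h
  have h3 : (B.1 ^ 2 - A.1 ^ 2) * nm p A = 0 := by
    have e1 : B.1 ^ 2 * nm p A = A.1 ^ 2 * nm p B := by
      unfold nm
      linear_combination (-(p : ℤ) * (A.1 * B.2 + A.2 * B.1)) * hc
    rw [sub_mul, e1, hN, sub_self]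
  have h4 : B.1 ^ 2 - A.1 ^ 2 = 0 := (mul_eq_zero.1 h3).resolve_right hA.1
  have h5 : A.1 = B.1 := by
    have h6 : (B.1 - A.1) * (B.1 + A.1) = 0 := by linear_combination h4
    rcases mul_eq_zero.1 h6 with h7 | h7
    · linarith
    · linarith
  have h6 : A.2 = B.2 := by
    have h7 : A.1 * (B.2 - A.2) = 0 := by rw [← h5] at hc; linear_combination hc
    have h8 := (mul_eq_zero.1 h7).resolve_left h1.ne'
    linarith
  exact Prod.ext h5 h6

end Pool.Agent.Lib.MP_06b9d2_nt.ME
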