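import Pool.Agent.Lib.MP_06b9d2_nt.ME.EvC

/-!
Module ME-EvD (MP_06b9d2_nt, Maeda, all Hecke operators). The pairs of `AP p (Mm n m)` and their vectors.

`Mm_val`: `padicValNat l (Mm n m) = m l` (`Nat.factorization_prod`, or `padicValNat.prod`, the other primes contribute `0`). `Mm_dvd`: a prime divisor of `Mm n m` divides `2 n`.
`ev_mem`: `nm p A = 8 * Mm n m` has only prime factors of `2 n`, so `Su`. At `2`: `val_two` gives `v (a + c t) = 1`, `val_sum` gives the sum `3 + m two`, so the difference is `m two + 1`. At `l ≠ 2`: the sum of the valuations `x + y` is `m l`, the difference is `x - y = m l - 2 y ∈ bx (m l)`.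
`ev_surj`: `v = ev p n A₀` with `Su p n A₀`; by `prim` take `A₀` primitive. `v (two n) ≥ 1`, so by `both_odd` `A₀` has odd entries and `4 ∣ A₀.1 - A₀.2`, and `val_two`, `val_sum`: `padicValInt 2 (nm p A₀) = 2 + v (two n) = 3 + m (two n)`. For `l ≠ two n`: by `val_odd` one valuation is `0`, so `padicValInt l (nm p A₀) = |v l|`. Put `g = ∏_{l ≠ two n} l ^ ((m l - |v l|) / 2)` (odd); `8 * Mm n m = g ^ 2 * nm p A₀`: both sides are positive with the same valuations at all primes (`Nat.eq_of_factorization_eq` for the natural numbers, primes not dividing `2 n` divide neither side). `A = ± (g A₀.1, g A₀.2)` with the sign of `A₀.1` (`A₀.1 ≠ 0` since it is odd): the entries are odd, `4 ∣ A.1 - A.2`, `nm p A = 8 * Mm n m`, the vector is `v` (`ev_smul`), and `|A.1|, |A.2| ≤ 8 * Mm n m` (their squares are at most `8 M`; `p ≥ 1`). `bx`: `v l ∈ bx (m l)` means `v l = m l - 2 r`, `0 ≤ r ≤ m l`.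
-/

namespace Pool.Agent.Lib.MP_06b9d2_nt.ME



theorem Mm_pos (n : ℕ) (m : Pr n → ℕ) : 0 < Mm n m := by
  unfold Mm
  exact Finset.prod_pos fun l _ => pow_pos (factPr n l).out.pos _

theorem Mm_val (n : ℕ) (m : Pr n → ℕ) (l : Pr n) : padicValNat (l : ℕ) (Mm n m) = m l := by
  unfold Mm
  rw [← Nat.factorization_def _ (factPr n l).out,
    Nat.factorization_prod (fun x _ => pow_ne_zero _ (factPr n x).out.ne_zero),
    Finsupp.finsetSum_apply, Finset.sum_eq_single l]
  · rw [(factPr n l).out.factorization_pow]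
    simp
  · intro b _ hb
    rw [(factPr n b).out.factorization_pow, Finsupp.single_apply, if_neg]
    intro h
    exact hb (Subtype.ext h)
  · simp

theorem Mm_dvd (n : ℕ) (m : Pr n → ℕ) (q : ℕ) (hq : q.Prime) (h : q ∣ Mm n m) : q ∣ 2 * n := by
  unfold Mm at h
  obtain ⟨l, _, hl⟩ := (Nat.Prime.prime hq).exists_mem_finset_dvd h
  have h1 := hq.dvd_of_dvd_pow hl
  exact h1.trans (Nat.dvd_of_mem_primeFactors l.2)

theorem two_val (n : ℕ) [NeZero n] : ((two n : Pr n) : ℕ) = 2 := rfl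

theorem val8 (n : ℕ) [NeZero n] (m : Pr n → ℕ) (l : Pr n) :
    padicValInt (l : ℕ) (8 * (Mm n m : ℤ)) = (if l = two n then 3 else 0) + m l := by
  have h1 : padicValInt (l : ℕ) (8 * (Mm n m : ℤ)) = padicValNat (l : ℕ) (8 * Mm n m) := by
    unfold padicValInt
    congr 1
  rw [h1, padicValNat.mul (by norm_num) (Mm_pos n m).ne', Mm_val]
  congr 1
  have h8 : (8 : ℕ) = 2 ^ 3 := by norm_num
  split_ifs with h
  · rw [h, two_val, h8]
    exact padicValNat.prime_pow 3
  · apply padicValNat.eq_zero_of_not_dvd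
    intro hd
    rw [h8] at hd
    have h2 := (factPr n l).out.dvd_of_dvd_pow hd
    have h3 := (Nat.prime_dvd_prime_iff_eq (factPr n l).out Nat.prime_two).1 h2
    exact h (Subtype.ext h3)

theorem ev_mem {p n : ℕ} [NeZero n] (h8 : 8 * n ∣ p + 1) (m : Pr n → ℕ) (A : ℤ × ℤ)
    (hA : A ∈ AP p (Mm n m)) :
    Su p n A ∧ ev p n A (two n) = (m (two n) : ℤ) + 1 ∧
      ∀ l, l ≠ two n → ev p n A l ∈ bx (m l) := by
  unfold AP at hA
  rw [Finset.mem_filter] at hA
  obtain ⟨_, h1, h2, h3, h4, h5⟩ := hA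
  have hM := Mm_pos n m
  have hN : nm p A ≠ 0 := by
    rw [h5]
    positivity
  refine ⟨⟨hN, ?_⟩, ?_, ?_⟩
  · intro q hq hd
    rw [h5] at hd
    have hd' : q ∣ 8 * Mm n m := by exact_mod_cast hd
    rcases (Nat.Prime.dvd_mul hq).1 hd' with h | h
    · have h8' : (8 : ℕ) = 2 ^ 3 := by norm_num
      rw [h8'] at h
      exact (hq.dvd_of_dvd_pow h).trans (dvd_mul_right 2 n)
    · exact Mm_dvd n m q hq h
  · have e1 := val_two h8 A h2 h3 h4 (two n) rfl
    have e2 := val_sum h8 A hN (two n)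
    rw [h5, val8, if_pos rfl] at e2
    unfold ev
    rw [e1] at e2 ⊢
    omega
  · intro l hl
    have e2 := val_sum h8 A hN l
    rw [h5, val8, if_neg hl, zero_add] at e2
    unfold ev bx
    rw [Finset.mem_image]
    refine ⟨((A.1 : ℤ_[(l : ℕ)]) + (A.2 : ℤ_[(l : ℕ)]) * tt p n l).valuation, ?_, ?_⟩
    · rw [Finset.mem_range]
      omega
    · rw [← e2]
      push_cast
      ring

theorem ev_surj {p n : ℕ} [NeZero n] (h8 : 8 * n ∣ p + 1) (m : Pr n → ℕ) (v : Pr n → ℤ)
    (h0 : v (two n) = (m (two n) : ℤ) + 1) (h1 : ∀ l, l ≠ two n → v l ∈ bx (m l))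
    (hv : v ∈ Fl p n 0) : ∃ A ∈ AP p (Mm n m), ev p n A = v := by
  obtain ⟨A₀, hS₀, _, hv₀⟩ := hv
  obtain ⟨B, g₀, hg₀, hAB, hgcd, hSB, hevB⟩ := prim h8 hS₀
  have hev : ev p n B = v := hevB.trans hv₀
  have hNB : nm p B ≠ 0 := hSB.1
  have hp1 : 1 ≤ p := by
    have hn := NeZero.pos n
    have := Nat.le_of_dvd (Nat.succ_pos p) h8
    omega
  have hNpos : 0 < nm p B := by
    refine lt_of_le_of_ne ?_ (Ne.symm hNB)
    unfold nm
    positivity
  -- the prime 2
  have t0 := congrFun hev (two n)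
  rw [h0] at t0
  unfold ev at t0
  have t1 : ((B.1 : ℤ_[((two n : Pr n) : ℕ)]) + (B.2 : ℤ_[((two n : Pr n) : ℕ)]) *
      tt p n (two n)).valuation <
      ((B.1 : ℤ_[((two n : Pr n) : ℕ)]) - (B.2 : ℤ_[((two n : Pr n) : ℕ)]) *
      tt p n (two n)).valuation := by
    omega
  obtain ⟨o1, o2, o4⟩ := both_odd h8 B hgcd hNB (two n) rfl t1
  have t2 := val_two h8 B o1 o2 o4 (two n) rfl
  have t3 := val_sum h8 B hNB (two n)
  have t4 : padicValInt ((two n : Pr n) : ℕ) (nm p B) = 3 + m (two n) := by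
    rw [← t3]
    omega
  -- the other primes
  have hodd : ∀ l, l ≠ two n → padicValInt (l : ℕ) (nm p B) = (v l).natAbs := by
    intro l hl
    have hl2 : (l : ℕ) ≠ 2 := fun h => hl (Subtype.ext h)
    have s1 := val_sum h8 B hNB l
    have s2 := congrFun hev l
    unfold ev at s2
    rw [← s1, ← s2]
    rcases val_odd h8 B hgcd l hl2 with h | h <;> rw [h] <;> simp
  have hbx : ∀ l, l ≠ two n → (v l).natAbs ≤ m l ∧ 2 ∣ m l - (v l).natAbs := by
    intro l hl
    have := h1 l hl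
    unfold bx at this
    rw [Finset.mem_image] at this
    obtain ⟨r, hr, hrv⟩ := this
    rw [Finset.mem_range] at hr
    constructor
    · omega
    · omega
  -- the multiplier
  set k : Pr n → ℕ := fun l => if l = two n then 0 else (m l - (v l).natAbs) / 2 with hk
  set g : ℕ := Mm n k with hg
  have hgpos : 0 < g := Mm_pos n k
  have hgodd : ¬ 2 ∣ g := by
    intro hd
    have hh : padicValNat 2 g = 0 := by
      have := Mm_val n k (two n)
      rw [two_val] at this
      rw [hg, this, hk]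
      simp
    have := (dvd_iff_padicValNat_ne_zero (p := 2) hgpos.ne').1 hd
    exact this hh
  have hkey : 8 * Mm n m = g ^ 2 * (nm p B).natAbs := by
    have hNabs : (nm p B).natAbs ≠ 0 := Int.natAbs_ne_zero.2 hNB
    apply Nat.eq_of_factorization_eq (mul_ne_zero (by norm_num) (Mm_pos n m).ne')
      (mul_ne_zero (pow_ne_zero _ hgpos.ne') hNabs)
    intro q
    by_cases hq : q.Prime
    swap
    · rw [Nat.factorization_eq_zero_of_not_prime _ hq, Nat.factorization_eq_zero_of_not_prime _ hq]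
    by_cases hq2 : q ∣ 2 * n
    · have hmem : q ∈ (2 * n).primeFactors :=
        Nat.mem_primeFactors.2 ⟨hq, hq2, mul_ne_zero two_ne_zero (NeZero.ne n)⟩
      have : Fact q.Prime := ⟨hq⟩
      rw [Nat.factorization_def _ hq, Nat.factorization_def _ hq,
        padicValNat.mul (pow_ne_zero _ hgpos.ne') hNabs, padicValNat.pow]
      have a1 := val8 n m ⟨q, hmem⟩
      have a1' : padicValInt q (8 * (Mm n m : ℤ)) = padicValNat q (8 * Mm n m) := by
        unfold padicValInt
        congr 1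
      have a2 : padicValNat q g = k ⟨q, hmem⟩ := Mm_val n k ⟨q, hmem⟩
      have a1'' : padicValNat q (8 * Mm n m) =
          (if (⟨q, hmem⟩ : Pr n) = two n then 3 else 0) + m ⟨q, hmem⟩ := by
        rw [← a1']
        exact a1
      rw [a2, a1'']
      by_cases hq' : (⟨q, hmem⟩ : Pr n) = two n
      · rw [if_pos hq', hk]
        simp only [if_pos hq', mul_zero, zero_add]
        have : q = 2 := congrArg Subtype.val hq'
        subst this
        have t4' : padicValNat 2 (nm p B).natAbs = 3 + m (two n) := t4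
        rw [t4']
        rfl
      · rw [if_neg hq', hk]
        simp only [if_neg hq']
        have b1 := hodd _ hq'
        have b1' : padicValNat q (nm p B).natAbs = (v ⟨q, hmem⟩).natAbs := b1
        rw [b1']
        obtain ⟨c1, c2⟩ := hbx _ hq'
        omega
    · rw [Nat.factorization_eq_zero_of_not_dvd, Nat.factorization_eq_zero_of_not_dvd]
      · intro hd
        rcases (Nat.Prime.dvd_mul hq).1 hd with h | h
        · exact hq2 (Mm_dvd n k q hq (hq.dvd_of_dvd_pow h))
        · exact hq2 (hSB.2 q hq (Int.natCast_dvd.2 h))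
      · intro hd
        rcases (Nat.Prime.dvd_mul hq).1 hd with h | h
        · have h8' : (8 : ℕ) = 2 ^ 3 := by norm_num
          rw [h8'] at h
          exact hq2 ((hq.dvd_of_dvd_pow h).trans (dvd_mul_right 2 n))
        · exact hq2 (Mm_dvd n m q hq h)
  have hkeyZ : (g : ℤ) ^ 2 * nm p B = 8 * (Mm n m : ℤ) := by
    have : ((8 * Mm n m : ℕ) : ℤ) = ((g ^ 2 * (nm p B).natAbs : ℕ) : ℤ) := by rw [hkey]
    push_cast at this
    rw [abs_of_pos hNpos] at this
    rw [this]
  -- the sign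
  obtain ⟨G, hG2, hGpos, hGodd⟩ : ∃ G : ℤ, G ^ 2 = (g : ℤ) ^ 2 ∧ 0 < G * B.1 ∧ Odd G := by
    have hgo : Odd (g : ℤ) := by
      rw [Int.odd_coe_nat]
      exact Nat.odd_iff.2 (Nat.two_dvd_ne_zero.1 hgodd)
    have hB1 : B.1 ≠ 0 := by
      intro h
      rw [h] at o1
      exact absurd o1 (by decide)
    have hgz : (0 : ℤ) < g := by exact_mod_cast hgpos
    rcases lt_or_gt_of_ne hB1 with h | h
    · refine ⟨-g, by ring, ?_, hgo.neg⟩
      nlinarith
    · exact ⟨g, rfl, mul_pos hgz h, hgo⟩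
  have hG0 : G ≠ 0 := by
    rintro rfl
    simp at hGpos
  have hNA : nm p (G * B.1, G * B.2) = 8 * (Mm n m : ℤ) := by
    rw [← hkeyZ, ← hG2]
    unfold nm
    ring
  have hpz : (1 : ℤ) ≤ p := by exact_mod_cast hp1
  refine ⟨(G * B.1, G * B.2), ?_, ?_⟩
  · unfold AP
    rw [Finset.mem_filter, Finset.mem_product, Finset.mem_Icc, Finset.mem_Icc]
    have hN' : (G * B.1) ^ 2 + p * (G * B.2) ^ 2 = 8 * (Mm n m : ℤ) := hNA
    have q1 : (G * B.1) ^ 2 ≤ 8 * (Mm n m : ℤ) := by
      have : (0 : ℤ) ≤ p * (G * B.2) ^ 2 := by positivity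
      linarith
    have q2 : (G * B.2) ^ 2 ≤ 8 * (Mm n m : ℤ) := by
      have e1 : (0 : ℤ) ≤ (G * B.1) ^ 2 := by positivity
      have e2 : (G * B.2) ^ 2 ≤ p * (G * B.2) ^ 2 := le_mul_of_one_le_left (by positivity) hpz
      linarith
    have habs : ∀ x : ℤ, x ^ 2 ≤ 8 * (Mm n m : ℤ) → -(8 * (Mm n m : ℤ)) ≤ x ∧
        x ≤ 8 * (Mm n m : ℤ) := by
      intro x hx
      have e1 : x ≤ x ^ 2 := Int.le_self_sq x
      have e2 : -x ≤ (-x) ^ 2 := Int.le_self_sq (-x)
      have e3 : (-x) ^ 2 = x ^ 2 := by ring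
      rw [e3] at e2
      constructor <;> linarith
    refine ⟨⟨habs _ q1, habs _ q2⟩, hGpos, hGodd.mul o1, hGodd.mul o2, ?_, hNA⟩
    have : G * B.1 - G * B.2 = G * (B.1 - B.2) := by ring
    simp only [this]
    exact Dvd.dvd.mul_left o4 G
  · rw [ev_smul h8 G hG0 B hNB]
    exact hev

end Pool.Agent.Lib.MP_06b9d2_nt.ME
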