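import Pool.Agent.Lib.MP_06b9d2_nt.ME.Idx

/-!
Module ME-Fil (MP_06b9d2_nt, Maeda, all Hecke operators). The filtration of the pairs is an abstract filtration.

Assemble: `Fl_zero`, `Fl_add`, `Fl_neg`, `ph_out`, `ph_add`, `ph_ker`, `ph_mulp`, `Fl_inj`, `idx`; `le`: `p ^ (s + 1) ∣ c` gives `p ^ s ∣ c`.
-/

namespace Pool.Agent.Lib.MP_06b9d2_nt.ME



/-- the filtration as subgroups -/
private def FlS {p n : ℕ} [NeZero n] (h8 : 8 * n ∣ p + 1) (s : ℕ) : AddSubgroup (Pr n → ℤ) where
  carrier := Fl p n s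
  add_mem' := fun ha hb => Fl_add h8 ha hb
  zero_mem' := Fl_zero p n s (NeZero.ne n)
  neg_mem' := fun ha => Fl_neg ha

theorem exists_flt {p n : ℕ} [NeZero n] [Fact p.Prime] (h8 : 8 * n ∣ p + 1) :
    ∃ F : Flt (Pr n) p, ∀ s, F.f s = ph p n s := by
  refine ⟨{ S := FlS h8
            f := ph p n
            out := fun s v hv => ph_out hv
            add := fun s v w hv hw => ph_add h8 hv hw
            ker := fun s v hv => ph_ker h8 hv
            le := ?_
            mulp := fun s v hs hv => ph_mulp h8 hs hv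
            inj := fun v hv => Fl_inj h8 v hv
            idx := idx h8 }, fun s => rfl⟩
  intro s v hv
  obtain ⟨A, hA, hd, he⟩ := hv
  exact ⟨A, hA, (pow_dvd_pow _ (Nat.le_succ s)).trans hd, he⟩

end Pool.Agent.Lib.MP_06b9d2_nt.ME
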