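import Pool.Agent.Lib.MP_06b9d2_nt.ME.Defs
import Pool.Agent.Lib.MP_06b9d2_nt.MD.DelF

/-!
Module ME-FrobP (MP_06b9d2_nt, Maeda, all Hecke operators). The coefficients of `Δ ^ N` modulo `p`, `N = Np p s`, `8 N = 1 + P`, `P = p ^ (2 s + 1)`.

(The same as `MD/Frob.lean` with `p` instead of `7`.) `eight_Np`: `p ^ 2 = 1` modulo `8`, so `p ^ (2 s + 1) = p = 7` modulo `8`. `Delz ^ N = X ^ N * (Fz * Fz ^ P)` (`Delz_eq_F`). Over `ZMod p`: `G ^ P = expand P G`: see the lemma `coeff_sq_zmod2` in `Pool/Agent/Lib/MP_72e75e_nt/DeltaSeries.lean` (`MvPowerSeries.map_frobenius_expand`, `ZMod.frobenius_zmod`), or show by induction on `e` that `coeff m (G ^ (p ^ e)) = if p ^ e ∣ m then coeff (m / p ^ e) G else 0`. Then `PowerSeries.coeff_X_pow_mul'` and `PowerSeries.coeff_mul`.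
-/

namespace Pool.Agent.Lib.MP_06b9d2_nt.ME

open Pool.Agent.L1

private theorem frobP_p (p : ℕ) [hp : Fact p.Prime] (f : PowerSeries (ZMod p)) (n : ℕ) :
    PowerSeries.coeff n (f ^ p) = if p ∣ n then PowerSeries.coeff (n / p) f else 0 := by
  have h := @MvPowerSeries.map_frobenius_expand Unit (ZMod p) _ p hp.out.ne_zero _ f
  have h2 : f ^ p = PowerSeries.expand p hp.out.ne_zero f := by
    rw [ZMod.frobenius_zmod] at h
    rw [MvPowerSeries.map_id] at h
    exact h.symm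
  rw [h2, PowerSeries.coeff_expand]

private theorem frobP_pe (p : ℕ) [hp : Fact p.Prime] (f : PowerSeries (ZMod p)) (e n : ℕ) :
    PowerSeries.coeff n (f ^ p ^ e) =
      if p ^ e ∣ n then PowerSeries.coeff (n / p ^ e) f else 0 := by
  induction e generalizing n with
  | zero => simp
  | succ e ih =>
    rw [pow_succ, pow_mul, frobP_p]
    by_cases h : p ∣ n
    · obtain ⟨m, rfl⟩ := h
      rw [if_pos (dvd_mul_right _ _), Nat.mul_div_cancel_left _ hp.out.pos, ih,
        mul_comm (p ^ e) p]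
      have e1 : p * p ^ e ∣ p * m ↔ p ^ e ∣ m := Nat.mul_dvd_mul_iff_left hp.out.pos
      simp only [e1, Nat.mul_div_mul_left _ _ hp.out.pos]
    · rw [if_neg h, if_neg]
      intro h2
      exact h ((dvd_pow_self p (Nat.succ_ne_zero e)).trans h2)

theorem eight_Np {p : ℕ} (h : p % 8 = 7) (s : ℕ) : 8 * Np p s = 1 + p ^ (2 * s + 1) := by
  unfold Np
  have h8 : 8 ∣ 1 + p ^ (2 * s + 1) := by
    rw [pow_succ, pow_mul]
    have h1 : (p ^ 2) ^ s % 8 = 1 := by
      rw [Nat.pow_mod, Nat.pow_mod p 2 8, h]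
      norm_num
    have h2 : ((p ^ 2) ^ s * p) % 8 = 7 := by
      rw [Nat.mul_mod, h1, h]
    omega
  exact Nat.mul_div_cancel' h8

private theorem frobP_eq {p : ℕ} (h : p % 8 = 7) (s : ℕ) :
    Delz ^ Np p s = PowerSeries.X ^ Np p s * (Fz * Fz ^ p ^ (2 * s + 1)) := by
  rw [Delz_eq_F, mul_pow, ← pow_mul, eight_Np h, pow_add, pow_one]

theorem frobP {p : ℕ} [Fact p.Prime] (h : p % 8 = 7) (s M : ℕ) :
    ((PowerSeries.coeff M (Delz ^ Np p s) : ℤ) : ZMod p) =
      if Np p s ≤ M then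
        ∑ q ∈ Finset.HasAntidiagonal.antidiagonal (M - Np p s),
          ((PowerSeries.coeff q.1 Fz : ℤ) : ZMod p) *
          (if p ^ (2 * s + 1) ∣ q.2 then
            ((PowerSeries.coeff (q.2 / p ^ (2 * s + 1)) Fz : ℤ) : ZMod p) else 0)
      else 0 := by
  rw [frobP_eq h, PowerSeries.coeff_X_pow_mul']
  by_cases hM : Np p s ≤ M
  · rw [if_pos hM, if_pos hM]
    have h1 : ((PowerSeries.coeff (M - Np p s) (Fz * Fz ^ p ^ (2 * s + 1)) : ℤ) : ZMod p) =
        PowerSeries.coeff (M - Np p s) (PowerSeries.map (Int.castRingHom (ZMod p))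
          (Fz * Fz ^ p ^ (2 * s + 1))) := by
      rw [PowerSeries.coeff_map]
      rfl
    rw [h1, map_mul, map_pow, PowerSeries.coeff_mul]
    refine Finset.sum_congr rfl fun q _ => ?_
    rw [frobP_pe, PowerSeries.coeff_map, PowerSeries.coeff_map]
    rfl
  · rw [if_neg hM, if_neg hM, Int.cast_zero]

end Pool.Agent.Lib.MP_06b9d2_nt.ME
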