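import Pool.Agent.Lib.MP_06b9d2_nt.ME.Defs

/-!
Module ME-Hens (MP_06b9d2_nt, Maeda, all Hecke operators). The square root of `-p` in `ℤ_[l]`.

`hensels_lemma` (Mathlib, `Mathlib/NumberTheory/Padics/Hensel.lean`) for the polynomial `X ^ 2 + C p` and `a = 1`: value `1 + p`, derivative `2`. For `l = 2`: `8 ∣ p + 1` gives `‖1 + p‖ ≤ 1/8 < 1/4 = ‖2‖ ^ 2`, and the root `z` has `‖z - 1‖ < ‖2‖ = 1/2`, so `‖z - 1‖ ≤ 1/4`, i.e. `4 ∣ z - 1` (`PadicInt.norm_le_pow_iff_mem_span_pow`, `PadicInt.norm_lt_pow_iff_norm_le_pow_sub_one` or similar). For `l ≠ 2`: `l ∣ 2 n` gives `l ∣ n ∣ p + 1`, `‖1 + p‖ < 1 = ‖2‖ ^ 2`. Then `unfold tt`, `dif_pos`, `Exists.choose_spec`.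
`l_not_dvd`: `l ∣ p + 1` and `l ∣ p` would give `l ∣ 1` (for `l = 2` use `8 n ∣ p + 1`). `tt_unit`: `t ^ 2 = -p` and `p` is a unit of `ℤ_[l]` (`PadicInt.isUnit_iff`, `l ∤ p`).
-/

namespace Pool.Agent.Lib.MP_06b9d2_nt.ME



theorem l_dvd {p n : ℕ} (h8 : 8 * n ∣ p + 1) (l : Pr n) : (l : ℕ) ∣ p + 1 := by
  have h1 : (l : ℕ) ∣ 2 * n := Nat.dvd_of_mem_primeFactors l.2
  have h2 : 2 * n ∣ 8 * n := ⟨4, by ring⟩
  exact (h1.trans h2).trans h8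

theorem l_not_dvd {p n : ℕ} (h8 : 8 * n ∣ p + 1) (l : Pr n) : ¬ (l : ℕ) ∣ p := by
  intro h
  have h1 := (Nat.dvd_add_right h).1 (l_dvd h8 l)
  have h2 : (l : ℕ).Prime := Nat.prime_of_mem_primeFactors l.2
  exact h2.one_lt.ne' (Nat.dvd_one.1 h1)

private theorem norm_one_of_not_dvd (q : ℕ) [Fact q.Prime] (k : ℕ) (h : ¬ q ∣ k) :
    ‖(k : ℤ_[q])‖ = 1 := by
  refine le_antisymm (PadicInt.norm_le_one _) (not_lt.1 fun h1 => h ?_)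
  have h2 : ‖(((k : ℕ) : ℤ) : ℤ_[q])‖ < 1 := by
    rw [Int.cast_natCast]
    exact h1
  rw [PadicInt.norm_int_lt_one_iff_dvd] at h2
  exact_mod_cast h2

private theorem ex_t (q : ℕ) [Fact q.Prime] (p : ℕ) (h1 : q ∣ p + 1) (h2 : q = 2 → 8 ∣ p + 1) :
    ∃ t : ℤ_[q], t ^ 2 = -(p : ℤ_[q]) ∧ (q = 2 → (4 : ℤ_[q]) ∣ t - 1) := by
  set F : Polynomial ℤ_[q] := Polynomial.X ^ 2 + Polynomial.C (p : ℤ_[q]) with hF
  have e1 : ∀ x : ℤ_[q], Polynomial.aeval x F = x ^ 2 + p := by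
    intro x
    rw [hF]
    simp
  have e2 : ∀ x : ℤ_[q], Polynomial.aeval x (Polynomial.derivative F) = 2 * x := by
    intro x
    rw [hF]
    simp [one_add_one_eq_two]
  have e3 : Polynomial.aeval (1 : ℤ_[q]) F = (((p + 1 : ℕ) : ℤ) : ℤ_[q]) := by
    rw [e1]
    push_cast
    ring
  have e4 : Polynomial.aeval (1 : ℤ_[q]) (Polynomial.derivative F) = ((2 : ℕ) : ℤ_[q]) := by
    rw [e2]
    push_cast
    ring
  rcases eq_or_ne q 2 with hq | hq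
  · subst hq
    have n2 : ‖((2 : ℕ) : ℤ_[2])‖ = 1 / 2 := by
      have h := PadicInt.norm_p (p := 2)
      rw [h]
      norm_num
    have hn : ‖Polynomial.aeval (1 : ℤ_[2]) F‖ <
        ‖Polynomial.aeval (1 : ℤ_[2]) (Polynomial.derivative F)‖ ^ 2 := by
      rw [e3, e4, n2]
      have h3 : ‖(((p + 1 : ℕ) : ℤ) : ℤ_[2])‖ ≤ ((2 : ℕ) : ℝ) ^ (-((3 : ℕ) : ℤ)) := by
        rw [PadicInt.norm_int_le_pow_iff_dvd]
        have h4 := h2 rfl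
        have h5 : ((8 : ℕ) : ℤ) ∣ ((p + 1 : ℕ) : ℤ) := Int.natCast_dvd_natCast.2 h4
        norm_num at h5 ⊢
        exact h5
      refine lt_of_le_of_lt h3 ?_
      norm_num
    obtain ⟨z, hz, hz1, _, _⟩ := hensels_lemma hn
    refine ⟨z, ?_, fun _ => ?_⟩
    · rw [e1] at hz
      exact eq_neg_of_add_eq_zero_left hz
    · rw [e4, n2] at hz1
      have h3 : ‖z - 1‖ < ((2 : ℕ) : ℝ) ^ (-1 : ℤ) := by
        refine lt_of_lt_of_le hz1 ?_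
        norm_num
      rw [PadicInt.norm_lt_pow_iff_norm_le_pow_sub_one] at h3
      have h4 : ‖z - 1‖ ≤ ((2 : ℕ) : ℝ) ^ (-((2 : ℕ) : ℤ)) := by
        refine h3.trans ?_
        norm_num
      rw [PadicInt.norm_le_pow_iff_mem_span_pow, Ideal.mem_span_singleton] at h4
      have h5 : (((2 : ℕ) : ℤ_[2])) ^ 2 = 4 := by
        push_cast
        norm_num
      rw [h5] at h4
      exact h4
  · have n2 : ‖((2 : ℕ) : ℤ_[q])‖ = 1 := by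
      apply norm_one_of_not_dvd
      intro h
      have h3 := (Nat.prime_dvd_prime_iff_eq (Fact.out : q.Prime) Nat.prime_two).1 h
      exact hq h3
    have hn : ‖Polynomial.aeval (1 : ℤ_[q]) F‖ <
        ‖Polynomial.aeval (1 : ℤ_[q]) (Polynomial.derivative F)‖ ^ 2 := by
      rw [e3, e4, n2, one_pow, PadicInt.norm_int_lt_one_iff_dvd]
      exact Int.natCast_dvd_natCast.2 h1
    obtain ⟨z, hz, _, _, _⟩ := hensels_lemma hn
    refine ⟨z, ?_, fun h => absurd h hq⟩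
    rw [e1] at hz
    exact eq_neg_of_add_eq_zero_left hz

private theorem ex_tt {p n : ℕ} (h8 : 8 * n ∣ p + 1) (l : Pr n) :
    ∃ t : ℤ_[(l : ℕ)], t ^ 2 = -(p : ℤ_[(l : ℕ)]) ∧
      ((l : ℕ) = 2 → (4 : ℤ_[(l : ℕ)]) ∣ t - 1) :=
  ex_t (l : ℕ) p (l_dvd h8 l) fun _ => (dvd_mul_right 8 n).trans h8

private theorem tt_spec {p n : ℕ} (h8 : 8 * n ∣ p + 1) (l : Pr n) :
    tt p n l ^ 2 = -(p : ℤ_[(l : ℕ)]) ∧ ((l : ℕ) = 2 → (4 : ℤ_[(l : ℕ)]) ∣ tt p n l - 1) := by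
  unfold tt
  rw [dif_pos (ex_tt h8 l)]
  exact (ex_tt h8 l).choose_spec

theorem tt_sq {p n : ℕ} (h8 : 8 * n ∣ p + 1) (l : Pr n) :
    tt p n l ^ 2 = -(p : ℤ_[(l : ℕ)]) :=
  (tt_spec h8 l).1

theorem tt_four {p n : ℕ} (h8 : 8 * n ∣ p + 1) (l : Pr n) (hl : (l : ℕ) = 2) :
    (4 : ℤ_[(l : ℕ)]) ∣ tt p n l - 1 :=
  (tt_spec h8 l).2 hl

theorem tt_unit {p n : ℕ} (h8 : 8 * n ∣ p + 1) (l : Pr n) : IsUnit (tt p n l) := by
  have h1 : IsUnit (tt p n l ^ 2) := by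
    rw [tt_sq h8 l, IsUnit.neg_iff, PadicInt.isUnit_iff]
    exact norm_one_of_not_dvd _ _ (l_not_dvd h8 l)
  exact (isUnit_pow_iff two_ne_zero).1 h1

end Pool.Agent.Lib.MP_06b9d2_nt.ME
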