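import Pool.Agent.Lib.MP_06b9d2_nt.ME.Sym

/-!
Module ME-HkR (MP_06b9d2_nt, Maeda, all Hecke operators). The Hecke relation in the group ring.

For every `X`: `2 * lin F X = lin F (X - mp p (ng ι) X)` (`lin_ng`). So `2 * lin F (B * (UU p a * XX p o m)) = lin F (B * (UU p a * (XX p o m - mp p (ng ι) (XX p o m))))` (`B`, `UU p a` are invariant: `hB`, `UU_ng`, `map_mul`) `= lin F (B * ((E o 1 - E o (-1)) * (UU p m * UU p a)))` (`XX_sub`), by `UU_mul` the sum over `d` of `lin F (B * ((E o 1 - E o (-1)) * UU p (m + a - 2 d))) = 2 * lin F (B * XX p o (m + a - 2 d))`. Cancel `2` (`p ≠ 2`, `ZMod p` is a field).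
-/

namespace Pool.Agent.Lib.MP_06b9d2_nt.ME



variable {ι : Type} [Fintype ι] [DecidableEq ι] {p : ℕ}

theorem hk [Fact p.Prime] (hp2 : p ≠ 2) (o : ι) (F : (ι → ℤ) → ZMod p)
    (hF : ∀ v, F (-v) = -F v) (m a : ι → ℕ) (B : Rg ι p) (hB : mp p (ng ι) B = B) :
    lin F (B * (UU p a * XX p o m)) =
      ∑ d ∈ Fintype.piFinset (fun i => Finset.range (min (m i) (a i) + 1)),
        lin F (B * XX p o (fun i => m i + a i - 2 * d i)) := by
  have h2 : (2 : ZMod p) ≠ 0 := by
    intro h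
    have h3 : ((2 : ℕ) : ZMod p) = 0 := by exact_mod_cast h
    rw [ZMod.natCast_eq_zero_iff] at h3
    exact hp2 ((Nat.prime_dvd_prime_iff_eq (Fact.out : p.Prime) Nat.prime_two).1 h3)
  have key : ∀ (C : Rg ι p), mp p (ng ι) C = C → ∀ k : ι → ℕ,
      2 * lin F (C * XX p o k) = lin F (C * ((E p o 1 - E p o (-1)) * UU p k)) := by
    intro C hC k
    rw [← XX_sub, mul_sub, map_sub]
    have h : mp p (ng ι) (C * XX p o k) = C * mp p (ng ι) (XX p o k) := by
      rw [map_mul, hC]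
    rw [← h, lin_ng F hF]
    ring
  have h1 : mp p (ng ι) (B * UU p a) = B * UU p a := by
    rw [map_mul, hB, UU_ng]
  apply mul_left_cancel₀ h2
  rw [← mul_assoc B, key _ h1 m]
  have h3 : B * UU p a * ((E p o 1 - E p o (-1)) * UU p m) =
      B * ((E p o 1 - E p o (-1)) * (UU p m * UU p a)) := by ring
  rw [h3, UU_mul, Finset.mul_sum, Finset.mul_sum, map_sum, Finset.mul_sum]
  refine Finset.sum_congr rfl fun d _ => ?_
  rw [key B hB]

end Pool.Agent.Lib.MP_06b9d2_nt.ME
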