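import Pool.Agent.Lib.MP_06b9d2_nt.ME.Thue
import Pool.Agent.Lib.MP_06b9d2_nt.ME.PhM

/-!
Module ME-Idx (MP_06b9d2_nt, Maeda, all Hecke operators). The vectors form a subgroup of finite index.

`idx1`: for `j : ℕ` let `A_j` be given by `thue` and `m_j = nm p A_j / l ^ j`, `1 ≤ m_j ≤ p + 1`. The map `j ↦ (m_j, A_j.1 mod m_j, A_j.2 mod m_j)` takes values in a finite set (e.g. in `Fin (p + 2) × Fin (p + 2) × Fin (p + 2)`, `Int.emod`), so by `Finite.exists_infinite_fiber` some value is taken for infinitely many `j`: there are `j < j'` with the same value `m` and `j + 2 (p + 1) < j'` (the fibre is infinite, so not bounded: `Set.Infinite.exists_gt`). Put `B = mu p A_{j'} (cj A_j)`: `B.1 = a' a + p c' c ≡ a ^ 2 + p c ^ 2 ≡ 0`, `B.2 = - a' c + c' a ≡ 0` modulo `m`. So `B = (m C.1, m C.2)`, `nm p C = l ^ j m * l ^ j' m / m ^ 2 = l ^ (j + j')`, so `Su p n C` and at `l' ≠ l` both valuations are `0` (`val_sum`: `padicValInt l' (l ^ (j +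 j')) = 0`). At `l`: `ev p n C l = ev p n B l = ev p n A_{j'} l - ev p n A_j l` (`ev_smul`, `ev_mu`, `ev_cj`). With `x`, `y` the valuations of `a' - c' t`, `a' + c' t`: `x ≥ j'` (it is not `0` and divisible by `l ^ j'`), `x + y = j' + v_l (m)`, so `x - y ≥ j' - v_l (m)`; for `A_j` the difference is at most the sum `j + v_l (m)`; and `v_l (m) ≤ m ≤ p + 1`. So `ev p n C l ≥ j' - j - 2 (p + 1) > 0`. Hence `ev p n C = Pi.single l h`, `h > 0`.
`idx`: `H = p * ∏ l, h l`. For `v : Pr n → ℤ`: `v = ∑ l, v l • Pi.single l 1` and `(∏ h) v l • Pi.single l 1` is a multiple of `Pi.single l (h l)`, so `(∏ h) • v ∈ Fl p n 0` (`Fl_add`, `Fl_neg`, `Fl_zero`: make the additive subgroup with carrier `Fl p n 0` and use `AddSubgroup.zsmul_mem`, `sum_mem`), then `Fl_mulp_zero`.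
-/

namespace Pool.Agent.Lib.MP_06b9d2_nt.ME



theorem idx1 {p n : ℕ} [NeZero n] (h8 : 8 * n ∣ p + 1) (l : Pr n) :
    ∃ h : ℕ, 0 < h ∧ (Pi.single l (h : ℤ) : Pr n → ℤ) ∈ Fl p n 0 := by
  have hp0 : 0 < p := by
    have hn := NeZero.pos n
    have := Nat.le_of_dvd (Nat.succ_pos p) h8
    omega
  have hlp : (l : ℕ).Prime := (factPr n l).out
  choose A hA0 hAd hAle hAdv using thue h8 l
  have hlz : ∀ j : ℕ, (0 : ℤ) < ((l : ℕ) : ℤ) ^ j := fun j => by
    have := hlp.pos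
    positivity
  have hNpos : ∀ j, 0 < nm p (A j) := fun j => nm_pos hp0 (A j) (hA0 j)
  choose M hM using hAdv
  have hMpos : ∀ j, 0 < M j := by
    intro j
    have h1 := hNpos j
    rw [hM j] at h1
    exact pos_of_mul_pos_right h1 (hlz j).le
  have hMle : ∀ j, M j ≤ (p : ℤ) + 1 := by
    intro j
    have h1 := hAle j
    rw [hM j, mul_comm] at h1
    exact le_of_mul_le_mul_right h1 (hlz j)
  -- pigeonhole
  have hbd : ∀ j, (M j).toNat < p + 2 := by
    intro j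
    have := hMle j
    omega
  have hbd1 : ∀ j, ((A j).1 % M j).toNat < p + 2 := by
    intro j
    have := hMle j
    have := Int.emod_lt_of_pos (A j).1 (hMpos j)
    omega
  have hbd2 : ∀ j, ((A j).2 % M j).toNat < p + 2 := by
    intro j
    have := hMle j
    have := Int.emod_lt_of_pos (A j).2 (hMpos j)
    omega
  let F : ℕ → Fin (p + 2) × Fin (p + 2) × Fin (p + 2) := fun i =>
    (⟨(M ((2 * p + 3) * i)).toNat, hbd _⟩,
      ⟨((A ((2 * p + 3) * i)).1 % M ((2 * p + 3) * i)).toNat, hbd1 _⟩,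
      ⟨((A ((2 * p + 3) * i)).2 % M ((2 * p + 3) * i)).toNat, hbd2 _⟩)
  obtain ⟨i, i', hii, hF⟩ : ∃ i i' : ℕ, i < i' ∧ F i = F i' := by
    obtain ⟨x, y, hxy, hf⟩ := Finite.exists_ne_map_eq_of_infinite F
    rcases lt_or_gt_of_ne hxy with h | h
    · exact ⟨x, y, h, hf⟩
    · exact ⟨y, x, h, hf.symm⟩
  obtain ⟨j, hj⟩ : ∃ j, j = (2 * p + 3) * i := ⟨_, rfl⟩
  obtain ⟨j', hj'⟩ : ∃ j', j' = (2 * p + 3) * i' := ⟨_, rfl⟩
  have hgap : j + (2 * p + 3) ≤ j' := by
    rw [hj, hj']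
    calc (2 * p + 3) * i + (2 * p + 3) = (2 * p + 3) * (i + 1) := by ring
      _ ≤ (2 * p + 3) * i' := Nat.mul_le_mul_left _ hii
  have hF' := hF
  simp only [F, ← hj, ← hj', Prod.mk.injEq, Fin.mk.injEq] at hF'
  obtain ⟨f1, f2, f3⟩ := hF'
  have e1 : M j' = M j := by
    have := hMpos j
    have := hMpos j'
    omega
  have e2 : (A j').1 % M j = (A j).1 % M j := by
    rw [e1] at f2
    have := Int.emod_nonneg (A j).1 (hMpos j).ne'
    have := Int.emod_nonneg (A j').1 (hMpos j).ne'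
    omega
  have e3 : (A j').2 % M j = (A j).2 % M j := by
    rw [e1] at f3
    have := Int.emod_nonneg (A j).2 (hMpos j).ne'
    have := Int.emod_nonneg (A j').2 (hMpos j).ne'
    omega
  have d1 : M j ∣ (A j').1 - (A j).1 := Int.ModEq.dvd (Int.ModEq.symm e2)
  have d2 : M j ∣ (A j').2 - (A j).2 := Int.ModEq.dvd (Int.ModEq.symm e3)
  have hNj : nm p (A j) = ((l : ℕ) : ℤ) ^ j * M j := hM j
  have hNj' : nm p (A j') = ((l : ℕ) : ℤ) ^ j' * M j := by
    rw [hM j', e1]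
  have k1 : M j ∣ (mu p (A j') (cj (A j))).1 := by
    have : (mu p (A j') (cj (A j))).1 = ((A j').1 - (A j).1) * (A j).1 +
        p * (((A j').2 - (A j).2) * (A j).2) + nm p (A j) := by
      unfold mu cj nm
      simp only
      ring
    rw [this, hNj]
    exact dvd_add (dvd_add (Dvd.dvd.mul_right d1 _) (Dvd.dvd.mul_left (Dvd.dvd.mul_right d2 _) _))
      (dvd_mul_left _ _)
  have k2 : M j ∣ (mu p (A j') (cj (A j))).2 := by
    have : (mu p (A j') (cj (A j))).2 = ((A j').2 - (A j).2) * (A j).1 -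
        ((A j').1 - (A j).1) * (A j).2 := by
      unfold mu cj
      simp only
      ring
    rw [this]
    exact dvd_sub (Dvd.dvd.mul_right d2 _) (Dvd.dvd.mul_right d1 _)
  obtain ⟨c1, hc1⟩ := k1
  obtain ⟨c2, hc2⟩ := k2
  have hMj0 : M j ≠ 0 := (hMpos j).ne'
  have hB : mu p (A j') (cj (A j)) = (M j * (c1, c2).1, M j * (c1, c2).2) := Prod.ext hc1 hc2
  have hNC : nm p (c1, c2) = ((l : ℕ) : ℤ) ^ (j + j') := by
    have h1 : nm p (mu p (A j') (cj (A j))) = M j ^ 2 * nm p (c1, c2) := by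
      rw [hB]
      unfold nm
      ring
    rw [nm_mu, nm_cj, hNj, hNj'] at h1
    have h2 : M j ^ 2 * nm p (c1, c2) = M j ^ 2 * ((l : ℕ) : ℤ) ^ (j + j') := by
      rw [← h1]
      ring
    exact mul_left_cancel₀ (pow_ne_zero 2 hMj0) h2
  have hNC0 : nm p (c1, c2) ≠ 0 := by
    rw [hNC]
    exact (hlz _).ne'
  have hSu : Su p n (c1, c2) := by
    refine ⟨hNC0, ?_⟩
    intro q hq hd
    rw [hNC] at hd
    have hd' : q ∣ (l : ℕ) ^ (j + j') := by exact_mod_cast hd
    exact (hq.dvd_of_dvd_pow hd').trans (Nat.dvd_of_mem_primeFactors l.2)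
  have hoff : ∀ l' : Pr n, l' ≠ l → ev p n (c1, c2) l' = 0 := by
    intro l' hl'
    have h1 := val_sum h8 (c1, c2) hNC0 l'
    have h2 : padicValInt (l' : ℕ) (nm p (c1, c2)) = 0 := by
      rw [hNC]
      have h3 : (((l : ℕ) : ℤ) ^ (j + j')) = (((l : ℕ) ^ (j + j') : ℕ) : ℤ) := by push_cast; rfl
      rw [h3, padicValInt.of_nat]
      apply padicValNat.eq_zero_of_not_dvd
      intro hd
      have h4 := (factPr n l').out.dvd_of_dvd_pow hd
      have h5 := (Nat.prime_dvd_prime_iff_eq (factPr n l').out hlp).1 h4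
      exact hl' (Subtype.ext h5)
    rw [h2] at h1
    unfold ev
    omega
  have hevC : ev p n (c1, c2) = ev p n (A j') + -ev p n (A j) := by
    rw [← ev_smul h8 (M j) hMj0 (c1, c2) hNC0, ← hB, ev_mu h8 _ _ (hNpos j').ne'
      (by rw [nm_cj]; exact (hNpos j).ne'), ev_cj]
  -- the valuations at l
  have hvM : ∀ i : ℕ, padicValInt (l : ℕ) (((l : ℕ) : ℤ) ^ i * M j) =
      i + padicValInt (l : ℕ) (M j) := by
    intro i
    rw [padicValInt.mul (hlz i).ne' hMj0]
    congr 1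
    have h3 : (((l : ℕ) : ℤ) ^ i) = (((l : ℕ) ^ i : ℕ) : ℤ) := by push_cast; rfl
    rw [h3, padicValInt.of_nat]
    exact padicValNat.prime_pow i
  have hvle : padicValInt (l : ℕ) (M j) ≤ p + 1 := by
    unfold padicValInt
    have h1 : padicValNat (l : ℕ) (M j).natAbs < (M j).natAbs := by
      rw [← Nat.factorization_def _ hlp]
      exact Nat.factorization_lt _ (Int.natAbs_ne_zero.2 hMj0)
    have h2 := hMle j
    have h3 := hMpos j
    omega
  have s1 := val_sum h8 (A j) (hNpos j).ne' l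
  have s2 := val_sum h8 (A j') (hNpos j').ne' l
  rw [hNj, hvM] at s1
  rw [hNj', hvM] at s2
  have hx' : j' ≤ (((A j').1 : ℤ_[(l : ℕ)]) - ((A j').2 : ℤ_[(l : ℕ)]) * tt p n l).valuation := by
    have hne : ((A j').1 : ℤ_[(l : ℕ)]) - ((A j').2 : ℤ_[(l : ℕ)]) * tt p n l ≠ 0 := by
      intro h
      have h1 := prod_eq h8 (A j') l
      rw [h, zero_mul] at h1
      have h2 : nm p (A j') = 0 := by exact_mod_cast h1.symm
      exact (hNpos j').ne' h2
    obtain ⟨w, hw⟩ := hAd j'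
    have hw0 : w ≠ 0 := by
      rintro rfl
      rw [mul_zero] at hw
      exact hne hw
    rw [hw]
    have hl0 : (((l : ℕ) : ℤ_[(l : ℕ)]) ^ j') ≠ 0 := by
      apply pow_ne_zero
      exact_mod_cast hlp.ne_zero
    rw [PadicInt.valuation_mul hl0 hw0, PadicInt.valuation_pow, PadicInt.valuation_p]
    omega
  have hfin : 0 < ev p n (c1, c2) l := by
    rw [hevC, Pi.add_apply, Pi.neg_apply]
    unfold ev
    omega
  refine ⟨(ev p n (c1, c2) l).toNat, by omega, (c1, c2), hSu, by simp, ?_⟩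
  funext l'
  by_cases hl' : l' = l
  · subst hl'
    rw [Pi.single_eq_same]
    omega
  · rw [Pi.single_eq_of_ne hl', hoff l' hl']

theorem idx {p n : ℕ} [NeZero n] [Fact p.Prime] (h8 : 8 * n ∣ p + 1) :
    ∃ H : ℕ, 0 < H ∧ ∀ v : Pr n → ℤ, (H : ℤ) • v ∈ Fl p n 1 := by
  choose h hpos hmem using fun l : Pr n => idx1 (p := p) (n := n) h8 l
  let S : AddSubgroup (Pr n → ℤ) :=
    { carrier := Fl p n 0
      add_mem' := fun ha hb => Fl_add h8 ha hb
      zero_mem' := Fl_zero p n 0 (NeZero.ne n)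
      neg_mem' := fun ha => Fl_neg ha }
  have hS : ∀ v : Pr n → ℤ, ((∏ l, h l : ℕ) : ℤ) • v ∈ S := by
    intro v
    have h1 : ((∏ l, h l : ℕ) : ℤ) • v =
        ∑ l, Pi.single l ((((∏ l, h l : ℕ) : ℤ) • v) l) := (Finset.univ_sum_single _).symm
    rw [h1]
    apply AddSubgroup.sum_mem
    intro l _
    obtain ⟨d, hd⟩ := Finset.dvd_prod_of_mem h (Finset.mem_univ l)
    have h2 : (Pi.single l ((((∏ l, h l : ℕ) : ℤ) • v) l) : Pr n → ℤ) =
        ((d : ℤ) * v l) • (Pi.single l (h l : ℤ) : Pr n → ℤ) := by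
      rw [← Pi.single_smul, Pi.smul_apply, smul_eq_mul, smul_eq_mul, hd]
      congr 1
      push_cast
      ring
    rw [h2]
    exact AddSubgroup.zsmul_mem _ (hmem l) _
  have hp := (Fact.out : p.Prime).pos
  refine ⟨p * ∏ l, h l, Nat.mul_pos hp (Finset.prod_pos fun l _ => hpos l), ?_⟩
  intro v
  have h3 : ((p * ∏ l, h l : ℕ) : ℤ) • v = (p : ℤ) • (((∏ l, h l : ℕ) : ℤ) • v) := by
    rw [smul_smul]
    push_cast
    rfl
  rw [h3]
  exact Fl_mulp_zero h8 (hS v)

end Pool.Agent.Lib.MP_06b9d2_nt.ME
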