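import Pool.Agent.Lib.MP_06b9d2_nt.ME.Defs

/-!
Module ME-Leg (MP_06b9d2_nt, Maeda, all Hecke operators). Divisors of `n` are squares modulo `p`.

`8 n ∣ p + 1`. By multiplicativity (`Nat.recOnMul`, or induction on the prime factorization) it is enough to treat primes `d = l ∣ n`. `l = 2`: `p = 7` modulo `8`, `ZMod.exists_sq_eq_two_iff` and `ZMod.euler_criterion` (note `p ≠ 2`, `(2 : ZMod p) ≠ 0`, `(p - 1) / 2 = p / 2` for odd `p`). `l` odd: `l ∣ p + 1`, `p = 3` modulo `4`; quadratic reciprocity: `legendreSym p l = legendreSym l p * (-1) ^ ((p / 2) * (l / 2)) = legendreSym l p * (-1) ^ (l / 2)` and `legendreSym l p = legendreSym l (-1) = (-1) ^ (l / 2)` (`p = -1` in `ZMod l`; `legendreSym.at_neg_one`, `ZMod.χ₄`), so `legendreSym p l = 1` and `legendreSym.eq_pow`. (`l ≠ p` since `l ∣ p + 1`.)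
-/

namespace Pool.Agent.Lib.MP_06b9d2_nt.ME



theorem leg {p n : ℕ} [Fact p.Prime] [NeZero n] (h8 : 8 * n ∣ p + 1) (d : ℕ) (hd : d ∣ n) :
    (d : ZMod p) ^ ((p - 1) / 2) = 1 := by
  have hpp : p.Prime := Fact.out
  have h8p : 8 ∣ p + 1 := (Dvd.intro n rfl).trans h8
  have hnp : n ∣ p + 1 := (Dvd.intro_left 8 rfl).trans h8
  have hp2 : p ≠ 2 := by rintro rfl; omega
  have hp87 : p % 8 = 7 := by omega
  have hp43 : p % 4 = 3 := by omega
  have hhalf : (p - 1) / 2 = p / 2 := by omega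
  rw [hhalf]
  induction d using Nat.recOnMul with
  | zero => exact absurd (Nat.eq_zero_of_zero_dvd hd) (NeZero.ne n)
  | one => simp
  | prime l hl =>
    have : Fact l.Prime := ⟨hl⟩
    have hlp : l ∣ p + 1 := hd.trans hnp
    have hne : p ≠ l := by
      rintro rfl
      have h1 : p ∣ 1 := (Nat.dvd_add_right (dvd_refl p)).1 hlp
      exact hpp.one_lt.ne' (Nat.dvd_one.1 h1)
    have hl0 : (l : ZMod p) ≠ 0 := by
      rw [Ne, ZMod.natCast_eq_zero_iff]
      intro h
      exact hne ((Nat.prime_dvd_prime_iff_eq hpp hl).1 h)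
    rw [← ZMod.euler_criterion p hl0]
    have hneg : (p : ZMod l) = -1 := by
      have h : ((p + 1 : ℕ) : ZMod l) = 0 := (ZMod.natCast_eq_zero_iff _ _).2 hlp
      push_cast at h
      exact eq_neg_of_add_eq_zero_left h
    rcases hl.eq_two_or_odd with rfl | hodd
    · have := (ZMod.exists_sq_eq_two_iff hp2).2 (Or.inr hp87)
      simpa using this
    · have hl2 : l ≠ 2 := by rintro rfl; omega
      have h4 : l % 4 = 1 ∨ l % 4 = 3 := by omega
      rcases h4 with h4 | h4
      · rw [← ZMod.exists_sq_eq_prime_iff_of_mod_four_eq_one h4 hp2, hneg,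
          ZMod.exists_sq_eq_neg_one_iff]
        omega
      · rw [ZMod.exists_sq_eq_prime_iff_of_mod_four_eq_three hp43 h4 hne, hneg,
          ZMod.exists_sq_eq_neg_one_iff]
        omega
  | mul a b iha ihb =>
    have ha := iha ((Dvd.intro b rfl).trans hd)
    have hb := ihb ((Dvd.intro_left a rfl).trans hd)
    rw [Nat.cast_mul, mul_pow, ha, hb, one_mul]

end Pool.Agent.Lib.MP_06b9d2_nt.ME
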