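import Pool.Agent.Lib.MP_06b9d2_nt.ME.Theta
import Pool.Agent.Lib.MP_06b9d2_nt.ME.Den
import Pool.Agent.Lib.MP_06b9d2_nt.ME.FrobP

/-!
Module ME-Real (MP_06b9d2_nt, Maeda, all Hecke operators). Cusp forms of all large even weights congruent to `θ ^ e Δ ^ N` modulo `p`, `N = Np p s`.

`p = 7` modulo `8`; `h = (p - 1) / 2`. `k - 12 N = 2 t`, take `e = t % h`, so `e ≤ (p - 3) / 2` and `t = e + h r'`; then `k - 12 N = 2 e + (p - 1) r'` and, as `2 t ≥ (p + 1) (p - 3) / 2 ≥ e (p + 1)` , `k = 12 N + e (p + 1) + (p - 1) r` with `r = r' - e ≥ 0`.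
`g = dl ℚ ^ N` (the image of `Delz ^ N`; `MZ.dl`, `MZ.pow`) has constant coefficient `0` (`N ≥ 1` by `eight_Np`); `theta_pow` gives `g' ≡ θ ^ e g` of weight `12 N + e (p + 1)`; `g' * EA p ^ r` has the weight `k` and the same coefficients modulo `p` (`EA_cg`, `Cg.pow`, `Cg.mul_left`), constant coefficient `0`. `den` gives `f`, `a`, `D` with `coeff m a = D * coeff m (g' EA ^ r)`, and modulo `p`: `coeff m a = D m ^ e coeff m (Delz ^ N)` (an integer `x` with `val p (x : ℚ) 1` is divisible by `p`). `c = D`.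
Exponent: `k - 1 = 2 (e + 1) + j h` with `j = (12 N - 3) / h + 2 e + 2 r`: `12 N - 3 = 3 (p ^ (2 s + 1) - 1) / 2` is a multiple of `h` (`p - 1 ∣ p ^ (2 s + 1) - 1`), and `e (p + 1) + (p - 1) r = 2 e + (p - 1) (e + r)`.
-/

namespace Pool.Agent.Lib.MP_06b9d2_nt.ME

open UpperHalfPlane
open scoped MatrixGroups ModularForm
open Pool.Agent.L1

private theorem re_dvd {p : ℕ} [Fact p.Prime] {x : ℤ} (h : MP_a3a416_nt.SJ.val p (x : ℚ) 1) :
    (p : ℤ) ∣ x := by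
  rcases h with h | h
  · have h0 : x = 0 := by exact_mod_cast h
    rw [h0]
    exact dvd_zero _
  · rw [padicValRat.of_int] at h
    have h1 : 1 ≤ padicValInt p x := by exact_mod_cast h
    have h2 := (padicValInt_dvd_iff (p := p) 1 x).2 (Or.inr h1)
    rwa [pow_one] at h2

/-- the arithmetic of the weights -/
private theorem re_arith {p : ℕ} (hp : 1 ≤ p) (h8 : p % 8 = 7) (s : ℕ) (k : ℤ) (hk : Even k)
    (hk2 : 12 * (Np p s : ℤ) + ((p : ℤ) + 1) * ((p : ℤ) - 3) / 2 ≤ k) :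
    ∃ e r j : ℕ, k = ((Np p s * 12 + e * (p + 1) + r * (p - 1) : ℕ) : ℤ) ∧
      k - 1 = 2 * ((e : ℤ) + 1) + j * (((p - 1) / 2 : ℕ) : ℤ) := by
  have hN := eight_Np h8 s
  obtain ⟨q, hq⟩ : ∃ q, p = 8 * q + 7 := ⟨p / 8, by omega⟩
  obtain ⟨m, hm⟩ : ∃ m, p ^ (2 * s + 1) = (p - 1) * m + 1 := by
    obtain ⟨m, hm⟩ := Nat.sub_dvd_pow_sub_pow p 1 (2 * s + 1)
    rw [one_pow] at hm
    refine ⟨m, ?_⟩
    have := Nat.one_le_pow (2 * s + 1) p (by omega)
    omega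
  have hh : (p - 1) / 2 = 4 * q + 3 := by omega
  have hp1 : p - 1 = 2 * (4 * q + 3) := by omega
  rw [hm, hp1] at hN
  obtain ⟨t, ht⟩ : ∃ t : ℤ, k = 12 * (Np p s : ℤ) + 2 * t := by
    obtain ⟨u, hu⟩ := hk
    exact ⟨u - 6 * (Np p s : ℤ), by rw [hu]; ring⟩
  have hdiv : ((p : ℤ) + 1) * ((p : ℤ) - 3) / 2 = 16 * ((q : ℤ) + 1) * (2 * q + 1) := by
    rw [hq]
    push_cast
    rw [show (8 * (q : ℤ) + 7 + 1) * (8 * (q : ℤ) + 7 - 3) = 2 * (16 * ((q : ℤ) + 1) * (2 * q + 1)) by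
      ring]
    exact Int.mul_ediv_cancel_left _ (by norm_num)
  rw [hdiv] at hk2
  have ht0 : 8 * ((q : ℤ) + 1) * (2 * q + 1) ≤ t := by
    have : 12 * (Np p s : ℤ) + 16 * ((q : ℤ) + 1) * (2 * q + 1) ≤ 12 * (Np p s : ℤ) + 2 * t := by
      rw [← ht]
      exact hk2
    nlinarith
  obtain ⟨t', rfl⟩ : ∃ t' : ℕ, t = t' := ⟨t.toNat, by
    have h0 : (0 : ℤ) ≤ 8 * ((q : ℤ) + 1) * (2 * q + 1) := by positivity
    omega⟩
  have ht1 : 8 * (q + 1) * (2 * q + 1) ≤ t' := by exact_mod_cast ht0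
  obtain ⟨e, he⟩ : ∃ e, e = t' % (4 * q + 3) := ⟨_, rfl⟩
  obtain ⟨r', hr'⟩ : ∃ r', r' = t' / (4 * q + 3) := ⟨_, rfl⟩
  have hter : t' = e + (4 * q + 3) * r' := by
    rw [he, hr']
    exact (Nat.mod_add_div t' (4 * q + 3)).symm
  have hel : e ≤ 4 * q + 2 := by
    have := Nat.mod_lt t' (show 0 < 4 * q + 3 by omega)
    omega
  have hre : e ≤ r' := by
    by_contra hcon
    push Not at hcon
    have h1 : r' + 1 ≤ e := hcon
    have h2 : (4 * q + 3) * r' ≤ (4 * q + 3) * (e - 1) := Nat.mul_le_mul_left _ (by omega)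
    have h3 : (4 * q + 3) * (e - 1) ≤ (4 * q + 3) * (4 * q + 1) := Nat.mul_le_mul_left _ (by omega)
    have h4 : 8 * (q + 1) * (2 * q + 1) = 16 * q * q + 24 * q + 8 := by ring
    have h5 : (4 * q + 3) * (4 * q + 1) = 16 * q * q + 16 * q + 3 := by ring
    rw [h4] at ht1
    rw [h5] at h3
    omega
  obtain ⟨r, rfl⟩ : ∃ r, r' = e + r := ⟨r' - e, by omega⟩
  refine ⟨e, r, 3 * m + 2 * (e + r), ?_, ?_⟩
  · rw [ht, hter, hp1, hq]
    push_cast
    ring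
  · rw [hh, ht, hter]
    have hNz : 8 * (Np p s : ℤ) = 2 + 2 * (4 * q + 3) * m := by
      have : 8 * Np p s = 2 + 2 * (4 * q + 3) * m := by
        rw [hN]
        ring
      exact_mod_cast this
    push_cast
    have h2 : (2 : ℤ) ≠ 0 := by norm_num
    apply mul_left_cancel₀ h2
    linear_combination 3 * hNz

theorem realize {p : ℕ} [Fact p.Prime] (h8 : p % 8 = 7) (s : ℕ) (k : ℤ) (hk : Even k)
    (hk2 : 12 * (Np p s : ℤ) + ((p : ℤ) + 1) * ((p : ℤ) - 3) / 2 ≤ k) :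
    ∃ (f : CuspForm 𝒮ℒ k) (a : PowerSeries ℤ) (c : ZMod p) (e j : ℕ),
      PowerSeries.map (Int.castRingHom ℂ) a = qExpansion 1 f ∧ c ≠ 0 ∧
      k - 1 = 2 * ((e : ℤ) + 1) + j * (((p - 1) / 2 : ℕ) : ℤ) ∧
      ∀ m : ℕ, ((PowerSeries.coeff m a : ℤ) : ZMod p) =
        c * (m : ZMod p) ^ e * ((PowerSeries.coeff m (Delz ^ Np p s) : ℤ) : ZMod p) := by
  have hp : p.Prime := Fact.out
  have h5 : 5 ≤ p := by omega
  obtain ⟨e, r, j, hw, hj⟩ := re_arith hp.one_le h8 s k hk hk2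
  have hN1 : Np p s ≠ 0 := by
    have := eight_Np h8 s
    omega
  have hg : MZ p (Np p s * 12) (Pool.Agent.L1.dl ℚ ^ Np p s) := MZ.dl.pow _
  have hgm : Pool.Agent.L1.dl ℚ ^ Np p s = PowerSeries.map (Int.castRingHom ℚ) (Delz ^ Np p s) := by
    rw [map_pow]
    rfl
  have hd0 : PowerSeries.coeff 0 (Delz ^ Np p s) = 0 := by
    rw [PowerSeries.coeff_zero_eq_constantCoeff_apply, map_pow,
      ← PowerSeries.coeff_zero_eq_constantCoeff_apply, coeff_zero_Delz, zero_pow hN1]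
  have hg0 : PowerSeries.coeff 0 (Pool.Agent.L1.dl ℚ ^ Np p s) = 0 := by
    rw [hgm, PowerSeries.coeff_map, hd0, map_zero]
  obtain ⟨g', hg', hc, h0'⟩ := theta_pow h5 hg hg0 e
  have hG : MZ p (Np p s * 12 + e * (p + 1) + r * (p - 1)) (g' * EA p ^ r) :=
    hg'.mul ((EA_mem h5).pow r)
  have hG0 : PowerSeries.coeff 0 (g' * EA p ^ r) = 0 := by
    rw [PowerSeries.coeff_zero_eq_constantCoeff_apply, map_mul,
      ← PowerSeries.coeff_zero_eq_constantCoeff_apply, h0', zero_mul]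
  obtain ⟨f, a, D, hD, ha, hco⟩ := den hG hG0 k hw
  refine ⟨f, a, (D : ZMod p), e, j, ha, ?_, hj, fun m => ?_⟩
  · rw [Ne, ZMod.natCast_eq_zero_iff]
    exact hD
  · have hcg : Cg p (g' * EA p ^ r) (g' * 1) := by
      have h1 := (EA_cg (p := p) (by omega)).pow PI.one r
      rw [one_pow] at h1
      exact h1.mul_left hg'.pi
    have h1 := hcg m
    rw [mul_one] at h1
    have h2 := h1.add (hc m)
    have h3 := (MP_a3a416_nt.SJ.val.nat (p := p) D).mul h2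
    rw [zero_add] at h3
    have hgc : PowerSeries.coeff m (Pool.Agent.L1.dl ℚ ^ Np p s) =
        ((PowerSeries.coeff m (Delz ^ Np p s) : ℤ) : ℚ) := by
      rw [hgm, PowerSeries.coeff_map, eq_intCast]
    have h4 : MP_a3a416_nt.SJ.val p
        (((PowerSeries.coeff m a : ℤ) - (D : ℤ) * (m : ℤ) ^ e *
          (PowerSeries.coeff m (Delz ^ Np p s) : ℤ) : ℤ) : ℚ) 1 := by
      convert h3 using 1
      push_cast
      rw [hco m, hgc]
      ring
    have h5 := re_dvd h4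
    rw [← ZMod.intCast_zmod_eq_zero_iff_dvd] at h5
    push_cast at h5
    exact sub_eq_zero.1 h5

end Pool.Agent.Lib.MP_06b9d2_nt.ME
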