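import Pool.Agent.Lib.MP_06b9d2_nt.ME.Defs

/-!
Module ME-Rel (MP_06b9d2_nt, Maeda, all Hecke operators). Integral relations.

`μ = minpoly ℂ T`, `D` its degree, `∑_{i ≤ D} μ_i T ^ i f = 0` (`minpoly.aeval`, `Polynomial.aeval_eq_sum_range`), `μ_D = 1`. The `q`-expansion is linear: for all `M`: `∑_{i ≤ D} μ_i (coeff M (b i) : ℂ) = 0` (the `q`-expansion of a finite sum and of a scalar multiple: `ModularForm.qExpansion_add`, `ModularForm.qExpansion_smul`, or induction; see `MD/Crit.lean`). Choose a `ℚ`-linear map `φ : ℂ → ℚ` with `φ 1 = 1` (`exists_leftInverse_of_injective`/ `LinearMap.exists_extend` for the `ℚ`-line of `1`). Then `∑ φ (μ_i) coeff M (b i) = 0` with rational `r_i = φ (μ_i)`, `r_D = 1`. Multiply by a common denominator: integers `z_i`, not all `0` (`i ≤ D`), and divide by the largest power of `p` dividing all `z_i` (induction, or `Finset.gcd` of the `z_i`: `z_i = g q_i` with `gcd` of the `q_i` equal to `1`: `Finset.extract_gcd`).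
-/

namespace Pool.Agent.Lib.MP_06b9d2_nt.ME

open UpperHalfPlane
open scoped MatrixGroups ModularForm

/-- the coefficient with number `M` as a linear map -/
private noncomputable def relC (k : ℤ) (M : ℕ) : CuspForm 𝒮ℒ k →ₗ[ℂ] ℂ where
  toFun g := (qExpansion 1 g).coeff M
  map_add' f g := by
    rw [FunLike.coe_add, ModularForm.qExpansion_add one_pos one_mem_strictPeriods_SL, map_add]
  map_smul' c f := by
    rw [FunLike.coe_smul, ModularForm.qExpansion_smul one_pos one_mem_strictPeriods_SL,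
      PowerSeries.coeff_smul]
    rfl

theorem rel {k : ℤ} [Module.Finite ℂ (CuspForm 𝒮ℒ k)] (T : CuspForm 𝒮ℒ k →ₗ[ℂ] CuspForm 𝒮ℒ k)
    (f : CuspForm 𝒮ℒ k) (p : ℕ) (hp : p.Prime) (b : ℕ → PowerSeries ℤ)
    (hb : ∀ i, PowerSeries.map (Int.castRingHom ℂ) (b i) = qExpansion 1 ((T ^ i) f)) :
    ∃ q : ℕ → ℤ, (∃ i ≤ (minpoly ℂ T).natDegree, ¬ (p : ℤ) ∣ q i) ∧
      ∀ M, ∑ i ∈ Finset.range ((minpoly ℂ T).natDegree + 1),
        q i * PowerSeries.coeff M (b i) = 0 := by
  classical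
  have hint : IsIntegral ℂ T := Algebra.IsIntegral.isIntegral T
  have hmonic := minpoly.monic hint
  have hae : Polynomial.aeval T (minpoly ℂ T) = 0 := minpoly.aeval ℂ T
  set μ := minpoly ℂ T with hμ
  -- the relation between the coefficients
  have h1 : ∀ M, ∑ i ∈ Finset.range (μ.natDegree + 1),
      μ.coeff i * ((PowerSeries.coeff M (b i) : ℤ) : ℂ) = 0 := by
    intro M
    have h2 : (Polynomial.aeval T μ) f = 0 := by rw [hae]; rfl
    rw [Polynomial.aeval_eq_sum_range, LinearMap.sum_apply] at h2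
    have h3 := congrArg (relC k M) h2
    rw [map_sum, map_zero] at h3
    rw [← h3]
    refine Finset.sum_congr rfl fun i _ => ?_
    rw [LinearMap.smul_apply, map_smul, smul_eq_mul]
    congr 1
    show _ = (qExpansion 1 ((T ^ i) f)).coeff M
    rw [← hb i, PowerSeries.coeff_map]
    rfl
  -- a rational functional
  obtain ⟨φ, hφ⟩ : ∃ φ : ℂ →ₗ[ℚ] ℚ, φ 1 = 1 := by
    obtain ⟨φ, hφ⟩ := LinearMap.exists_leftInverse_of_injective (Algebra.linearMap ℚ ℂ)
      (LinearMap.ker_eq_bot.2 (algebraMap ℚ ℂ).injective)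
    refine ⟨φ, ?_⟩
    have h2 := LinearMap.congr_fun hφ 1
    simpa using h2
  have h4 : ∀ M, ∑ i ∈ Finset.range (μ.natDegree + 1),
      φ (μ.coeff i) * ((PowerSeries.coeff M (b i) : ℤ) : ℚ) = 0 := by
    intro M
    have h2 := congrArg φ (h1 M)
    rw [map_sum, map_zero] at h2
    rw [← h2]
    refine Finset.sum_congr rfl fun i _ => ?_
    have h3 : μ.coeff i * ((PowerSeries.coeff M (b i) : ℤ) : ℂ) =
        ((PowerSeries.coeff M (b i) : ℤ) : ℚ) • μ.coeff i := by
      rw [Rat.smul_def, mul_comm]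
      norm_cast
    rw [h3, map_smul, smul_eq_mul, mul_comm]
  -- a common denominator
  obtain ⟨N, hN⟩ := IsLocalization.exist_integer_multiples_of_finset (nonZeroDivisors ℤ)
    ((Finset.range (μ.natDegree + 1)).image fun i => φ (μ.coeff i))
  have hN0 : (N : ℤ) ≠ 0 := nonZeroDivisors.coe_ne_zero N
  have hz : ∀ i ∈ Finset.range (μ.natDegree + 1), ∃ z : ℤ,
      (z : ℚ) = ((N : ℤ) : ℚ) * φ (μ.coeff i) := by
    intro i hi
    obtain ⟨z, hz⟩ := hN _ (Finset.mem_image_of_mem _ hi)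
    refine ⟨z, ?_⟩
    have h2 : (algebraMap ℤ ℚ) z = (z : ℚ) := rfl
    rw [← h2, hz]
    show ((N : ℤ) • φ (μ.coeff i)) = _
    rw [zsmul_eq_mul]
  choose! z hz using hz
  obtain ⟨q, hq1, hq2⟩ := Finset.extract_gcd (s := Finset.range (μ.natDegree + 1)) z
    ⟨0, Finset.mem_range.2 (Nat.succ_pos _)⟩
  set G := (Finset.range (μ.natDegree + 1)).gcd z with hG
  have hG0 : G ≠ 0 := by
    intro h
    have h2 := hz μ.natDegree (Finset.mem_range.2 (Nat.lt_succ_self _))
    rw [hq1 μ.natDegree (Finset.mem_range.2 (Nat.lt_succ_self _)), h, zero_mul, Int.cast_zero,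
      Polynomial.coeff_natDegree, hmonic.leadingCoeff, hφ, mul_one] at h2
    exact hN0 (by exact_mod_cast h2.symm)
  refine ⟨q, ?_, fun M => ?_⟩
  · by_contra hcon
    push Not at hcon
    have h2 : (p : ℤ) ∣ (Finset.range (μ.natDegree + 1)).gcd q :=
      Finset.dvd_gcd fun i hi => hcon i (Nat.lt_succ_iff.1 (Finset.mem_range.1 hi))
    rw [hq2] at h2
    exact (Nat.prime_iff_prime_int.1 hp).not_isUnit (isUnit_of_dvd_one h2)
  · have h2 : (G : ℚ) * ((∑ i ∈ Finset.range (μ.natDegree + 1),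
        q i * PowerSeries.coeff M (b i) : ℤ) : ℚ) = 0 := by
      have h3 := h4 M
      have h5 : ((N : ℤ) : ℚ) * ∑ i ∈ Finset.range (μ.natDegree + 1),
          φ (μ.coeff i) * ((PowerSeries.coeff M (b i) : ℤ) : ℚ) = 0 := by rw [h3, mul_zero]
      rw [Finset.mul_sum] at h5
      rw [← h5]
      push_cast
      rw [Finset.mul_sum]
      refine Finset.sum_congr rfl fun i hi => ?_
      have h6 : (z i : ℚ) = (G : ℚ) * (q i : ℚ) := by
        rw [hq1 i hi]
        push_cast
        rfl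
      rw [← mul_assoc, ← mul_assoc, ← hz i hi, h6]
    have h3 : (G : ℚ) ≠ 0 := by exact_mod_cast hG0
    have h5 := (mul_eq_zero.1 h2).resolve_left h3
    exact_mod_cast h5

end Pool.Agent.Lib.MP_06b9d2_nt.ME
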