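import Pool.Agent.Lib.MP_06b9d2_nt.ME.Seq
import Pool.Agent.Lib.MP_06b9d2_nt.ME.Rel
import Pool.Agent.Lib.MP_06b9d2_nt.ME.Real
import Pool.Agent.Lib.MP_06b9d2_nt.ME.Ari
import Pool.Agent.Lib.MP_06b9d2_nt.ME.Fil
import Pool.Agent.Lib.MP_06b9d2_nt.ME.Alg

/-!
Module ME-LowA (MP_06b9d2_nt, Maeda, all Hecke operators). The bound in terms of `p ^ s`.

Fix `n ≥ 2` and a prime `p` with `8 n ∣ p + 1`. `exists_flt` gives `F` with `F.f s = ph p n s`; `f_neg` gives that `ph p n s` is odd. `alg` for `a = ex n` (`≠ 0`: `n ≥ 2` has a prime divisor, which is in `Pr n`), `o = two n`: `∏_l (ex n l + 1)` is the number of divisors of `n` (`Nat.card_divisors`; the primes of `Pr n` not dividing `n` contribute `1`), at most `n < p`; (or: `∏ (ex n l + 1) ≤ ∏ l ^ (ex n l) = n`, as `x + 1 ≤ l ^ x`). This gives `C`.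
Let `s ≥ 1`, `k` as in the statement, `realize` (`p % 8 = 7`) gives `f`, `a`, `c`, `e`, `j`; by `ari`: `coeff (Mm n m) a = c (Mm n m) ^ e (-1) ^ s 8 (Mm n m) lin .. = κ (Mm n m) ^ (e + 1) lin (ph p n s) (XX p (two n) m)`, `κ = c (-1) ^ s 8 ≠ 0` (`p` odd). `seq` gives `b i` for all `i` (`choose`), `rel` gives `q`. `D = (minpoly ℂ T).natDegree`, `Q = ∑_{i ≤ D} C (q i * n ^ (i (e + 1))) X ^ i ∈ (ZMod p)[X]`, `Q ≠ 0` (`n ≠ 0` modulo `p`), `Q.natDegree ≤ D`. For each `m`: `κ (Mm n m) ^ (e + 1) lin (ph) (aeval (UU p (ex n)) Q * XX m) = ∑ q i coeff (Mm n m) (b i) = 0`, and `κ`, `Mm n m` are not `0` modulo `p` (`Mm_dvd`, `p_not_dvd`), so the hypothesis of `alg` holds, and `p ^ s ≤ C (Q.natDegree + 1) ≤ C (D + 1)`.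
-/

namespace Pool.Agent.Lib.MP_06b9d2_nt.ME

open UpperHalfPlane
open scoped MatrixGroups ModularForm

private theorem prod_ex_lt {p n : ℕ} [Fact p.Prime] [NeZero n] (hn : 2 ≤ n) (h8 : 8 * n ∣ p + 1) :
    ∏ l, (ex n l + 1) < p := by
  have h1 : ∏ l, (ex n l + 1) ≤ ∏ l : Pr n, (l : ℕ) ^ ex n l := by
    apply Finset.prod_le_prod'
    intro l _
    have h2 : 2 ≤ (l : ℕ) := (Nat.prime_of_mem_primeFactors l.2).two_le
    have h3 : ex n l < 2 ^ ex n l := Nat.lt_two_pow_self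
    have h4 : 2 ^ ex n l ≤ (l : ℕ) ^ ex n l := Nat.pow_le_pow_left h2 _
    omega
  have h5 : ∏ l : Pr n, (l : ℕ) ^ ex n l = n := Mm_ex n
  have h6 : 8 * n ≤ p + 1 := Nat.le_of_dvd (Nat.succ_pos p) h8
  rw [h5] at h1
  omega

private theorem ex_ne {n : ℕ} [NeZero n] (hn : 2 ≤ n) : ex n ≠ 0 := by
  intro h
  have hq : n.minFac.Prime := Nat.minFac_prime (by omega)
  have hd : n.minFac ∣ n := Nat.minFac_dvd n
  have hmem : n.minFac ∈ (2 * n).primeFactors :=
    Nat.mem_primeFactors.2 ⟨hq, hd.mul_left 2, by omega⟩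
  have h1 : ex n ⟨n.minFac, hmem⟩ = 0 := by
    rw [h]
    rfl
  have h2 : 0 < n.factorization n.minFac := hq.factorization_pos_of_dvd (by omega) hd
  unfold ex at h1
  simp only at h1
  omega

theorem lowA {p n : ℕ} [Fact p.Prime] [NeZero n] (hn : 2 ≤ n) (h8 : 8 * n ∣ p + 1) :
    ∃ C : ℕ, ∀ (s : ℕ) (k : ℤ), 1 ≤ s → Even k →
      12 * (Np p s : ℤ) + ((p : ℤ) + 1) * ((p : ℤ) - 3) / 2 ≤ k →
      ∀ [Module.Finite ℂ (CuspForm 𝒮ℒ k)] (T : CuspForm 𝒮ℒ k →ₗ[ℂ] CuspForm 𝒮ℒ k),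
        IsHecke k n T → p ^ s ≤ C * ((minpoly ℂ T).natDegree + 1) := by
  have hp : p.Prime := Fact.out
  have hmod : p % 8 = 7 := by
    have h1 : 8 ∣ p + 1 := dvd_trans (dvd_mul_right 8 n) h8
    omega
  have hp2 : p ≠ 2 := by
    intro h
    rw [h] at hmod
    omega
  have hp7 : 7 ≤ p := by
    have := hp.two_le
    omega
  obtain ⟨F, hF⟩ := exists_flt (p := p) (n := n) h8
  obtain ⟨C, hC⟩ := alg hp2 (two n) F (ex n) (ex_ne hn) (prod_ex_lt hn h8)
  refine ⟨C, ?_⟩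
  intro s k hs hke hk _ T hT
  have hk1' : 1 ≤ k := by
    have h1 : (0 : ℤ) ≤ (Np p s : ℤ) := Int.natCast_nonneg _
    have h2 : (32 : ℤ) ≤ ((p : ℤ) + 1) * ((p : ℤ) - 3) := by
      have : (7 : ℤ) ≤ (p : ℤ) := by exact_mod_cast hp7
      nlinarith
    have h3 : (16 : ℤ) ≤ ((p : ℤ) + 1) * ((p : ℤ) - 3) / 2 := by omega
    linarith
  obtain ⟨f, a, c, e, j, ha, hc0, hk1, hcoef⟩ := realize hmod s k hke hk
  have hΦ : ∀ v, ph p n s (-v) = -ph p n s v := by
    intro v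
    have h1 := f_neg F s v
    rw [hF s] at h1
    exact h1
  set κ : ZMod p := c * ((-1) ^ s * 8) with hκ
  have hc : ∀ m : Pr n → ℕ, ((PowerSeries.coeff (Mm n m) a : ℤ) : ZMod p) =
      κ * (Mm n m : ZMod p) ^ (e + 1) * lin (ph p n s) (XX p (two n) m) := by
    intro m
    rw [hcoef (Mm n m), ari h8 s m, hκ]
    ring
  choose b hb1 hb2 using fun i => seq h8 hk1' hT f a ha κ e j hk1 (ph p n s) hΦ hc i
  obtain ⟨q, ⟨i0, hi0, hqi0⟩, hq⟩ := rel T f p hp b hb1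
  set D := (minpoly ℂ T).natDegree with hD
  have hndvd : ¬ p ∣ 2 * n := p_not_dvd hp h8
  have hn0 : (n : ZMod p) ≠ 0 := by
    intro h
    rw [ZMod.natCast_eq_zero_iff] at h
    exact hndvd (h.mul_left 2)
  have hκ0 : κ ≠ 0 := by
    rw [hκ]
    apply mul_ne_zero hc0
    apply mul_ne_zero
    · exact pow_ne_zero _ (neg_ne_zero.2 one_ne_zero)
    · intro h
      have h9 : ((8 : ℕ) : ZMod p) = 0 := by exact_mod_cast h
      rw [ZMod.natCast_eq_zero_iff] at h9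
      have h10 : p ∣ 2 ^ 3 := by
        norm_num
        exact h9
      have h11 := (Nat.prime_dvd_prime_iff_eq hp Nat.prime_two).1 (hp.dvd_of_dvd_pow h10)
      exact hp2 h11
  have hM0 : ∀ m : Pr n → ℕ, (Mm n m : ZMod p) ≠ 0 := by
    intro m h
    rw [ZMod.natCast_eq_zero_iff] at h
    exact hndvd (Mm_dvd n m p hp h)
  set cc : ℕ → ZMod p := fun i => ((q i : ℤ) : ZMod p) * (n : ZMod p) ^ (i * (e + 1)) with hcc
  set Q : Polynomial (ZMod p) :=
    ∑ i ∈ Finset.range (D + 1), Polynomial.C (cc i) * Polynomial.X ^ i with hQ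
  have hQ0 : Q ≠ 0 := by
    intro h
    have h1 : Q.coeff i0 = cc i0 := by
      rw [hQ, Polynomial.finsetSum_coeff, Finset.sum_eq_single i0]
      · simp
      · intro i _ hi
        rw [Polynomial.coeff_C_mul_X_pow, if_neg (Ne.symm hi)]
      · intro h2
        exact absurd (Finset.mem_range.2 (Nat.lt_succ_of_le hi0)) h2
    rw [h, Polynomial.coeff_zero] at h1
    have h2 : ((q i0 : ℤ) : ZMod p) ≠ 0 := by
      intro h3
      exact hqi0 ((ZMod.intCast_zmod_eq_zero_iff_dvd _ p).1 h3)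
    exact mul_ne_zero h2 (pow_ne_zero _ hn0) h1.symm
  have hQd : Q.natDegree ≤ D := by
    rw [hQ]
    apply Polynomial.natDegree_sum_le_of_forall_le
    intro i hi
    exact (Polynomial.natDegree_C_mul_X_pow_le _ _).trans (Nat.lt_succ_iff.1 (Finset.mem_range.1 hi))
  have hall : ∀ m : Pr n → ℕ,
      lin (F.f s) (Polynomial.aeval (UU p (ex n)) Q * XX p (two n) m) = 0 := by
    intro m
    rw [hF s]
    have h1 : Polynomial.aeval (UU p (ex n)) Q * XX p (two n) m =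
        ∑ i ∈ Finset.range (D + 1), cc i • (UU p (ex n) ^ i * XX p (two n) m) := by
      rw [hQ, map_sum, Finset.sum_mul]
      apply Finset.sum_congr rfl
      intro i _
      rw [map_mul, Polynomial.aeval_C, map_pow, Polynomial.aeval_X, ← Algebra.smul_def,
        smul_mul_assoc]
    rw [h1, map_sum]
    have h2 : κ * (Mm n m : ZMod p) ^ (e + 1) *
        ∑ i ∈ Finset.range (D + 1), lin (ph p n s) (cc i • (UU p (ex n) ^ i * XX p (two n) m)) =
        0 := by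
      rw [Finset.mul_sum]
      have h3 : ∀ i ∈ Finset.range (D + 1), κ * (Mm n m : ZMod p) ^ (e + 1) *
          lin (ph p n s) (cc i • (UU p (ex n) ^ i * XX p (two n) m)) =
          ((q i * PowerSeries.coeff (Mm n m) (b i) : ℤ) : ZMod p) := by
        intro i _
        rw [map_smul, smul_eq_mul, Int.cast_mul, hb2 i m, hcc]
        ring
      rw [Finset.sum_congr rfl h3, ← Int.cast_sum, hq (Mm n m), Int.cast_zero]
    exact (mul_eq_zero.1 h2).resolve_left (mul_ne_zero hκ0 (pow_ne_zero _ (hM0 m)))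
  have hfin := hC s hs Q hQ0 hall
  exact hfin.trans (Nat.mul_le_mul_left C (Nat.add_le_add_right hQd 1))

end Pool.Agent.Lib.MP_06b9d2_nt.ME
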