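import Pool.Agent.Lib.MP_06b9d2_nt.ME.Defs

/-!
Module ME-MatN (MP_06b9d2_nt, Maeda, all Hecke operators). Integral matrices of determinant `n`.

`dl_bij`: surjective: the induction principle `FixedDetMatrices.induction_on` (representatives, `S`, `T`). Injective: if `γ dl(a, b) = γ' dl(a', b')` then `δ = γ'⁻¹ γ = (x y; z w)` has `z a = 0`, so `z = 0`, `x w = 1`, `x a = a' > 0`, so `x = w = 1`, `a = a'`, and `b + y n / a = b'` with `0 ≤ b, b' < n / a` gives `y = 0`, `b = b'`, and then `γ = γ'`.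
`adj_adj`: `Matrix.adjugate_fin_two`. `gl_smul`: `Matrix.GeneralLinearGroup.ext`. `gl_adj`: the product `gl A * gl (adj A)` is the scalar matrix `n`, which acts trivially on `ℍ`.
-/

namespace Pool.Agent.Lib.MP_06b9d2_nt.ME

open UpperHalfPlane MeasureTheory
open scoped MatrixGroups ModularForm ENNReal

theorem dl_inj_aux (n : ℕ) [NeZero n] (δ : SL(2, ℤ)) (j j' : Rp n)
    (h : (δ • dl n j : Mn n) = dl n j') : j = j' ∧ δ = 1 := by
  have h1 : (δ • dl n j : Mn n).1 = (dl n j').1 := congrArg Subtype.val h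
  rw [FixedDetMatrices.smul_coe] at h1
  have e00 := congrFun (congrFun h1 0) 0
  have e01 := congrFun (congrFun h1 0) 1
  have e10 := congrFun (congrFun h1 1) 0
  have e11 := congrFun (congrFun h1 1) 1
  have hd := δ.det_coe
  rw [Matrix.det_fin_two] at hd
  obtain ⟨⟨a, ha⟩, b⟩ := j
  obtain ⟨⟨a', ha'⟩, b'⟩ := j'
  simp [dl, Matrix.mul_apply, Fin.sum_univ_two] at e00 e01 e10 e11
  have ha0 : 0 < a := Nat.pos_of_mem_divisors ha
  have ha0' : 0 < a' := Nat.pos_of_mem_divisors ha'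
  have hz : (δ : Matrix (Fin 2) (Fin 2) ℤ) 1 0 = 0 := by
    rcases e10 with e | e
    · exact e
    · omega
  rw [hz] at hd e11
  have hxw : (δ : Matrix (Fin 2) (Fin 2) ℤ) 0 0 * (δ : Matrix (Fin 2) (Fin 2) ℤ) 1 1 = 1 := by
    linarith
  have hx : (δ : Matrix (Fin 2) (Fin 2) ℤ) 0 0 = 1 := by
    rcases Int.mul_eq_one_iff_eq_one_or_neg_one.mp hxw with ⟨h, _⟩ | ⟨h, _⟩
    · exact h
    · rw [h] at e00
      have : (0 : ℤ) < (a : ℤ) := by exact_mod_cast ha0
      have : (0 : ℤ) < (a' : ℤ) := by exact_mod_cast ha0'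
      linarith
  have hw : (δ : Matrix (Fin 2) (Fin 2) ℤ) 1 1 = 1 := by
    rw [hx, one_mul] at hxw
    exact hxw
  rw [hx] at e00 e01
  rw [hw] at e11
  have haa : a = a' := by
    have : (a : ℤ) = a' := by linarith
    exact_mod_cast this
  subst haa
  have hb := b.2
  have hb' := b'.2
  have hb1 : (0 : ℤ) ≤ ((b : ℕ) : ℤ) := Int.natCast_nonneg _
  have hb1' : (0 : ℤ) ≤ ((b' : ℕ) : ℤ) := Int.natCast_nonneg _
  have hb2 : ((b : ℕ) : ℤ) < ((n / a : ℕ) : ℤ) := by exact_mod_cast hb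
  have hb2' : ((b' : ℕ) : ℤ) < ((n / a : ℕ) : ℤ) := by exact_mod_cast hb'
  have e01' : ((b : ℕ) : ℤ) + (δ : Matrix (Fin 2) (Fin 2) ℤ) 0 1 * ((n / a : ℕ) : ℤ) = ((b' : ℕ) : ℤ) := by
    push_cast
    linarith
  have hy : (δ : Matrix (Fin 2) (Fin 2) ℤ) 0 1 = 0 := by
    by_contra hne
    rcases lt_or_gt_of_ne hne with h | h
    · have : (δ : Matrix (Fin 2) (Fin 2) ℤ) 0 1 * ((n / a : ℕ) : ℤ) ≤ (-1) * ((n / a : ℕ) : ℤ) :=
        mul_le_mul_of_nonneg_right (by omega) (by positivity)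
      linarith
    · have : 1 * ((n / a : ℕ) : ℤ) ≤ (δ : Matrix (Fin 2) (Fin 2) ℤ) 0 1 * ((n / a : ℕ) : ℤ) :=
        mul_le_mul_of_nonneg_right (by omega) (by positivity)
      linarith
  rw [hy, zero_mul, add_zero] at e01'
  have hbb : b = b' := Fin.ext (by exact_mod_cast e01')
  subst hbb
  refine ⟨rfl, ?_⟩
  apply Subtype.ext
  ext i k
  fin_cases i <;> fin_cases k <;> simp [hx, hy, hz, hw]

theorem dl_bij (n : ℕ) [NeZero n] :
    Function.Bijective (fun q : SL(2, ℤ) × Rp n => (q.1 • dl n q.2 : Mn n)) := by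
  constructor
  · rintro ⟨g, j⟩ ⟨g', j'⟩ h
    have h0 : (g • dl n j : Mn n) = g' • dl n j' := h
    have h1 : ((g'⁻¹ * g) • dl n j : Mn n) = dl n j' := by
      rw [mul_smul, h0, inv_smul_smul]
    obtain ⟨h2, h3⟩ := dl_inj_aux n _ _ _ h1
    rw [inv_mul_eq_one] at h3
    rw [h2, h3]
  · intro A
    have hn : (n : ℤ) ≠ 0 := by exact_mod_cast NeZero.ne n
    have key : ∃ q : SL(2, ℤ) × Rp n, (q.1 • dl n q.2 : Mn n) = A := by
      induction A using FixedDetMatrices.induction_on (hm := hn) with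
      | h0 A a1 a2 a3 a4 =>
        have hA := A.2
        rw [Matrix.det_fin_two, a1, mul_zero, sub_zero] at hA
        have hd : 0 < A.1 1 1 := by
          have : 0 < A.1 0 0 * A.1 1 1 := by
            rw [hA]
            exact_mod_cast Nat.pos_of_ne_zero (NeZero.ne n)
          exact pos_of_mul_pos_right this a2.le
        obtain ⟨a, ha⟩ := Int.eq_ofNat_of_zero_le a2.le
        obtain ⟨d, hd'⟩ := Int.eq_ofNat_of_zero_le hd.le
        obtain ⟨b, hb⟩ := Int.eq_ofNat_of_zero_le a3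
        rw [ha, hd'] at hA
        have hA' : a * d = n := by exact_mod_cast hA
        have hapos : 0 < a := by
          rw [ha] at a2
          exact_mod_cast a2
        have hdn : n / a = d := by rw [← hA', Nat.mul_div_cancel_left _ hapos]
        have hbd : b < n / a := by
          rw [hdn]
          rw [hb, hd', abs_of_nonneg (Int.natCast_nonneg _), abs_of_nonneg (Int.natCast_nonneg _)] at a4
          exact_mod_cast a4
        refine ⟨(1, ⟨⟨a, ?_⟩, ⟨b, hbd⟩⟩), ?_⟩
        · rw [Nat.mem_divisors]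
          exact ⟨⟨d, hA'.symm⟩, NeZero.ne n⟩
        · rw [one_smul]
          apply FixedDetMatrices.ext
          intro i k
          fin_cases i <;> fin_cases k
          · simp [dl, ha]
          · simp [dl, hb]
          · simp [dl, a1]
          · show (((n / a : ℕ) : ℤ)) = A.1 1 1
            rw [hdn, hd']
      | hS B hB =>
        obtain ⟨q, hq⟩ := hB
        exact ⟨(ModularGroup.S * q.1, q.2), by rw [mul_smul, hq]⟩
      | hT B hB =>
        obtain ⟨q, hq⟩ := hB
        exact ⟨(ModularGroup.T * q.1, q.2), by rw [mul_smul, hq]⟩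
    exact key

theorem adj_adj (n : ℕ) (A : Mn n) : adj n (adj n A) = A := by
  apply Subtype.ext
  simp only [adj]
  rw [Matrix.adjugate_fin_two, Matrix.adjugate_fin_two]
  ext i j
  fin_cases i <;> fin_cases j <;> simp

theorem gl_smul (n : ℕ) [NeZero n] (γ : SL(2, ℤ)) (A : Mn n) :
    gl n (γ • A) = Matrix.SpecialLinearGroup.mapGL ℝ γ * gl n A := by
  apply Matrix.GeneralLinearGroup.ext
  intro i j
  simp [gl, FixedDetMatrices.smul_coe, Matrix.GeneralLinearGroup.mkOfDetNeZero, Matrix.mul_apply]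

theorem gl_adj (n : ℕ) [NeZero n] (A : Mn n) (z : ℍ) : gl n A • (gl n (adj n A) • z) = z := by
  have hn : (n : ℝ) ≠ 0 := by exact_mod_cast NeZero.ne n
  rw [smul_smul]
  have h : gl n A * gl n (adj n A) = Matrix.GeneralLinearGroup.scalar (Fin 2) (Units.mk0 (n : ℝ) hn) := by
    apply Matrix.GeneralLinearGroup.ext
    have hA := A.2
    rw [Matrix.det_fin_two] at hA
    have hA' : (A.1 0 0 : ℝ) * A.1 1 1 - A.1 0 1 * A.1 1 0 = n := by exact_mod_cast hA
    have h2 : (adj n A).1 = !![A.1 1 1, -A.1 0 1; -A.1 1 0, A.1 0 0] := by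
      show A.1.adjugate = _
      rw [Matrix.adjugate_fin_two]
    intro i j
    simp only [gl, Matrix.GeneralLinearGroup.mkOfDetNeZero]
    have hs : ∀ i j : Fin 2, ((n : Matrix (Fin 2) (Fin 2) ℝ)) i j = if i = j then (n : ℝ) else 0 := by
      intro i j
      rw [← Matrix.diagonal_natCast, Matrix.diagonal_apply]
    fin_cases i <;> fin_cases j <;> simp [Matrix.mul_apply, Fin.sum_univ_two, h2, hs] <;> linarith
  rw [h, UpperHalfPlane.glScalar_smul]

theorem det_gl (n : ℕ) [NeZero n] (A : Mn n) : ((gl n A).det : ℝ) = n := by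
  have h : (A.1.map (Int.castRingHom ℝ)).det = n := by
    have := (RingHom.map_det (Int.castRingHom ℝ) A.1).symm
    rw [A.2] at this
    simpa using this
  simpa [gl, Matrix.GeneralLinearGroup.mkOfDetNeZero] using h

end Pool.Agent.Lib.MP_06b9d2_nt.ME
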