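import Pool.Agent.Lib.MP_06b9d2_nt.ME.Sym

/-!
Module ME-MoA (MP_06b9d2_nt, Maeda, all Hecke operators). Symmetric products are combinations of the `XX`.

For `j : ι → ℕ` and `r : ℤ` put `Y r j = ∏_i (if i = o then E p o r else E p i (j i) + E p i (-(j i)))`. In one coordinate: `E j + E (-j) = ∑_{c ≤ j} k_{j,c} Ux c` with `k_{j,j} = 1` (`j ≥ 1`), `k_{j,j-2} = -1` (`j ≥ 2`), `k_{0,0} = 2`, all other `0` (`Ux j - Ux (j - 2) = E j + E (-j)` for `j ≥ 2`, `Ux 1 = E 1 + E (-1)`, `2 Ux 0 = E 0 + E 0`). By `Finset.prod_univ_sum`, for `r = t + 1`, `t : ℕ`: `Y r j` is a linear combination of the `XX p o m` with `m o = t` (for the coordinate `o` use a one-term sum). So `lin F (A * Y (t + 1) j) = 0` for all `t : ℕ`. For `r ≤ -1`: `mp p (ng ι) (Y r j) = Y (-r) j` and `lin_ng` with `hA`: `lin F (A * Y r j) = - lin F (A * Y (-r) j) = 0`; for `r = 0` the same gives `2 * lin F (A * Y 0 j) = 0`, and `p ≠ 2`.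
-/

namespace Pool.Agent.Lib.MP_06b9d2_nt.ME



variable {ι : Type} [Fintype ι] [DecidableEq ι] {p : ℕ}

/-- one coordinate: `E j + E (-j)` is a combination of the `Ux` -/
private theorem one_coord (i : ι) (j : ℕ) :
    E p i (j : ℤ) + E p i (-(j : ℤ)) =
      if j = 0 then Ux p i 0 + Ux p i 0 else if j = 1 then Ux p i 1
        else Ux p i j - Ux p i (j - 2) := by
  rcases j with _ | _ | j
  · unfold Ux
    simp
  · have h : Ux p i 1 = E p i 1 + E p i (-1) := by
      unfold Ux
      rw [Finset.sum_range_succ, Finset.sum_range_one]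
      norm_num
    simp [h]
  · have h0 : ¬ (j + 1 + 1 = 0) := by omega
    have h1 : ¬ (j + 1 + 1 = 1) := by omega
    rw [if_neg h0, if_neg h1]
    have h2 : j + 1 + 1 - 2 = j := by omega
    rw [h2]
    unfold Ux
    rw [Finset.sum_range_succ, Finset.sum_range_succ']
    have h3 : ∑ k ∈ Finset.range (j + 1), E p i (((j + 1 + 1 : ℕ) : ℤ) - 2 * ((k + 1 : ℕ) : ℤ)) =
        ∑ r ∈ Finset.range (j + 1), E p i ((j : ℤ) - 2 * r) := by
      refine Finset.sum_congr rfl fun k _ => ?_
      congr 1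
      push_cast
      ring
    rw [h3]
    have h4 : E p i (((j + 1 + 1 : ℕ) : ℤ) - 2 * ((j + 1 + 1 : ℕ) : ℤ)) =
        E p i (-((j + 1 + 1 : ℕ) : ℤ)) := by
      congr 1
      ring
    have h5 : E p i (((j + 1 + 1 : ℕ) : ℤ) - 2 * ((0 : ℕ) : ℤ)) =
        E p i ((j + 1 + 1 : ℕ) : ℤ) := by
      simp
    rw [h4, h5]
    abel

/-- the mixed products -/
private noncomputable def PQ (p : ℕ) (o : ι) (r : ℤ) (j : ι → ℕ) (s : Finset ι) (m : ι → ℕ) :
    Rg ι p :=
  ∏ i, if i = o then E p o r else if i ∈ s then (E p i (j i : ℤ) + E p i (-(j i : ℤ)))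
    else Ux p i (m i)

private theorem PQ_insert (o : ι) (r : ℤ) (j : ι → ℕ) (s : Finset ι) (a : ι) (ha : a ∉ s)
    (hao : a ≠ o) : ∀ m : ι → ℕ, ∃ Rm : Rg ι p,
      PQ p o r j (insert a s) m = (E p a (j a : ℤ) + E p a (-(j a : ℤ))) * Rm ∧
      ∀ c : ℕ, PQ p o r j s (Function.update m a c) = Ux p a c * Rm := by
  refine fun m => ⟨∏ i ∈ Finset.univ.erase a, if i = o then E p o r else if i ∈ s then
    (E p i (j i : ℤ) + E p i (-(j i : ℤ))) else Ux p i (m i), ?_, fun c => ?_⟩
  · unfold PQ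
    rw [← Finset.mul_prod_erase Finset.univ _ (Finset.mem_univ a)]
    congr 1
    · simp [hao]
    · refine Finset.prod_congr rfl fun i hi => ?_
      have hia : i ≠ a := Finset.ne_of_mem_erase hi
      simp [Finset.mem_insert, hia]
  · unfold PQ
    rw [← Finset.mul_prod_erase Finset.univ _ (Finset.mem_univ a)]
    congr 1
    · simp [hao, ha]
    · refine Finset.prod_congr rfl fun i hi => ?_
      have hia : i ≠ a := Finset.ne_of_mem_erase hi
      simp [Function.update_of_ne hia]

private theorem moA_pos (o : ι) (F : (ι → ℤ) → ZMod p) (A : Rg ι p)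
    (h : ∀ m : ι → ℕ, lin F (A * XX p o m) = 0) (t : ℕ) (j : ι → ℕ) (s : Finset ι) :
    ∀ m : ι → ℕ, m o = t → lin F (A * PQ p o ((t : ℤ) + 1) j s m) = 0 := by
  induction s using Finset.induction_on with
  | empty =>
    intro m hm
    have h1 : PQ p o ((t : ℤ) + 1) j ∅ m = XX p o m := by
      unfold PQ XX
      refine Finset.prod_congr rfl fun i _ => ?_
      by_cases hi : i = o
      · rw [if_pos hi, if_pos hi, hm]
      · rw [if_neg hi, if_neg hi]
        simp
    rw [h1]
    exact h m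
  | insert a s ha ih =>
    intro m hm
    by_cases hao : a = o
    · have h1 : PQ p o ((t : ℤ) + 1) j (insert a s) m = PQ p o ((t : ℤ) + 1) j s m := by
        unfold PQ
        refine Finset.prod_congr rfl fun i _ => ?_
        by_cases hi : i = o
        · rw [if_pos hi, if_pos hi]
        · rw [if_neg hi, if_neg hi]
          have : i ≠ a := by
            rw [hao]
            exact hi
          simp [Finset.mem_insert, this]
      rw [h1]
      exact ih m hm
    · obtain ⟨R, h1, h2⟩ := PQ_insert (p := p) o ((t : ℤ) + 1) j s a ha hao m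
      have h3 : ∀ c : ℕ, lin F (A * (Ux p a c * R)) = 0 := by
        intro c
        rw [← h2 c]
        refine ih _ ?_
        rw [Function.update_of_ne (fun e => hao e.symm)]
        exact hm
      rw [h1, one_coord]
      split_ifs with h4 h5
      · rw [add_mul, mul_add, map_add, h3, add_zero]
      · exact h3 1
      · rw [sub_mul, mul_sub, map_sub, h3, h3, sub_zero]

theorem moA [Fact p.Prime] (hp2 : p ≠ 2) (o : ι) (F : (ι → ℤ) → ZMod p)
    (hF : ∀ v, F (-v) = -F v) (A : Rg ι p) (hA : mp p (ng ι) A = A)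
    (h : ∀ m : ι → ℕ, lin F (A * XX p o m) = 0) (r : ℤ) (j : ι → ℕ) :
    lin F (A * ∏ i, if i = o then E p o r else (E p i (j i : ℤ) + E p i (-(j i : ℤ)))) = 0 := by
  have hpos : ∀ r : ℤ, 0 < r → lin F (A * ∏ i, if i = o then E p o r else
      (E p i (j i : ℤ) + E p i (-(j i : ℤ)))) = 0 := by
    intro r hr
    obtain ⟨t, rfl⟩ : ∃ t : ℕ, r = (t : ℤ) + 1 := ⟨(r - 1).toNat, by omega⟩
    have h1 := moA_pos o F A h t j Finset.univ (fun _ => t) rfl
    unfold PQ at h1
    simpa using h1
  have hng : ∀ r : ℤ, lin F (A * ∏ i, if i = o then E p o (-r) else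
      (E p i (j i : ℤ) + E p i (-(j i : ℤ)))) = -lin F (A * ∏ i, if i = o then E p o r else
      (E p i (j i : ℤ) + E p i (-(j i : ℤ)))) := by
    intro r
    rw [← lin_ng F hF]
    congr 1
    rw [map_mul (mp p (ng ι)), hA, map_prod]
    congr 1
    refine Finset.prod_congr rfl fun i _ => ?_
    by_cases hi : i = o
    · rw [if_pos hi, if_pos hi, E_ng]
    · rw [if_neg hi, if_neg hi, map_add, E_ng, E_ng, neg_neg, add_comm]
  rcases lt_trichotomy r 0 with hr | hr | hr
  · have h1 := hng (-r)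
    rw [neg_neg] at h1
    rw [h1, hpos (-r) (by omega), neg_zero]
  · subst hr
    have h1 := hng 0
    rw [neg_zero] at h1
    set X := lin F (A * ∏ i, if i = o then E p o 0 else
      (E p i (j i : ℤ) + E p i (-(j i : ℤ)))) with hX
    have h2 : (2 : ZMod p) * X = 0 := by
      linear_combination h1
    have h3 : (2 : ZMod p) ≠ 0 := by
      intro h4
      have h5 : ((2 : ℕ) : ZMod p) = 0 := by exact_mod_cast h4
      rw [ZMod.natCast_eq_zero_iff] at h5
      have h6 := (Nat.prime_dvd_prime_iff_eq (Fact.out : p.Prime) Nat.prime_two).1 h5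
      exact hp2 h6
    rcases mul_eq_zero.1 h2 with h4 | h4
    · exact absurd h4 h3
    · exact h4
  · exact hpos r hr

end Pool.Agent.Lib.MP_06b9d2_nt.ME
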