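import Pool.Agent.Lib.MP_06b9d2_nt.ME.EvC

/-!
Module ME-Phi (MP_06b9d2_nt, Maeda, all Hecke operators). The functions `ph` are well defined.

`Fl_iff`: if `ev p n A = ev p n B` with `Su p n B`, `p ^ s ∣ B.2` then `A.1 B.2 = A.2 B.1` (`ev_inj`) and `p ∤ B.1` (`Su_not_dvd`), so `p ^ s ∣ A.2` (`IsCoprime.dvd_of_dvd_mul_right`, `Prime.pow_dvd_of_dvd_mul_right`).
`ph_eq`: `unfold ph`, `dif_pos`; with `B = h.choose`: `A.1 (B.2 / p ^ s) = (A.2 / p ^ s) B.1` in `ℤ` (cancel `p ^ s`), cast to the field `ZMod p`, where `A.1`, `B.1` are not `0` (`ZMod.intCast_zmod_eq_zero_iff` / `ZMod.intCast_eq_zero_iff`).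
`ph_add`: for `A`, `B`: `ev_mu`, `(mu p A B).2 / p ^ s = A.1 (B.2 / p ^ s) + (A.2 / p ^ s) B.1`, `(mu p A B).1 = A.1 B.1` modulo `p`; `field_simp`. `ph_ker`: `ph = 0` iff `p ∣ A.2 / p ^ s` iff `p ^ (s + 1) ∣ A.2` iff `v ∈ Fl p n (s + 1)` (`Fl_iff`).
-/

namespace Pool.Agent.Lib.MP_06b9d2_nt.ME



theorem Fl_iff {p n : ℕ} [NeZero n] (hp : p.Prime) (h8 : 8 * n ∣ p + 1) (s : ℕ) {A : ℤ × ℤ}
    (hA : Su p n A) : ev p n A ∈ Fl p n s ↔ (p : ℤ) ^ s ∣ A.2 := by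
  constructor
  · rintro ⟨B, hB, hs, he⟩
    have h := ev_inj h8 hA hB he.symm
    have h1 : (p : ℤ) ^ s ∣ A.2 * B.1 := by
      rw [← h]
      exact Dvd.dvd.mul_left hs _
    have hpp : Prime (p : ℤ) := Nat.prime_iff_prime_int.1 hp
    have hc : IsCoprime ((p : ℤ) ^ s) B.1 :=
      IsCoprime.pow_left ((hpp.coprime_iff_not_dvd).2 (Su_not_dvd hp h8 hB))
    exact hc.dvd_of_dvd_mul_right h1
  · intro hs
    exact ⟨A, hA, hs, rfl⟩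

theorem ph_out {p n s : ℕ} {v : Pr n → ℤ} (hv : v ∉ Fl p n s) : ph p n s v = 0 := by
  unfold ph
  rw [dif_neg hv]

theorem phi_cast_ne {p n : ℕ} [NeZero n] [Fact p.Prime] (h8 : 8 * n ∣ p + 1) {A : ℤ × ℤ}
    (hA : Su p n A) : ((A.1 : ℤ) : ZMod p) ≠ 0 := by
  intro h
  rw [ZMod.intCast_zmod_eq_zero_iff_dvd] at h
  exact Su_not_dvd (Fact.out : p.Prime) h8 hA h

theorem ph_eq {p n : ℕ} [NeZero n] [Fact p.Prime] (h8 : 8 * n ∣ p + 1) (s : ℕ) {A : ℤ × ℤ}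
    (hA : Su p n A) (hs : (p : ℤ) ^ s ∣ A.2) :
    ph p n s (ev p n A) = ((A.2 / (p : ℤ) ^ s : ℤ) : ZMod p) * ((A.1 : ℤ) : ZMod p)⁻¹ := by
  have hv : ev p n A ∈ Fl p n s := ⟨A, hA, hs, rfl⟩
  unfold ph
  rw [dif_pos hv]
  obtain ⟨hB, hsB, he⟩ := Exists.choose_spec hv
  generalize Exists.choose hv = B at hB hsB he ⊢
  have h := ev_inj h8 hA hB he.symm
  have hA1 := phi_cast_ne h8 hA
  have hB1 := phi_cast_ne h8 hB
  have hp0 : ((p : ℤ) ^ s) ≠ 0 :=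
    pow_ne_zero _ (by exact_mod_cast (Fact.out : p.Prime).ne_zero)
  obtain ⟨a, ha⟩ := hs
  obtain ⟨b, hb⟩ := hsB
  rw [ha, hb, Int.mul_ediv_cancel_left _ hp0, Int.mul_ediv_cancel_left _ hp0]
  have h2 : A.1 * b = a * B.1 := by
    rw [ha, hb] at h
    apply mul_left_cancel₀ hp0
    linear_combination h
  have h3 : ((A.1 : ℤ) : ZMod p) * ((b : ℤ) : ZMod p) = ((a : ℤ) : ZMod p) * ((B.1 : ℤ) : ZMod p) := by
    exact_mod_cast congrArg (Int.cast : ℤ → ZMod p) h2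
  rw [← div_eq_mul_inv, ← div_eq_mul_inv, div_eq_div_iff hB1 hA1]
  linear_combination h3

theorem Fl_zero (p n s : ℕ) (hn : n ≠ 0) : (0 : Pr n → ℤ) ∈ Fl p n s := by
  refine ⟨(1, 0), ⟨?_, ?_⟩, dvd_zero _, ?_⟩
  · simp [nm]
  · intro q hq h
    exfalso
    have h1 : (q : ℤ) ∣ 1 := by simpa [nm] using h
    have h2 : q ∣ 1 := by exact_mod_cast h1
    exact hq.one_lt.ne' (Nat.dvd_one.1 h2)
  · funext l
    simp [ev]

theorem Fl_neg {p n s : ℕ} {v : Pr n → ℤ} (hv : v ∈ Fl p n s) : -v ∈ Fl p n s := by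
  obtain ⟨A, hA, hs, rfl⟩ := hv
  exact ⟨cj A, Su_cj hA, (dvd_neg.2 hs), ev_cj p n A⟩

theorem phi_mu_dvd {p s : ℕ} {A B : ℤ × ℤ} (hA : (p : ℤ) ^ s ∣ A.2) (hB : (p : ℤ) ^ s ∣ B.2) :
    (p : ℤ) ^ s ∣ (mu p A B).2 := by
  unfold mu
  exact dvd_add (Dvd.dvd.mul_left hB _) (Dvd.dvd.mul_right hA _)

theorem Fl_add {p n s : ℕ} (h8 : 8 * n ∣ p + 1) {v w : Pr n → ℤ} (hv : v ∈ Fl p n s)
    (hw : w ∈ Fl p n s) : v + w ∈ Fl p n s := by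
  obtain ⟨A, hA, hs, rfl⟩ := hv
  obtain ⟨B, hB, hs', rfl⟩ := hw
  exact ⟨mu p A B, Su_mu hA hB, phi_mu_dvd hs hs', ev_mu h8 A B hA.1 hB.1⟩

theorem ph_add {p n s : ℕ} [NeZero n] [Fact p.Prime] (h8 : 8 * n ∣ p + 1) {v w : Pr n → ℤ}
    (hv : v ∈ Fl p n s) (hw : w ∈ Fl p n s) : ph p n s (v + w) = ph p n s v + ph p n s w := by
  obtain ⟨A, hA, hs, rfl⟩ := hv
  obtain ⟨B, hB, hs', rfl⟩ := hw
  rw [← ev_mu h8 A B hA.1 hB.1, ph_eq h8 s (Su_mu hA hB) (phi_mu_dvd hs hs'), ph_eq h8 s hA hs,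
    ph_eq h8 s hB hs']
  have hA1 := phi_cast_ne h8 hA
  have hB1 := phi_cast_ne h8 hB
  have hp0 : ((p : ℤ) ^ s) ≠ 0 :=
    pow_ne_zero _ (by exact_mod_cast (Fact.out : p.Prime).ne_zero)
  obtain ⟨a, ha⟩ := hs
  obtain ⟨b, hb⟩ := hs'
  have e1 : (mu p A B).2 / (p : ℤ) ^ s = A.1 * b + a * B.1 := by
    have : (mu p A B).2 = (p : ℤ) ^ s * (A.1 * b + a * B.1) := by
      unfold mu
      rw [ha, hb]
      ring
    rw [this, Int.mul_ediv_cancel_left _ hp0]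
  have e2 : (((mu p A B).1 : ℤ) : ZMod p) = ((A.1 : ℤ) : ZMod p) * ((B.1 : ℤ) : ZMod p) := by
    unfold mu
    push_cast
    rw [CharP.cast_eq_zero (ZMod p) p]
    ring
  rw [e1, e2, ha, hb, Int.mul_ediv_cancel_left _ hp0, Int.mul_ediv_cancel_left _ hp0]
  push_cast
  field_simp
  ring

theorem ph_ker {p n s : ℕ} [NeZero n] [Fact p.Prime] (h8 : 8 * n ∣ p + 1) {v : Pr n → ℤ}
    (hv : v ∈ Fl p n s) : ph p n s v = 0 ↔ v ∈ Fl p n (s + 1) := by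
  obtain ⟨A, hA, hs, rfl⟩ := hv
  rw [ph_eq h8 s hA hs, Fl_iff (Fact.out : p.Prime) h8 (s + 1) hA]
  have hA1 := phi_cast_ne h8 hA
  have hp0 : ((p : ℤ) ^ s) ≠ 0 :=
    pow_ne_zero _ (by exact_mod_cast (Fact.out : p.Prime).ne_zero)
  obtain ⟨a, ha⟩ := hs
  rw [ha, Int.mul_ediv_cancel_left _ hp0, mul_eq_zero, or_iff_left (inv_ne_zero hA1),
    ZMod.intCast_zmod_eq_zero_iff_dvd, pow_succ]
  exact (mul_dvd_mul_iff_left hp0).symm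

end Pool.Agent.Lib.MP_06b9d2_nt.ME
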