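import Pool.Agent.Lib.MP_06b9d2_nt.ME.Lev

/-!
Module ME-RedA (MP_06b9d2_nt, Maeda, all Hecke operators). The exponents.

`h'` is prime to `p`, so there is `h₂ : ℤ` with `p ^ (α + s) ∣ 1 - h' h₂` (`Int.isCoprime_iff_gcd_eq_one`, `IsCoprime` of `h'` and `p ^ (α + s)`), and `p ∤ h₂` (`α + s ≥ 1`). For each `v`: `H • v ∈ S 1`, so `p ^ (ε - 1) • (H • v) ∈ S ε` (`S_mulp`) and `(h₂ p ^ (ε - 1)) • (H • v) ∈ S ε`; `lam` with `t = s + 1`, `w = Pi.single o H`.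
-/

namespace Pool.Agent.Lib.MP_06b9d2_nt.ME



variable {ι : Type} [Fintype ι] [DecidableEq ι] {p : ℕ}

theorem redA [Fact p.Prime] (o : ι) (F : Flt ι p) (H α h' ε s : ℕ)
    (hH : ∀ v : ι → ℤ, (H : ℤ) • v ∈ F.S 1) (hh : ¬ p ∣ h') (h1 : 1 ≤ ε) (hs : ε ≤ s)
    (hε : (Pi.single o (H : ℤ) : ι → ℤ) ∈ F.S ε) (hε' : (Pi.single o (H : ℤ) : ι → ℤ) ∉ F.S (ε + 1)) :
    ∃ (h2 : ℤ) (x : (ι → ℤ) → ℕ), ¬ (p : ℤ) ∣ h2 ∧ (p : ℤ) ^ (α + s) ∣ 1 - h' * h2 ∧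
      ∀ v : ι → ℤ, (h2 * (p : ℤ) ^ (ε - 1)) • ((H : ℤ) • v) -
        (x v : ℤ) • (Pi.single o (H : ℤ) : ι → ℤ) ∈ F.S (s + 1) := by
  have hpp : p.Prime := Fact.out
  have hcop : IsCoprime (h' : ℤ) ((p : ℤ) ^ (α + s)) := by
    rw [← Nat.cast_pow, Nat.isCoprime_iff_coprime]
    exact Nat.Coprime.pow_right _ ((Nat.Prime.coprime_iff_not_dvd hpp).2 hh).symm
  obtain ⟨a, b, hab⟩ := hcop
  have hdvd : (p : ℤ) ^ (α + s) ∣ 1 - h' * a := ⟨b, by linear_combination -hab⟩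
  have hpa : ¬ (p : ℤ) ∣ a := by
    intro h
    have h2 : (p : ℤ) ∣ (p : ℤ) ^ (α + s) := dvd_pow_self _ (by omega)
    have h3 : (p : ℤ) ∣ 1 := by
      rw [← hab]
      exact dvd_add (Dvd.dvd.mul_right h _) (Dvd.dvd.mul_left h2 _)
    have h4 : p ∣ 1 := by exact_mod_cast h3
    exact hpp.one_lt.ne' (Nat.dvd_one.1 h4)
  have hex : ∀ v : ι → ℤ, ∃ x : ℕ, (a * (p : ℤ) ^ (ε - 1)) • ((H : ℤ) • v) -
      (x : ℤ) • (Pi.single o (H : ℤ) : ι → ℤ) ∈ F.S (s + 1) := by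
    intro v
    refine lam F ε _ h1 hε hε' _ ?_ (s + 1) (by omega)
    have h2 := (S_mulp F (ε - 1) 1 ((H : ℤ) • v) le_rfl (hH v)).1
    have h3 : 1 + (ε - 1) = ε := by omega
    rw [h3] at h2
    rw [mul_smul]
    exact (F.S ε).zsmul_mem h2 a
  choose x hx using hex
  exact ⟨a, x, hpa, hdvd, hx⟩

end Pool.Agent.Lib.MP_06b9d2_nt.ME
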