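import Pool.Agent.Lib.MP_06b9d2_nt.ME.HeckeN
import Pool.Agent.Lib.MP_06b9d2_nt.ME.Leg
import Pool.Agent.Lib.MP_06b9d2_nt.ME.Dvs
import Pool.Agent.Lib.MP_06b9d2_nt.ME.HkR

/-!
Module ME-Seq (MP_06b9d2_nt, Maeda, all Hecke operators). The coefficients of `T ^ i f` at the numbers `Mm n m` modulo `p`.

Induction on `i`; `T ^ (i + 1) f = T (T ^ i f)` (`pow_succ'`). From `b` for `i`: the coefficients of `T (T ^ i f)` are integers: `b' = mk (fun M => if M = 0 then 0 else ∑_{d ∣ gcd M n} d ^ (k - 1).toNat * coeff (M n / d ^ 2) b)` (`hecke_qn`, `k ≥ 1`; the constant coefficient of a cusp form is `0`, see `MD/Crit.lean`). At `M = Mm n m` (`Mm_pos`): by `dvs` the sum is over the exponent vectors `d`; modulo `p` the term is `Mm(d) ^ (k - 1) κ n ^ (i (e + 1)) (Mm(m + a - 2 d)) ^ (e + 1) lin Φ (U ^ i XX (m + a - 2 d))`, `a = ex n`, `U = UU p a`. `Mm(d) ^ 2 * Mm(m + a - 2 d) = Mm(m) * n` (`Mm_add`, `Mm_ex`) and `Mm(d) ∣ n`, so by `leg` and `hk1`: `Mm(d)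 ^ (k - 1) = Mm(d) ^ (2 (e + 1))`, and the product is `κ n ^ (i (e + 1)) (Mm(m) n) ^ (e + 1) lin Φ (..)`. Sum over `d`: `hk` with `B = U ^ i` (invariant: `UU_ng`, `map_pow`): `∑_d lin Φ (U ^ i XX (m + a - 2 d)) = lin Φ (U ^ i (U XX m)) = lin Φ (U ^ (i + 1) XX m)`.
-/

namespace Pool.Agent.Lib.MP_06b9d2_nt.ME

open UpperHalfPlane
open scoped MatrixGroups ModularForm

theorem seq {p n : ℕ} [Fact p.Prime] [NeZero n] (h8 : 8 * n ∣ p + 1) {k : ℤ} (hk : 1 ≤ k)
    {T : CuspForm 𝒮ℒ k →ₗ[ℂ] CuspForm 𝒮ℒ k} (hT : IsHecke k n T) (f : CuspForm 𝒮ℒ k)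
    (a : PowerSeries ℤ) (ha : PowerSeries.map (Int.castRingHom ℂ) a = qExpansion 1 f)
    (κ : ZMod p) (e j : ℕ) (hk1 : k - 1 = 2 * ((e : ℤ) + 1) + j * (((p - 1) / 2 : ℕ) : ℤ))
    (Φ : (Pr n → ℤ) → ZMod p) (hΦ : ∀ v, Φ (-v) = -Φ v)
    (hc : ∀ m : Pr n → ℕ, ((PowerSeries.coeff (Mm n m) a : ℤ) : ZMod p) =
      κ * (Mm n m : ZMod p) ^ (e + 1) * lin Φ (XX p (two n) m)) (i : ℕ) :
    ∃ b : PowerSeries ℤ, PowerSeries.map (Int.castRingHom ℂ) b = qExpansion 1 ((T ^ i) f) ∧
      ∀ m : Pr n → ℕ, ((PowerSeries.coeff (Mm n m) b : ℤ) : ZMod p) =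
        κ * (n : ZMod p) ^ (i * (e + 1)) * (Mm n m : ZMod p) ^ (e + 1) *
          lin Φ (UU p (ex n) ^ i * XX p (two n) m) := by
  have h8p : 8 ∣ p + 1 := (Dvd.intro n rfl).trans h8
  have hp2 : p ≠ 2 := by
    rintro rfl
    omega
  induction i with
  | zero =>
    refine ⟨a, ?_, fun m => ?_⟩
    · rw [pow_zero]
      exact ha
    · rw [hc m, zero_mul, pow_zero, pow_zero, mul_one, one_mul]
  | succ i ih =>
    obtain ⟨b, hb, hbm⟩ := ih
    refine ⟨PowerSeries.mk fun M => if M = 0 then 0 else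
      ∑ d ∈ (Nat.gcd M n).divisors,
        (d : ℤ) ^ (k - 1).toNat * PowerSeries.coeff (M * n / d ^ 2) b, ?_, fun m => ?_⟩
    · ext M
      rw [PowerSeries.coeff_map, pow_succ']
      show _ = (qExpansion 1 (T ((T ^ i) f))).coeff M
      rcases Nat.eq_zero_or_pos M with h0 | h0
      · subst h0
        rw [PowerSeries.coeff_mk, if_pos rfl, map_zero]
        exact (CuspFormClass.qExpansion_coeff_zero _ one_pos one_mem_strictPeriods_SL).symm
      · rw [PowerSeries.coeff_mk, if_neg h0.ne', hecke_qn hT _ M h0, map_sum]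
        refine Finset.sum_congr rfl fun d _ => ?_
        rw [← hb, PowerSeries.coeff_map, map_mul, map_pow]
        have he : (d : ℂ) ^ (k - 1) = (d : ℂ) ^ (k - 1).toNat := by
          have : k - 1 = (((k - 1).toNat : ℕ) : ℤ) := by omega
          conv_lhs => rw [this]
          rw [zpow_natCast]
        rw [he]
        simp
    · rw [PowerSeries.coeff_mk, if_neg (Mm_pos n m).ne', Int.cast_sum,
        dvs m (fun d N => (((d : ℤ) ^ (k - 1).toNat * PowerSeries.coeff N b : ℤ) : ZMod p))]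
      have hB : mp p (ng (Pr n)) (UU p (ex n) ^ i) = UU p (ex n) ^ i := by
        rw [map_pow, UU_ng]
      have h1 : UU p (ex n) ^ (i + 1) * XX p (two n) m =
          UU p (ex n) ^ i * (UU p (ex n) * XX p (two n) m) := by
        rw [pow_succ, mul_assoc]
      rw [h1, ME.hk hp2 (two n) Φ hΦ m (ex n) _ hB, Finset.mul_sum]
      refine Finset.sum_congr rfl fun d hd => ?_
      rw [Fintype.mem_piFinset] at hd
      have hd' : ∀ l, d l ≤ m l ∧ d l ≤ ex n l := by
        intro l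
        have := Finset.mem_range.1 (hd l)
        omega
      have hdn : Mm n d ∣ n := by
        refine ⟨Mm n (fun l => ex n l - d l), ?_⟩
        rw [← Mm_add]
        conv_lhs => rw [← Mm_ex n]
        congr 1
        funext l
        have := hd' l
        omega
      have h2 : Mm n d ^ 2 * Mm n (fun l => m l + ex n l - 2 * d l) = Mm n m * n := by
        have e1 : Mm n m * n = Mm n m * Mm n (ex n) := by rw [Mm_ex n]
        rw [e1, ← Mm_add, pow_two, ← Mm_add, ← Mm_add]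
        congr 1
        funext l
        have := hd' l
        omega
      have h3 : ((Mm n d : ℕ) : ZMod p) ^ (k - 1).toNat = (Mm n d : ZMod p) ^ (2 * (e + 1)) := by
        have e1 : (k - 1).toNat = 2 * (e + 1) + (p - 1) / 2 * j := by
          rw [hk1]
          have : (2 * ((e : ℤ) + 1) + j * (((p - 1) / 2 : ℕ) : ℤ)) =
              ((2 * (e + 1) + (p - 1) / 2 * j : ℕ) : ℤ) := by
            push_cast
            ring
          rw [this, Int.toNat_natCast]
        rw [e1, pow_add, pow_mul _ ((p - 1) / 2), leg h8 _ hdn, one_pow, mul_one]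
      have h4 : ((Mm n d : ℕ) : ZMod p) ^ 2 *
          (Mm n (fun l => m l + ex n l - 2 * d l) : ZMod p) = (Mm n m : ZMod p) * n := by
        exact_mod_cast congrArg (fun x : ℕ => (x : ZMod p)) h2
      rw [Int.cast_mul, hbm, Int.cast_pow, Int.cast_natCast, h3]
      have h5 : ((Mm n d : ℕ) : ZMod p) ^ (2 * (e + 1)) *
          (Mm n (fun l => m l + ex n l - 2 * d l) : ZMod p) ^ (e + 1) =
          (Mm n m : ZMod p) ^ (e + 1) * (n : ZMod p) ^ (e + 1) := by
        rw [pow_mul, ← mul_pow, h4, mul_pow]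
      have h6 : (n : ZMod p) ^ ((i + 1) * (e + 1)) =
          (n : ZMod p) ^ (i * (e + 1)) * (n : ZMod p) ^ (e + 1) := by
        rw [← pow_add]
        congr 1
        ring
      rw [h6]
      linear_combination (κ * (n : ZMod p) ^ (i * (e + 1)) *
        lin Φ (UU p (ex n) ^ i * XX p (two n) (fun l => m l + ex n l - 2 * d l))) * h5

end Pool.Agent.Lib.MP_06b9d2_nt.ME
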