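import Pool.Agent.Lib.MP_06b9d2_nt.ME.MatN

/-!
Module ME-SlashN (MP_06b9d2_nt, Maeda, all Hecke operators). The slash action of matrices of determinant `n` and the Petersson function.

(Adapt `MD/Slash.lean`, where `n = 2`.) `slash_smul`: `gl_smul`, `SlashAction.slash_mul`, `f ∣[k] mapGL ℝ γ = f`. `slash_scalar`: the matrix `gl A * gl (adj A)` is `(n 0; 0 n)`: `|n ^ 2| ^ (k - 1) * n ^ (-k) = n ^ (k - 2)`. `hecke_slash`: `(f ∣[k] gl (dl (a, b))) τ = f ((a τ + b) / (n / a)) * n ^ (k - 1) * (n / a) ^ (-k)`; sum over the sigma type `Rp n` (`Fintype.sum_sigma`, `Finset.sum_coe_sort`/`Finset.sum_attach`, `Finset.sum_range`). `pet_adj`: as in `MD/Slash.lean`.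
-/

namespace Pool.Agent.Lib.MP_06b9d2_nt.ME

open UpperHalfPlane MeasureTheory
open scoped MatrixGroups ModularForm ENNReal

theorem slash_smul {k : ℤ} {n : ℕ} [NeZero n] (f : CuspForm 𝒮ℒ k) (γ : SL(2, ℤ)) (A : Mn n) :
    (f : ℍ → ℂ) ∣[k] gl n (γ • A) = (f : ℍ → ℂ) ∣[k] gl n A := by
  have h : (f : ℍ → ℂ) ∣[k] (Matrix.SpecialLinearGroup.mapGL ℝ γ) = f :=
    SlashInvariantForm.slash_action_eqn (Γ := 𝒮ℒ) f _ (MonoidHom.mem_range.2 ⟨γ, rfl⟩)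
  rw [gl_smul, SlashAction.slash_mul, h]

private theorem sig_pos {g : GL (Fin 2) ℝ} (hg : 0 < g.det.val) (z : ℂ) : σ g z = z := by
  simp only [σ, if_pos hg, ContinuousAlgEquiv.refl_apply]

private theorem gl_coe (n : ℕ) [NeZero n] (A : Mn n) (i j : Fin 2) :
    (gl n A) i j = ((A.1 i j : ℤ) : ℝ) := rfl

private theorem npos (n : ℕ) [NeZero n] : (0 : ℝ) < n := by
  exact_mod_cast Nat.pos_of_ne_zero (NeZero.ne n)

private theorem nne (n : ℕ) [NeZero n] : (n : ℂ) ≠ 0 := by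
  exact_mod_cast NeZero.ne n

theorem slash_scalar (k : ℤ) {n : ℕ} [NeZero n] (f : ℍ → ℂ) (A : Mn n) :
    (f ∣[k] gl n A) ∣[k] gl n (adj n A) = (n : ℂ) ^ (k - 2) • f := by
  rw [← SlashAction.slash_mul]
  have hdet : ((gl n A * gl n (adj n A)).det : ℝ) = (n : ℝ) * n := by
    rw [map_mul, Units.val_mul, det_gl, det_gl]
  have hA := A.2
  rw [Matrix.det_fin_two] at hA
  have hAr : ((A.1 0 0 : ℤ) : ℝ) * ((A.1 1 1 : ℤ) : ℝ) - ((A.1 0 1 : ℤ) : ℝ) * ((A.1 1 0 : ℤ) : ℝ)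
      = n := by
    exact_mod_cast hA
  have h2 : (adj n A).1 = !![A.1 1 1, -A.1 0 1; -A.1 1 0, A.1 0 0] := by
    show A.1.adjugate = _
    rw [Matrix.adjugate_fin_two]
  have e10 : (gl n A * gl n (adj n A)) 1 0 = 0 := by
    rw [Units.val_mul, Matrix.mul_apply, Fin.sum_univ_two, gl_coe, gl_coe, gl_coe, gl_coe, h2]
    simp
    ring
  have e11 : (gl n A * gl n (adj n A)) 1 1 = n := by
    rw [Units.val_mul, Matrix.mul_apply, Fin.sum_univ_two, gl_coe, gl_coe, gl_coe, gl_coe, h2]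
    simp
    linarith
  ext τ
  rw [ModularForm.slash_apply, sig_pos (by rw [hdet]; exact mul_pos (npos n) (npos n)), hdet,
    SemigroupAction.mul_smul, gl_adj]
  have hden : denom (gl n A * gl n (adj n A)) τ = n := by
    rw [denom, e10, e11]
    simp
  rw [hden, Pi.smul_apply, smul_eq_mul, mul_assoc, mul_comm]
  congr 1
  have h4 : ((|(n : ℝ) * n| : ℝ) : ℂ) = n * n := by
    rw [abs_of_pos (mul_pos (npos n) (npos n))]
    push_cast
    ring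
  rw [h4, mul_zpow, ← zpow_add₀ (nne n), ← zpow_add₀ (nne n)]
  congr 1
  ring

private theorem slash_dl (k : ℤ) {n : ℕ} [NeZero n] (f : ℍ → ℂ) (A : Mn n) (τ : ℍ) (w : ℂ) (d : ℂ)
    (h0 : A.1 1 0 = 0) (hd : ((A.1 1 1 : ℤ) : ℂ) = d)
    (hw : (((A.1 0 0 : ℤ) : ℂ) * τ + ((A.1 0 1 : ℤ) : ℂ)) / d = w) :
    (f ∣[k] gl n A) τ = f (ofComplex w) * (n : ℂ) ^ (k - 1) * d ^ (-k) := by
  have hp : 0 < (gl n A).det.val := by
    rw [det_gl]
    exact npos n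
  have hden : denom (gl n A) τ = d := by
    rw [denom, gl_coe, gl_coe, h0, ← hd]
    simp
  have hco : ((gl n A • τ : ℍ) : ℂ) = w := by
    rw [coe_smul_of_det_pos hp, hden, num, gl_coe, gl_coe, ← hw]
    simp
  have hpt : ofComplex w = gl n A • τ := by
    rw [← hco, ofComplex_apply]
  rw [ModularForm.slash_apply, sig_pos hp, det_gl, hden, hpt]
  congr 2
  rw [abs_of_pos (npos n)]
  norm_num

theorem hecke_slash {k : ℤ} {n : ℕ} [NeZero n] {T : CuspForm 𝒮ℒ k →ₗ[ℂ] CuspForm 𝒮ℒ k}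
    (hT : IsHecke k n T) (f : CuspForm 𝒮ℒ k) :
    (T f : ℍ → ℂ) = ∑ j : Rp n, (f : ℍ → ℂ) ∣[k] gl n (dl n j) := by
  ext τ
  rw [hT f τ, Finset.sum_apply, Fintype.sum_sigma, ← Finset.sum_coe_sort]
  refine Finset.sum_congr rfl fun a _ => ?_
  rw [← Fin.sum_univ_eq_sum_range (fun b => ((n : ℂ) ^ (k - 1) * ((n / (a : ℕ) : ℕ) : ℂ) ^ (-k)) *
    f (ofComplex ((((a : ℕ) : ℂ) * (τ : ℂ) + (b : ℂ)) / ((n / (a : ℕ) : ℕ) : ℂ))))]
  refine Finset.sum_congr rfl fun b _ => ?_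
  rw [slash_dl k f (dl n ⟨a, b⟩) τ ((((a : ℕ) : ℂ) * (τ : ℂ) + ((b : ℕ) : ℂ)) / ((n / (a : ℕ) : ℕ) : ℂ))
    ((n / (a : ℕ) : ℕ) : ℂ) (by simp [dl]) (by
      show (((n / (a : ℕ) : ℕ) : ℤ) : ℂ) = _
      rw [Int.cast_natCast]) (by simp [dl])]
  ring

theorem pet_adj (k : ℤ) {n : ℕ} [NeZero n] (f g : ℍ → ℂ) (A : Mn n) (w : ℍ) :
    petersson k (f ∣[k] gl n A) g (gl n (adj n A) • w) =
      petersson k f (g ∣[k] gl n (adj n A)) w := by
  have h := petersson_slash k (f ∣[k] gl n A) g (gl n (adj n A)) w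
  rw [slash_scalar, sig_pos (by rw [det_gl]; exact npos n), det_gl] at h
  have h1 : petersson k ((n : ℂ) ^ (k - 2) • f) (g ∣[k] gl n (adj n A)) w =
      (n : ℂ) ^ (k - 2) * petersson k f (g ∣[k] gl n (adj n A)) w := by
    simp only [petersson, Pi.smul_apply, smul_eq_mul, map_mul, map_zpow₀, Complex.conj_natCast]
    ring
  have h2 : ((|(n : ℝ)| : ℝ) : ℂ) = n := by
    rw [abs_of_pos (npos n)]
    norm_num
  rw [h1, h2] at h
  exact (mul_left_cancel₀ (zpow_ne_zero _ (nne n)) h).symm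

end Pool.Agent.Lib.MP_06b9d2_nt.ME
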