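import Pool.Agent.Lib.MP_06b9d2_nt.ME.GrA

/-!
Module ME-Sym (MP_06b9d2_nt, Maeda, all Hecke operators). Symmetries.

`mp p φ (single g c) = single (φ g) c` (`AddMonoidAlgebra.mapDomain_single`, `mapDomainAlgHom`). `E`: `ng` sends `Pi.single i x` to `Pi.single i (-x)`, `fp i` sends `Pi.single i x` to `Pi.single i (-x)` and fixes `Pi.single l x` for `l ≠ i`. `Ux` is invariant: reindex `r ↦ j - r` (`Finset.sum_range_reflect` or `Finset.sum_nbij'`). `UU`, `av`: `map_prod`; for `av` each factor is symmetric (exchange the two summands). `XX_ng`: `mp p (ng ι) (XX p o m) = ∏_i (if i = o then E p o (-(m o + 1)) else Ux p i (m i))`; so `XX - mp (ng) XX = (E o (m o + 1) - E o (-(m o + 1))) * ∏_{i ≠ o} Ux i (m i) = (E o 1 - E o (-1)) * UU p m` (`EU`; `Finset.prod_ite_eq`-like splitting: `Finset.mul_prod_erase` / `Fintype.prod_eq_mul_prod_compl`). `lin_ng`: `lin F (mp p (ng ι) X) = lin (fun v => F (-v)) X` (check on `single`, linearity: `AddMonoidAlgebra.induction_linear`), so for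 odd `F` it is `- lin F X`.
-/

namespace Pool.Agent.Lib.MP_06b9d2_nt.ME



variable {ι : Type} [Fintype ι] [DecidableEq ι] {p : ℕ}

theorem mp_single (φ : (ι → ℤ) →+ (ι → ℤ)) (g : ι → ℤ) (c : ZMod p) :
    mp p φ (AddMonoidAlgebra.single g c) = AddMonoidAlgebra.single (φ g) c := by
  show AddMonoidAlgebra.mapDomain φ (AddMonoidAlgebra.single g c) = _
  rw [AddMonoidAlgebra.mapDomain_single]

theorem E_ng (i : ι) (x : ℤ) : mp p (ng ι) (E p i x) = E p i (-x) := by
  unfold E
  rw [mp_single]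
  congr 1
  show -(Pi.single i x : ι → ℤ) = _
  rw [Pi.single_neg]

theorem E_fp (i l : ι) (h : i ≠ l) (x : ℤ) : mp p (fp i) (E p l x) = E p l x := by
  unfold E
  rw [mp_single]
  congr 1
  funext k
  show (if k = i then -(Pi.single l x : ι → ℤ) k else (Pi.single l x : ι → ℤ) k) = _
  by_cases hk : k = i
  · subst hk
    rw [if_pos rfl, Pi.single_eq_of_ne h, neg_zero]
  · rw [if_neg hk]

theorem E_fp_self (i : ι) (x : ℤ) : mp p (fp i) (E p i x) = E p i (-x) := by
  unfold E
  rw [mp_single]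
  congr 1
  funext k
  show (if k = i then -(Pi.single i x : ι → ℤ) k else (Pi.single i x : ι → ℤ) k) = _
  by_cases hk : k = i
  · subst hk
    rw [if_pos rfl, Pi.single_eq_same, Pi.single_eq_same]
  · rw [if_neg hk, Pi.single_eq_of_ne hk, Pi.single_eq_of_ne hk]

private theorem Ux_rev (i : ι) (j : ℕ) :
    ∑ r ∈ Finset.range (j + 1), E p i (-((j : ℤ) - 2 * r)) = Ux p i j := by
  unfold Ux
  rw [← Finset.sum_range_reflect (fun r : ℕ => E p i ((j : ℤ) - 2 * r))]
  refine Finset.sum_congr rfl fun r hr => ?_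
  rw [Finset.mem_range] at hr
  have h1 : ((j + 1 - 1 - r : ℕ) : ℤ) = (j : ℤ) - r := by
    omega
  rw [h1]
  congr 1
  ring

private theorem Ux_ng (i : ι) (j : ℕ) : mp p (ng ι) (Ux p i j) = Ux p i j := by
  conv_lhs => unfold Ux
  rw [map_sum, ← Ux_rev i j]
  exact Finset.sum_congr rfl fun r _ => E_ng i _

private theorem Ux_fp (i l : ι) (j : ℕ) : mp p (fp i) (Ux p l j) = Ux p l j := by
  by_cases h : i = l
  · subst h
    conv_lhs => unfold Ux
    rw [map_sum, ← Ux_rev i j]
    exact Finset.sum_congr rfl fun r _ => E_fp_self i _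
  · unfold Ux
    rw [map_sum]
    exact Finset.sum_congr rfl fun r _ => E_fp i l h _

theorem UU_ng (a : ι → ℕ) : mp p (ng ι) (UU p a) = UU p a := by
  unfold UU
  rw [map_prod]
  exact Finset.prod_congr rfl fun i _ => Ux_ng i _

theorem UU_fp (a : ι → ℕ) (i : ι) : mp p (fp i) (UU p a) = UU p a := by
  unfold UU
  rw [map_prod]
  exact Finset.prod_congr rfl fun l _ => Ux_fp i l _

theorem av_fp (q h : ℕ) (i : ι) : mp p (fp i) (av ι p q h) = av ι p q h := by
  unfold av
  rw [map_prod]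
  refine Finset.prod_congr rfl fun l _ => ?_
  rw [map_sum]
  refine Finset.sum_congr rfl fun w _ => ?_
  rw [map_add]
  by_cases hl : i = l
  · subst hl
    rw [E_fp_self, E_fp_self, neg_neg, add_comm]
  · rw [E_fp i l hl, E_fp i l hl]

theorem XX_sub (o : ι) (m : ι → ℕ) :
    XX p o m - mp p (ng ι) (XX p o m) = (E p o 1 - E p o (-1)) * UU p m := by
  have h1 : XX p o m = E p o ((m o : ℤ) + 1) * ∏ i ∈ Finset.univ.erase o, Ux p i (m i) := by
    unfold XX
    rw [← Finset.mul_prod_erase Finset.univ _ (Finset.mem_univ o), if_pos rfl]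
    congr 1
    refine Finset.prod_congr rfl fun i hi => ?_
    rw [if_neg (Finset.ne_of_mem_erase hi)]
  have h2 : mp p (ng ι) (XX p o m) =
      E p o (-((m o : ℤ) + 1)) * ∏ i ∈ Finset.univ.erase o, Ux p i (m i) := by
    rw [h1, map_mul, map_prod, E_ng]
    congr 1
    exact Finset.prod_congr rfl fun i _ => Ux_ng i _
  have h3 : UU p m = Ux p o (m o) * ∏ i ∈ Finset.univ.erase o, Ux p i (m i) := by
    unfold UU
    rw [← Finset.mul_prod_erase Finset.univ _ (Finset.mem_univ o)]
  rw [h2, h1, h3, ← sub_mul, ← mul_assoc, EU]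

theorem lin_ng (F : (ι → ℤ) → ZMod p) (hF : ∀ v, F (-v) = -F v) (X : Rg ι p) :
    lin F (mp p (ng ι) X) = -lin F X := by
  induction X using AddMonoidAlgebra.induction_linear with
  | zero => rw [map_zero, map_zero, neg_zero]
  | add f g hf hg => rw [map_add, map_add, map_add, hf, hg, neg_add]
  | single g c =>
    rw [mp_single, lin_single, lin_single]
    show c * F (-g) = _
    rw [hF, mul_neg]

end Pool.Agent.Lib.MP_06b9d2_nt.ME
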