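import Pool.Agent.Lib.L1.Cong

/-!
Module ME-Theta (MP_06b9d2_nt, Maeda, all Hecke operators). The operator `θ = q d/dq` on `p`-integral forms.

`Dq` is `q d/dq`. `theta`: `g' = C (1 / 12) * ((12 * Dq g - w * e2 ℚ * g) * EA p + w * (g * EB p))`: the first summand is in `MZ p (w + 2 + (p - 1))` (`MZ.serre`, `EA_mem`), the second in `MZ p (w + (p + 1))` (`EB_mem`); `1 / 12` is `p`-integral (`p ≥ 5`). Congruence: `EA p ≡ 1` (`EA_cg`), `EB p ≡ e2` (`EB_cg`), so `12 g' ≡ 12 Dq g - w e2 g + w e2 g = 12 Dq g` (`Cg.mul`, `Cg.add`, `PI`). The constant coefficient: `Dq g` and `g` have constant coefficient `0`.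
`theta_pow`: induction on `e`: `coeff m (Dq g) = m * coeff m g` (`coeff_Dq`) and `val p (coeff m g' - m ^ e * coeff m g) 1` is multiplied by `m` (`Cg.Dq`).
-/

namespace Pool.Agent.Lib.MP_06b9d2_nt.ME

open PowerSeries
open MP_a3a416_nt.SJ (val)
open Pool.Agent.L1

theorem theta {p : ℕ} [Fact p.Prime] (h5 : 5 ≤ p) {w : ℕ} {g : ℚ⟦X⟧} (hg : MZ p w g)
    (h0 : coeff 0 g = 0) :
    ∃ g' : ℚ⟦X⟧, MZ p (w + (p + 1)) g' ∧ Cg p g' (Dq g) ∧ coeff 0 g' = 0 := by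
  have hp : p.Prime := Fact.out
  have h12 : val p (1 / 12 : ℚ) 0 := by
    have h6 : ¬ p ∣ 6 := by
      intro h
      have h7 : p ∣ 2 * 3 := by simpa using h
      rcases hp.dvd_mul.1 h7 with h8 | h8
      · have := Nat.le_of_dvd (by norm_num) h8
        omega
      · have := Nat.le_of_dvd (by norm_num) h8
        omega
    have := val_two_inv (p := p) (by omega) h6
    norm_num at this
    norm_num
    exact this
  have hw : (w : ℚ⟦X⟧) = C (w : ℚ) := (map_natCast C w).symm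
  have hvw : val p (w : ℚ) 0 := MP_a3a416_nt.SJ.val.nat w
  have hS : MZ p (w + 2) (12 * Dq g - (w : ℚ⟦X⟧) * e2 ℚ * g) := hg.serre
  have hm1 : MZ p (w + (p + 1)) ((12 * Dq g - (w : ℚ⟦X⟧) * e2 ℚ * g) * EA p) := by
    have h := hS.mul (EA_mem h5)
    have e : w + 2 + (p - 1) = w + (p + 1) := by omega
    rwa [e] at h
  have hm2 : MZ p (w + (p + 1)) ((w : ℚ⟦X⟧) * (g * EB p)) := by
    rw [hw]
    exact (hg.mul (EB_mem h5)).C_mul hvw
  refine ⟨C (1 / 12 : ℚ) * ((12 * Dq g - (w : ℚ⟦X⟧) * e2 ℚ * g) * EA p + (w : ℚ⟦X⟧) * (g * EB p)),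
    (hm1.add hm2).C_mul h12, ?_, ?_⟩
  · have c1 : Cg p ((12 * Dq g - (w : ℚ⟦X⟧) * e2 ℚ * g) * EA p)
        ((12 * Dq g - (w : ℚ⟦X⟧) * e2 ℚ * g) * 1) := (EA_cg (by omega)).mul_left hS.pi
    have c2 : Cg p ((w : ℚ⟦X⟧) * (g * EB p)) ((w : ℚ⟦X⟧) * (g * e2 ℚ)) :=
      ((EB_cg h5).mul_left hg.pi).mul_left (PI.natCast w)
    have c3 := (c1.add c2).mul_left (PI.C h12)
    have e : C (1 / 12 : ℚ) * ((12 * Dq g - (w : ℚ⟦X⟧) * e2 ℚ * g) * 1 +
        (w : ℚ⟦X⟧) * (g * e2 ℚ)) = Dq g := by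
      have e1 : (12 * Dq g - (w : ℚ⟦X⟧) * e2 ℚ * g) * 1 + (w : ℚ⟦X⟧) * (g * e2 ℚ) =
          C (12 : ℚ) * Dq g := by
        rw [map_ofNat]
        ring
      rw [e1, ← mul_assoc, ← map_mul]
      norm_num
    rwa [e] at c3
  · have hd : coeff 0 (Dq g) = 0 := by rw [coeff_Dq]; simp
    rw [coeff_zero_eq_constantCoeff] at *
    simp [h0, hd]

theorem theta_pow {p : ℕ} [Fact p.Prime] (h5 : 5 ≤ p) {w : ℕ} {g : ℚ⟦X⟧} (hg : MZ p w g)
    (h0 : coeff 0 g = 0) (e : ℕ) :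
    ∃ g' : ℚ⟦X⟧, MZ p (w + e * (p + 1)) g' ∧
      (∀ m, val p (coeff m g' - (m : ℚ) ^ e * coeff m g) 1) ∧ coeff 0 g' = 0 := by
  induction e with
  | zero =>
    refine ⟨g, by simpa using hg, fun m => ?_, h0⟩
    have : coeff m g - (m : ℚ) ^ 0 * coeff m g = 0 := by ring
    rw [this]
    exact MP_a3a416_nt.SJ.val.zero 1
  | succ e ih =>
    obtain ⟨g1, hg1, hc, h01⟩ := ih
    obtain ⟨g2, hg2, hc2, h02⟩ := theta h5 hg1 h01
    refine ⟨g2, ?_, fun m => ?_, h02⟩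
    · have e1 : w + e * (p + 1) + (p + 1) = w + (e + 1) * (p + 1) := by ring
      rwa [e1] at hg2
    · have h1 := hc2 m
      rw [coeff_Dq] at h1
      have h2 := (MP_a3a416_nt.SJ.val.nat (p := p) m).mul (hc m)
      rw [zero_add] at h2
      have h3 := h1.add h2
      convert h3 using 1
      ring

end Pool.Agent.Lib.MP_06b9d2_nt.ME
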