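import Pool.Agent.Lib.MP_06b9d2_nt.ME.EvA

/-!
Module ME-Thue (MP_06b9d2_nt, Maeda, all Hecke operators). Small solutions of `a ≡ c t` modulo `l ^ j`.

`R = ℤ_[l]`, `π = PadicInt.toZModPow j : ℤ_[l] →+* ZMod (l ^ j)`. Let `r = Nat.sqrt (l ^ j)`, so `r ^ 2 ≤ l ^ j < (r + 1) ^ 2`. The map `(a, c) ↦ π (a - c t)` from `{0, …, r} ^ 2` (more than `l ^ j` elements) to `ZMod (l ^ j)` (`l ^ j` elements, `ZMod.card`) is not injective (`Finset.exists_ne_map_eq_of_card_lt_of_maps_to`); the difference `A` of two different pairs with the same image has `|A.1|, |A.2| ≤ r`, `A ≠ 0` and `π (A.1 - A.2 t) = 0`, i.e. `l ^ j ∣ A.1 - A.2 t` (`PadicInt.ker_toZModPow`, `Ideal.mem_span_singleton`). `nm p A ≤ r ^ 2 + p r ^ 2 ≤ (p + 1) l ^ j`.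
`nm_pos`: `A ≠ 0`, `p ≥ 1`. `thue_nm`: `l ^ j ∣ nm p A` in `ℤ_[l]` (`prod_eq`), hence in `ℤ` (`PadicInt.pow_p_dvd_int_iff` or `PadicInt.norm_int_le_pow_iff_dvd`).
-/

namespace Pool.Agent.Lib.MP_06b9d2_nt.ME



theorem nm_pos {p : ℕ} (hp : 0 < p) (A : ℤ × ℤ) (hA : A ≠ 0) : 0 < nm p A := by
  unfold nm
  have hp' : (0 : ℤ) < p := by exact_mod_cast hp
  by_cases h1 : A.1 = 0
  · have h2 : A.2 ≠ 0 := fun h2 => hA (Prod.ext h1 h2)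
    have h3 : 0 < A.2 ^ 2 := by positivity
    nlinarith [sq_nonneg A.1]
  · have h3 : 0 < A.1 ^ 2 := by positivity
    nlinarith [sq_nonneg A.2, mul_nonneg hp'.le (sq_nonneg A.2)]

theorem thue {p n : ℕ} (h8 : 8 * n ∣ p + 1) (l : Pr n) (j : ℕ) :
    ∃ A : ℤ × ℤ, A ≠ 0 ∧
      (((l : ℕ) : ℤ_[(l : ℕ)]) ^ j ∣ (A.1 : ℤ_[(l : ℕ)]) - (A.2 : ℤ_[(l : ℕ)]) * tt p n l) ∧
      nm p A ≤ ((p : ℤ) + 1) * ((l : ℕ) : ℤ) ^ j ∧ ((l : ℕ) : ℤ) ^ j ∣ nm p A := by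
  classical
  set q : ℕ := (l : ℕ) with hq
  have hqp : q.Prime := Nat.prime_of_mem_primeFactors l.2
  set r : ℕ := Nat.sqrt (q ^ j) with hr
  have hr1 : r * r ≤ q ^ j := Nat.sqrt_le _
  have hr2 : q ^ j < (r + 1) * (r + 1) := Nat.lt_succ_sqrt _
  haveI : NeZero (q ^ j) := ⟨(pow_pos hqp.pos j).ne'⟩
  let φ : ℕ × ℕ → ZMod (q ^ j) := fun A =>
    PadicInt.toZModPow j ((A.1 : ℤ_[(l : ℕ)]) - (A.2 : ℤ_[(l : ℕ)]) * tt p n l)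
  have hcard : (Finset.univ : Finset (ZMod (q ^ j))).card <
      (Finset.range (r + 1) ×ˢ Finset.range (r + 1)).card := by
    rw [Finset.card_univ, ZMod.card, Finset.card_product, Finset.card_range]
    exact hr2
  obtain ⟨X, hX, Y, hY, hne, hXY⟩ := Finset.exists_ne_map_eq_of_card_lt_of_maps_to hcard
    (f := φ) (fun _ _ => Finset.mem_coe.2 (Finset.mem_univ _))
  rw [Finset.mem_product, Finset.mem_range, Finset.mem_range] at hX hY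
  set A : ℤ × ℤ := ((X.1 : ℤ) - Y.1, (X.2 : ℤ) - Y.2) with hA
  have hA0 : A ≠ 0 := by
    intro h
    apply hne
    have h1 : (X.1 : ℤ) - Y.1 = 0 := congrArg Prod.fst h
    have h2 : (X.2 : ℤ) - Y.2 = 0 := congrArg Prod.snd h
    exact Prod.ext (by omega) (by omega)
  have hdvd : (((l : ℕ) : ℤ_[(l : ℕ)]) ^ j ∣
      (A.1 : ℤ_[(l : ℕ)]) - (A.2 : ℤ_[(l : ℕ)]) * tt p n l) := by
    rw [← Ideal.mem_span_singleton, ← PadicInt.ker_toZModPow, RingHom.mem_ker]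
    have e : (A.1 : ℤ_[(l : ℕ)]) - (A.2 : ℤ_[(l : ℕ)]) * tt p n l =
        ((X.1 : ℤ_[(l : ℕ)]) - (X.2 : ℤ_[(l : ℕ)]) * tt p n l) -
          ((Y.1 : ℤ_[(l : ℕ)]) - (Y.2 : ℤ_[(l : ℕ)]) * tt p n l) := by
      rw [hA]
      push_cast
      ring
    rw [e, map_sub, sub_eq_zero]
    exact hXY
  have hb : ∀ x y : ℕ, x < r + 1 → y < r + 1 → ((x : ℤ) - y) ^ 2 ≤ (r : ℤ) * r := by
    intro x y hx hy
    have h1 : (x : ℤ) - y ≤ r := by omega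
    have h2 : -(r : ℤ) ≤ (x : ℤ) - y := by omega
    nlinarith
  have hr1' : (r : ℤ) * r ≤ (q : ℤ) ^ j := by exact_mod_cast hr1
  refine ⟨A, hA0, hdvd, ?_, ?_⟩
  · unfold nm
    have h1 := hb X.1 Y.1 hX.1 hY.1
    have h2 := hb X.2 Y.2 hX.2 hY.2
    have hp0 : (0 : ℤ) ≤ p := Int.natCast_nonneg p
    have h3 : A.1 ^ 2 ≤ (q : ℤ) ^ j := h1.trans hr1'
    have h4 : A.2 ^ 2 ≤ (q : ℤ) ^ j := h2.trans hr1'
    nlinarith [mul_le_mul_of_nonneg_left h4 hp0]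
  · have h1 : (((l : ℕ) : ℤ_[(l : ℕ)]) ^ j ∣ ((nm p A : ℤ) : ℤ_[(l : ℕ)])) := by
      rw [← prod_eq h8 A l]
      exact hdvd.mul_right _
    exact PadicInt.pow_p_dvd_int_iff j (nm p A) |>.1 h1

end Pool.Agent.Lib.MP_06b9d2_nt.ME
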